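import Pool.Agent.Lib.MP_640417_ag.Ctl.Main
import Pool.Agent.Lib.MP_640417_ag.Dfr.Stmt
import Pool.Agent.Lib.MP_640417_ag.Zo.Dense
import Pool.Agent.Lib.MP_640417_ag.Zo.Reg

/-!
# MP_640417_ag, Mt (Mumford-Tate by codimension two and by one Frobenius element): definitions

Lie algebras of matrices are submodules `L` of `Matrix I I K` with `Lie L`.
-/

set_option autoImplicit false

namespace Pool.Agent.Lib.MP_640417_ag.Mt

open Matrix Module TensorProduct MeasureTheory Pool.Agent.Lib.MP_640417_ag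
  Pool.Agent.Lib.MP_640417_ag.Frob Pool.Agent.Lib.MP_640417_ag.Glob
  Pool.Agent.Lib.MP_640417_ag.Four Pool.Agent.Lib.MP_640417_ag.Ctl
  Pool.Agent.Lib.MP_640417_ag.Dfr Pool.Agent.Lib.MP_640417_ag.Ty

/-! ### Matrices over a field -/

section alg

variable {K : Type} [Field K] {I : Type} [Fintype I] [DecidableEq I]

/-- `X ↦ S X S'` -/
def cj (S S' : Matrix I I K) : Module.End K (Matrix I I K) where
  toFun X := S * X * S'
  map_add' X Y := by rw [Matrix.mul_add, Matrix.add_mul]
  map_smul' c X := by rw [Matrix.mul_smul, Matrix.smul_mul, RingHom.id_apply]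

/-- `X ↦ A X - X A` -/
def ad (A : Matrix I I K) : Module.End K (Matrix I I K) where
  toFun X := A * X - X * A
  map_add' X Y := by rw [Matrix.mul_add, Matrix.add_mul]; abel
  map_smul' c X := by rw [Matrix.mul_smul, Matrix.smul_mul, RingHom.id_apply, smul_sub]

omit [DecidableEq I] in
@[simp] theorem cj_apply (S S' X : Matrix I I K) : cj S S' X = S * X * S' := rfl

omit [DecidableEq I] in
@[simp] theorem ad_apply (A X : Matrix I I K) : ad A X = A * X - X * A := rfl

/-- closed under commutators -/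
def Lie (L : Submodule K (Matrix I I K)) : Prop := ∀ X ∈ L, ∀ Y ∈ L, X * Y - Y * X ∈ L

/-- The trace form is nondegenerate on `L`. -/
def Nd (L : Submodule K (Matrix I I K)) : Prop :=
  ∀ X ∈ L, (∀ Y ∈ L, (X * Y).trace = 0) → X = 0

/-- The elements of `L` commute. -/
def Cm (L : Submodule K (Matrix I I K)) : Prop := ∀ X ∈ L, ∀ Y ∈ L, X * Y = Y * X

/-- the generalized `z`-eigenspace of `T` in `L` -/
def ev (T : Module.End K (Matrix I I K)) (L : Submodule K (Matrix I I K)) (z : K) :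
    Submodule K (Matrix I I K) := L ⊓ T.maxGenEigenspace z

/-- Conjugation by `S` on `L` has a commutative generalized `1`-eigenspace, the other generalized
eigenspaces have dimension at most one. -/
def GoodL (L : Submodule K (Matrix I I K)) (S S' : Matrix I I K) : Prop :=
  Cm (ev (cj S S') L 1) ∧ ∀ z : K, z ≠ 1 → finrank K (ev (cj S S') L z) ≤ 1

/-- the span over `K` -/
def gK {F : Type} [Field F] (K : Type) [Field K] [Algebra F K] (g : Submodule F (Matrix I I F)) :
    Submodule K (Matrix I I K) :=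
  Submodule.span K {Y | ∃ X ∈ g, Y = X.map (algebraMap F K)}

/-- The hypotheses of the main algebraic theorem: `L ⊇ H` Lie algebras, `A ∈ H` a logarithm of `S`. -/
structure Core (L H : Submodule K (Matrix I I K)) (S S' A : Matrix I I K) : Prop where
  le : H ≤ L
  Ll : Lie L
  Hl : Lie H
  Ln : Nd L
  Hn : Nd H
  s1 : S * S' = 1
  s2 : S' * S = 1
  SL : ∀ X ∈ L, S * X * S' ∈ L
  SH : ∀ X ∈ H, S * X * S' ∈ H
  AH : A ∈ H
  AS : S * A = A * S
  inj : ∀ X ∈ L, A * X = X * A → S * X = X * S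
  good : GoodL L S S'
  com : ∀ P : Matrix I I K, (∀ Y ∈ H, P * Y = Y * P) → ∀ X ∈ L, P * X = X * P

/-- Root data: `L = t + sum of the lines of X z, z ∈ Φ`, `[T, X z] = α z T • X z` for `T ∈ t`. -/
structure Roots (L H t : Submodule K (Matrix I I K)) (Φ : Set K) (X : K → Matrix I I K)
    (α : K → Matrix I I K → K) (A : Matrix I I K) : Prop where
  tL : t ≤ L
  tc : Cm t
  At : A ∈ t
  AH : A ∈ H
  HL : H ≤ L
  Hl : Lie H
  one : (1 : K) ∉ Φ
  zero : (0 : K) ∉ Φ
  XL : ∀ z ∈ Φ, X z ∈ L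
  Xne : ∀ z ∈ Φ, X z ≠ 0
  gen : ∀ Y ∈ L, ∃ T ∈ t, Y - T ∈ Submodule.span K (X '' Φ)
  wt : ∀ z ∈ Φ, ∀ T ∈ t, T * X z - X z * T = α z T • X z
  αA : ∀ z ∈ Φ, α z A ≠ 0
  inv : ∀ z ∈ Φ, z⁻¹ ∈ Φ
  tr : ∀ z ∈ Φ, (X z * X z⁻¹).trace ≠ 0
  br : ∀ z ∈ Φ, X z * X z⁻¹ - X z⁻¹ * X z ∈ t
  br1 : ∀ z ∈ Φ, ∀ w ∈ Φ, z * w ∈ Φ → ∃ c : K, X z * X w - X w * X z = c • X (z * w)
  br2 : ∀ z ∈ Φ, ∀ w ∈ Φ, z * w ≠ 1 → z * w ∉ Φ → X z * X w = X w * X z
  Hgen : ∀ Y ∈ H, ∃ T ∈ t, T ∈ H ∧ Y - T ∈ Submodule.span K (X '' {z | z ∈ Φ ∧ X z ∈ H})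
  Hinv : ∀ z ∈ Φ, X z ∈ H → X z⁻¹ ∈ H

/-- the commutator `[X z, X z⁻¹]` -/
def bz (X : K → Matrix I I K) (z : K) : Matrix I I K := X z * X z⁻¹ - X z⁻¹ * X z

/-- the coroot: `α z (hz) = 2` -/
noncomputable def hz (X : K → Matrix I I K) (α : K → Matrix I I K → K) (z : K) : Matrix I I K :=
  (2 / α z (bz X z)) • bz X z

end alg

/-- A polynomial function of `Z` which is not zero if and only if the generalized eigenspace of `Z` for `0`
has dimension `r` and the others have dimension one (if the former has dimension at least `r`). -/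
noncomputable def fr {R κ : Type} [CommRing R] [Fintype κ] [DecidableEq κ] (r : ℕ)
    (Z : Matrix κ κ R) : R :=
  (Z * Polynomial.aeval Z (Polynomial.derivative Z.charpoly)).charpoly.coeff r

/-- the matrix of an endomorphism of `Matrix I I F` -/
noncomputable def mx {F : Type} [Field F] {I : Type} [Fintype I] [DecidableEq I]
    (T : Module.End F (Matrix I I F)) : Matrix (I × I) (I × I) F :=
  Matrix.of fun x y => T (Matrix.single y.1 y.2 1) x.1 x.2

/-! ### Representations in coordinates -/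

section coord

variable {F : Type} [NontriviallyNormedField F] {I : Type} [Fintype I] [DecidableEq I]
  {Γ : Type} [Group Γ] [TopologicalSpace Γ]

/-- `g` has the properties of the Lie algebra of the Hodge group over `F`, or of the Lie algebra of the maps
which kill known Tate classes. -/
structure HL (ρ : MRep Γ F I) (l : ℕ) (g : Submodule F (Matrix I I F)) : Prop where
  lie : Lie g
  skew : ∀ X ∈ g, X ∈ spJ ρ.J
  ad : ∀ γ, ∀ X ∈ g, ρ.M γ * X * ρ.M γ⁻¹ ∈ g
  hh : ρ.Hh l ≤ g
  com : ∀ X ∈ g, ∀ b, ρ.InC b → X * b = b * X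

/-- `GoodL` over an algebraic closure for all powers of `γ` -/
def GoodM (ρ : MRep Γ F I) (g : Submodule F (Matrix I I F)) (γ : Γ) : Prop :=
  ∀ N : ℕ, 0 < N → GoodL (gK (AlgebraicClosure F) g)
    ((ρ.M (γ ^ N)).map (algebraMap F (AlgebraicClosure F)))
    ((ρ.M (γ ^ N)⁻¹).map (algebraMap F (AlgebraicClosure F)))

end coord

/-! ### Representations -/

section rep

variable {Γ : Type} [Group Γ] [TopologicalSpace Γ] {F : Type} [Field F]
  [TopologicalSpace F] {V : Type} [AddCommGroup V] [Module F V]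

/-- `Z n i` is a space of Tate classes of codimension `i` on the `n`-th power (the known ones), stable under `Γ`, and
equal to the space of all Tate classes for `i = 1`. -/
structure Known (ρ : H1Rep Γ F V) (Z : (n i : ℕ) → Submodule F (ExteriorAlgebra F (Fin n → V))) :
    Prop where
  tate : ∀ n i x, x ∈ Z n i → TateClass (fun γ => (ρ.T γ).compLeft (Fin n)) ρ.χ i x
  stable : ∀ γ n i x, x ∈ Z n i →
    ExteriorAlgebra.map ((ρ.T γ).compLeft (Fin n)) x ∈ Z n i
  one : ∀ n x, TateClass (fun γ => (ρ.T γ).compLeft (Fin n)) ρ.χ 1 x → x ∈ Z n 1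

/-- The Lie algebra of the skew maps which kill all known classes. -/
def LieOf (ρ : H1Rep Γ F V) (Z : (n i : ℕ) → Submodule F (ExteriorAlgebra F (Fin n → V))) :
    Set (Module.End F V) :=
  {X | (∀ x y, ρ.form (X x) y + ρ.form x (X y) = 0) ∧ ∀ n i, ∀ x ∈ Z n i, Kills n X x}

/-- All Tate classes of codimension `i` on the `n`-th power which are killed by the center of `g` are killed
by `g`. -/
def Controls (ρ : H1Rep Γ F V) (g : Set (Module.End F V)) (n i : ℕ) : Prop :=
  ∀ x, TateClass (fun γ => (ρ.T γ).compLeft (Fin n)) ρ.χ i x →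
    (∀ z ∈ g, (∀ X ∈ g, z * X = X * z) → Kills n z x) → ∀ X ∈ g, Kills n X x

/-- conjugation by `γ` over an algebraic closure -/
noncomputable def conjK (ρ : H1Rep Γ F V) (γ : Γ) :
    Module.End (AlgebraicClosure F)
      (Module.End (AlgebraicClosure F) (AlgebraicClosure F ⊗[F] V)) :=
  LinearMap.mulLeft (AlgebraicClosure F) ((ρ.T γ).baseChange (AlgebraicClosure F)) ∘ₗ
    LinearMap.mulRight (AlgebraicClosure F) ((ρ.T γ⁻¹).baseChange (AlgebraicClosure F))

/-- the part of the span of `g` over an algebraic closure in the generalized `z`-eigenspace of the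
conjugation by `γ` -/
noncomputable def Part (ρ : H1Rep Γ F V) (g : Set (Module.End F V)) (γ : Γ)
    (z : AlgebraicClosure F) :
    Submodule (AlgebraicClosure F)
      (Module.End (AlgebraicClosure F) (AlgebraicClosure F ⊗[F] V)) :=
  Module.End.maxGenEigenspace (R := AlgebraicClosure F)
      (M := Module.End (AlgebraicClosure F) (AlgebraicClosure F ⊗[F] V)) (conjK ρ γ) z ⊓
    Submodule.span (AlgebraicClosure F) ((fun X => X.baseChange (AlgebraicClosure F)) '' g)

/-- `γ` is good for `g`: for all `N > 0` conjugation by `γ ^ N` on `g` (over an algebraic closure) has a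
commutative generalized eigenspace for the eigenvalue `1`, and the other generalized eigenspaces have
dimension at most one. -/
def GoodFor (ρ : H1Rep Γ F V) (g : Set (Module.End F V)) (γ : Γ) : Prop :=
  ∀ N : ℕ, 0 < N →
    (∀ X ∈ Part ρ g (γ ^ N) 1, ∀ Y ∈ Part ρ g (γ ^ N) 1, X * Y = Y * X) ∧
    ∀ z, z ≠ 1 → finrank (AlgebraicClosure F) (Part ρ g (γ ^ N) z) ≤ 1

end rep

end Pool.Agent.Lib.MP_640417_ag.Mt
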