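import Pool.Agent.Lib.MP_640417_ag.Mt.AsmN
import Pool.Agent.Lib.MP_640417_ag.Glob.Coord
import Pool.Agent.Lib.MP_640417_ag.Ctl.CoordD

/-!
# MP_640417_ag, Mt, assembly: the equivalences
-/

set_option autoImplicit false

namespace Pool.Agent.Lib.MP_640417_ag.Mt

open Matrix Module TensorProduct MeasureTheory Pool.Agent.Lib.MP_640417_ag
  Pool.Agent.Lib.MP_640417_ag.Frob Pool.Agent.Lib.MP_640417_ag.Glob
  Pool.Agent.Lib.MP_640417_ag.Four Pool.Agent.Lib.MP_640417_ag.Ctl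
  Pool.Agent.Lib.MP_640417_ag.Dfr Pool.Agent.Lib.MP_640417_ag.Ty Pool.Agent.Lib.MP_640417_ag.Zo
  Pool.Agent.Lib.MP_640417_ag.Gen4

theorem ev_mono {K : Type} [Field K] {I : Type} [Fintype I] [DecidableEq I]
    (T : Module.End K (Matrix I I K)) {L L' : Submodule K (Matrix I I K)} (h : L ≤ L') (z : K) :
    ev T L z ≤ ev T L' z := inf_le_inf h le_rfl

theorem GoodL.mono {K : Type} [Field K] {I : Type} [Fintype I] [DecidableEq I]
    {L L' : Submodule K (Matrix I I K)} (h : L ≤ L') {S S' : Matrix I I K}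
    (hg : GoodL L' S S') : GoodL L S S' :=
  ⟨fun X hX Y hY => hg.1 X (ev_mono _ h 1 hX) Y (ev_mono _ h 1 hY),
    fun z hz => (Submodule.finrank_mono (ev_mono _ h z)).trans (hg.2 z hz)⟩

theorem nearOne_mono {Γ : Type} [Group Γ] [TopologicalSpace Γ] [MeasurableSpace Γ]
    {ν : Measure Γ} {P Q : Γ → Prop} (h : ∀ γ, P γ → Q γ) (hP : NearOne ν P) : NearOne ν Q := by
  obtain ⟨U, O, h1, h2, h3, h4⟩ := hP
  exact ⟨U, O, h1, h2, h3, fun γ hγ => h γ (h4 γ hγ)⟩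

theorem nearOne_dense' {Γ : Type} [Group Γ] [TopologicalSpace Γ] {P : Γ → Prop}
    [MeasurableSpace Γ] [BorelSpace Γ] {ν : Measure Γ} [ν.IsHaarMeasure] (h1 : NearOne ν P)
    {D : Set Γ} (hD : Dense D) : ∃ γ ∈ D, P γ := by
  obtain ⟨U, O, hO, hOU, hν, hP⟩ := h1
  have hne : O.Nonempty := by
    by_contra h1
    rw [Set.not_nonempty_iff_eq_empty] at h1
    rw [h1, Set.sdiff_empty] at hν
    exact (U.isOpen.measure_pos ν ⟨1, U.one_mem⟩).ne' hν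
  obtain ⟨γ, hγO, hγD⟩ := hD.inter_open_nonempty O hO hne
  exact ⟨γ, hγD, hP γ hγO⟩

variable (l : ℕ) [Fact l.Prime] {Γ : Type} [Group Γ] [TopologicalSpace Γ]
  [IsTopologicalGroup Γ] [CompactSpace Γ]

/-- **The equivalences**, from the statements of the modules. -/
theorem main_of (hBc : S_Bc) (hGz : S_Gz) (hCor : S_Cor) (hGn0 : S_Gn0) (hRsd : S_Rsd)
    (hFrA : S_FrA) (hFrB : S_FrB) (hExt : S_Ext) (hSpn : S_Spn) (hRnk : S_Rnk) (hGnr : S_Gnr)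
    (hGdp : S_Gdp l) (hRgl : S_Rgl l (Γ := Γ)) (hLmt : S_Lmt l (Γ := Γ))
    (hGnd : S_Gnd l (Γ := Γ)) (hIdl : S_Idl l (Γ := Γ)) (hKap : S_Kap l (Γ := Γ))
    (hHlz : S_Hlz l (Γ := Γ)) (hTg : S_Tg l (Γ := Γ)) (hKn : S_Kn l (Γ := Γ))
    [MeasurableSpace Γ] [BorelSpace Γ] (ν : Measure Γ) [ν.IsHaarMeasure]
    {V : Type} [AddCommGroup V] [Module ℚ_[l] V] [FiniteDimensional ℚ_[l] V]
    (ρ : H1Rep Γ ℚ_[l] V) (hss : Semisimple ρ) :
    ∃ κ, TateClass (fun γ => (ρ.T γ).compLeft (Fin 4)) ρ.χ 2 κ ∧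
      ∀ Z : (n i : ℕ) → Submodule ℚ_[l] (ExteriorAlgebra ℚ_[l] (Fin n → V)), Known ρ Z →
        List.TFAE [∀ n i, Controls ρ (LieOf ρ Z) n i, Controls ρ (LieOf ρ Z) 4 2,
          ∀ X ∈ LieOf ρ Z, Kills 4 X κ, NearOne ν (GoodFor ρ (LieOf ρ Z)),
          ∀ D : Set Γ, Dense D → ∃ γ ∈ D, GoodFor ρ (LieOf ρ Z) γ,
          ∃ γ, GoodFor ρ (LieOf ρ Z) γ] := by
  let e := Module.finBasis ℚ_[l] V
  obtain ⟨R, h1, h2, h3⟩ := exists_coord ρ e
  have hsemi : R.Semi := coord_semi ρ e R h1 hss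
  obtain ⟨x, hx1, hx2, hx3⟩ := hKap _ R hsemi
  obtain ⟨κ, hκ1, hκ2⟩ := coord_dv' ρ e R h1 h2 4 2 x hx1
  refine ⟨κ, hκ1, fun Z hZ => ?_⟩
  obtain ⟨g', hg1, hg2⟩ := hKn V _ ρ e R h1 h2 h3 Z hZ
  have hgt : ∀ Y ∈ g', Matrix.toLin e e Y ∈ LieOf ρ Z := by
    intro Y hY
    rw [hg1, LinearMap.toMatrix_toLin]
    exact hY
  -- the center of `g'`
  have hcen : ∀ z ∈ g', (∀ Y ∈ g', z * Y = Y * z) → z ∈ Zm R := by
    intro z hz hzY
    obtain ⟨W, hW⟩ := comm_open R l (norm_l l) (l_ne l)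
    exact ⟨⟨W, hW z fun Y hY => (hzY Y (hg2.hh hY)).symm⟩, hg2.com z hz, hg2.skew z hz⟩
  have hgood : ∀ γ, GoodFor ρ (LieOf ρ Z) γ ↔ GoodM R g' γ := hTg V _ ρ e R h1 _ g' hg1
  have key1 : g' ≤ Hp R l → ∀ n i, Controls ρ (LieOf ρ Z) n i := by
    intro hle n i y hy hz X hX
    obtain ⟨A, hA, z, hz', hXe⟩ := Submodule.mem_sup.1 (hle ((hg1 X).1 hX))
    have hzg : z ∈ g' := by
      have h4 := g'.sub_mem ((hg1 X).1 hX) (hg2.hh hA)
      rwa [← hXe, add_sub_cancel_left] at h4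
    have hzc : ∀ Y ∈ LieOf ρ Z, Matrix.toLin e e z * Y = Y * Matrix.toLin e e z := by
      intro Y hY
      apply (LinearMap.toMatrix e e).injective
      rw [LinearMap.toMatrix_mul, LinearMap.toMatrix_mul, LinearMap.toMatrix_toLin]
      exact (hg2.com _ ((hg1 Y).1 hY) z hz'.1).symm
    obtain ⟨y', hy1, hy2⟩ := coord_dv ρ e R h1 h2 n i y hy
    have h5 : Dv n (Matrix.toLin' A) y' = 0 :=
      hh_tate R l (norm_l l) (l_ne l) A hA n i y' hy1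
    have h6 : Dv n (Matrix.toLin' z) y' = 0 := by
      have h7 := hz _ (hgt z hzg) hzc
      rw [kills_iff] at h7
      have h8 := (hy2 (Matrix.toLin e e z)).2 h7
      rwa [LinearMap.toMatrix_toLin] at h8
    rw [kills_iff, ← hy2, ← hXe, map_add, Dv_add, LinearMap.add_apply, h5, h6, add_zero]
  tfae_have 1 → 2 := fun h => h 4 2
  tfae_have 2 → 3 := by
    intro h X hX
    refine h κ hκ1 (fun z hz hzX => ?_) X hX
    rw [kills_iff, hκ2]
    refine hx2 _ (hcen _ ((hg1 z).1 hz) fun Y hY => ?_)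
    have h4 := congrArg (LinearMap.toMatrix e e) (hzX _ (hgt Y hY))
    rwa [LinearMap.toMatrix_mul, LinearMap.toMatrix_mul, LinearMap.toMatrix_toLin] at h4
  tfae_have 3 → 1 := by
    intro h
    refine key1 fun X hX => ?_
    refine hIdl _ R hsemi X (hg2.skew X hX) (hg2.com X hX) fun Y hY => ?_
    refine hx3 X (hg2.skew X hX) ?_ Y hY
    have h4 := h _ (hgt X hX)
    rwa [kills_iff, hκ2, LinearMap.toMatrix_toLin] at h4
  tfae_have 6 → 1 := by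
    rintro ⟨γ, hγ⟩
    exact key1 (le_Hp l hBc hGz hCor hGnd hIdl hHlz R hsemi g' hg2 γ ((hgood γ).1 hγ))
  tfae_have 5 → 6 := by
    intro h
    obtain ⟨γ, -, hγ⟩ := h Set.univ dense_univ
    exact ⟨γ, hγ⟩
  tfae_have 4 → 5 := fun h D hD => nearOne_dense' h hD
  tfae_have 3 → 4 := by
    intro h
    have hle : g' ≤ Hp R l := by
      intro X hX
      refine hIdl _ R hsemi X (hg2.skew X hX) (hg2.com X hX) fun Y hY => ?_
      refine hx3 X (hg2.skew X hX) ?_ Y hY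
      have h4 := h _ (hgt X hX)
      rwa [kills_iff, hκ2, LinearMap.toMatrix_toLin] at h4
    refine nearOne_mono (fun γ hγ => (hgood γ).2 fun N hN => ?_)
      (near_Hp l hBc hGn0 hRsd hFrA hFrB hExt hSpn hRnk hGnr hGdp hRgl hLmt hGnd hHlz R hsemi ν)
    exact GoodL.mono (gK_mono _ hle) (hγ N hN)
  tfae_finish

end Pool.Agent.Lib.MP_640417_ag.Mt
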