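import Pool.Agent.Lib.MP_640417_ag.Mt.SpecC
import Pool.Agent.Lib.MP_640417_ag.Mt.AsmF

/-!
# MP_640417_ag, Mt, assembly of part C
-/

set_option autoImplicit false

namespace Pool.Agent.Lib.MP_640417_ag.Mt

open Matrix Module TensorProduct MeasureTheory Pool.Agent.Lib.MP_640417_ag
  Pool.Agent.Lib.MP_640417_ag.Frob Pool.Agent.Lib.MP_640417_ag.Glob
  Pool.Agent.Lib.MP_640417_ag.Four Pool.Agent.Lib.MP_640417_ag.Ctl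
  Pool.Agent.Lib.MP_640417_ag.Dfr Pool.Agent.Lib.MP_640417_ag.Ty Pool.Agent.Lib.MP_640417_ag.Zo
  Pool.Agent.Lib.MP_640417_ag.Gen4 Pool.Agent.Lib.MP_640417_ag.Lef Pool.Agent.Lib.MP_640417_ag.Wn
  Pool.Agent.Lib.MP_640417_ag.T3

/-- **The equivalences including the center**, from the statements of the modules. -/
theorem all_of (l : ℕ) [Fact l.Prime] {Γ : Type} [Group Γ] [TopologicalSpace Γ]
    [IsTopologicalGroup Γ] [CompactSpace Γ] (hKn : S_Kn l (Γ := Γ)) (hNwl : S_Nwl l (Γ := Γ))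
    (hCen : S_Cen l (Γ := Γ)) (hNr : S_Nr l (Γ := Γ)) (hZd : S_Zd l (Γ := Γ))
    [MeasurableSpace Γ] [BorelSpace Γ] (ν : Measure Γ) [ν.IsHaarMeasure]
    {V : Type} [AddCommGroup V] [Module ℚ_[l] V] [FiniteDimensional ℚ_[l] V]
    (ρ : H1Rep Γ ℚ_[l] V) (hss : Semisimple ρ) (hF : Dense {γ | FrobLike ρ γ})
    (hA : ∃ κ, TateClass (fun γ => (ρ.T γ).compLeft (Fin 4)) ρ.χ 2 κ ∧
      ∀ Z : (n i : ℕ) → Submodule ℚ_[l] (ExteriorAlgebra ℚ_[l] (Fin n → V)), Known ρ Z →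
        List.TFAE [∀ n i, Controls ρ (LieOf ρ Z) n i, Controls ρ (LieOf ρ Z) 4 2,
          ∀ X ∈ LieOf ρ Z, Kills 4 X κ, NearOne ν (GoodFor ρ (LieOf ρ Z)),
          ∀ D : Set Γ, Dense D → ∃ γ ∈ D, GoodFor ρ (LieOf ρ Z) γ,
          ∃ γ, GoodFor ρ (LieOf ρ Z) γ]) :
    ∃ κ, TateClass (fun γ => (ρ.T γ).compLeft (Fin 4)) ρ.χ 2 κ ∧
      (∀ Z : (n i : ℕ) → Submodule ℚ_[l] (ExteriorAlgebra ℚ_[l] (Fin n → V)), Known ρ Z →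
        List.TFAE [∀ n i, Controls ρ (LieOf ρ Z) n i, Controls ρ (LieOf ρ Z) 4 2,
          ∀ X ∈ LieOf ρ Z, Kills 4 X κ, NearOne ν (GoodFor ρ (LieOf ρ Z)),
          ∀ D : Set Γ, Dense D → ∃ γ ∈ D, GoodFor ρ (LieOf ρ Z) γ,
          ∃ γ, GoodFor ρ (LieOf ρ Z) γ] ∧
        List.TFAE [KillsAll ρ (LieOf ρ Z),
          (∀ X ∈ LieOf ρ Z, Kills 4 X κ) ∧ ¬ WeilFor ρ (LieOf ρ Z),
          NearOne ν (fun γ => GoodFor ρ (LieOf ρ Z) γ ∧ (FrobLike ρ γ → DetFor ρ (LieOf ρ Z) γ)),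
          ∃ γ, FrobLike ρ γ ∧ GoodFor ρ (LieOf ρ Z) γ ∧ DetFor ρ (LieOf ρ Z) γ,
          ∃ γ, GoodFor ρ (LieOf ρ Z) γ ∧ DetFor ρ (LieOf ρ Z) γ]) ∧
      Known ρ (DivZ ρ) ∧ (NoExotic ρ ↔ NoIII ρ ∧ KillsAll ρ (LieOf ρ (DivZ ρ))) := by
  obtain ⟨κ, hκ, hT⟩ := hA
  refine ⟨κ, hκ, fun Z hZ => ⟨hT Z hZ, ?_⟩, (hZd V ρ).1, (hZd V ρ).2 hss hF⟩
  have hTZ := hT Z hZ
  let e := Module.finBasis ℚ_[l] V
  obtain ⟨R, h1, h2, h3⟩ := exists_coord ρ e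
  obtain ⟨g', hg1, hg2⟩ := hKn V _ ρ e R h1 h2 h3 Z hZ
  have hskew : ∀ X ∈ LieOf ρ Z, ∀ x y, ρ.form (X x) y + ρ.form x (X y) = 0 := fun X hX => hX.1
  have hcom : ∀ X ∈ LieOf ρ Z, ∀ c, CommF ρ c → X * c = c * X := by
    intro X hX c hc
    apply (LinearMap.toMatrix e e).injective
    rw [LinearMap.toMatrix_mul, LinearMap.toMatrix_mul]
    exact hg2.com _ ((hg1 X).1 hX) _ ((coord_inC ρ e R h1 c).2 hc)
  have hcen : ∀ z ∈ LieOf ρ Z, (∀ X ∈ LieOf ρ Z, z * X = X * z) → CentralSkew ρ z := by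
    intro z hz hzX
    rw [← coord_zm ρ e R h1 h3]
    obtain ⟨W, hW⟩ := comm_open R l (norm_l l) (l_ne l)
    refine ⟨⟨W, hW _ fun Y hY => ?_⟩, hg2.com _ ((hg1 z).1 hz), hg2.skew _ ((hg1 z).1 hz)⟩
    have h4 : Matrix.toLin e e Y ∈ LieOf ρ Z := by
      rw [hg1, LinearMap.toMatrix_toLin]
      exact hg2.hh hY
    have h5 := congrArg (LinearMap.toMatrix e e) (hzX _ h4)
    rw [LinearMap.toMatrix_mul, LinearMap.toMatrix_mul, LinearMap.toMatrix_toLin] at h5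
    exact h5.symm
  tfae_have 1 → 2 := by
    intro h
    exact ⟨fun X hX => h 4 2 κ hκ X hX, hNwl V ρ _ hskew hcom h⟩
  tfae_have 2 → 1 := by
    rintro ⟨h4, hW⟩ n i x hx X hX
    have h5 : ∀ n i, Controls ρ (LieOf ρ Z) n i := (hTZ.out 2 0 rfl rfl).1 h4
    refine h5 n i x hx (fun z hz hzX => ?_) X hX
    rw [kills_iff]
    exact hCen V ρ hss _ hW z hz (hcen z hz hzX) n i x hx
  tfae_have 2 → 3 := by
    rintro ⟨h4, hW⟩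
    have h5 : NearOne ν (GoodFor ρ (LieOf ρ Z)) := (hTZ.out 2 3 rfl rfl).1 h4
    exact nearOne_and h5 (hNr V ν ρ hss _ hW)
  tfae_have 3 → 4 := by
    intro h
    obtain ⟨γ, hγ, h4, h5⟩ := nearOne_dense h hF
    exact ⟨γ, hγ, h4, h5 hγ⟩
  tfae_have 4 → 5 := fun ⟨γ, _, h4, h5⟩ => ⟨γ, h4, h5⟩
  tfae_have 5 → 2 := by
    rintro ⟨γ, h4, h5⟩
    refine ⟨(hTZ.out 5 2 rfl rfl).1 ⟨γ, h4⟩, ?_⟩
    rintro ⟨k, p, s, hp, hn, U, hU⟩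
    obtain ⟨N, hN, hNU⟩ := exists_pow U
    exact hn (h5 N hN k p s hp (hU _ (hNU γ)))
  tfae_finish

end Pool.Agent.Lib.MP_640417_ag.Mt
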