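import Pool.Agent.Lib.MP_640417_ag.Mt.SpecC

/-!
# MP_640417_ag, Mt, module Bl: almost all Frobenius elements have only the relations of `g`
-/

set_option autoImplicit false

namespace Pool.Agent.Lib.MP_640417_ag.Mt

open Matrix Module TensorProduct MeasureTheory Pool.Agent.Lib.MP_640417_ag
  Pool.Agent.Lib.MP_640417_ag.Frob Pool.Agent.Lib.MP_640417_ag.Glob
  Pool.Agent.Lib.MP_640417_ag.Four Pool.Agent.Lib.MP_640417_ag.Ctl
  Pool.Agent.Lib.MP_640417_ag.Dfr Pool.Agent.Lib.MP_640417_ag.Ty Pool.Agent.Lib.MP_640417_ag.Zo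
  Pool.Agent.Lib.MP_640417_ag.Gen4 Pool.Agent.Lib.MP_640417_ag.Lef Pool.Agent.Lib.MP_640417_ag.Wn
  Pool.Agent.Lib.MP_640417_ag.T3

theorem Bl_skew_mul {K V : Type} [Field K] [AddCommGroup V] [Module K V]
    {form : LinearMap.BilinForm K V} {N : ℕ}
    {ε : Fin N → Module.End K V} {t : Fin N → ℤ}
    (ht : Four.Skew form (∑ i, (t i : K) • ε i)) (n : ℕ) :
    Four.Skew form (∑ i, (((n : ℤ) * t i : ℤ) : K) • ε i) := by
  have h1 : ∑ i, (((n : ℤ) * t i : ℤ) : K) • ε i = (n : K) • ∑ i, (t i : K) • ε i := by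
    rw [Finset.smul_sum]
    refine Finset.sum_congr rfl fun i _ => ?_
    rw [smul_smul]
    push_cast
    rfl
  rw [h1]
  intro x y
  rw [LinearMap.smul_apply, LinearMap.smul_apply, map_smul, map_smul, LinearMap.smul_apply,
    ← smul_add, ht x y, smul_zero]

theorem Bl_trRel_of_mul {F V : Type} [Field F] [CharZero F] [AddCommGroup V] [Module F V]
    {g : Set (Module.End F V)} {N : ℕ}
    {ε : Fin N → Module.End (AlgebraicClosure F) (AlgebraicClosure F ⊗[F] V)} {t : Fin N → ℤ}
    {n : ℕ} (hn : 0 < n) (h : TrRel g ε (fun i => (n : ℤ) * t i)) : TrRel g ε t := by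
  have hchar : CharZero (AlgebraicClosure F) :=
    charZero_of_injective_algebraMap (algebraMap F (AlgebraicClosure F)).injective
  intro X hX
  have h1 := h X hX
  have h2 : ∑ j, (((n : ℤ) * t j : ℤ) : AlgebraicClosure F) *
      LinearMap.trace (AlgebraicClosure F) (AlgebraicClosure F ⊗[F] V)
        (ε j * X.baseChange (AlgebraicClosure F)) = (n : AlgebraicClosure F) *
      ∑ j, (t j : AlgebraicClosure F) *
      LinearMap.trace (AlgebraicClosure F) (AlgebraicClosure F ⊗[F] V)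
        (ε j * X.baseChange (AlgebraicClosure F)) := by
    rw [Finset.mul_sum]
    refine Finset.sum_congr rfl fun j _ => ?_
    push_cast
    ring
  rw [h2] at h1
  exact (mul_eq_zero.1 h1).resolve_left (Nat.cast_ne_zero.2 hn.ne')

/-- The trace relation depends only on the sum. -/
theorem Bl_trRel_congr {F V : Type} [Field F] [AddCommGroup V] [Module F V]
    {g : Set (Module.End F V)} {N k : ℕ}
    {ε : Fin N → Module.End (AlgebraicClosure F) (AlgebraicClosure F ⊗[F] V)} {t : Fin N → ℤ}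
    {p : Fin k → Module.End (AlgebraicClosure F) (AlgebraicClosure F ⊗[F] V)} {s : Fin k → ℤ}
    (he : ∑ i, (t i : AlgebraicClosure F) • ε i = ∑ j, (s j : AlgebraicClosure F) • p j)
    (h : TrRel g ε t) : TrRel g p s := by
  have key : ∀ (m : ℕ) (q : Fin m → Module.End (AlgebraicClosure F) (AlgebraicClosure F ⊗[F] V))
      (r : Fin m → ℤ) (X : Module.End F V), ∑ j, (r j : AlgebraicClosure F) *
      LinearMap.trace (AlgebraicClosure F) (AlgebraicClosure F ⊗[F] V)
        (q j * X.baseChange (AlgebraicClosure F)) =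
      LinearMap.trace (AlgebraicClosure F) (AlgebraicClosure F ⊗[F] V)
        ((∑ j, (r j : AlgebraicClosure F) • q j) * X.baseChange (AlgebraicClosure F)) := by
    intro m q r X
    rw [Finset.sum_mul, map_sum]
    refine Finset.sum_congr rfl fun j _ => ?_
    rw [smul_mul_assoc, map_smul, smul_eq_mul]
  intro X hX
  rw [key, ← he, ← key]
  exact h X hX

/-- powers -/
theorem Bl_detProd_pow {K V : Type} [Field K] [AddCommGroup V] [Module K V]
    [FiniteDimensional K V] {N : ℕ} {ε : Fin N → Module.End K V} (t : Fin N → ℤ)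
    {G : Module.End K V} (hid : ∀ i, ε i * ε i = ε i) (hc : ∀ i, ε i * G = G * ε i) (n : ℕ) :
    detProd ε t (G ^ n) = detProd ε t G ^ n := by
  have hmul : ∀ i, LinearMap.det (ε i * G ^ n + (1 - ε i)) =
      LinearMap.det (ε i * G + (1 - ε i)) ^ n := by
    intro i
    induction n with
    | zero =>
      rw [pow_zero, pow_zero, mul_one, add_sub_cancel, map_one]
    | succ n ih =>
      rw [pow_succ', RelM.det_mul' (hid i) (hc i), ih, pow_succ']
  rw [detProd, detProd, ← Finset.prod_pow]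
  refine Finset.prod_congr rfl fun i _ => ?_
  rw [hmul i, ← zpow_natCast, ← zpow_natCast, ← _root_.zpow_mul, ← _root_.zpow_mul, mul_comm]

/-- S_Bl -/
theorem tBl (h1 : S_Fm) (h2 : S_El) (h3 : S_Nl) : S_Bl := by
  classical
  intro F V _ _ _ _ _ Γ _ _ _ _ _ _ ν _ ρ hfull N st ε hS g hW
  have hchar : CharZero (AlgebraicClosure F) :=
    charZero_of_injective_algebraMap (algebraMap F (AlgebraicClosure F)).injective
  obtain ⟨n0, M, hn0, hset⟩ := h2 F V Γ ρ hfull N st ε hS
  let good : (Fin N → ℤ) → Prop := fun t =>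
    Four.Skew (ρ.form.baseChange (AlgebraicClosure F)) (∑ i, (t i : AlgebraicClosure F) • ε i) ∧
      ¬ TrRel g ε t
  have hgood : ∀ t, good t → good (fun i => (n0 : ℤ) * t i) := fun t ht =>
    ⟨Bl_skew_mul ht.1 n0, fun h => ht.2 (Bl_trRel_of_mul hn0 h)⟩
  let hasT : Set (Fin N → Fin (M + 1)) → Prop := fun S =>
    ∃ t : Fin N → ℤ, good t ∧ ∀ v ∈ S, ∑ i, t i * ((v i : ℕ) : ℤ) = 0
  have hτ : ∀ S, ∃ t : Fin N → ℤ, hasT S → good t ∧
      ∀ v ∈ S, ∑ i, t i * ((v i : ℕ) : ℤ) = 0 := by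
    intro S
    by_cases h : hasT S
    · obtain ⟨t, ht⟩ := h
      exact ⟨t, fun _ => ht⟩
    · exact ⟨0, fun h' => absurd h' h⟩
  choose τ hτ using hτ
  let D : Set (Fin N → Fin (M + 1)) → Set Γ := fun S => {γ | hasT S →
    detProd ε (fun i => (n0 : ℤ) * τ S i) ((ρ.T γ).baseChange (AlgebraicClosure F)) ≠ 1}
  have hD : ∀ S, IsOpen (D S) ∧ ν (D S)ᶜ = 0 := by
    intro S
    by_cases h : hasT S
    · have hg := hgood _ (hτ S h).1
      obtain ⟨h4, h5⟩ := h3 F V Γ ν ρ hfull N st ε hS g hW _ hg.1 hg.2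
      have h6 : D S = {γ | detProd ε (fun i => (n0 : ℤ) * τ S i)
          ((ρ.T γ).baseChange (AlgebraicClosure F)) ≠ 1} := by
        ext γ
        exact ⟨fun h4 => h4 h, fun h4 _ => h4⟩
      rw [h6]
      refine ⟨h4, ?_⟩
      have h7 : {γ | detProd ε (fun i => (n0 : ℤ) * τ S i)
          ((ρ.T γ).baseChange (AlgebraicClosure F)) ≠ 1}ᶜ =
          {γ | detProd ε (fun i => (n0 : ℤ) * τ S i)
          ((ρ.T γ).baseChange (AlgebraicClosure F)) = 1} := by
        ext γ
        exact not_not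
      rw [h7]
      exact h5
    · have h4 : D S = Set.univ := by
        ext γ
        exact ⟨fun _ => trivial, fun _ h' => absurd h' h⟩
      rw [h4]
      exact ⟨isOpen_univ, by rw [Set.compl_univ, measure_empty]⟩
  refine ⟨⋂ S, D S, isOpen_iInter_of_finite fun S => (hD S).1, ?_, ?_⟩
  · rw [Set.compl_iInter]
    exact measure_iUnion_null fun S => (hD S).2
  · intro γ hγ hF n hn k p s hcr hdet
    by_contra hcon
    obtain ⟨t, hsum, hdp⟩ := h1 (AlgebraicClosure F) (AlgebraicClosure F ⊗[F] V)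
      (ρ.form.baseChange (AlgebraicClosure F)) (comK ρ) N st ε hS k p s hcr
    have hpow : (ρ.T (γ ^ n)).baseChange (AlgebraicClosure F) =
        ((ρ.T γ).baseChange (AlgebraicClosure F)) ^ n := by
      rw [map_pow]
      exact map_pow (Module.End.baseChangeHom F (AlgebraicClosure F) V) (ρ.T γ) n
    have hu : IsUnit ((ρ.T (γ ^ n)).baseChange (AlgebraicClosure F)) :=
      ((Group.isUnit (γ ^ n)).map ρ.T).map
        (Module.End.baseChangeHom F (AlgebraicClosure F) V)
    have hd := hdp _ (fun c hc => comK_full ρ hfull hc (γ ^ n)) hu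
    rw [hdet, hpow, Bl_detProd_pow t hS.idem
      (fun i => comK_full ρ hfull (hS.mem i) γ) n] at hd
    have hgt : good t := by
      refine ⟨?_, fun h => hcon (Bl_trRel_congr hsum h)⟩
      rw [hsum]
      exact hcr.skew
    obtain ⟨S, hSt⟩ := hset γ hF
    have h4 : hasT S := ⟨t, hgt, (hSt t hgt.1).1 n hn hd⟩
    have h5 := hτ S h4
    have h6 := (hSt (τ S) h5.1.1).2 h5.2
    have h7 := Set.mem_iInter.mp hγ S h4
    rw [detProd_mul] at h7
    exact h7 h6

end Pool.Agent.Lib.MP_640417_ag.Mt
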