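import Pool.Agent.Lib.MP_640417_ag.Mt.SpecC

/-!
# MP_640417_ag, Mt, module Cen: the central skew elements of `g` kill all Tate classes
-/

set_option autoImplicit false

namespace Pool.Agent.Lib.MP_640417_ag.Mt

open Matrix Module TensorProduct MeasureTheory Pool.Agent.Lib.MP_640417_ag
  Pool.Agent.Lib.MP_640417_ag.Frob Pool.Agent.Lib.MP_640417_ag.Glob
  Pool.Agent.Lib.MP_640417_ag.Four Pool.Agent.Lib.MP_640417_ag.Ctl
  Pool.Agent.Lib.MP_640417_ag.Dfr Pool.Agent.Lib.MP_640417_ag.Ty Pool.Agent.Lib.MP_640417_ag.Zo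
  Pool.Agent.Lib.MP_640417_ag.Gen4 Pool.Agent.Lib.MP_640417_ag.Lef Pool.Agent.Lib.MP_640417_ag.Wn
  Pool.Agent.Lib.MP_640417_ag.T3

section alg

variable {F K V : Type} [Field F] [Field K] [Algebra F K] [AddCommGroup V] [Module F V]

/-- `X ↦ ∑ s j * tr (ε j * X)` -/
private noncomputable def Cen_psi {N : ℕ} (ε : Fin N → Module.End K (K ⊗[F] V)) (s : Fin N → ℤ) :
    Module.End F V →ₗ[F] K where
  toFun X := ∑ j, (s j : K) * LinearMap.trace K (K ⊗[F] V) (ε j * X.baseChange K)
  map_add' X Y := by
    rw [← Finset.sum_add_distrib]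
    refine Finset.sum_congr rfl fun j _ => ?_
    rw [LinearMap.baseChange_add, mul_add, map_add, mul_add]
  map_smul' c X := by
    rw [RingHom.id_apply, Finset.smul_sum]
    refine Finset.sum_congr rfl fun j _ => ?_
    rw [LinearMap.baseChange_smul, mul_smul_comm, LinearMap.map_smul_of_tower, mul_smul_comm]

private theorem Cen_psi_apply {N : ℕ} (ε : Fin N → Module.End K (K ⊗[F] V)) (s : Fin N → ℤ)
    (X : Module.End F V) : Cen_psi ε s X =
      ∑ j, (s j : K) * LinearMap.trace K (K ⊗[F] V) (ε j * X.baseChange K) := rfl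

/-- commutators -/
private theorem Cen_psi_comm {N : ℕ} (ε : Fin N → Module.End K (K ⊗[F] V)) (s : Fin N → ℤ)
    (A B : Module.End F V) (hA : ∀ j, ε j * A.baseChange K = A.baseChange K * ε j) :
    Cen_psi ε s (A * B - B * A) = 0 := by
  rw [map_sub, Cen_psi_apply, Cen_psi_apply, ← Finset.sum_sub_distrib]
  refine Finset.sum_eq_zero fun j _ => ?_
  rw [LinearMap.baseChange_mul, LinearMap.baseChange_mul, ← mul_assoc, hA, mul_assoc,
    LinearMap.trace_mul_comm, mul_assoc, sub_self]

/-- the trace of a skew map -/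
private theorem Cen_skew {W : Type} [AddCommGroup W] [Module K W] [FiniteDimensional K W]
    [CharZero K] {form : LinearMap.BilinForm K W} (hnd : ∀ x, (∀ y, form x y = 0) → x = 0)
    {S : Module.End K W} (hS : Skew form S) : LinearMap.trace K W S = 0 := by
  have h1 : RelM.Adj form S (-S) := by
    intro x y
    rw [LinearMap.neg_apply, map_neg]
    exact eq_neg_of_add_eq_zero_left (hS x y)
  have h2 := h1.trace hnd
  rw [map_neg] at h2
  have h3 : (2 : K) * LinearMap.trace K W S = 0 := by linear_combination -h2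
  exact (mul_eq_zero.1 h3).resolve_left two_ne_zero

private theorem Cen_psi_one [FiniteDimensional F V] [CharZero K] {N : ℕ}
    (ε : Fin N → Module.End K (K ⊗[F] V))
    (s : Fin N → ℤ) {form : LinearMap.BilinForm K (K ⊗[F] V)}
    (hnd : ∀ x, (∀ y, form x y = 0) → x = 0) (hS : Skew form (∑ j, (s j : K) • ε j)) :
    Cen_psi ε s 1 = 0 := by
  have h1 := Cen_skew hnd hS
  rw [map_sum] at h1
  rw [Cen_psi_apply, ← h1]
  refine Finset.sum_congr rfl fun j _ => ?_
  rw [map_smul, smul_eq_mul]
  congr 2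
  have h2 : ((1 : Module.End F V).baseChange K) = 1 := LinearMap.baseChange_id
  rw [h2, mul_one]

/-- determinants and traces in coordinates -/
private theorem Cen_det [FiniteDimensional F V] {I : Type} [Fintype I] [DecidableEq I]
    (e : Basis I F V) (p : Module.End K (K ⊗[F] V)) (X : Module.End F V) :
    (LinearMap.toMatrixAlgEquiv (Algebra.TensorProduct.basis K e) p *
      (LinearMap.toMatrix e e X).map (algebraMap F K) +
      (1 - LinearMap.toMatrixAlgEquiv (Algebra.TensorProduct.basis K e) p)).det =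
      LinearMap.det (p * X.baseChange K + (1 - p)) := by
  rw [← LinearMap.det_toMatrix (Algebra.TensorProduct.basis K e)]
  congr 1
  rw [← LinearMap.toMatrix_baseChange]
  have h1 : ∀ Y, LinearMap.toMatrix (Algebra.TensorProduct.basis K e)
      (Algebra.TensorProduct.basis K e) Y =
      LinearMap.toMatrixAlgEquiv (Algebra.TensorProduct.basis K e) Y := fun _ => rfl
  have h2 : LinearMap.toMatrixAlgEquiv (Algebra.TensorProduct.basis K e) (1 - p) =
      1 - LinearMap.toMatrixAlgEquiv (Algebra.TensorProduct.basis K e) p := by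
    rw [← map_one (LinearMap.toMatrixAlgEquiv (Algebra.TensorProduct.basis K e)), ← map_sub]
  rw [h1, h1, map_add, map_mul, h2]

private theorem Cen_trace [FiniteDimensional F V] {I : Type} [Fintype I] [DecidableEq I]
    (e : Basis I F V) (p : Module.End K (K ⊗[F] V)) (X : Module.End F V) :
    (LinearMap.toMatrixAlgEquiv (Algebra.TensorProduct.basis K e) p *
      (LinearMap.toMatrix e e X).map (algebraMap F K)).trace =
      LinearMap.trace K (K ⊗[F] V) (p * X.baseChange K) := by
  rw [LinearMap.trace_eq_matrix_trace K (Algebra.TensorProduct.basis K e)]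
  congr 1
  rw [← LinearMap.toMatrix_baseChange]
  have h1 : ∀ Y, LinearMap.toMatrix (Algebra.TensorProduct.basis K e)
      (Algebra.TensorProduct.basis K e) Y =
      LinearMap.toMatrixAlgEquiv (Algebra.TensorProduct.basis K e) Y := fun _ => rfl
  rw [h1, h1, map_mul]

private theorem Cen_comm {I : Type} [Fintype I] [DecidableEq I]
    (e : Basis I F V) (p : Module.End K (K ⊗[F] V)) (X : Module.End F V)
    (h : p * X.baseChange K = X.baseChange K * p) :
    LinearMap.toMatrixAlgEquiv (Algebra.TensorProduct.basis K e) p *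
      (LinearMap.toMatrix e e X).map (algebraMap F K) =
    (LinearMap.toMatrix e e X).map (algebraMap F K) *
      LinearMap.toMatrixAlgEquiv (Algebra.TensorProduct.basis K e) p := by
  rw [← LinearMap.toMatrix_baseChange]
  have h1 : ∀ Y, LinearMap.toMatrix (Algebra.TensorProduct.basis K e)
      (Algebra.TensorProduct.basis K e) Y =
      LinearMap.toMatrixAlgEquiv (Algebra.TensorProduct.basis K e) Y := fun _ => rfl
  rw [h1, ← map_mul, ← map_mul, h]

end alg

section rep

variable {F : Type} [Field F] [CharZero F] [TopologicalSpace F] {V : Type} [AddCommGroup V]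
  [Module F V] {Γ : Type} [Group Γ] [TopologicalSpace Γ] (ρ : H1Rep Γ F V)

omit [CharZero F] in
/-- everything in the commutant over `K` commutes with what commutes with the commutant -/
private theorem Cen_cenK {A : Module.End F V} (hA : ∀ c, CommF ρ c → A * c = c * A)
    {c : Module.End (AlgebraicClosure F) (AlgebraicClosure F ⊗[F] V)} (hc : c ∈ comK ρ)
    [FiniteDimensional F V] :
    c * A.baseChange (AlgebraicClosure F) = A.baseChange (AlgebraicClosure F) * c := by
  classical
  let b := Module.Free.chooseBasis F (AlgebraicClosure F)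
  obtain ⟨τ, hτ⟩ := sum_cp b c
  rw [hτ, Finset.sum_mul, Finset.mul_sum]
  refine Finset.sum_congr rfl fun t _ => ?_
  rw [smul_mul_assoc, mul_smul_comm, ← LinearMap.baseChange_mul,
    ← hA _ (cp_comm ρ hc (b.coord t)), LinearMap.baseChange_mul]

end rep

section analytic

variable (l : ℕ) [Fact l.Prime]

variable {Γ : Type} [Group Γ] [TopologicalSpace Γ] [IsTopologicalGroup Γ] [CompactSpace Γ]

theorem tCen (h1 : S_Csy) (h2 : S_CnA) (h3 : S_Spl l (Γ := Γ)) (h4 : S_Lgr l (Γ := Γ)) :
    S_Cen l (Γ := Γ) := by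
  classical
  intro V _ _ _ ρ hss g hW z hzg hz n i x hx
  have hchar : CharZero (AlgebraicClosure ℚ_[l]) :=
    charZero_of_injective_algebraMap (algebraMap ℚ_[l] (AlgebraicClosure ℚ_[l])).injective
  obtain ⟨U0, hU0⟩ := exists_U0 ρ
  have := topGroup_U U0
  have := compact_U U0
  have hfull : ∀ c, CommF (res ρ U0) c → ∀ γ, c * (res ρ U0).T γ = (res ρ U0).T γ * c :=
    fun c hc γ' => (hU0 γ'.1).mp γ'.2 c ((commF_res ρ U0 c).mp hc)
  have hreg : Reg (comK ρ) := by
    have h := reg_comK (res ρ U0) (semi_res ρ U0 hss) hfull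
    rwa [comK_resU] at h
  have hadj : AdjC (ρ.form.baseChange (AlgebraicClosure ℚ_[l])) (comK ρ) := by
    have h := adj_comK (res ρ U0) hfull
    rwa [comK_resU] at h
  have halt := alt_baseChange (AlgebraicClosure ℚ_[l]) ρ.form ρ.form_alt
  have hnd := nondeg_baseChange (AlgebraicClosure ℚ_[l]) ρ.form ρ.form_alt ρ.form_nondeg
  obtain ⟨N, st, ε, hS⟩ := h1 (AlgebraicClosure ℚ_[l]) (AlgebraicClosure ℚ_[l] ⊗[ℚ_[l]] V)
    (ρ.form.baseChange (AlgebraicClosure ℚ_[l])) (comK ρ) halt hnd hreg hadj
  obtain ⟨R, r1, r2, r3⟩ := exists_coord ρ (Module.finBasis ℚ_[l] V)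
  set e := Module.finBasis ℚ_[l] V with he
  have hsemi : R.Semi := coord_semi ρ e R r1 hss
  have hl := norm_l l
  have hl0 := l_ne l
  apply be_inj (F' := AlgebraicClosure ℚ_[l]) n
  rw [← Dv_be]
  let A : Set (Module.End (AlgebraicClosure ℚ_[l]) (AlgebraicClosure ℚ_[l] ⊗[ℚ_[l]] V)) :=
    {a | ∃ Y : Module.End ℚ_[l] V, a = Y.baseChange (AlgebraicClosure ℚ_[l]) ∧
      LinearMap.toMatrix e e Y ∈ R.Hh l ∧ CentralSkew ρ Y}
  refine h2 (AlgebraicClosure ℚ_[l]) (AlgebraicClosure ℚ_[l] ⊗[ℚ_[l]] V)
    (ρ.form.baseChange (AlgebraicClosure ℚ_[l])) (comK ρ) N st ε halt hnd hS A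
    (z.baseChange (AlgebraicClosure ℚ_[l])) ?_
    ⟨base_mem ρ hz.1, fun c hc => cen_K ρ hz hc, skew_base ρ hz.2.2⟩ ?_ n (2 * i)
    (be (AlgebraicClosure ℚ_[l]) n x) (tate_be (fun γ => ρ.T γ) ρ.χ n i hx).1 ?_
  · rintro a ⟨Y, rfl, -, hY⟩
    exact ⟨base_mem ρ hY.1, fun c hc => cen_K ρ hY hc, skew_base ρ hY.2.2⟩
  · intro s hs hA
    have hcom : ∀ X : Module.End ℚ_[l] V, LinearMap.toMatrix e e X ∈ R.Hh l →
        ∀ j, ε j * X.baseChange (AlgebraicClosure ℚ_[l]) =
          X.baseChange (AlgebraicClosure ℚ_[l]) * ε j := by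
      intro X hX j
      refine Cen_cenK ρ (fun c hc => ?_) (hS.mem j)
      have h5 := Hh_comm_C R l hl hl0 hX ((coord_inC ρ e R r1 c).mpr hc)
      apply (LinearMap.toMatrixAlgEquiv e).injective
      rw [map_mul, map_mul]
      exact h5
    -- the claim
    have hclaim : ∀ X : Module.End ℚ_[l] V, LinearMap.toMatrix e e X ∈ R.Zt l →
        Cen_psi ε s X = 0 := by
      intro X hX
      obtain ⟨c, hc⟩ := Zt_Hh R l hl hl0 hX
      obtain ⟨z', hz1, hz2, hz3⟩ := h3 (Fin (finrank ℚ_[l] V)) R hsemi _ hc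
      have hone : Cen_psi ε s 1 = 0 := Cen_psi_one ε s hnd hs
      have hzz : Cen_psi ε s (Matrix.toLin e e z') = 0 := by
        refine hA _ ⟨Matrix.toLin e e z', rfl, ?_, ?_⟩
        · rw [LinearMap.toMatrix_toLin]
          exact hz1
        · rw [← coord_zm ρ e R r1 r3, LinearMap.toMatrix_toLin]
          exact hz2
      have hspan : ∀ D ∈ Submodule.span ℚ_[l] {D | ∃ A ∈ R.Hh l, ∃ B ∈ R.Hh l,
          D = A * B - B * A}, Cen_psi ε s (Matrix.toLin e e D) = 0 := by
        intro D hD
        induction hD using Submodule.span_induction with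
        | mem D hD =>
          obtain ⟨A', hA', B', -, rfl⟩ := hD
          have h5 : Matrix.toLin e e (A' * B' - B' * A') =
              Matrix.toLin e e A' * Matrix.toLin e e B' -
                Matrix.toLin e e B' * Matrix.toLin e e A' := by
            have h6 : ∀ Y, Matrix.toLin e e Y = Matrix.toLinAlgEquiv e Y := fun _ => rfl
            rw [h6, h6, h6, map_sub, map_mul, map_mul]
          rw [h5]
          refine Cen_psi_comm ε s _ _ (hcom _ ?_)
          rw [LinearMap.toMatrix_toLin]
          exact hA'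
        | zero => rw [map_zero, map_zero]
        | add D D' _ _ hD hD' => rw [map_add, map_add, hD, hD', add_zero]
        | smul a D _ hD => rw [map_smul, map_smul, hD, smul_zero]
      have h5 := hspan _ hz3
      have h6 : Matrix.toLin e e (LinearMap.toMatrix e e X - c • 1 - z') =
          X - c • 1 - Matrix.toLin e e z' := by
        rw [map_sub, map_sub, map_smul, Matrix.toLin_toMatrix, Matrix.toLin_one]
        rfl
      rw [h6, map_sub, map_sub, map_smul, hone, hzz, smul_zero, sub_zero, sub_zero] at h5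
      exact h5
    -- the relation between the determinants
    obtain ⟨U, hU⟩ := h4 (Fin (finrank ℚ_[l] V)) R N
      (fun j => LinearMap.toMatrixAlgEquiv
        (Algebra.TensorProduct.basis (AlgebraicClosure ℚ_[l]) e) (ε j)) s
      (fun j => by rw [← map_mul, hS.idem])
      ⟨U0, fun γ hγ j => by
        rw [r1]
        refine Cen_comm e (ε j) (ρ.T γ) ?_
        have hj : ε j ∈ comK (res ρ U0) := by
          rw [comK_resU]
          exact hS.mem j
        exact comK_full (res ρ U0) hfull hj ⟨γ, hγ⟩⟩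
      (fun A' hA' => by
        have h5 := hclaim (Matrix.toLin e e A') (by
          rw [LinearMap.toMatrix_toLin]
          exact hA')
        rw [Cen_psi_apply] at h5
        rw [← h5]
        refine Finset.sum_congr rfl fun j _ => ?_
        congr 1
        have h6 := Cen_trace e (ε j) (Matrix.toLin e e A')
        rw [LinearMap.toMatrix_toLin] at h6
        exact h6)
    have hTr : TrRel g ε s := by
      by_contra hno
      refine hW ⟨N, ε, s, ⟨hS.mem, hS.cen, hS.idem, hS.orth, hs⟩, hno, U, fun γ hγ => ?_⟩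
      rw [← hU γ hγ, detProd]
      refine Finset.prod_congr rfl fun j _ => ?_
      rw [r1]
      congr 1
      exact (Cen_det e (ε j) (ρ.T γ)).symm
    exact hTr z hzg
  · rintro a ⟨Y, rfl, hY, -⟩
    rw [Dv_be]
    obtain ⟨y, hy, hy'⟩ := coord_dv ρ e R r1 r2 n i x hx
    rw [(hy' Y).mp (hh_tate R l hl hl0 _ hY n i y hy), map_zero]

end analytic

end Pool.Agent.Lib.MP_640417_ag.Mt
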