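import Pool.Agent.Lib.MP_640417_ag.Mt.SpecC

/-!
# MP_640417_ag, Mt, module `CnA`: central skew elements, algebraic part
-/

set_option autoImplicit false

namespace Pool.Agent.Lib.MP_640417_ag.Mt

open Matrix Module TensorProduct MeasureTheory Pool.Agent.Lib.MP_640417_ag
  Pool.Agent.Lib.MP_640417_ag.Frob Pool.Agent.Lib.MP_640417_ag.Glob
  Pool.Agent.Lib.MP_640417_ag.Four Pool.Agent.Lib.MP_640417_ag.Ctl
  Pool.Agent.Lib.MP_640417_ag.Dfr Pool.Agent.Lib.MP_640417_ag.Ty Pool.Agent.Lib.MP_640417_ag.Zo
  Pool.Agent.Lib.MP_640417_ag.Gen4 Pool.Agent.Lib.MP_640417_ag.Lef Pool.Agent.Lib.MP_640417_ag.Wn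
  Pool.Agent.Lib.MP_640417_ag.T3

section

variable {K V : Type} [Field K] [AddCommGroup V] [Module K V] {N : ℕ}
  {ε : Fin N → Module.End K V}

private theorem CnA_coef (hne : ∀ j, ε j ≠ 0) (hid : ∀ j, ε j * ε j = ε j)
    (hor : ∀ j k, j ≠ k → ε j * ε k = 0) (c : Fin N → K) (h : ∑ j, c j • ε j = 0) (j : Fin N) :
    c j = 0 := by
  classical
  have h1 : ε j * ∑ k, c k • ε k = c j • ε j := by
    rw [Finset.mul_sum, Finset.sum_eq_single j]
    · rw [mul_smul_comm, hid]
    · intro k _ hk
      rw [mul_smul_comm, hor j k (Ne.symm hk), smul_zero]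
    · intro hj
      exact absurd (Finset.mem_univ j) hj
  rw [h, mul_zero] at h1
  exact (smul_eq_zero.1 h1.symm).resolve_right (hne j)

private theorem CnA_basis [FiniteDimensional K V] (hid : ∀ j, ε j * ε j = ε j)
    (hor : ∀ j k, j ≠ k → ε j * ε k = 0) (hsum : ∑ j, ε j = 1) :
    ∃ e : Basis (Σ j : Fin N, Fin (finrank K (LinearMap.range (ε j)))) K V,
      ∀ v, ∀ c : Fin N → K, (∑ j, c j • ε j) (e v) = c v.1 • e v := by
  classical
  have hfix : ∀ j, ∀ x ∈ LinearMap.range (ε j), ε j x = x := by
    rintro j _ ⟨y, rfl⟩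
    exact DFunLike.congr_fun (hid j) y
  have hkill : ∀ j k, j ≠ k → ∀ x ∈ LinearMap.range (ε k), ε j x = 0 := by
    rintro j k hjk _ ⟨y, rfl⟩
    exact DFunLike.congr_fun (hor j k hjk) y
  have hind : iSupIndep fun j => LinearMap.range (ε j) := by
    intro j
    rw [Submodule.disjoint_def]
    intro x hx hx'
    have h1 : (⨆ (k : Fin N) (_ : k ≠ j), LinearMap.range (ε k)) ≤ LinearMap.ker (ε j) := by
      refine iSup₂_le fun k hk y hy => ?_
      exact LinearMap.mem_ker.2 (hkill j k (Ne.symm hk) y hy)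
    rw [← hfix j x hx]
    exact LinearMap.mem_ker.1 (h1 hx')
  have htop : (⨆ j, LinearMap.range (ε j)) = ⊤ := by
    rw [eq_top_iff]
    intro x _
    have h1 : x = ∑ j, ε j x := by
      rw [← LinearMap.sum_apply, hsum]
      rfl
    rw [h1]
    exact Submodule.sum_mem _ fun j _ => Submodule.mem_iSup_of_mem j ⟨x, rfl⟩
  have hint := DirectSum.isInternal_submodule_of_iSupIndep_of_iSup_eq_top hind htop
  refine ⟨hint.collectedBasis fun j => finBasis K (LinearMap.range (ε j)), fun v c => ?_⟩
  have hv := hint.collectedBasis_mem (fun j => finBasis K (LinearMap.range (ε j))) v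
  rw [LinearMap.sum_apply, Finset.sum_eq_single v.1]
  · rw [LinearMap.smul_apply, hfix v.1 _ hv]
  · intro k _ hk
    rw [LinearMap.smul_apply, hkill k v.1 hk _ hv, smul_zero]
  · intro hj
    exact absurd (Finset.mem_univ _) hj

end

theorem tCnA : S_CnA := by
  classical
  intro K V _ _ _ _ _ form C N st ε halt hnd hC A z hA hz hrel n i x hx hk
  have hst : Function.Involutive st := hC.inv
  obtain ⟨e, he⟩ := CnA_basis hC.idem hC.orth hC.sum
  set d : Fin N → ℕ := fun j => finrank K (LinearMap.range (ε j)) with hd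
  have htr : ∀ j, LinearMap.trace K V (ε j) = (d j : K) := fun j => RelM.trace_idem (hC.idem j)
  have hdst : ∀ j, d (st j) = d j := by
    intro j
    have h1 : RelM.Adj form (ε j) (ε (st j)) := hC.adj j
    have h2 := h1.trace hnd
    rw [htr, htr] at h2
    exact_mod_cast h2
  have hd0 : ∀ j, d j ≠ 0 := by
    intro j h0
    have h1 : LinearMap.range (ε j) = ⊥ := Submodule.finrank_eq_zero.1 h0
    exact hC.ne j (LinearMap.range_eq_bot.1 h1)
  -- the adjoint of a combination
  have hadj : ∀ (c : Fin N → K) (x y : V), form ((∑ j, c j • ε j) x) y =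
      form x ((∑ j, c (st j) • ε j) y) := by
    intro c x y
    have h1 : ∑ j, c (st j) • ε j = ∑ j, c j • ε (st j) := by
      rw [← (Equiv.sum_comp hst.toPerm fun j => c (st j) • ε j)]
      refine Finset.sum_congr rfl fun j _ => ?_
      simp only [Function.Involutive.coe_toPerm, hC.inv]
    rw [h1, LinearMap.sum_apply, LinearMap.sum_apply, map_sum, map_sum, LinearMap.sum_apply]
    refine Finset.sum_congr rfl fun j _ => ?_
    rw [LinearMap.smul_apply, LinearMap.smul_apply, map_smul, map_smul, LinearMap.smul_apply,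
      hC.adj]
  have hskew : ∀ c : Fin N → K, Skew form (∑ j, c j • ε j) → ∀ j, c (st j) = - c j := by
    intro c hc j
    have h1 : ∑ j, (c (st j) + c j) • ε j = 0 := by
      refine LinearMap.ext fun y => ?_
      refine hnd _ fun w => ?_
      have h2 := hc w y
      rw [hadj, ← map_add, ← LinearMap.add_apply, ← Finset.sum_add_distrib] at h2
      have h3 : ∑ j, (c (st j) + c j) • ε j = ∑ j, (c (st j) • ε j + c j • ε j) :=
        Finset.sum_congr rfl fun j _ => add_smul _ _ _
      rw [h3]
      have h4 : ∀ u v : V, form u v = - form v u := by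
        intro u v
        have h5 := halt (u + v)
        have h6 : form (u + v) (u + v) = form u u + form u v + (form v u + form v v) := by
          rw [LinearMap.map_add₂, map_add, map_add]
        rw [h6, halt, halt, zero_add, add_zero] at h5
        exact eq_neg_of_add_eq_zero_left h5
      rw [h4, h2, neg_zero]
    exact eq_neg_of_add_eq_zero_left
      (CnA_coef hC.ne hC.idem hC.orth (fun j => c (st j) + c j) h1 j)
  have hskew' : ∀ c : Fin N → K, (∀ j, c (st j) = - c j) → Skew form (∑ j, c j • ε j) := by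
    intro c hc x y
    rw [hadj]
    have h1 : ∑ j, c (st j) • ε j = - ∑ j, c j • ε j := by
      rw [← Finset.sum_neg_distrib]
      exact Finset.sum_congr rfl fun j _ => by rw [hc, neg_smul]
    rw [h1, LinearMap.neg_apply, map_neg, neg_add_cancel]
  have htc : ∀ (c : Fin N → K) (j : Fin N), LinearMap.trace K V (ε j * ∑ k, c k • ε k) =
      c j * (d j : K) := by
    intro c j
    have h1 : ε j * ∑ k, c k • ε k = c j • ε j := by
      rw [Finset.mul_sum, Finset.sum_eq_single j]
      · rw [mul_smul_comm, hC.idem]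
      · intro k _ hk
        rw [mul_smul_comm, hC.orth j k (Ne.symm hk), smul_zero]
      · intro hj
        exact absurd (Finset.mem_univ j) hj
    rw [h1, map_smul, htr, smul_eq_mul]
  -- coefficients
  have hex : ∀ a : A, ∃ c : Fin N → K, a.1 = ∑ j, c j • ε j := fun a =>
    hC.all a.1 (hA a.1 a.2).1 (hA a.1 a.2).2.1
  choose c hc using hex
  obtain ⟨t, ht⟩ := hC.all z hz.1 hz.2.1
  have hcs : ∀ a j, c a (st j) = - c a j := fun a => hskew (c a) (by
    rw [← hc a]
    exact (hA a.1 a.2).2.2)
  have hts : ∀ j, t (st j) = - t j := hskew t (by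
    rw [← ht]
    exact hz.2.2)
  refine Dv_kills e (fun a : A => a.1) (fun a v => c a v.1) (fun a v => ?_) z (fun v => t v.1)
    (fun v => ?_) n i ?_ x hx fun a => hk a.1 a.2
  · rw [hc a]
    exact he v (c a)
  · rw [ht]
    exact he v t
  · intro m _ hm
    set M : Fin N → ℕ := fun j => ∑ k, m ⟨j, k⟩ with hM
    have hsum : ∀ u : Fin N → K, ∑ v, (m v : K) * u v.1 = ∑ j, (M j : K) * u j := by
      intro u
      rw [Fintype.sum_sigma]
      refine Finset.sum_congr rfl fun j _ => ?_
      rw [hM]
      push_cast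
      rw [Finset.sum_mul]
    set P : Fin N → ℤ := fun j => ∏ k ∈ Finset.univ.erase j, (d k : ℤ) with hP
    set D : ℤ := ∏ k, (d k : ℤ) with hD
    have hPD : ∀ j, P j * (d j : ℤ) = D := fun j => by
      rw [hP, hD]
      exact Finset.prod_erase_mul _ _ (Finset.mem_univ j)
    have hD0 : D ≠ 0 := Finset.prod_ne_zero_iff.2 fun j _ => by exact_mod_cast hd0 j
    have hPst : ∀ j, P (st j) = P j := by
      intro j
      have h1 := hPD (st j)
      rw [hdst, ← hPD j] at h1
      exact mul_right_cancel₀ (by exact_mod_cast hd0 j) h1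
    set s : Fin N → ℤ := fun j => P j * ((M j : ℤ) - M (st j)) with hs
    have hsst : ∀ j, s (st j) = - s j := by
      intro j
      simp only [hs, hPst, hC.inv]
      ring
    have hkey : ∀ u : Fin N → K, (∀ j, u (st j) = - u j) →
        ∑ j, (s j : K) * LinearMap.trace K V (ε j * ∑ k, u k • ε k) =
          2 * (D : K) * ∑ j, (M j : K) * u j := by
      intro u hu
      have h1 : ∀ j, (s j : K) * LinearMap.trace K V (ε j * ∑ k, u k • ε k) =
          (D : K) * ((M j : K) * u j) + (D : K) * ((M (st j) : K) * u (st j)) := by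
        intro j
        rw [htc, hu, ← hPD j, hs]
        push_cast
        ring
      rw [Finset.sum_congr rfl fun j _ => h1 j, Finset.sum_add_distrib, ← Finset.mul_sum,
        ← Finset.mul_sum]
      have h2 : ∑ j, (M (st j) : K) * u (st j) = ∑ j, (M j : K) * u j :=
        Equiv.sum_comp hst.toPerm fun j => (M j : K) * u j
      rw [h2]
      ring
    have h1 := hrel s (hskew' (fun j => (s j : K)) fun j => by rw [hsst]; push_cast; rfl)
      fun a ha => by
        have h2 := hkey (c ⟨a, ha⟩) (hcs ⟨a, ha⟩)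
        rw [← hc ⟨a, ha⟩] at h2
        change ∑ j, (s j : K) * LinearMap.trace K V (ε j * a) = _ at h2
        rw [h2, ← hsum, hm ⟨a, ha⟩, mul_zero]
    have h3 := hkey t hts
    rw [← ht, h1] at h3
    rw [hsum]
    exact (mul_eq_zero.1 h3.symm).resolve_left
      (mul_ne_zero two_ne_zero (by exact_mod_cast hD0))

end Pool.Agent.Lib.MP_640417_ag.Mt
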