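import Pool.Agent.Lib.MP_640417_ag.Mt.SpecC

/-! # MP_640417_ag, Mt, module Csy: the primitive central idempotents (helper51) -/

set_option autoImplicit false

namespace Pool.Agent.Lib.MP_640417_ag.Mt

open Module TensorProduct Pool.Agent.Lib.MP_640417_ag Pool.Agent.Lib.MP_640417_ag.Dfr
  Pool.Agent.Lib.MP_640417_ag.Dfr.RelM
  Pool.Agent.Lib.MP_640417_ag.Lef

/-- A reduced finite commutative algebra over an algebraically closed field. -/
private theorem Csy_gen (K : Type) [Field K] [IsAlgClosed K] (R : Type) [CommRing R]
    [Algebra K R] [Module.Finite K R] [IsReduced R] :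
    ∃ (N : ℕ) (e : Fin N → R), (∀ j, e j ≠ 0) ∧ (∀ j, e j * e j = e j) ∧
      (∀ j k, j ≠ k → e j * e k = 0) ∧ ∑ j, e j = 1 ∧
      ∀ z, ∃ t : Fin N → K, z = ∑ j, t j • e j := by
  classical
  have hA : IsArtinianRing R := IsArtinianRing.of_finite K R
  have hfin : Finite (MaximalSpectrum R) := inferInstance
  have hft : Fintype (MaximalSpectrum R) := Fintype.ofFinite _
  let Φ := IsArtinianRing.equivPi R
  let g : Fin (Fintype.card (MaximalSpectrum R)) ≃ MaximalSpectrum R :=
    (Fintype.equivFin (MaximalSpectrum R)).symm
  let s : (I : MaximalSpectrum R) → ((J : MaximalSpectrum R) → R ⧸ J.asIdeal) :=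
    fun I => Pi.single I 1
  have hnt : ∀ I : MaximalSpectrum R, Nontrivial (R ⧸ I.asIdeal) := fun I =>
    Ideal.Quotient.nontrivial_iff.mpr I.isMaximal.ne_top
  refine ⟨Fintype.card (MaximalSpectrum R), fun j => Φ.symm (s (g j)), ?_, ?_, ?_, ?_, ?_⟩
  · intro j h0
    have h1 : s (g j) = 0 := by
      have h2 := congrArg Φ h0
      rw [AlgEquiv.apply_symm_apply, map_zero] at h2
      exact h2
    have h2 := congrFun h1 (g j)
    have h3 : s (g j) (g j) = 1 := Pi.single_eq_same _ _
    rw [h3] at h2
    have := hnt (g j)
    exact one_ne_zero h2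
  · intro j
    rw [← map_mul]
    congr 1
    show Pi.single (g j) 1 * Pi.single (g j) 1 = Pi.single (g j) 1
    rw [← Pi.single_mul, mul_one]
  · intro j k hjk
    rw [← map_mul]
    have h1 : s (g j) * s (g k) = 0 := by
      funext J
      rw [Pi.mul_apply, Pi.zero_apply]
      by_cases h : J = g j
      · have h2 : s (g k) J = 0 := Pi.single_eq_of_ne (by
          rw [h]
          exact fun h3 => hjk (g.injective h3)) _
        rw [h2, mul_zero]
      · have h2 : s (g j) J = 0 := Pi.single_eq_of_ne h _
        rw [h2, zero_mul]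
    rw [h1, map_zero]
  · rw [← map_sum]
    have h1 : ∑ j, s (g j) = 1 := by
      rw [Equiv.sum_comp g s]
      exact Finset.univ_sum_single (1 : (J : MaximalSpectrum R) → R ⧸ J.asIdeal)
    rw [h1, map_one]
  · intro z
    have hsurj : ∀ I : MaximalSpectrum R, ∃ t : K, algebraMap K (R ⧸ I.asIdeal) t =
        Ideal.Quotient.mk I.asIdeal z := by
      intro I
      have hm := I.isMaximal
      have hf : Module.Finite K (R ⧸ I.asIdeal) := inferInstance
      have hdom : IsDomain (R ⧸ I.asIdeal) := Ideal.Quotient.isDomain I.asIdeal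
      have hint : Algebra.IsIntegral K (R ⧸ I.asIdeal) := Algebra.IsIntegral.of_finite K _
      exact (IsAlgClosed.algebraMap_bijective_of_isIntegral (k := K) (K := R ⧸ I.asIdeal)).2 _
    choose t ht using hsurj
    refine ⟨fun j => t (g j), ?_⟩
    apply Φ.injective
    have h1 : Φ (∑ j, t (g j) • Φ.symm (s (g j))) = ∑ j, t (g j) • s (g j) := by
      rw [map_sum]
      refine Finset.sum_congr rfl fun j _ => ?_
      have h2 : t (g j) • Φ.symm (s (g j)) = (algebraMap K R (t (g j))) • Φ.symm (s (g j)) := by
        rw [algebraMap_smul]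
      rw [h2, map_smul, AlgEquiv.apply_symm_apply, algebraMap_smul]
    rw [h1, Equiv.sum_comp g (fun I => t I • s I)]
    funext J
    rw [Finset.sum_apply, Finset.sum_eq_single J]
    · rw [Pi.smul_apply]
      have h3 : s J J = 1 := Pi.single_eq_same _ _
      rw [h3, ← Algebra.algebraMap_eq_smul_one, ht J]
      rfl
    · intro I _ hIJ
      rw [Pi.smul_apply]
      have h3 : s I J = 0 := Pi.single_eq_of_ne (fun h => hIJ h.symm) _
      rw [h3, smul_zero]
    · intro h
      exact absurd (Finset.mem_univ J) h

variable {K V : Type} [Field K] [AddCommGroup V] [Module K V]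
  {form : LinearMap.BilinForm K V}

private theorem Csy_symm (halt : ∀ x, form x x = 0) {A A' : Module.End K V}
    (h : Adj form A A') : Adj form A' A := by
  intro x y
  rw [anti' halt, ← h, anti' halt, neg_neg]

/-- The adjoint of a central element is central. -/
private theorem Csy_cen (halt : ∀ x, form x x = 0) (hnd : ∀ x, (∀ y, form x y = 0) → x = 0)
    {C : Subalgebra K (Module.End K V)} (hC : AdjC form C) {a a' : Module.End K V}
    (ha : ∀ c ∈ C, c * a = a * c) (h : Adj form a a') : ∀ c ∈ C, c * a' = a' * c := by
  intro c hc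
  obtain ⟨c', hc', h1⟩ := hC c hc
  have h2 : Adj form c' c := Csy_symm halt h1
  have h3 : Adj form (a * c') (c * a') := Adj.mul h h2
  have h4 : Adj form (c' * a) (a' * c) := Adj.mul h2 h
  rw [ha c' hc'] at h4
  exact Adj.unique halt hnd h3 h4

/-- MODULE `Csy`. The primitive central idempotents. -/
theorem tCsy : S_Csy := by
  intro K V _ _ _ _ _ _ form C halt hnd hreg hadj
  have hfC : FiniteDimensional K C := inferInstance
  have hfin : Module.Finite K (Subalgebra.center K C) :=
    FiniteDimensional.finiteDimensional_subalgebra (Subalgebra.center K C)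
  have hcen : ∀ z : Subalgebra.center K C, ∀ c ∈ C, c * ((z : C) : Module.End K V) =
      ((z : C) : Module.End K V) * c := by
    intro z c hc
    have h1 := (Subalgebra.mem_center_iff.mp z.2) ⟨c, hc⟩
    exact congrArg (fun w : C => (w : Module.End K V)) h1
  have hred : IsReduced (Subalgebra.center K C) := by
    rw [isReduced_iff_pow_one_lt 2 one_lt_two]
    intro z hz
    have hz' : ((z : C) : Module.End K V) * ((z : C) : Module.End K V) = 0 := by
      rw [pow_two] at hz
      exact congrArg (fun w : Subalgebra.center K C => ((w : C) : Module.End K V)) hz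
    obtain ⟨d, hd, h1⟩ := hreg _ (z : C).2
    have h2 : ((z : C) : Module.End K V) = 0 := by
      rw [← h1, mul_assoc, hcen z d hd, ← mul_assoc, hz', zero_mul]
    exact Subtype.ext (Subtype.ext h2)
  obtain ⟨N, e, e1, e2, e3, e4, e5⟩ := Csy_gen K (Subalgebra.center K C)
  let ε : Fin N → Module.End K V := fun j => ((e j : C) : Module.End K V)
  have εmem : ∀ j, ε j ∈ C := fun j => (e j : C).2
  have εcen : ∀ j, ∀ c ∈ C, c * ε j = ε j * c := fun j => hcen (e j)
  have εne : ∀ j, ε j ≠ 0 := fun j h => e1 j (Subtype.ext (Subtype.ext h))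
  have εidem : ∀ j, ε j * ε j = ε j := fun j =>
    congrArg (fun w : Subalgebra.center K C => ((w : C) : Module.End K V)) (e2 j)
  have εorth : ∀ j k, j ≠ k → ε j * ε k = 0 := fun j k h =>
    congrArg (fun w : Subalgebra.center K C => ((w : C) : Module.End K V)) (e3 j k h)
  have εsum : ∑ j, ε j = 1 := by
    have h1 := congrArg (fun w : Subalgebra.center K C => ((w : C) : Module.End K V)) e4
    simp only [AddSubmonoidClass.coe_finsetSum] at h1
    exact h1
  have εall : ∀ z ∈ C, (∀ c ∈ C, c * z = z * c) → ∃ t : Fin N → K, z = ∑ j, t j • ε j := by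
    intro z hz hc
    have h0 : (⟨z, hz⟩ : C) ∈ Subalgebra.center K C := by
      rw [Subalgebra.mem_center_iff]
      intro b
      exact Subtype.ext (hc b.1 b.2)
    obtain ⟨t, ht⟩ := e5 ⟨⟨z, hz⟩, h0⟩
    refine ⟨t, ?_⟩
    have h1 := congrArg (fun w : Subalgebra.center K C => ((w : C) : Module.End K V)) ht
    simp only [AddSubmonoidClass.coe_finsetSum] at h1
    exact h1
  -- multiplication of combinations
  have hmul : ∀ (t : Fin N → K) (i : Fin N), ε i * ∑ j, t j • ε j = t i • ε i := by
    intro t i
    rw [Finset.mul_sum, Finset.sum_eq_single i]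
    · rw [mul_smul_comm, εidem]
    · intro j _ hj
      rw [mul_smul_comm, εorth i j (Ne.symm hj), smul_zero]
    · intro h
      exact absurd (Finset.mem_univ i) h
  -- the permutation
  have hst : ∀ j, ∃ i, Adj form (ε j) (ε i) := by
    intro j
    obtain ⟨a', ha'C, ha'⟩ := hadj (ε j) (εmem j)
    have ha : Adj form (ε j) a' := ha'
    have has : Adj form a' (ε j) := Csy_symm halt ha
    obtain ⟨t, ht⟩ := εall a' ha'C (Csy_cen halt hnd hadj (εcen j) ha)
    have hidem : a' * a' = a' := by
      have h1 := Adj.mul ha ha
      rw [εidem] at h1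
      exact Adj.unique halt hnd h1 ha
    have hne : a' ≠ 0 := by
      intro h0
      apply εne j
      have h1 : Adj form a' 0 := by
        rw [h0]
        intro x y
        rw [LinearMap.zero_apply, map_zero, LinearMap.zero_apply, LinearMap.zero_apply, map_zero]
      exact Adj.unique halt hnd has h1
    -- some coefficient does not vanish
    obtain ⟨i, hi⟩ : ∃ i, t i ≠ 0 := by
      by_contra hcon
      push Not at hcon
      apply hne
      rw [ht]
      refine Finset.sum_eq_zero fun m _ => ?_
      rw [hcon m, zero_smul]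
    have hi1 : ε i * a' = t i • ε i := by rw [ht]; exact hmul t i
    have hti : t i = 1 := by
      have h1 : ε i * (a' * a') = t i • ε i := by rw [hidem, hi1]
      rw [← mul_assoc, hi1, smul_mul_assoc, hi1, smul_smul] at h1
      have h2 : (t i * t i - t i) • ε i = 0 := by rw [sub_smul, h1, sub_self]
      rcases smul_eq_zero.mp h2 with h3 | h3
      · have h4 : t i * (t i - 1) = 0 := by linear_combination h3
        rcases mul_eq_zero.mp h4 with h5 | h5
        · exact absurd h5 hi
        · exact sub_eq_zero.mp h5
      · exact absurd h3 (εne i)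
    rw [hti, one_smul] at hi1
    -- the adjoint of `ε i`
    obtain ⟨b', hb'C, hb'⟩ := hadj (ε i) (εmem i)
    have hb : Adj form (ε i) b' := hb'
    have hbs : Adj form b' (ε i) := Csy_symm halt hb
    have h5 : ε j * b' = b' := by
      have h6 := Adj.mul hb has
      rw [hi1] at h6
      exact Adj.unique halt hnd h6 hb
    obtain ⟨u, hu⟩ := εall b' hb'C (Csy_cen halt hnd hadj (εcen i) hb)
    have h7 : b' = u j • ε j := by
      rw [← h5]
      conv_lhs => rw [hu]
      exact hmul u j
    have hbidem : b' * b' = b' := by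
      have h1 := Adj.mul hb hb
      rw [εidem] at h1
      exact Adj.unique halt hnd h1 hb
    have huj : u j = 1 := by
      rw [h7, smul_mul_smul_comm, εidem] at hbidem
      have h2 : (u j * u j - u j) • ε j = 0 := by rw [sub_smul, hbidem, sub_self]
      rcases smul_eq_zero.mp h2 with h3 | h3
      · have h4 : u j * (u j - 1) = 0 := by linear_combination h3
        rcases mul_eq_zero.mp h4 with h8 | h8
        · exfalso
          rw [h8, zero_smul] at h7
          apply εne i
          have h9 : Adj form b' 0 := by
            rw [h7]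
            intro x y
            rw [LinearMap.zero_apply, map_zero, LinearMap.zero_apply, LinearMap.zero_apply,
              map_zero]
          exact Adj.unique halt hnd hbs h9
        · exact sub_eq_zero.mp h8
      · exact absurd h3 (εne j)
    rw [huj, one_smul] at h7
    rw [h7] at hbs
    exact ⟨i, hbs⟩
  choose st hst using hst
  have εinj : ∀ i j, ε i = ε j → i = j := by
    intro i j h
    by_contra hne
    apply εne i
    have h1 := εorth i j hne
    rw [← h, εidem] at h1
    exact h1
  refine ⟨N, st, ε, εmem, εcen, εne, εidem, εorth, εsum, fun j => ?_, fun j => hst j, εall⟩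
  exact (εinj _ _ (Adj.unique halt hnd (Csy_symm halt (hst j)) (hst (st j)))).symm

end Pool.Agent.Lib.MP_640417_ag.Mt
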