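import Pool.Agent.Lib.MP_640417_ag.Mt.SpecC

/-!
# MP_640417_ag, Mt, module `El`: the relations of a Frobenius element
-/

set_option autoImplicit false

namespace Pool.Agent.Lib.MP_640417_ag.Mt

open Module TensorProduct Pool.Agent.Lib.MP_640417_ag Pool.Agent.Lib.MP_640417_ag.Frob
  Pool.Agent.Lib.MP_640417_ag.Four Pool.Agent.Lib.MP_640417_ag.Ty
  Pool.Agent.Lib.MP_640417_ag.Lef Pool.Agent.Lib.MP_640417_ag.Dfr Pool.Agent.Lib.MP_640417_ag.Wn

private theorem El_trace {K V : Type} [Field K] [CharZero K] [AddCommGroup V] [Module K V]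
    [FiniteDimensional K V] {form : LinearMap.BilinForm K V} {C : Subalgebra K (Module.End K V)}
    (hnd : ∀ x, (∀ y, form x y = 0) → x = 0) {N : ℕ} {st : Fin N → Fin N} {ε : Fin N → Module.End K V}
    (hS : CSys form C N st ε) {t : Fin N → ℤ} (ht : Skew form (∑ i, (t i : K) • ε i)) :
    ∑ i, t i * ((finrank K (LinearMap.range (ε i)) : ℕ) : ℤ) = 0 := by
  obtain ⟨z, hz⟩ : ∃ z, z = ∑ i, (t i : K) • ε i := ⟨_, rfl⟩
  have hzs : RelM.Adj form z (-z) := by
    intro x y
    have h := ht x y
    rw [← hz] at h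
    rw [LinearMap.neg_apply, map_neg]
    exact eq_neg_of_add_eq_zero_left h
  have h1 := hzs.trace hnd
  rw [map_neg] at h1
  have h2 : LinearMap.trace K V z = 0 := by
    have h3 : (2 : K) * LinearMap.trace K V z = 0 := by linear_combination -h1
    exact (mul_eq_zero.mp h3).resolve_left two_ne_zero
  rw [hz, map_sum] at h2
  have h3 : ((∑ i, t i * ((finrank K (LinearMap.range (ε i)) : ℕ) : ℤ) : ℤ) : K) = 0 := by
    rw [← h2]
    push_cast
    refine Finset.sum_congr rfl fun i _ => ?_
    rw [map_smul, RelM.trace_idem (hS.idem i), smul_eq_mul]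
  exact_mod_cast h3

theorem tEl : S_El := by
  intro F V _ _ _ _ _ _ Γ _ _ ρ hfull N st ε hS
  classical
  refine ⟨ord (finrank F V ^ finrank F V), finrank F V ^ finrank F V * finrank F V,
    pow_pos (Nat.factorial_pos _) _, ?_⟩
  rintro γ ⟨p, P, hF, hnorm⟩
  have hPm : P.Monic := by
    apply Polynomial.monic_of_injective (f := Int.castRingHom F) Int.cast_injective
    rw [← hF.charpoly]
    exact LinearMap.charpoly_monic _
  have hPd : P.natDegree = finrank F V := by
    rw [← Polynomial.natDegree_map_eq_of_injective (f := Int.castRingHom F) Int.cast_injective,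
      ← hF.charpoly, LinearMap.charpoly_natDegree]
  obtain ⟨A, hA⟩ : ∃ A, A = (ρ.T γ).baseChange (AlgebraicClosure F) := ⟨_, rfl⟩
  rw [← hA]
  have hcomm : ∀ i, ε i * A = A * ε i := by
    intro i
    rw [hA]
    exact comK_full ρ hfull (hS.mem i) γ
  choose R hRc hRe hRd using fun i => exists_roots (hS.idem i) (hcomm i)
  have hRP : ∀ i, ∀ z ∈ R i, Polynomial.aeval z P = 0 := by
    intro i z hz
    have h1 := hRe i z hz
    rw [hA] at h1
    exact elt_roots (ρ.T γ) hF.charpoly h1
  choose D hDR hDW using fun i => weil_prod hPm hF.prime hnorm (R i) (hRP i)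
  obtain ⟨hfin, hdeg⟩ := rootField_finite (AlgebraicClosure F) hPm
  have hNF : NumberField (rootField (AlgebraicClosure F) P) :=
    { to_charZero := inferInstance
      to_finiteDimensional := by convert hfin }
  have hdeg' : finrank ℚ (rootField (AlgebraicClosure F) P) ≤ finrank F V ^ finrank F V := by
    rw [hPd] at hdeg
    convert hdeg
  have hm : ∀ i, Multiset.card (R i) ≤ finrank F V := by
    intro i
    rw [hRc]
    refine (Submodule.finrank_le _).trans ?_
    rw [Module.finrank_baseChange]
  have hDp : ∀ t : Fin N → ℤ, detProd ε t A =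
      ((∏ i, D i ^ t i : rootField (AlgebraicClosure F) P) : AlgebraicClosure F) := by
    intro t
    rw [detProd]
    push_cast
    refine Finset.prod_congr rfl fun i _ => ?_
    rw [hRd, ← hDR]
    exact (map_zpow₀ (algebraMap (rootField (AlgebraicClosure F) P) (AlgebraicClosure F)) (D i)
      (t i)).symm
  refine ⟨valSet D (finrank F V ^ finrank F V * finrank F V), fun t ht => ?_⟩
  have ht0 : ∑ i, t i * ((Multiset.card (R i) : ℕ) : ℤ) = 0 := by
    rw [← El_trace (nondeg_baseChange (AlgebraicClosure F) ρ.form ρ.form_alt ρ.form_nondeg) hS ht]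
    exact Finset.sum_congr rfl fun i _ => by rw [hRc]
  have hiff := root_iff (M := finrank F V ^ finrank F V * finrank F V) hF.prime hDW
    (fun i => Nat.mul_le_mul hdeg' (hm i)) t ht0
  constructor
  · intro n hn h1
    apply hiff.mp
    refine ⟨n, hn, ?_⟩
    rw [hDp] at h1
    exact_mod_cast h1
  · intro h1
    obtain ⟨n, hn, hn1⟩ := hiff.mpr h1
    have h2 := pow_ord hdeg' _ hn hn1
    rw [hDp]
    exact_mod_cast h2

end Pool.Agent.Lib.MP_640417_ag.Mt
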