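import Pool.Agent.Lib.MP_640417_ag.Mt.SpecC

/-!
# MP_640417_ag, Mt, module `Fm`: every relation is one between the primitive central idempotents
-/

set_option autoImplicit false
set_option linter.unusedSectionVars false

namespace Pool.Agent.Lib.MP_640417_ag.Mt

open Module TensorProduct Pool.Agent.Lib.MP_640417_ag Pool.Agent.Lib.MP_640417_ag.Frob
  Pool.Agent.Lib.MP_640417_ag.Four Pool.Agent.Lib.MP_640417_ag.Ty
  Pool.Agent.Lib.MP_640417_ag.Lef Pool.Agent.Lib.MP_640417_ag.Dfr

section

variable {K V : Type} [Field K] [CharZero K] [AddCommGroup V] [Module K V] [FiniteDimensional K V]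
  {form : LinearMap.BilinForm K V} {C : Subalgebra K (Module.End K V)} {N : ℕ} {st : Fin N → Fin N}
  {ε : Fin N → Module.End K V}

private theorem Fm_det_sum (hS : CSys form C N st ε) {g : Module.End K V}
    (hg : ∀ c ∈ C, c * g = g * c) (S : Finset (Fin N)) :
    LinearMap.det ((∑ i ∈ S, ε i) * g + (1 - ∑ i ∈ S, ε i)) =
      ∏ i ∈ S, LinearMap.det (ε i * g + (1 - ε i)) := by
  classical
  induction S using Finset.induction_on with
  | empty =>
    rw [Finset.sum_empty, Finset.prod_empty, zero_mul, zero_add, sub_zero, map_one]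
  | insert i S hi ih =>
    rw [Finset.sum_insert hi, Finset.prod_insert hi, ← ih, ← map_mul]
    congr 1
    have h1 : ε i * ∑ j ∈ S, ε j = 0 := by
      rw [Finset.mul_sum]
      refine Finset.sum_eq_zero fun j hj => hS.orth i j ?_
      rintro rfl
      exact hi hj
    have h2 : (∑ j ∈ S, ε j) * g = g * ∑ j ∈ S, ε j := by
      rw [Finset.sum_mul, Finset.mul_sum]
      exact Finset.sum_congr rfl fun j _ => hg _ (hS.mem j)
    generalize ∑ j ∈ S, ε j = f at h1 h2
    generalize ε i = e at h1
    have h4 : e * g * f = 0 := by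
      rw [mul_assoc, ← h2, ← mul_assoc, h1, zero_mul]
    have h5 : e * g * (f * g) = 0 := by
      rw [← mul_assoc, h4, zero_mul]
    have h6 : e * (f * g) = 0 := by
      rw [← mul_assoc, h1, zero_mul]
    simp only [add_mul, mul_add, sub_mul, mul_sub, one_mul, mul_one, h1, h4, h5, h6]
    abel

private theorem Fm_det_ne0 (hS : CSys form C N st ε) {g : Module.End K V}
    (hg : ∀ c ∈ C, c * g = g * c) (hu : IsUnit g) (i : Fin N) :
    LinearMap.det (ε i * g + (1 - ε i)) ≠ 0 := by
  obtain ⟨h, hgh⟩ := hu.exists_right_inv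
  intro h0
  have h1 := bai_mul (h := h) (hS.idem i) (hg _ (hS.mem i))
  rw [hgh, bai_one, h0, zero_mul] at h1
  exact one_ne_zero h1

private theorem Fm_zpow_sum {a : K} (ha : a ≠ 0) {ι : Type} (S : Finset ι) (f : ι → ℤ) :
    a ^ (∑ j ∈ S, f j) = ∏ j ∈ S, a ^ f j := by
  classical
  induction S using Finset.induction_on with
  | empty => simp
  | insert j S hj ih => rw [Finset.sum_insert hj, Finset.prod_insert hj, zpow_add₀ ha, ih]

omit [FiniteDimensional K V] [CharZero K] in
private theorem Fm_exists_fin (hS : CSys form C N st ε) {p : Module.End K V} (hmem : p ∈ C)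
    (hcen : ∀ c ∈ C, c * p = p * c) (hid : p * p = p) : ∃ S : Finset (Fin N), p = ∑ i ∈ S, ε i := by
  classical
  obtain ⟨t, ht⟩ := hS.all p hmem hcen
  have h2 : ∀ i, p * ε i = 0 ∨ p * ε i = ε i := by
    intro i
    have h3 : p * ε i = t i • ε i := by
      rw [ht, Finset.sum_mul, Finset.sum_eq_single i]
      · rw [smul_mul_assoc, hS.idem]
      · intro j _ hj
        rw [smul_mul_assoc, hS.orth j i hj, smul_zero]
      · intro h
        exact absurd (Finset.mem_univ i) h
    have h5 : p * (p * ε i) = p * ε i := by rw [← mul_assoc, hid]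
    rw [h3, mul_smul_comm, h3, smul_smul] at h5
    rcases bai_t (hS.ne i) h5 with h | h
    · left
      rw [h3, h, zero_smul]
    · right
      rw [h3, h, one_smul]
  refine ⟨Finset.univ.filter fun i => p * ε i = ε i, ?_⟩
  rw [Finset.sum_filter]
  calc p = p * ∑ i, ε i := by rw [hS.sum, mul_one]
    _ = ∑ i, p * ε i := Finset.mul_sum _ _ _
    _ = _ := by
      refine Finset.sum_congr rfl fun i _ => ?_
      by_cases h : p * ε i = ε i
      · rw [if_pos h, h]
      · rw [if_neg h]
        exact (h2 i).resolve_right h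

end

theorem tFm : S_Fm := by
  intro K V _ _ _ _ _ form C N st ε hS k p s hcr
  classical
  choose S hSp using fun j => Fm_exists_fin hS (hcr.mem j) (hcr.cen j) (hcr.idem j)
  have hz : ∑ i, (((∑ j, if i ∈ S j then s j else 0 : ℤ)) : K) • ε i = ∑ j, (s j : K) • p j := by
    have h1 : ∀ i, (((∑ j, if i ∈ S j then s j else 0 : ℤ)) : K) • ε i =
        ∑ j, if i ∈ S j then (s j : K) • ε i else 0 := by
      intro i
      rw [Int.cast_sum, Finset.sum_smul]
      refine Finset.sum_congr rfl fun j _ => ?_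
      split_ifs
      · rfl
      · rw [Int.cast_zero, zero_smul]
    rw [Finset.sum_congr rfl fun i _ => h1 i, Finset.sum_comm]
    refine Finset.sum_congr rfl fun j _ => ?_
    rw [hSp j, Finset.smul_sum, ← Finset.sum_filter]
    refine Finset.sum_congr ?_ fun _ _ => rfl
    ext i
    simp
  refine ⟨fun i => ∑ j, if i ∈ S j then s j else 0, hz, fun g hg hu => ?_⟩
  have h0 := Fm_det_ne0 hS hg hu
  rw [detProd, detProd]
  have h1 : ∀ i, LinearMap.det (ε i * g + (1 - ε i)) ^ (∑ j, if i ∈ S j then s j else 0) =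
      ∏ j, if i ∈ S j then LinearMap.det (ε i * g + (1 - ε i)) ^ s j else 1 := by
    intro i
    rw [Fm_zpow_sum (h0 i)]
    refine Finset.prod_congr rfl fun j _ => ?_
    split_ifs
    · rfl
    · rw [zpow_zero]
  rw [Finset.prod_congr rfl fun i _ => h1 i, Finset.prod_comm]
  refine Finset.prod_congr rfl fun j _ => ?_
  rw [hSp j, Fm_det_sum hS hg, ← Finset.prod_filter, ← Finset.prod_zpow]
  refine Finset.prod_congr ?_ fun _ _ => rfl
  ext i
  simp

end Pool.Agent.Lib.MP_640417_ag.Mt
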