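import Pool.Agent.Lib.MP_640417_ag.Mt.SpecC

/-!
# MP_640417_ag, Mt, module Lgr: relations between traces and between determinants
-/

set_option autoImplicit false

namespace Pool.Agent.Lib.MP_640417_ag.Mt

open Filter Topology Matrix Pool.Agent.Lib.MP_640417_ag.Glob

section fieldK

variable {K : Type} [NontriviallyNormedField K] [IsUltrametricDist K]

/-- the elements of norm at most one -/
private def Lgr_O (K : Type) [NontriviallyNormedField K] [IsUltrametricDist K] : Subring K where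
  carrier := {x | ‖x‖ ≤ 1}
  mul_mem' := by
    intro a b ha hb
    show ‖a * b‖ ≤ 1
    rw [norm_mul]
    exact mul_le_one₀ ha (norm_nonneg _) hb
  one_mem' := by
    show ‖(1 : K)‖ ≤ 1
    rw [norm_one]
  add_mem' := by
    intro a b ha hb
    exact (IsUltrametricDist.norm_add_le_max _ _).trans (max_le ha hb)
  zero_mem' := by
    show ‖(0 : K)‖ ≤ 1
    rw [norm_zero]
    exact zero_le_one
  neg_mem' := by
    intro a ha
    show ‖-a‖ ≤ 1
    rw [norm_neg]
    exact ha

/-- the first order expansion of the determinant -/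
private theorem Lgr_det {I : Type} [Fintype I] [DecidableEq I] {B : Matrix I I K} (hB : Sm 1 B)
    {t : K} (ht : ‖t‖ ≤ 1) : ‖(1 + t • B).det - 1 - t * B.trace‖ ≤ ‖t‖ ^ 2 := by
  let B' : Matrix I I (Lgr_O K) := Matrix.of fun i j => ⟨B i j, hB i j⟩
  let t' : Lgr_O K := ⟨t, ht⟩
  have h := congrArg (Lgr_O K).subtype (Matrix.det_one_add_smul t' B')
  have hB' : B'.map (Lgr_O K).subtype = B := by
    ext i j
    rfl
  have h1 : (Lgr_O K).subtype (1 + t' • B').det = (1 + t • B).det := by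
    rw [RingHom.map_det]
    congr 1
    ext i j
    rw [RingHom.mapMatrix_apply, Matrix.map_apply, Matrix.add_apply, Matrix.add_apply, map_add,
      Matrix.smul_apply, Matrix.smul_apply, smul_eq_mul, smul_eq_mul, map_mul]
    congr 1
    rw [Matrix.one_apply, Matrix.one_apply]
    split_ifs
    · rw [map_one]
    · rw [map_zero]
  have h2 : (Lgr_O K).subtype B'.trace = B.trace := by
    rw [← hB', Matrix.trace, Matrix.trace, map_sum]
    rfl
  rw [h1] at h
  rw [h, map_add, map_add, map_one, map_mul, map_mul, map_pow, h2]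
  set e := Polynomial.eval t' ((1 + (Polynomial.X : Polynomial (Lgr_O K)) •
    B'.map Polynomial.C).det.divX.divX) with he
  have h3 : ‖(Lgr_O K).subtype e‖ ≤ 1 := e.2
  have h4 : (Lgr_O K).subtype t' = t := rfl
  rw [h4]
  have h5 : 1 + B.trace * t + (Lgr_O K).subtype e * t ^ 2 - 1 - t * B.trace =
      (Lgr_O K).subtype e * t ^ 2 := by ring
  rw [h5, norm_mul, norm_pow]
  have h6 : 0 ≤ ‖t‖ ^ 2 := by positivity
  nlinarith

variable (l : ℕ)

/-- `u` is near 1 with logarithm `α` -/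
private def Lg (u α : K) : Prop := ‖u - 1‖ ≤ ‖(l : K)‖ ^ 2 ∧
  Tendsto (fun k : ℕ => ((l : K) ^ k)⁻¹ * (u ^ l ^ k - 1)) atTop (𝓝 α)

variable (hl : ‖(l : K)‖ < 1) (hl0 : (l : K) ≠ 0)

include hl in
private theorem Lg_lt {u α : K} (h : Lg l u α) : ‖u - 1‖ < 1 := by
  have h0 : 0 ≤ ‖(l : K)‖ := norm_nonneg _
  have h1 : ‖(l : K)‖ ^ 2 < 1 := pow_lt_one₀ h0 hl two_ne_zero
  exact lt_of_le_of_lt h.1 h1

include hl in
private theorem Lg_norm {u α : K} (h : Lg l u α) : ‖u‖ = 1 := by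
  have h1 := Lg_lt l hl h
  apply le_antisymm
  · have h2 : u = (u - 1) + 1 := by ring
    rw [h2]
    refine (IsUltrametricDist.norm_add_le_max _ _).trans (max_le h1.le ?_)
    rw [norm_one]
  · by_contra h2
    push Not at h2
    have h3 : (1 : K) = u + -(u - 1) := by ring
    have h4 : ‖(1 : K)‖ ≤ max ‖u‖ ‖-(u - 1)‖ := by
      conv_lhs => rw [h3]
      exact IsUltrametricDist.norm_add_le_max _ _
    rw [norm_one, norm_neg] at h4
    exact absurd h4 (not_le.2 (max_lt h2 h1))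

include hl in
omit [IsUltrametricDist K] in
private theorem Lg_pow_one {u α : K} (hl0 : (l : K) ≠ 0) (h : Lg l u α) :
    Tendsto (fun k : ℕ => u ^ l ^ k) atTop (𝓝 1) := by
  have h1 : Tendsto (fun k : ℕ => (l : K) ^ k) atTop (𝓝 0) :=
    tendsto_pow_atTop_nhds_zero_of_norm_lt_one hl
  have h2 := (h1.mul h.2).add_const 1
  rw [zero_mul, zero_add] at h2
  refine h2.congr fun k => ?_
  rw [← mul_assoc, mul_inv_cancel₀ (pow_ne_zero k hl0), one_mul, sub_add_cancel]

omit [IsUltrametricDist K] in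
private theorem Lg_one : Lg l (1 : K) 0 := by
  refine ⟨by rw [sub_self, norm_zero]; positivity, ?_⟩
  have h : (fun k : ℕ => ((l : K) ^ k)⁻¹ * ((1 : K) ^ l ^ k - 1)) = fun _ => 0 := by
    funext k
    rw [one_pow, sub_self, mul_zero]
  rw [h]
  exact tendsto_const_nhds

include hl hl0 in
private theorem Lg_mul {u v α β : K} (hu : Lg l u α) (hv : Lg l v β) :
    Lg l (u * v) (α + β) := by
  refine ⟨?_, ?_⟩
  · have h1 : u * v - 1 = (u - 1) * v + (v - 1) := by ring
    rw [h1]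
    refine (IsUltrametricDist.norm_add_le_max _ _).trans (max_le ?_ hv.1)
    rw [norm_mul, Lg_norm l hl hv, mul_one]
    exact hu.1
  · have h1 := (hu.2.mul (Lg_pow_one l hl hl0 hv)).add hv.2
    rw [mul_one] at h1
    refine h1.congr fun k => ?_
    rw [mul_pow]
    ring

include hl hl0 in
private theorem Lg_inv {u α : K} (hu : Lg l u α) : Lg l u⁻¹ (-α) := by
  have hn := Lg_norm l hl hu
  have hu0 : u ≠ 0 := by
    intro h
    rw [h, norm_zero] at hn
    exact zero_ne_one hn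
  refine ⟨?_, ?_⟩
  · have h1 : u⁻¹ - 1 = -(u - 1) * u⁻¹ := by
      field_simp
      ring
    rw [h1, norm_mul, norm_neg, norm_inv, hn, inv_one, mul_one]
    exact hu.1
  · have h1 := (hu.2.mul ((Lg_pow_one l hl hl0 hu).inv₀ one_ne_zero)).neg
    rw [inv_one, mul_one] at h1
    refine h1.congr fun k => ?_
    have h2 : u ^ l ^ k ≠ 0 := pow_ne_zero _ hu0
    rw [inv_pow]
    field_simp
    ring

include hl hl0 in
private theorem Lg_pow {u α : K} (hu : Lg l u α) (n : ℕ) : Lg l (u ^ n) (n * α) := by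
  induction n with
  | zero =>
    rw [pow_zero, Nat.cast_zero, zero_mul]
    exact Lg_one l
  | succ n ih =>
    have h := Lg_mul l hl hl0 ih hu
    rw [pow_succ]
    convert h using 1
    push_cast
    ring

include hl hl0 in
private theorem Lg_zpow {u α : K} (hu : Lg l u α) (s : ℤ) : Lg l (u ^ s) (s * α) := by
  rcases Int.eq_nat_or_neg s with ⟨n, rfl | rfl⟩
  · rw [zpow_natCast, Int.cast_natCast]
    exact Lg_pow l hl hl0 hu n
  · rw [_root_.zpow_neg, zpow_natCast, Int.cast_neg, Int.cast_natCast, neg_mul]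
    exact Lg_inv l hl hl0 (Lg_pow l hl hl0 hu n)

include hl hl0 in
private theorem Lg_prod {k : ℕ} (u α : Fin k → K) (h : ∀ j, Lg l (u j) (α j)) :
    Lg l (∏ j, u j) (∑ j, α j) := by
  induction k with
  | zero =>
    rw [Fin.prod_univ_zero, Fin.sum_univ_zero]
    exact Lg_one l
  | succ k ih =>
    rw [Fin.prod_univ_succ, Fin.sum_univ_succ]
    exact Lg_mul l hl hl0 (h 0) (ih _ _ fun j => h j.succ)

include hl hl0 in
private theorem Lg_inj {u : K} (hu : Lg l u 0) : u = 1 := by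
  have h1 : Sm (‖(l : K)‖ ^ 2) (Matrix.diagonal ![u, 1] - 1 : Matrix (Fin 2) (Fin 2) K) := by
    intro i j
    fin_cases i <;> fin_cases j
    · simpa using hu.1
    · simp
    · simp
    · simp
  have h2 : Tendsto (fun k : ℕ => ((l : K) ^ k)⁻¹ •
      ((Matrix.diagonal ![u, 1] : Matrix (Fin 2) (Fin 2) K) ^ l ^ k - 1)) atTop (𝓝 0) := by
    refine tendsto_pi_nhds.2 fun i => tendsto_pi_nhds.2 fun j => ?_
    have h3 : ∀ k : ℕ, (((l : K) ^ k)⁻¹ •
        ((Matrix.diagonal ![u, 1] : Matrix (Fin 2) (Fin 2) K) ^ l ^ k - 1)) i j =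
        if i = 0 ∧ j = 0 then ((l : K) ^ k)⁻¹ * (u ^ l ^ k - 1) else 0 := by
      intro k
      rw [Matrix.diagonal_pow]
      fin_cases i <;> fin_cases j <;> simp
    simp only [h3]
    split_ifs
    · exact hu.2
    · exact tendsto_const_nhds
  have h4 := inj_comm l hl hl0 h1 h2
    (b := (Matrix.single 0 1 1 : Matrix (Fin 2) (Fin 2) K)) (by rw [zero_mul, mul_zero])
  have h5 := congrFun (congrFun h4 0) 1
  simpa [Matrix.mul_apply, Fin.sum_univ_two, Matrix.single] using h5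

private theorem Lgr_pow {R : Type} [Ring R] {p a : R} (hp : p * p = p) (hpa : p * a = a * p)
    (n : ℕ) : (p * a + (1 - p)) ^ n = p * a ^ n + (1 - p) := by
  induction n with
  | zero =>
    rw [pow_zero, pow_zero, mul_one]
    abel
  | succ n ih =>
    have h1 : p * a ^ n * (p * a) = p * a ^ (n + 1) := by
      have h2 : a ^ n * p = p * a ^ n := by
        have h3 : Commute a p := hpa.symm
        exact h3.pow_left n
      rw [mul_assoc, ← mul_assoc (a ^ n), h2, mul_assoc p, ← mul_assoc p p, hp, ← pow_succ]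
    have h2 : p * a ^ n * p = p * a ^ n := by
      have h3 : a ^ n * p = p * a ^ n := by
        have h4 : Commute a p := hpa.symm
        exact h4.pow_left n
      rw [mul_assoc, h3, ← mul_assoc, hp]
    rw [pow_succ, ih, add_mul, mul_add, mul_add, h1]
    have h4 : p * a ^ n * (1 - p) = 0 := by rw [mul_sub, mul_one, h2, sub_self]
    have h5 : (1 - p) * (p * a) = 0 := by
      rw [sub_mul, one_mul, ← mul_assoc, hp, sub_self]
    have h6 : (1 - p) * (1 - p) = 1 - p := by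
      rw [mul_sub, mul_one, sub_mul, one_mul, hp, sub_self, sub_zero]
    rw [h4, h5, h6, add_zero, zero_add]

include hl hl0 in
/-- the logarithm of the determinant on the range of an idempotent -/
private theorem Lgr_core {I : Type} [Fintype I] [DecidableEq I] {r C : ℝ} (hr : 0 ≤ r)
    (hC : 0 ≤ C) (hr2 : r ≤ ‖(l : K)‖ ^ 2) (hrC : C * r ≤ ‖(l : K)‖ ^ 2)
    {p a A : Matrix I I K} (hp : p * p = p) (hpa : p * a = a * p) (hpC : Sm C p)
    (ha : Sm r (a - 1))
    (hA : Tendsto (fun k : ℕ => ((l : K) ^ k)⁻¹ • (a ^ l ^ k - 1)) atTop (𝓝 A)) :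
    Lg l (p * a + (1 - p)).det (p * A).trace := by
  have hn0 : 0 < ‖(l : K)‖ := norm_pos_iff.2 hl0
  set A' : ℕ → Matrix I I K := fun k => ((l : K) ^ k)⁻¹ • (a ^ l ^ k - 1) with hA'
  have hsm : ∀ k, Sm (‖(l : K)‖ ^ 2) (p * A' k) := by
    intro k
    refine Sm_mono hrC (Sm_mul hC hr hpC ?_)
    have h1 := Sm_smul ((l : K) ^ k)⁻¹ (iter l hl hr hr2 ha k).1
    refine Sm_mono (le_of_eq ?_) h1
    rw [norm_inv, norm_pow, ← mul_assoc, inv_mul_cancel₀ (by positivity), one_mul]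
  have hmain : ∀ k, ‖(p * a + (1 - p)).det ^ l ^ k - 1 - (l : K) ^ k * (p * A' k).trace‖ ≤
      ‖(l : K)‖ ^ (2 * k + 4) := by
    intro k
    have hB : Sm 1 (((l : K) ^ 2)⁻¹ • (p * A' k)) := by
      refine Sm_mono (le_of_eq ?_) (Sm_smul (((l : K) ^ 2)⁻¹) (hsm k))
      rw [norm_inv, norm_pow, inv_mul_cancel₀ (by positivity)]
    have ht : ‖(l : K) ^ (k + 2)‖ ≤ 1 := by
      rw [norm_pow]
      exact pow_le_one₀ hn0.le hl.le
    have h1 := Lgr_det hB ht
    have h2 : (1 + (l : K) ^ (k + 2) • (((l : K) ^ 2)⁻¹ • (p * A' k))).det =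
        (p * a + (1 - p)).det ^ l ^ k := by
      rw [← Matrix.det_pow, Lgr_pow hp hpa, smul_smul]
      congr 1
      have h3 : (l : K) ^ (k + 2) * ((l : K) ^ 2)⁻¹ = (l : K) ^ k := by
        rw [pow_add, mul_assoc, mul_inv_cancel₀ (pow_ne_zero _ hl0), mul_one]
      rw [h3, hA']
      simp only
      rw [Matrix.mul_smul, smul_smul, mul_inv_cancel₀ (pow_ne_zero _ hl0), one_smul, mul_sub,
        mul_one]
      abel
    have h4 : (l : K) ^ (k + 2) * (((l : K) ^ 2)⁻¹ • (p * A' k)).trace =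
        (l : K) ^ k * (p * A' k).trace := by
      rw [Matrix.trace_smul, smul_eq_mul, ← mul_assoc, pow_add, mul_assoc ((l : K) ^ k),
        mul_inv_cancel₀ (pow_ne_zero _ hl0), mul_one]
    rw [h2, h4] at h1
    refine h1.trans (le_of_eq ?_)
    rw [norm_pow, ← pow_mul]
    congr 1
    ring
  refine ⟨?_, ?_⟩
  · have h1 := hmain 0
    rw [pow_zero, pow_one, pow_zero, one_mul] at h1
    have h2 : ‖(p * A' 0).trace‖ ≤ ‖(l : K)‖ ^ 2 :=
      IsUltrametricDist.norm_sum_le_of_forall_le_of_nonneg (by positivity) fun i _ => hsm 0 i i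
    have h3 : (p * a + (1 - p)).det - 1 =
        ((p * a + (1 - p)).det - 1 - (p * A' 0).trace) + (p * A' 0).trace := by ring
    rw [h3]
    refine (IsUltrametricDist.norm_add_le_max _ _).trans (max_le (h1.trans ?_) h2)
    exact pow_le_pow_of_le_one hn0.le hl.le (by omega)
  · have h1 : Tendsto (fun k : ℕ => ((l : K) ^ k)⁻¹ * ((p * a + (1 - p)).det ^ l ^ k - 1) -
        (p * A' k).trace) atTop (𝓝 0) := by
      have h2 : Tendsto (fun k : ℕ => ‖(l : K)‖ ^ (k + 4)) atTop (𝓝 0) :=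
        (tendsto_pow_atTop_nhds_zero_of_lt_one hn0.le hl).comp (tendsto_add_atTop_nat 4)
      refine squeeze_zero_norm (fun k => ?_) h2
      have h3 : ((l : K) ^ k)⁻¹ * ((p * a + (1 - p)).det ^ l ^ k - 1) - (p * A' k).trace =
          ((l : K) ^ k)⁻¹ * ((p * a + (1 - p)).det ^ l ^ k - 1 -
            (l : K) ^ k * (p * A' k).trace) := by
        have h4 : ((l : K) ^ k)⁻¹ * (l : K) ^ k = 1 := inv_mul_cancel₀ (pow_ne_zero _ hl0)
        linear_combination (p * A' k).trace * h4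
      rw [h3, norm_mul, norm_inv, norm_pow]
      calc (‖(l : K)‖ ^ k)⁻¹ * _ ≤ (‖(l : K)‖ ^ k)⁻¹ * ‖(l : K)‖ ^ (2 * k + 4) :=
            mul_le_mul_of_nonneg_left (hmain k) (by positivity)
        _ = ‖(l : K)‖ ^ (k + 4) := by
            rw [inv_mul_eq_div, div_eq_iff (by positivity), ← pow_add]
            congr 1
            ring
    have h2 : Tendsto (fun k : ℕ => (p * A' k).trace) atTop (𝓝 (p * A).trace) :=
      ((continuous_id.matrix_trace).tendsto (p * A)).comp (hA.const_mul p)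
    have h3 := h1.add h2
    rw [zero_add] at h3
    refine h3.congr fun k => ?_
    ring

end fieldK

section general

variable {F K : Type} [NontriviallyNormedField F] [IsUltrametricDist F] [CompleteSpace F]
  [CharZero F] [NontriviallyNormedField K] [IsUltrametricDist K] [Algebra F K]

private theorem Lgr_general (hnorm : ∀ x : F, ‖algebraMap F K x‖ = ‖x‖) (l : ℕ)
    (hlF : ‖(l : F)‖ < 1) (hl0F : (l : F) ≠ 0) {Γ : Type} [Group Γ] [TopologicalSpace Γ]
    {I : Type} [Fintype I] [DecidableEq I] (ρ : MRep Γ F I) (k : ℕ)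
    (p : Fin k → Matrix I I K) (s : Fin k → ℤ) (hp : ∀ j, p j * p j = p j)
    (hU : ∃ U : OpenSubgroup Γ, ∀ γ ∈ U, ∀ j, p j * (ρ.M γ).map (algebraMap F K) =
      (ρ.M γ).map (algebraMap F K) * p j)
    (htr : ∀ A ∈ ρ.Zt l, ∑ j, (s j : K) * (p j * A.map (algebraMap F K)).trace = 0) :
    ∃ U : OpenSubgroup Γ, ∀ γ ∈ U,
      ∏ j, (p j * (ρ.M γ).map (algebraMap F K) + (1 - p j)).det ^ s j = 1 := by
  obtain ⟨U0, hU0⟩ := hU
  have hlK' : ‖(l : K)‖ = ‖(l : F)‖ := by
    rw [← hnorm, map_natCast]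
  have hlK : ‖(l : K)‖ < 1 := by rw [hlK']; exact hlF
  have hl0K : (l : K) ≠ 0 := by
    rw [← map_natCast (algebraMap F K)]
    exact (map_ne_zero _).2 hl0F
  have hn0 : 0 < ‖(l : F)‖ := norm_pos_iff.2 hl0F
  -- the constant
  obtain ⟨C, hC1, hC⟩ : ∃ C : ℝ, 1 ≤ C ∧ ∀ j, Sm C (p j) := by
    refine ⟨1 + ∑ j, ∑ a, ∑ b, ‖p j a b‖, ?_, ?_⟩
    · have : 0 ≤ ∑ j, ∑ a, ∑ b, ‖p j a b‖ := by positivity
      linarith
    · intro j a b
      have h1 : ‖p j a b‖ ≤ ∑ b, ‖p j a b‖ :=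
        Finset.single_le_sum (f := fun b => ‖p j a b‖) (fun _ _ => norm_nonneg _)
          (Finset.mem_univ b)
      have h2 : ∑ b, ‖p j a b‖ ≤ ∑ a, ∑ b, ‖p j a b‖ :=
        Finset.single_le_sum (f := fun a => ∑ b, ‖p j a b‖) (fun _ _ => by positivity)
          (Finset.mem_univ a)
      have h3 : ∑ a, ∑ b, ‖p j a b‖ ≤ ∑ j, ∑ a, ∑ b, ‖p j a b‖ :=
        Finset.single_le_sum (f := fun j => ∑ a, ∑ b, ‖p j a b‖) (fun _ _ => by positivity)
          (Finset.mem_univ j)
      linarith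
  have hC0 : 0 < C := by linarith
  set r : ℝ := ‖(l : F)‖ ^ 2 / C with hr
  have hr0 : 0 < r := by positivity
  have hrq : r ≤ ‖(l : F)‖ ^ 2 := div_le_self (by positivity) hC1
  have hrC : C * r ≤ ‖(l : F)‖ ^ 2 := by
    rw [hr, mul_div_cancel₀ _ hC0.ne']
  have hq1 : ‖(l : F)‖ ^ 2 < 1 := pow_lt_one₀ hn0.le hlF two_ne_zero
  obtain ⟨U1, hU1⟩ := exists_U0 ρ hr0 (lt_of_le_of_lt hrq hq1)
  refine ⟨U0 ⊓ U1, fun γ hγ => ?_⟩
  have hγ0 : γ ∈ U0 := hγ.1
  have hγ1 : Sm r (ρ.M γ - 1) := (hU1 γ).1 hγ.2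
  obtain ⟨A, hA, hlim⟩ := Zt_log ρ l hlF hl0F γ (Sm_mono hrq hγ1)
  set a : Matrix I I K := (ρ.M γ).map (algebraMap F K) with ha
  have hone : ∀ i j, algebraMap F K ((1 : Matrix I I F) i j) = (1 : Matrix I I K) i j := by
    intro i j
    rw [Matrix.one_apply, Matrix.one_apply]
    split_ifs
    · rw [map_one]
    · rw [map_zero]
  have ha1 : Sm r (a - 1) := by
    intro i j
    have h1 : (a - 1) i j = algebraMap F K ((ρ.M γ - 1) i j) := by
      rw [Matrix.sub_apply, Matrix.sub_apply, map_sub, hone]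
      rfl
    rw [h1, hnorm]
    exact hγ1 i j
  have hcont : Continuous (algebraMap F K) := by
    have h1 : Isometry (algebraMap F K) := AddMonoidHomClass.isometry_of_norm _ hnorm
    exact h1.continuous
  have hlim' : Tendsto (fun k : ℕ => ((l : K) ^ k)⁻¹ • (a ^ l ^ k - 1)) atTop
      (𝓝 (A.map (algebraMap F K))) := by
    have h1 : Tendsto (fun k : ℕ => (((l : F) ^ k)⁻¹ • (ρ.M γ ^ l ^ k - 1)).map
        (algebraMap F K)) atTop (𝓝 (A.map (algebraMap F K))) :=
      ((continuous_id.matrix_map hcont).tendsto A).comp hlim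
    refine h1.congr fun k => ?_
    ext i j
    have h2 : a ^ l ^ k = (ρ.M γ ^ l ^ k).map (algebraMap F K) := by
      have h3 := map_pow (algebraMap F K).mapMatrix (ρ.M γ) (l ^ k)
      exact h3.symm
    rw [h2, Matrix.map_apply, Matrix.smul_apply, Matrix.smul_apply, smul_eq_mul, smul_eq_mul,
      map_mul, map_inv₀, map_pow, map_natCast, Matrix.sub_apply, Matrix.sub_apply, map_sub,
      Matrix.map_apply, hone]
  have hLg : ∀ j, Lg l ((p j * a + (1 - p j)).det ^ s j)
      ((s j : K) * (p j * A.map (algebraMap F K)).trace) := by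
    intro j
    refine Lg_zpow l hlK hl0K ?_ (s j)
    exact Lgr_core l hlK hl0K hr0.le hC0.le (by rw [hlK']; exact hrq) (by rw [hlK']; exact hrC)
      (hp j) (hU0 γ hγ0 j) (hC j) ha1 hlim'
  have h1 := Lg_prod l hlK hl0K _ _ hLg
  rw [htr A hA] at h1
  exact Lg_inj l hlK hl0K h1

end general

section analytic

variable (l : ℕ) [Fact l.Prime]

variable {Γ : Type} [Group Γ] [TopologicalSpace Γ] [IsTopologicalGroup Γ] [CompactSpace Γ]

theorem tLgr : S_Lgr l (Γ := Γ) := by
  intro I _ _ ρ k p s hp hU htr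
  have hlF : ‖(l : ℚ_[l])‖ < 1 := by
    rw [Padic.norm_p]
    exact inv_lt_one_of_one_lt₀ (by exact_mod_cast (Fact.out : l.Prime).one_lt)
  have hl0F : (l : ℚ_[l]) ≠ 0 := by
    exact_mod_cast (Fact.out : l.Prime).ne_zero
  exact Lgr_general (F := ℚ_[l]) (K := PadicAlgCl l) (PadicAlgCl.norm_extends l) l hlF hl0F ρ k p
    s hp hU htr

end analytic

end Pool.Agent.Lib.MP_640417_ag.Mt
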