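import Pool.Agent.Lib.MP_640417_ag.Mt.SpecC

/-!
# MP_640417_ag, Mt, module `Nl`: a relation which does not hold for `g` holds only on a null set
-/

set_option autoImplicit false

namespace Pool.Agent.Lib.MP_640417_ag.Mt

open Module TensorProduct MeasureTheory Pool.Agent.Lib.MP_640417_ag
  Pool.Agent.Lib.MP_640417_ag.Frob
  Pool.Agent.Lib.MP_640417_ag.Four Pool.Agent.Lib.MP_640417_ag.Ty
  Pool.Agent.Lib.MP_640417_ag.Lef Pool.Agent.Lib.MP_640417_ag.Dfr

theorem tNl : S_Nl := by
  intro F V _ _ _ _ _ Γ _ _ _ _ _ _ ν _ ρ hfull N st ε hS g hW t ht htr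
  have hTm : ∀ γ δ, (ρ.T (γ * δ)).baseChange (AlgebraicClosure F) =
      (ρ.T γ).baseChange (AlgebraicClosure F) * (ρ.T δ).baseChange (AlgebraicClosure F) := by
    intro γ δ
    rw [map_mul, LinearMap.baseChange_mul]
  have hT1 : (ρ.T 1).baseChange (AlgebraicClosure F) = 1 := by
    rw [map_one]
    exact LinearMap.baseChange_id
  have hdm : ∀ i, ∀ γ δ : Γ,
      LinearMap.det (ε i * (ρ.T (γ * δ)).baseChange (AlgebraicClosure F) + (1 - ε i)) =
      LinearMap.det (ε i * (ρ.T γ).baseChange (AlgebraicClosure F) + (1 - ε i)) *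
      LinearMap.det (ε i * (ρ.T δ).baseChange (AlgebraicClosure F) + (1 - ε i)) := by
    intro i γ δ
    rw [hTm, bai_mul (hS.idem i) (comK_full ρ hfull (hS.mem i) γ)]
  have hd1 : ∀ i,
      LinearMap.det (ε i * (ρ.T 1).baseChange (AlgebraicClosure F) + (1 - ε i)) = 1 := by
    intro i
    rw [hT1]
    exact bai_one (ε i)
  have hd0 : ∀ i, ∀ γ : Γ,
      LinearMap.det (ε i * (ρ.T γ).baseChange (AlgebraicClosure F) + (1 - ε i)) ≠ 0 := by
    intro i γ h
    have h1 := hdm i γ γ⁻¹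
    rw [mul_inv_cancel, hd1, h, zero_mul] at h1
    exact one_ne_zero h1
  have hopen : IsOpen {γ | detProd ε t ((ρ.T γ).baseChange (AlgebraicClosure F)) ≠ 1} :=
    bai_open ρ ε t fun γ i => hd0 i γ
  refine ⟨hopen, ?_⟩
  let R : Γ →* AlgebraicClosure F :=
    { toFun := fun γ => detProd ε t ((ρ.T γ).baseChange (AlgebraicClosure F))
      map_one' := by
        rw [detProd]
        refine Finset.prod_eq_one fun j _ => ?_
        rw [hd1, one_zpow]
      map_mul' := by
        intro γ δ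
        rw [detProd, detProd, detProd, ← Finset.prod_mul_distrib]
        refine Finset.prod_congr rfl fun j _ => ?_
        rw [hdm, mul_zpow] }
  have hcl : IsClosed (R.ker : Set Γ) := by
    rw [← isOpen_compl_iff]
    exact hopen
  have hno : ¬ IsOpen (R.ker : Set Γ) := by
    intro ho
    refine hW ⟨N, ε, t, ⟨hS.mem, hS.cen, hS.idem, hS.orth, ht⟩, htr, ⟨R.ker, ho⟩, fun γ hγ => ?_⟩
    exact MonoidHom.mem_ker.mp hγ
  have h1 := measure_closed ν R.ker hcl hno
  refine measure_mono_null ?_ h1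
  intro γ hγ
  exact MonoidHom.mem_ker.mpr hγ

end Pool.Agent.Lib.MP_640417_ag.Mt
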