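import Pool.Agent.Lib.MP_640417_ag.Mt.SpecC

/-!
# MP_640417_ag, Mt, module Nr: almost all Frobenius elements near the identity
-/

set_option autoImplicit false

namespace Pool.Agent.Lib.MP_640417_ag.Mt

open Matrix Module TensorProduct MeasureTheory Pool.Agent.Lib.MP_640417_ag
  Pool.Agent.Lib.MP_640417_ag.Frob Pool.Agent.Lib.MP_640417_ag.Glob
  Pool.Agent.Lib.MP_640417_ag.Four Pool.Agent.Lib.MP_640417_ag.Ctl
  Pool.Agent.Lib.MP_640417_ag.Dfr Pool.Agent.Lib.MP_640417_ag.Ty Pool.Agent.Lib.MP_640417_ag.Zo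
  Pool.Agent.Lib.MP_640417_ag.Gen4 Pool.Agent.Lib.MP_640417_ag.Lef Pool.Agent.Lib.MP_640417_ag.Wn
  Pool.Agent.Lib.MP_640417_ag.T3

section res

variable {F : Type} [NontriviallyNormedField F] [CharZero F]
  {Γ : Type} [Group Γ] [TopologicalSpace Γ] [IsTopologicalGroup Γ] [CompactSpace Γ] {V : Type}
  [AddCommGroup V] [Module F V] [FiniteDimensional F V] (ρ : H1Rep Γ F V) (U : OpenSubgroup Γ)

theorem Nr_detFor_res (g : Set (Module.End F V)) (γ : U) :
    DetFor (Ty.res ρ U) g γ ↔ DetFor ρ g γ := by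
  unfold DetFor
  rw [comK_res]
  exact Iff.rfl

theorem Nr_weilFor_res (g : Set (Module.End F V)) : WeilFor (Ty.res ρ U) g ↔ WeilFor ρ g := by
  unfold WeilFor
  rw [comK_res]
  refine exists_congr fun k => exists_congr fun p => exists_congr fun s => ?_
  refine and_congr Iff.rfl (and_congr Iff.rfl ?_)
  constructor
  · rintro ⟨W, hW⟩
    have ho : IsOpen ((W.toSubgroup.map U.toSubgroup.subtype : Subgroup Γ) : Set Γ) := by
      rw [Subgroup.coe_map]
      exact U.isOpen.isOpenMap_subtype_val _ W.isOpen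
    refine ⟨⟨W.toSubgroup.map U.toSubgroup.subtype, ho⟩, ?_⟩
    intro γ hγ
    obtain ⟨u, hu, rfl⟩ : γ ∈ W.toSubgroup.map U.toSubgroup.subtype := hγ
    exact hW u hu
  · rintro ⟨W, hW⟩
    refine ⟨W.comap U.toSubgroup.subtype continuous_subtype_val, ?_⟩
    intro γ hγ
    exact hW _ hγ

end res

section main

variable (l : ℕ) [Fact l.Prime]

variable {Γ : Type} [Group Γ] [TopologicalSpace Γ] [IsTopologicalGroup Γ] [CompactSpace Γ]

theorem tNr (h1 : S_Csy) (h2 : S_Bl) : S_Nr l (Γ := Γ) := by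
  intro V _ _ _ _ _ ν _ ρ hss g hW
  have hchar : CharZero (AlgebraicClosure ℚ_[l]) :=
    charZero_of_injective_algebraMap (algebraMap ℚ_[l] (AlgebraicClosure ℚ_[l])).injective
  obtain ⟨U, hU⟩ := exists_U0 ρ
  have := topGroup_U U
  have := compact_U U
  have hoe : Topology.IsOpenEmbedding (Subtype.val : U → Γ) := U.isOpen.isOpenEmbedding_subtypeVal
  have hν' : (ν.comap (Subtype.val : U → Γ)).IsHaarMeasure :=
    Measure.IsHaarMeasure.comap (f := U.toSubgroup.subtype) (mH := inferInstance) ν hoe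
  have hfull : ∀ c, CommF (Ty.res ρ U) c → ∀ γ, c * (Ty.res ρ U).T γ = (Ty.res ρ U).T γ * c :=
    fun c hc γ' => (hU γ'.1).mp γ'.2 c ((commF_res ρ U c).mp hc)
  obtain ⟨N, st, ε, hS⟩ := h1 (AlgebraicClosure ℚ_[l]) (AlgebraicClosure ℚ_[l] ⊗[ℚ_[l]] V)
    (ρ.form.baseChange (AlgebraicClosure ℚ_[l])) (comK (Ty.res ρ U))
    (alt_baseChange (AlgebraicClosure ℚ_[l]) ρ.form ρ.form_alt)
    (nondeg_baseChange (AlgebraicClosure ℚ_[l]) ρ.form ρ.form_alt ρ.form_nondeg)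
    (reg_comK (Ty.res ρ U) (semi_res ρ U hss) hfull) (adj_comK (Ty.res ρ U) hfull)
  obtain ⟨O, hO, hOn, hOg⟩ := h2 ℚ_[l] V U (ν.comap (Subtype.val : U → Γ)) (Ty.res ρ U) hfull
    N st ε hS g (fun h => hW ((Nr_weilFor_res ρ U g).mp h))
  refine ⟨U, (Subtype.val : U → Γ) '' O, U.isOpen.isOpenMap_subtype_val O hO, ?_, ?_, ?_⟩
  · rintro _ ⟨γ, -, rfl⟩
    exact γ.2
  · have h4 : ((U : Set Γ) \ (Subtype.val : U → Γ) '' O) = (Subtype.val : U → Γ) '' Oᶜ := by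
      ext γ
      constructor
      · rintro ⟨h5, h6⟩
        exact ⟨⟨γ, h5⟩, fun h7 => h6 ⟨_, h7, rfl⟩, rfl⟩
      · rintro ⟨γ', h5, rfl⟩
        refine ⟨γ'.2, ?_⟩
        rintro ⟨γ'', h6, h7⟩
        exact h5 (Subtype.val_injective h7 ▸ h6)
    rw [h4, ← hoe.measurableEmbedding.comap_apply]
    exact hOn
  · rintro _ ⟨γ, hγ, rfl⟩ hF
    exact (Nr_detFor_res ρ U g γ).mp (hOg γ hγ (frobLike_res l ρ U γ hF))

end main

end Pool.Agent.Lib.MP_640417_ag.Mt
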