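import Pool.Agent.Lib.MP_640417_ag.Mt.SpecC

/-!
# MP_640417_ag, Mt, module `Nwl`: no relation if all Tate classes are killed
-/

set_option autoImplicit false

namespace Pool.Agent.Lib.MP_640417_ag.Mt

open Module TensorProduct Pool.Agent.Lib.MP_640417_ag Pool.Agent.Lib.MP_640417_ag.Frob
  Pool.Agent.Lib.MP_640417_ag.Four Pool.Agent.Lib.MP_640417_ag.Dfr
  Pool.Agent.Lib.MP_640417_ag.Ty Pool.Agent.Lib.MP_640417_ag.Lef

private theorem Nwl_cen {Γ : Type} [Group Γ] [TopologicalSpace Γ] {F : Type} [Field F]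
    [TopologicalSpace F] {V : Type} [AddCommGroup V] [Module F V] [FiniteDimensional F V]
    (ρ : H1Rep Γ F V) {X : Module.End F V} (hX : ∀ c, CommF ρ c → X * c = c * X)
    {c : Module.End (AlgebraicClosure F) (AlgebraicClosure F ⊗[F] V)} (hc : c ∈ comK ρ) :
    c * X.baseChange (AlgebraicClosure F) = X.baseChange (AlgebraicClosure F) * c := by
  classical
  let b := Module.Free.chooseBasis F (AlgebraicClosure F)
  obtain ⟨τ, hτ⟩ := sum_cp b c
  rw [hτ, Finset.sum_mul, Finset.mul_sum]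
  refine Finset.sum_congr rfl fun t _ => ?_
  rw [smul_mul_assoc, mul_smul_comm, ← LinearMap.baseChange_mul,
    ← hX _ (cp_comm ρ hc (b.coord t)), LinearMap.baseChange_mul]

variable (l : ℕ) [Fact l.Prime] {Γ : Type} [Group Γ] [TopologicalSpace Γ] [IsTopologicalGroup Γ]
  [CompactSpace Γ]

theorem tNwl (h1 : S_Wl) : S_Nwl l (Γ := Γ) := by
  intro V _ _ _ ρ g hsk hcom hkill
  rintro ⟨k, p, s, hp, htr, U, hU⟩
  have hchar : CharZero (AlgebraicClosure ℚ_[l]) :=
    charZero_of_injective_algebraMap (algebraMap ℚ_[l] (AlgebraicClosure ℚ_[l])).injective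
  obtain ⟨U0, hU0⟩ := Ty.exists_U0 ρ
  obtain ⟨n, i, x, hx0, hx, hD⟩ := h1 (AlgebraicClosure ℚ_[l]) (AlgebraicClosure ℚ_[l] ⊗[ℚ_[l]] V)
    (ρ.form.baseChange (AlgebraicClosure ℚ_[l])) (comK ρ) Γ (TK ρ) (chK ρ)
    (alt_baseChange _ ρ.form ρ.form_alt)
    (nondeg_baseChange _ ρ.form ρ.form_alt ρ.form_nondeg) (formK_eq ρ) k p s hp (U ⊓ U0)
    (by
      intro j γ hγ
      exact (Nwl_cen ρ (fun c hc => ((hU0 γ).mp (OpenSubgroup.mem_inf.mp hγ).2 c hc).symm)
        (hp.mem j)))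
    (fun γ hγ => hU γ (OpenSubgroup.mem_inf.mp hγ).1)
  apply htr
  intro X hX
  have h2 := hD (X.baseChange (AlgebraicClosure ℚ_[l])) (skew_base ρ (hsk X hX))
    (fun j => (Nwl_cen ρ (hcom X hX) (hp.mem j)).symm)
  have h3 : Dv n (X.baseChange (AlgebraicClosure ℚ_[l])) x = 0 := by
    have h4 := tate_span (F' := AlgebraicClosure ℚ_[l]) (fun γ => ρ.T γ) ρ.χ n i x hx
    clear h2 hx hx0 hD
    induction h4 using Submodule.span_induction with
    | mem y hy =>
      obtain ⟨x, hx, rfl⟩ := hy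
      rw [Dv_be, (kills_iff n X x).mp (hkill n i x hx X hX), map_zero]
    | zero => rw [map_zero]
    | add x y _ _ hx hy => rw [map_add, hx, hy, add_zero]
    | smul a x _ hx => rw [map_smul, hx, smul_zero]
  rw [h3] at h2
  exact (smul_eq_zero.mp h2.symm).resolve_right hx0

end Pool.Agent.Lib.MP_640417_ag.Mt
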