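import Pool.Agent.Lib.MP_640417_ag.Mt.SpecC

/-!
# MP_640417_ag, Mt, module Wl: a relation gives a Tate class
-/

set_option autoImplicit false

namespace Pool.Agent.Lib.MP_640417_ag.Mt

open Matrix Module TensorProduct MeasureTheory Pool.Agent.Lib.MP_640417_ag
  Pool.Agent.Lib.MP_640417_ag.Frob Pool.Agent.Lib.MP_640417_ag.Glob
  Pool.Agent.Lib.MP_640417_ag.Four Pool.Agent.Lib.MP_640417_ag.Ctl
  Pool.Agent.Lib.MP_640417_ag.Dfr Pool.Agent.Lib.MP_640417_ag.Ty Pool.Agent.Lib.MP_640417_ag.Zo
  Pool.Agent.Lib.MP_640417_ag.Gen4 Pool.Agent.Lib.MP_640417_ag.Lef Pool.Agent.Lib.MP_640417_ag.Wn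
  Pool.Agent.Lib.MP_640417_ag.T3

open Pool.Agent.Lib.MP_640417_ag.Dfr.RelM in
/-- S_Wl -/
theorem tWl : S_Wl := by
  intro K V _ _ _ _ _ form C Γ _ _ T χ halt hnd heq k p s hp U hC hU
  obtain ⟨z, hz⟩ : ∃ z, z = ∑ j, (s j : K) • p j := ⟨_, rfl⟩
  choose p' hp' using fun j => exists_adj halt hnd (p j)
  have hzs : Adj form z (-z) := by
    intro x y
    have h := hp.skew x y
    rw [← hz] at h
    rw [LinearMap.neg_apply, map_neg]
    exact eq_neg_of_add_eq_zero_left h
  -- the idempotents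
  have hp'i : ∀ j, p' j * p' j = p' j := fun j =>
    Adj.unique halt hnd ((hp' j).mul (hp' j)) (by rw [hp.idem]; exact hp' j)
  have hpz : ∀ j, p j * z = (s j : K) • p j := by
    intro j
    rw [hz, Finset.mul_sum, Finset.sum_eq_single j]
    · rw [mul_smul_comm, hp.idem]
    · intro i _ hi
      rw [mul_smul_comm, hp.orth j i (Ne.symm hi), smul_zero]
    · intro h
      exact absurd (Finset.mem_univ j) h
  have hzp : ∀ j, z * p j = (s j : K) • p j := by
    intro j
    rw [hz, Finset.sum_mul, Finset.sum_eq_single j]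
    · rw [smul_mul_assoc, hp.idem]
    · intro i _ hi
      rw [smul_mul_assoc, hp.orth i j hi, smul_zero]
    · intro h
      exact absurd (Finset.mem_univ j) h
  have hp'z : ∀ j, p' j * z = -((s j : K) • p' j) := by
    intro j
    have h1 : Adj form (z * p j) (p' j * -z) := hzs.mul (hp' j)
    rw [hzp] at h1
    have h2 := Adj.unique halt hnd h1 ((hp' j).smul (s j : K))
    rw [← h2, mul_neg, neg_neg]
  have hzp' : ∀ j, z * p' j = -((s j : K) • p' j) := by
    intro j
    have h1 : Adj form (p j * z) (-z * p' j) := (hp' j).mul hzs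
    rw [hpz] at h1
    have h2 := Adj.unique halt hnd h1 ((hp' j).smul (s j : K))
    rw [← h2, neg_mul, neg_neg]
  -- ranks
  have hrk : ∀ j, finrank K (LinearMap.range (p' j)) = finrank K (LinearMap.range (p j)) := by
    intro j
    have h1 := (hp' j).trace hnd
    rw [trace_idem (hp'i j), trace_idem (hp.idem j)] at h1
    exact_mod_cast h1
  have htr : ∑ j, s j * (finrank K (LinearMap.range (p j)) : ℤ) = 0 := by
    have h1 := hzs.trace hnd
    rw [map_neg] at h1
    have h2 : LinearMap.trace K V z = 0 := by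
      have h3 : (2 : K) * LinearMap.trace K V z = 0 := by linear_combination -h1
      exact (mul_eq_zero.mp h3).resolve_left two_ne_zero
    rw [hz, map_sum] at h2
    have h3 : ((∑ j, s j * (finrank K (LinearMap.range (p j)) : ℤ) : ℤ) : K) = 0 := by
      rw [← h2]
      push_cast
      refine Finset.sum_congr rfl fun j _ => ?_
      rw [map_smul, trace_idem (hp.idem j), smul_eq_mul]
    exact_mod_cast h3
  -- the group
  have hTT : ∀ γ, T γ * T γ⁻¹ = 1 := fun γ => by rw [← map_mul, mul_inv_cancel, map_one]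
  have hTT' : ∀ γ, T γ⁻¹ * T γ = 1 := fun γ => by rw [← map_mul, inv_mul_cancel, map_one]
  have hTa : ∀ γ, Adj form (T γ) (((χ γ)⁻¹ : Kˣ).val • T γ⁻¹) := by
    intro γ x y
    rw [LinearMap.smul_apply, map_smul, smul_eq_mul, ← heq, ← Module.End.mul_apply, hTT,
      Module.End.one_apply]
  have hp'T : ∀ j, ∀ γ ∈ U, p' j * T γ = T γ * p' j := by
    intro j γ hγ
    have h1 : Adj form (p j * T γ) ((((χ γ)⁻¹ : Kˣ).val • T γ⁻¹) * p' j) := (hp' j).mul (hTa γ)
    have h2 : Adj form (T γ * p j) (p' j * (((χ γ)⁻¹ : Kˣ).val • T γ⁻¹)) := (hTa γ).mul (hp' j)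
    rw [← hC j γ hγ] at h2
    have h3 := Adj.unique halt hnd h1 h2
    rw [smul_mul_assoc, mul_smul_comm] at h3
    have h4 : T γ⁻¹ * p' j = p' j * T γ⁻¹ := smul_right_injective _ ((χ γ)⁻¹).ne_zero h3
    calc p' j * T γ = T γ * (T γ⁻¹ * p' j) * T γ := by rw [← mul_assoc, hTT, one_mul]
      _ = T γ * (p' j * T γ⁻¹) * T γ := by rw [h4]
      _ = T γ * p' j * (T γ⁻¹ * T γ) := by simp only [mul_assoc]
      _ = T γ * p' j := by rw [hTT', mul_one]
  have hdd : ∀ j, ∀ γ ∈ U, LinearMap.det (p j * T γ + (1 - p j)) *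
      LinearMap.det (p' j * T γ + (1 - p' j)) =
        ((χ γ)⁻¹ : Kˣ).val ^ finrank K (LinearMap.range (p j)) := by
    intro j γ hγ
    have h1 : Adj form (p j * T γ + (1 - p j))
        ((((χ γ)⁻¹ : Kˣ).val • T γ⁻¹) * p' j + (1 - p' j)) :=
      ((hp' j).mul (hTa γ)).add (Adj.one.sub (hp' j))
    have h2 := hp'T j γ⁻¹ (U.inv_mem hγ)
    have h3 : (((χ γ)⁻¹ : Kˣ).val • T γ⁻¹) * p' j + (1 - p' j) =
        p' j * (((χ γ)⁻¹ : Kˣ).val • T γ⁻¹) + (1 - p' j) := by
      rw [smul_mul_assoc, mul_smul_comm, h2]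
    have h4 : T γ * (((χ γ)⁻¹ : Kˣ).val • T γ⁻¹) = ((χ γ)⁻¹ : Kˣ).val • 1 := by
      rw [mul_smul_comm, hTT]
    rw [← h1.det hnd, h3, mul_comm, ← det_mul' (hp'i j) (hp'T j γ hγ), h4,
      det_smul' (hp'i j), hrk]
  -- the family of idempotents
  let σ : Fin k → ℕ := fun j => (s j).natAbs
  let q : Fin k → Module.End K V := fun j => if 0 < s j then p j else p' j
  have hq1 : ∀ j, 0 < s j → q j = p j := fun j h => if_pos h
  have hq2 : ∀ j, ¬ 0 < s j → q j = p' j := fun j h => if_neg h
  have hqi : ∀ j, q j * q j = q j := by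
    intro j
    by_cases h : 0 < s j
    · rw [hq1 j h]
      exact hp.idem j
    · rw [hq2 j h]
      exact hp'i j
  have hqrk : ∀ j, finrank K (LinearMap.range (q j)) = finrank K (LinearMap.range (p j)) := by
    intro j
    by_cases h : 0 < s j
    · rw [hq1 j h]
    · rw [hq2 j h]
      exact hrk j
  have hqz : ∀ j, q j * z = (σ j : K) • q j ∧ z * q j = (σ j : K) • q j := by
    intro j
    by_cases h : 0 < s j
    · have h1 : ((σ j : ℕ) : K) = (s j : K) := by
        have h2 : ((σ j : ℕ) : ℤ) = s j := Int.natAbs_of_nonneg h.le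
        rw [← Int.cast_natCast, h2]
      rw [hq1 j h, h1]
      exact ⟨hpz j, hzp j⟩
    · have h1 : ((σ j : ℕ) : K) = -(s j : K) := by
        have h2 : ((σ j : ℕ) : ℤ) = -s j := by
          change ((s j).natAbs : ℤ) = -s j
          omega
        rw [← Int.cast_natCast, h2, Int.cast_neg]
      rw [hq2 j h, h1, neg_smul]
      exact ⟨hp'z j, hzp' j⟩
  have hqT : ∀ j, ∀ γ ∈ U, q j * T γ = T γ * q j := by
    intro j γ hγ
    by_cases h : 0 < s j
    · rw [hq1 j h]
      exact hC j γ hγ
    · rw [hq2 j h]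
      exact hp'T j γ hγ
  obtain ⟨x, hx0, hxm, hxT, hxz⟩ := exists_top
    (fun t : Fin (∑ j, σ j) => q (finSigmaFinEquiv.symm t).1) (fun t => hqi _)
  obtain ⟨i, hi⟩ : ∃ i : ℕ, i = ∑ j, (-s j).toNat * finrank K (LinearMap.range (p j)) :=
    ⟨_, rfl⟩
  have hdeg : ∑ t : Fin (∑ j, σ j),
      finrank K (LinearMap.range (q (finSigmaFinEquiv.symm t).1)) = 2 * i := by
    rw [sum_fin σ (fun j => finrank K (LinearMap.range (q j)))]
    have h1 : ((∑ j, σ j • finrank K (LinearMap.range (q j)) : ℕ) : ℤ) = ((2 * i : ℕ) : ℤ) := by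
      have h2 : ((∑ j, σ j • finrank K (LinearMap.range (q j)) : ℕ) : ℤ) =
          ∑ j, (s j * (finrank K (LinearMap.range (p j)) : ℤ) +
            2 * (((-s j).toNat : ℤ) * (finrank K (LinearMap.range (p j)) : ℤ))) := by
        push_cast
        refine Finset.sum_congr rfl fun j _ => ?_
        rw [hqrk, smul_eq_mul]
        have h3 : (σ j : ℤ) = s j + 2 * ((-s j).toNat : ℤ) := by
          change ((s j).natAbs : ℤ) = s j + 2 * ((-s j).toNat : ℤ)
          omega
        push_cast
        rw [h3]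
        ring
      rw [h2, Finset.sum_add_distrib, htr, zero_add, ← Finset.mul_sum, hi]
      push_cast
      rfl
    exact_mod_cast h1
  refine ⟨∑ j, σ j, i, x, hx0, ⟨?_, U, fun γ hγ => ?_⟩, ?_⟩
  · rw [← hdeg]
    exact hxm
  · have h1 := hxT (T γ) (fun t => hqT _ γ hγ)
    rw [prod_fin σ (fun j => LinearMap.det (q j * T γ + (1 - q j)))] at h1
    have hd0 : ∀ j, LinearMap.det (p j * T γ + (1 - p j)) ≠ 0 := by
      intro j h
      have h2 := hdd j γ hγ
      rw [h, zero_mul] at h2
      exact (pow_ne_zero _ ((χ γ)⁻¹).ne_zero) h2.symm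
    have h2 : ∀ j, LinearMap.det (q j * T γ + (1 - q j)) ^ σ j =
        LinearMap.det (p j * T γ + (1 - p j)) ^ s j *
          ((χ γ)⁻¹ : Kˣ).val ^ ((-s j).toNat * finrank K (LinearMap.range (p j))) := by
      intro j
      by_cases h : 0 < s j
      · have h3 : s j = (σ j : ℤ) := (Int.natAbs_of_nonneg h.le).symm
        have h4 : (-s j).toNat = 0 := by omega
        rw [hq1 j h, h4, zero_mul, pow_zero, mul_one, ← zpow_natCast, ← h3]
      · have h3 : s j = -(σ j : ℤ) := by
          change s j = -((s j).natAbs : ℤ)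
          omega
        have h4 : (-s j).toNat = σ j := by
          change (-s j).toNat = (s j).natAbs
          omega
        rw [hq2 j h, h4, mul_comm (σ j), pow_mul, ← hdd j γ hγ, mul_pow]
        rw [h3, _root_.zpow_neg, zpow_natCast, ← mul_assoc, inv_mul_cancel₀ (pow_ne_zero _ (hd0 j)),
          one_mul]
    have h3 : ∏ j, LinearMap.det (q j * T γ + (1 - q j)) ^ σ j = ((χ γ)⁻¹ : Kˣ).val ^ i := by
      have h4 := hU γ hγ
      rw [detProd] at h4
      rw [Finset.prod_congr rfl fun j _ => h2 j, Finset.prod_mul_distrib, h4, one_mul,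
        Finset.prod_pow_eq_pow_sum, hi]
    rw [h3] at h1
    change (χ γ : K) ^ i • ExteriorAlgebra.map ((T γ).compLeft (Fin (∑ j, σ j))) x = x
    rw [h1, smul_smul, ← mul_pow, ← Units.val_mul, mul_inv_cancel, Units.val_one, one_pow,
      one_smul]
  · intro w hw hwp
    have hws : Adj form w (-w) := by
      intro x y
      have h := hw x y
      rw [LinearMap.neg_apply, map_neg]
      exact eq_neg_of_add_eq_zero_left h
    have hadj : ∀ j, Adj form (p j * w) (-w * p' j) := fun j => (hp' j).mul hws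
    have hp'w : ∀ j, p' j * w = w * p' j := by
      intro j
      have h1 := hadj j
      have h2 : Adj form (w * p j) (p' j * -w) := hws.mul (hp' j)
      rw [hwp j] at h2
      have h3 := Adj.unique halt hnd h1 h2
      rw [neg_mul, mul_neg] at h3
      exact (neg_injective h3).symm
    have htrw : ∀ j, LinearMap.trace K V (p' j * w) = - LinearMap.trace K V (p j * w) := by
      intro j
      have h1 := (hadj j).trace hnd
      rw [neg_mul, map_neg] at h1
      rw [hp'w j, ← h1, neg_neg]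
    have hqw : ∀ j, q j * w = w * q j := by
      intro j
      by_cases h : 0 < s j
      · rw [hq1 j h]
        exact (hwp j).symm
      · rw [hq2 j h]
        exact hp'w j
    rw [hxz w (fun t => hqw _)]
    congr 1
    rw [sum_fin σ (fun j => LinearMap.trace K V (q j * w))]
    refine Finset.sum_congr rfl fun j _ => ?_
    rw [nsmul_eq_mul]
    by_cases h : 0 < s j
    · have h1 : ((σ j : ℕ) : K) = (s j : K) := by
        have h2 : ((σ j : ℕ) : ℤ) = s j := Int.natAbs_of_nonneg h.le
        rw [← Int.cast_natCast, h2]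
      rw [hq1 j h, h1]
    · have h1 : ((σ j : ℕ) : K) = -(s j : K) := by
        have h2 : ((σ j : ℕ) : ℤ) = -s j := by
          change ((s j).natAbs : ℤ) = -s j
          omega
        rw [← Int.cast_natCast, h2, Int.cast_neg]
      rw [hq2 j h, h1, htrw j, neg_mul_neg]

end Pool.Agent.Lib.MP_640417_ag.Mt
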