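import Pool.Agent.Lib.MP_640417_ag.Mt.SpecC

/-!
# MP_640417_ag, Mt, module Zd: the Tate classes of codimension one are known; the exotic classes
-/

set_option autoImplicit false

namespace Pool.Agent.Lib.MP_640417_ag.Mt

open Matrix Module TensorProduct MeasureTheory Pool.Agent.Lib.MP_640417_ag
  Pool.Agent.Lib.MP_640417_ag.Frob Pool.Agent.Lib.MP_640417_ag.Glob
  Pool.Agent.Lib.MP_640417_ag.Four Pool.Agent.Lib.MP_640417_ag.Ctl
  Pool.Agent.Lib.MP_640417_ag.Dfr Pool.Agent.Lib.MP_640417_ag.Ty Pool.Agent.Lib.MP_640417_ag.Zo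
  Pool.Agent.Lib.MP_640417_ag.Gen4 Pool.Agent.Lib.MP_640417_ag.Lef Pool.Agent.Lib.MP_640417_ag.Wn
  Pool.Agent.Lib.MP_640417_ag.T3

section tate

variable {F : Type} [Field F] {W : Type} [AddCommGroup W] [Module F W]

private theorem Zd_pow (g : W →ₗ[F] W) (m : ℕ) {x : ExteriorAlgebra F W}
    (hx : x ∈ ⋀[F]^m W) : ExteriorAlgebra.map g x ∈ ⋀[F]^m W := by
  have h : Submodule.map (ExteriorAlgebra.map g).toLinearMap (⋀[F]^m W) ≤ ⋀[F]^m W := by
    rw [Submodule.map_pow]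
    have h1 : Submodule.map (ExteriorAlgebra.map g).toLinearMap (LinearMap.range
        (ExteriorAlgebra.ι F : W →ₗ[F] ExteriorAlgebra F W)) ≤ LinearMap.range
        (ExteriorAlgebra.ι F : W →ₗ[F] ExteriorAlgebra F W) := by
      rintro _ ⟨_, ⟨v, rfl⟩, rfl⟩
      refine ⟨g v, ?_⟩
      simp
    exact pow_le_pow_left' h1 m
  exact h ⟨x, hx, rfl⟩

variable {Γ : Type} [Group Γ] [TopologicalSpace Γ]

private theorem Zd_zero (T : Γ → W →ₗ[F] W) (χ : Γ →* Fˣ) (i : ℕ) : TateClass T χ i 0 :=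
  ⟨Submodule.zero_mem _, ⊤, fun γ _ => by rw [map_zero, smul_zero]⟩

private theorem Zd_add (T : Γ → W →ₗ[F] W) (χ : Γ →* Fˣ) (i : ℕ) {x y : ExteriorAlgebra F W}
    (hx : TateClass T χ i x) (hy : TateClass T χ i y) : TateClass T χ i (x + y) := by
  obtain ⟨hx1, U, hU⟩ := hx
  obtain ⟨hy1, U', hU'⟩ := hy
  refine ⟨Submodule.add_mem _ hx1 hy1, U ⊓ U', fun γ hγ => ?_⟩
  rw [map_add, smul_add, hU γ hγ.1, hU' γ hγ.2]

private theorem Zd_smul (T : Γ → W →ₗ[F] W) (χ : Γ →* Fˣ) (i : ℕ) (c : F)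
    {x : ExteriorAlgebra F W} (hx : TateClass T χ i x) : TateClass T χ i (c • x) := by
  obtain ⟨hx1, U, hU⟩ := hx
  refine ⟨Submodule.smul_mem _ c hx1, U, fun γ hγ => ?_⟩
  rw [map_smul, smul_comm, hU γ hγ]

/-- conjugate open subgroups -/
private theorem Zd_conj [IsTopologicalGroup Γ] (T : Γ → W →ₗ[F] W)
    (hT : ∀ γ δ, T (γ * δ) = T γ ∘ₗ T δ) (χ : Γ →* Fˣ) (i : ℕ) {x : ExteriorAlgebra F W}
    (hx : TateClass T χ i x) (γ : Γ) : TateClass T χ i (ExteriorAlgebra.map (T γ) x) := by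
  obtain ⟨hx1, U, hU⟩ := hx
  have hc : Continuous (MulAut.conj γ⁻¹ : Γ →* Γ) := by
    show Continuous fun x => γ⁻¹ * x * γ⁻¹⁻¹
    fun_prop
  refine ⟨Zd_pow _ _ hx1, U.comap (MulAut.conj γ⁻¹ : Γ →* Γ) hc, fun δ hδ => ?_⟩
  have h1 : γ⁻¹ * δ * γ⁻¹⁻¹ ∈ U := hδ
  rw [inv_inv] at h1
  have h2 := hU _ h1
  have h3 : ∀ a b, ExteriorAlgebra.map (T a) (ExteriorAlgebra.map (T b) x) =
      ExteriorAlgebra.map (T (a * b)) x := by
    intro a b
    rw [hT]
    exact congrArg (fun f => f x) (ExteriorAlgebra.map_comp_map (T b) (T a))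
  have h4 : (χ δ : F) = χ (γ⁻¹ * δ * γ) := by
    rw [map_mul, map_mul, map_inv, mul_comm (χ γ)⁻¹, mul_assoc, inv_mul_cancel, mul_one]
  have h5 : δ * γ = γ * (γ⁻¹ * δ * γ) := by group
  rw [h3, h4, h5, ← h3, ← map_smul]
  have h6 : ∀ y, y = x → ExteriorAlgebra.map (T γ) y = ExteriorAlgebra.map (T γ) x := by
    rintro _ rfl
    rfl
  exact h6 _ h2

end tate

section analytic

variable (l : ℕ) [Fact l.Prime]

variable {Γ : Type} [Group Γ] [TopologicalSpace Γ] [IsTopologicalGroup Γ] [CompactSpace Γ]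

private theorem Zd_divisor {V : Type} [AddCommGroup V] [Module ℚ_[l] V]
    [FiniteDimensional ℚ_[l] V] (ρ : H1Rep Γ ℚ_[l] V) {n i : ℕ}
    {x : ExteriorAlgebra ℚ_[l] (Fin n → V)} (hx : x ∈ DivZ ρ n i) :
    x ∈ divisorAlg (fun γ => (ρ.T γ).compLeft (Fin n)) ρ.χ := by
  induction hx using Submodule.span_induction with
  | mem x hx => exact Algebra.subset_adjoin hx.2
  | zero => exact Subalgebra.zero_mem _
  | add x y _ _ hx hy => exact Subalgebra.add_mem _ hx hy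
  | smul a x _ hx => exact Subalgebra.smul_mem _ hx a

theorem tZd (hC : S_Cd1 l (Γ := Γ)) : S_Zd l (Γ := Γ) := by
  intro V _ _ _ ρ
  have hlef : ∀ X, X ∈ LieOf ρ (DivZ ρ) ↔ Lefschetz ρ X := by
    intro X
    constructor
    · rintro ⟨hX1, hX2⟩
      refine ⟨?_, hX1⟩
      obtain ⟨R, h1, h2, h3⟩ := exists_coord ρ (Module.finBasis ℚ_[l] V)
      intro c hc
      have h4 := hC (Fin (finrank ℚ_[l] V)) R _ ((coord_skew ρ _ R h3 X).2 hX1)
        (fun y hy => ?_) _ ((coord_inC ρ _ R h1 c).mpr hc)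
      · apply (LinearMap.toMatrixAlgEquiv (Module.finBasis ℚ_[l] V)).injective
        rw [map_mul, map_mul]
        exact h4
      · obtain ⟨x, hx, hx'⟩ := coord_dv' ρ _ R h1 h2 2 1 y hy
        rw [← hx']
        exact (kills_iff 2 X x).1 (hX2 2 1 x (Submodule.subset_span ⟨rfl, hx⟩))
    · intro hX
      refine ⟨hX.2, fun n i x hx => ?_⟩
      rw [kills_iff]
      exact div_killed ρ n X hX x (Zd_divisor l ρ hx)
  refine ⟨⟨?_, ?_, ?_⟩, fun hss hF => ?_⟩
  · intro n i x hx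
    induction hx using Submodule.span_induction with
    | mem x hx =>
      obtain ⟨hi, hx⟩ := hx
      rw [hi]
      exact hx
    | zero => exact Zd_zero _ _ _
    | add x y _ _ hx hy => exact Zd_add _ _ _ hx hy
    | smul a x _ hx => exact Zd_smul _ _ _ _ hx
  · intro γ n i x hx
    induction hx using Submodule.span_induction with
    | mem x hx =>
      obtain ⟨hi, hx⟩ := hx
      refine Submodule.subset_span ⟨hi, ?_⟩
      refine Zd_conj (fun γ => (ρ.T γ).compLeft (Fin n)) (fun a b => ?_) ρ.χ 1 hx γ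
      rw [map_mul]
      rfl
    | zero =>
      rw [map_zero]
      exact Submodule.zero_mem _
    | add x y _ _ hx hy =>
      rw [map_add]
      exact Submodule.add_mem _ hx hy
    | smul a x _ hx =>
      rw [map_smul]
      exact Submodule.smul_mem _ a hx
  · intro n x hx
    exact Submodule.subset_span ⟨rfl, hx⟩
  · constructor
    · intro h
      refine ⟨noIII_of_noExotic l ρ hss hF h, fun n i x hx X hX => ?_⟩
      rw [kills_iff]
      refine div_killed ρ n X ((hlef X).1 hX) x ?_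
      by_contra h2
      exact h n i x ⟨hx, h2⟩
    · rintro ⟨h3, hk⟩
      have hS := hasSys_of_noIII ρ hss h3
      refine (noExotic_iff_of l ρ hss hS).mpr ⟨div_of_lef_of l ρ hss hS ?_, ?_⟩
      · intro x hx _ X hX
        exact (kills_iff 4 X x).1 (hk 4 2 x hx X ((hlef X).2 hX))
      · intro n i x hx z hz
        exact (kills_iff n z x).1 (hk n i x hx z ((hlef z).2 ⟨hz.2.1, hz.2.2⟩))

end analytic

end Pool.Agent.Lib.MP_640417_ag.Mt
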