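import Pool.Agent.Lib.MP_640417_ag.Mt.FinalA
import Pool.Agent.Lib.MP_640417_ag.Mt.AsmC
import Pool.Agent.Lib.MP_640417_ag.Mt.Wl
import Pool.Agent.Lib.MP_640417_ag.Mt.CnA
import Pool.Agent.Lib.MP_640417_ag.Mt.Fm
import Pool.Agent.Lib.MP_640417_ag.Mt.El
import Pool.Agent.Lib.MP_640417_ag.Mt.Nl
import Pool.Agent.Lib.MP_640417_ag.Mt.Bl
import Pool.Agent.Lib.MP_640417_ag.Mt.Nwl
import Pool.Agent.Lib.MP_640417_ag.Mt.Spl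
import Pool.Agent.Lib.MP_640417_ag.Mt.Csy
import Pool.Agent.Lib.MP_640417_ag.Mt.Lgr
import Pool.Agent.Lib.MP_640417_ag.Mt.Cen
import Pool.Agent.Lib.MP_640417_ag.Mt.Nr
import Pool.Agent.Lib.MP_640417_ag.Mt.Zd

/-!
# MP_640417_ag, Mt: the theorem on the Mumford-Tate conjecture
-/

set_option autoImplicit false

namespace Pool.Agent.Lib.MP_640417_ag.Mt

open Module TensorProduct MeasureTheory Pool.Agent.Lib.MP_640417_ag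
  Pool.Agent.Lib.MP_640417_ag.Frob Pool.Agent.Lib.MP_640417_ag.Glob
  Pool.Agent.Lib.MP_640417_ag.Four Pool.Agent.Lib.MP_640417_ag.Ctl
  Pool.Agent.Lib.MP_640417_ag.Dfr Pool.Agent.Lib.MP_640417_ag.Wn Pool.Agent.Lib.MP_640417_ag.T3

/-- **Mumford-Tate**: codimension two on the fourth power, one class, one Frobenius element. -/
theorem partC (l : ℕ) [Fact l.Prime] {Γ : Type} [Group Γ]
    [TopologicalSpace Γ] [IsTopologicalGroup Γ] [CompactSpace Γ]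
    [MeasurableSpace Γ] [BorelSpace Γ] (ν : Measure Γ)
    [ν.IsHaarMeasure] {V : Type} [AddCommGroup V] [Module ℚ_[l] V] [FiniteDimensional ℚ_[l] V]
    (ρ : H1Rep Γ ℚ_[l] V) (hss : Semisimple ρ) (hF : Dense {γ | FrobLike ρ γ}) :
    ∃ κ, TateClass (fun γ => (ρ.T γ).compLeft (Fin 4)) ρ.χ 2 κ ∧
      (∀ Z : (n i : ℕ) → Submodule ℚ_[l] (ExteriorAlgebra ℚ_[l] (Fin n → V)), Known ρ Z →
        List.TFAE [∀ n i, Controls ρ (LieOf ρ Z) n i, Controls ρ (LieOf ρ Z) 4 2,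
          ∀ X ∈ LieOf ρ Z, Kills 4 X κ, NearOne ν (GoodFor ρ (LieOf ρ Z)),
          ∀ D : Set Γ, Dense D → ∃ γ ∈ D, GoodFor ρ (LieOf ρ Z) γ,
          ∃ γ, GoodFor ρ (LieOf ρ Z) γ] ∧
        List.TFAE [KillsAll ρ (LieOf ρ Z),
          (∀ X ∈ LieOf ρ Z, Kills 4 X κ) ∧ ¬ WeilFor ρ (LieOf ρ Z),
          NearOne ν (fun γ => GoodFor ρ (LieOf ρ Z) γ ∧ (FrobLike ρ γ → DetFor ρ (LieOf ρ Z) γ)),
          ∃ γ, FrobLike ρ γ ∧ GoodFor ρ (LieOf ρ Z) γ ∧ DetFor ρ (LieOf ρ Z) γ,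
          ∃ γ, GoodFor ρ (LieOf ρ Z) γ ∧ DetFor ρ (LieOf ρ Z) γ]) ∧
      Known ρ (DivZ ρ) ∧ (NoExotic ρ ↔ NoIII ρ ∧ KillsAll ρ (LieOf ρ (DivZ ρ))) :=
  all_of l (tKn l (tCd1 l)) (tNwl l tWl) (tCen l tCsy tCnA (tSpl l tTnl) (tLgr l))
    (tNr l tCsy (tBl tFm tEl tNl)) (tZd l (tCd1 l)) ν ρ hss hF (partA l ν ρ hss)

end Pool.Agent.Lib.MP_640417_ag.Mt
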