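import Pool.Agent.Lib.MP_640417_ag.Mt.SpecB

/-!
# MP_640417_ag, Mt, assembly: one good element forces `g ≤ Hp`
-/

set_option autoImplicit false

namespace Pool.Agent.Lib.MP_640417_ag.Mt

open Matrix Module TensorProduct MeasureTheory Pool.Agent.Lib.MP_640417_ag
  Pool.Agent.Lib.MP_640417_ag.Frob Pool.Agent.Lib.MP_640417_ag.Glob
  Pool.Agent.Lib.MP_640417_ag.Four Pool.Agent.Lib.MP_640417_ag.Ctl
  Pool.Agent.Lib.MP_640417_ag.Dfr Pool.Agent.Lib.MP_640417_ag.Ty Pool.Agent.Lib.MP_640417_ag.Zo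
  Pool.Agent.Lib.MP_640417_ag.Gen4

section gk

variable {F : Type} [Field F] (K : Type) [Field K] [Algebra F K] {I : Type} [Fintype I]
  [DecidableEq I]

theorem map_mem_gK {g : Submodule F (Matrix I I F)} {X : Matrix I I F} (h : X ∈ g) :
    X.map (algebraMap F K) ∈ gK K g := Submodule.subset_span ⟨X, h, rfl⟩

theorem gK_mono {g h : Submodule F (Matrix I I F)} (hgh : g ≤ h) : gK K g ≤ gK K h := by
  refine Submodule.span_le.2 ?_
  rintro _ ⟨X, hX, rfl⟩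
  exact map_mem_gK K (hgh hX)

theorem gK_sup (g h : Submodule F (Matrix I I F)) : gK K (g ⊔ h) = gK K g ⊔ gK K h := by
  refine le_antisymm (Submodule.span_le.2 ?_) (sup_le (gK_mono K le_sup_left)
    (gK_mono K le_sup_right))
  rintro _ ⟨X, hX, rfl⟩
  obtain ⟨Y, hY, Z, hZ, rfl⟩ := Submodule.mem_sup.1 hX
  rw [Matrix.map_add _ (map_add _)]
  exact Submodule.add_mem_sup (map_mem_gK K hY) (map_mem_gK K hZ)

/-- relations with elements of the span -/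
theorem gK_comm {g : Submodule F (Matrix I I F)} {P : Matrix I I K}
    (h : ∀ X ∈ g, P * X.map (algebraMap F K) = X.map (algebraMap F K) * P) :
    ∀ X ∈ gK K g, P * X = X * P := by
  intro X hX
  refine Submodule.span_induction ?_ ?_ ?_ ?_ hX
  · rintro _ ⟨Y, hY, rfl⟩
    exact h Y hY
  · rw [Matrix.mul_zero, Matrix.zero_mul]
  · intro A B _ _ hA hB
    rw [Matrix.mul_add, Matrix.add_mul, hA, hB]
  · intro c A _ hA
    rw [Matrix.mul_smul, Matrix.smul_mul, hA]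

theorem map_mul' (X Y : Matrix I I F) :
    (X * Y).map (algebraMap F K) = X.map (algebraMap F K) * Y.map (algebraMap F K) :=
  Matrix.map_mul

theorem gK_comm2 {g h : Submodule F (Matrix I I F)} (hc : ∀ X ∈ g, ∀ Y ∈ h, X * Y = Y * X) :
    ∀ X ∈ gK K g, ∀ Y ∈ gK K h, X * Y = Y * X := by
  intro X hX Y hY
  refine gK_comm K (g := h) (P := X) (fun Y hY => ?_) Y hY
  refine (gK_comm K (g := g) (P := Y.map (algebraMap F K)) (fun X hX => ?_) X hX).symm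
  rw [← map_mul', ← map_mul', hc X hX Y hY]

end gk

variable (l : ℕ) [Fact l.Prime] {Γ : Type} [Group Γ] [TopologicalSpace Γ]
  [IsTopologicalGroup Γ] [CompactSpace Γ] {I : Type} [Fintype I] [DecidableEq I]

/-- **One good element forces `g ≤ Hp`.** -/
theorem le_Hp (hBc : S_Bc) (hGz : S_Gz) (hCor : S_Cor) (hGnd : S_Gnd l (Γ := Γ))
    (hIdl : S_Idl l (Γ := Γ)) (hHlz : S_Hlz l (Γ := Γ)) (ρ : MRep Γ ℚ_[l] I) (hsemi : ρ.Semi)
    (g : Submodule ℚ_[l] (Matrix I I ℚ_[l])) (hg : HL ρ l g) (γ : Γ) (hγ : GoodM ρ g γ) :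
    g ≤ Hp ρ l := by
  have hchar : CharZero (AlgebraicClosure ℚ_[l]) :=
    charZero_of_injective_algebraMap (algebraMap ℚ_[l] (AlgebraicClosure ℚ_[l])).injective
  obtain ⟨hadd, hHp, hZc, U, hU⟩ := hHlz I ρ hsemi
  obtain ⟨n, hn, hnU⟩ := exists_pow U
  obtain ⟨hS1, hS2, hSC, A, hA, hSA, hAP⟩ := hU _ (hnU γ)
  set S := ρ.M (γ ^ n) with hS
  set S' := ρ.M (γ ^ n)⁻¹ with hS'
  have s1 : S * S' = 1 := M_mul_inv ρ _
  have s2 : S' * S = 1 := M_inv_mul ρ _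
  have hgp : HL ρ l (g ⊔ Zm ρ) := hadd g hg
  have hZg : Zm ρ ≤ g ⊔ Zm ρ := le_sup_right
  have hHg : Hp ρ l ≤ g ⊔ Zm ρ := sup_le (hg.hh.trans le_sup_left) hZg
  obtain ⟨b1, b2, b3, b4, b5, b6⟩ := hBc ℚ_[l] (AlgebraicClosure ℚ_[l]) I
  set K := AlgebraicClosure ℚ_[l]
  have hmap1 : ∀ {X Y : Matrix I I ℚ_[l]}, X * Y = 1 →
      X.map (algebraMap ℚ_[l] K) * Y.map (algebraMap ℚ_[l] K) = 1 := by
    intro X Y h
    rw [← map_mul', h]
    exact Matrix.map_one _ (map_zero _) (map_one _)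
  have hcomm : ∀ {X Y : Matrix I I ℚ_[l]}, X * Y = Y * X →
      X.map (algebraMap ℚ_[l] K) * Y.map (algebraMap ℚ_[l] K) =
        Y.map (algebraMap ℚ_[l] K) * X.map (algebraMap ℚ_[l] K) := by
    intro X Y h
    rw [← map_mul', ← map_mul', h]
  -- the good element for `g ⊔ Zm`
  have hgood : GoodL (gK K (g ⊔ Zm ρ)) (S.map (algebraMap ℚ_[l] K))
      (S'.map (algebraMap ℚ_[l] K)) := by
    rw [gK_sup]
    refine hGz K I _ _ _ _ (hmap1 s1) (hmap1 s2) (b4 g S S' fun X hX => hg.ad _ X hX) ?_ ?_ ?_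
      (hγ n hn)
    · exact gK_comm K fun z hz => hcomm (hSC z hz.1)
    · refine gK_comm2 K fun z hz X hX => (hg.com X hX z hz.1).symm
    · exact gK_comm2 K fun z hz z' hz' => hZc z hz z' hz'
  have hcore : Core (gK K (g ⊔ Zm ρ)) (gK K (Hp ρ l)) (S.map (algebraMap ℚ_[l] K))
      (S'.map (algebraMap ℚ_[l] K)) (A.map (algebraMap ℚ_[l] K)) := by
    refine ⟨gK_mono K hHg, b3 _ hgp.lie, b3 _ hHp.lie, b2 _ (hGnd I ρ hsemi _ hgp hZg),
      b2 _ (hGnd I ρ hsemi _ hHp le_sup_right), hmap1 s1, hmap1 s2,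
      b4 _ S S' fun X hX => hgp.ad _ X hX, b4 _ S S' fun X hX => hHp.ad _ X hX,
      map_mem_gK K (Submodule.mem_sup_left hA), hcomm hSA, ?_, hgood, ?_⟩
    · intro X _ hX
      exact b6 A S hAP X hX
    · refine b5 (g ⊔ Zm ρ) (Hp ρ l) ?_
      intro P hP X hX
      obtain ⟨W, hW⟩ := comm_open ρ l (norm_l l) (l_ne l)
      have hPC : ρ.InC P := ⟨W, hW P fun Y hY => (hP Y (Submodule.mem_sup_left hY)).symm⟩
      exact (hgp.com X hX P hPC).symm
  intro X hX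
  refine hIdl I ρ hsemi X (hg.skew X hX) (hg.com X hX) fun Y hY => ?_
  have h1 := hCor K I _ _ _ _ _ hcore (X.map (algebraMap ℚ_[l] K))
    (map_mem_gK K (Submodule.mem_sup_left hX)) (Y.map (algebraMap ℚ_[l] K)) (map_mem_gK K hY)
  refine b1 (Hp ρ l) _ ?_
  rw [Matrix.map_sub _ (map_sub _), map_mul', map_mul']
  exact h1

end Pool.Agent.Lib.MP_640417_ag.Mt
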