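import Pool.Agent.Lib.MP_640417_ag.Mt.AsmA

/-!
# MP_640417_ag, Mt, assembly: almost all elements near the identity are good for `Hp`
-/

set_option autoImplicit false

namespace Pool.Agent.Lib.MP_640417_ag.Mt

open Matrix Module TensorProduct MeasureTheory Pool.Agent.Lib.MP_640417_ag
  Pool.Agent.Lib.MP_640417_ag.Frob Pool.Agent.Lib.MP_640417_ag.Glob
  Pool.Agent.Lib.MP_640417_ag.Four Pool.Agent.Lib.MP_640417_ag.Ctl
  Pool.Agent.Lib.MP_640417_ag.Dfr Pool.Agent.Lib.MP_640417_ag.Ty Pool.Agent.Lib.MP_640417_ag.Zo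
  Pool.Agent.Lib.MP_640417_ag.Gen4

section lin

variable {K : Type} [Field K] {I : Type} [Fintype I] [DecidableEq I]

theorem ad_add (A B : Matrix I I K) : ad (A + B) = ad A + ad B := by
  ext1 X
  simp only [ad_apply, LinearMap.add_apply, Matrix.add_mul, Matrix.mul_add]
  abel

theorem ad_smul (c : K) (A : Matrix I I K) : ad (c • A) = c • ad A := by
  ext1 X
  simp only [ad_apply, LinearMap.smul_apply, Matrix.smul_mul, Matrix.mul_smul, smul_sub]

theorem mx_add (T T' : Module.End K (Matrix I I K)) : mx (T + T') = mx T + mx T' := by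
  ext x y
  simp [mx]

theorem mx_smul (c : K) (T : Module.End K (Matrix I I K)) : mx (c • T) = c • mx T := by
  ext x y
  simp [mx]

theorem mx_sum {ι : Type} (s : Finset ι) (T : ι → Module.End K (Matrix I I K)) :
    mx (∑ i ∈ s, T i) = ∑ i ∈ s, mx (T i) := by
  classical
  induction s using Finset.induction_on with
  | empty =>
    ext x y
    simp [mx]
  | insert a s ha ih => rw [Finset.sum_insert ha, Finset.sum_insert ha, mx_add, ih]

/-- the linear map `A ↦ mx (ad A * p)` -/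
noncomputable def adp (p : Module.End K (Matrix I I K)) :
    Matrix I I K →ₗ[K] Matrix (I × I) (I × I) K where
  toFun A := mx (ad A * p)
  map_add' A B := by rw [ad_add, add_mul, mx_add]
  map_smul' c A := by rw [ad_smul, smul_mul_assoc, mx_smul, RingHom.id_apply]

theorem shift (T : Module.End K (Matrix I I K)) (z : K) :
    (T - 1).maxGenEigenspace z = T.maxGenEigenspace (1 + z) := by
  ext X
  rw [Module.End.mem_maxGenEigenspace, Module.End.mem_maxGenEigenspace]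
  have : T - 1 - z • (1 : Module.End K (Matrix I I K)) = T - (1 + z) • 1 := by
    rw [add_smul, one_smul]
    abel
  rw [this]

end lin

variable (l : ℕ) [Fact l.Prime] {Γ : Type} [Group Γ] [TopologicalSpace Γ]
  [IsTopologicalGroup Γ] [CompactSpace Γ] {I : Type} [Fintype I] [DecidableEq I]

/-- `GoodL` for one element near the identity -/
theorem goodL_of_fr (hBc : S_Bc) (hGn0 : S_Gn0) (hRsd : S_Rsd) (hFrA : S_FrA)
    (K : Type) [Field K] [IsAlgClosed K] [CharZero K] (L : Submodule K (Matrix I I K))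
    (r : ℕ) (r1 : ∀ b ∈ L, r ≤ finrank K (ev (ad b) L 0))
    (r2 : ∀ b ∈ L, finrank K (ev (ad b) L 0) = r → Cm (ev (ad b) L 0))
    (p : Module.End K (Matrix I I K)) (p1 : ∀ Y, p Y ∈ L) (p2 : ∀ X ∈ L, p X = X)
    (S S' A : Matrix I I K) (s1 : S * S' = 1) (s2 : S' * S = 1) (hSL : ∀ X ∈ L, S * X * S' ∈ L)
    (hA : A ∈ L) (hSA : S * A = A * S)
    (hAP : ∀ P : Matrix I I K, A * P = P * A → S * P = P * S)
    (hfr : fr (r + (Fintype.card I * Fintype.card I - finrank K L))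
      (mx ((cj S S' - 1) * p)) ≠ 0) : GoodL L S S' := by
  have hT : ∀ X ∈ L, (cj S S' - 1) X ∈ L := by
    intro X hX
    rw [LinearMap.sub_apply, cj_apply, Module.End.one_apply]
    exact L.sub_mem (hSL X hX) hX
  obtain ⟨h1, h2⟩ := hRsd K I L p (cj S S' - 1) p1 p2 hT
  have h0 : ev (cj S S' - 1) L 0 = ev (cj S S') L 1 := by
    rw [ev, ev, shift, add_zero]
  have hle : ev (ad A) L 0 ≤ ev (cj S S') L 1 :=
    inf_le_inf le_rfl (hGn0 K I A S S' s1 s2 hSA hAP)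
  have hfin : finrank K (ev (ad A) L 0) ≤ finrank K (ev (cj S S') L 1) :=
    Submodule.finrank_mono hle
  have h3 := r1 A hA
  obtain ⟨h4, h5⟩ := (hFrA K (I × I) _ _).1 hfr (by rw [h2, h0]; omega)
  rw [h2, h0] at h4
  have h6 : finrank K (ev (ad A) L 0) = finrank K (ev (cj S S') L 1) := by omega
  have h7 : ev (ad A) L 0 = ev (cj S S') L 1 := Submodule.eq_of_le_of_finrank_eq hle h6
  refine ⟨?_, fun z hz => ?_⟩
  · rw [← h7]
    exact r2 A hA (by omega)
  · have h8 : ev (cj S S' - 1) L (z - 1) = ev (cj S S') L z := by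
      rw [ev, ev, shift, add_sub_cancel]
    rw [← h8, ← h1 (z - 1) (sub_ne_zero.2 hz)]
    exact h5 (z - 1) (sub_ne_zero.2 hz)

/-- a combination of tangent vectors with nonzero `fr` -/
theorem exists_Zt (hBc : S_Bc) (hRsd : S_Rsd) (hFrA : S_FrA) (hExt : S_Ext) (hSpn : S_Spn)
    (hHlz : S_Hlz l (Γ := Γ)) (ρ : MRep Γ ℚ_[l] I) (hsemi : ρ.Semi) (K : Type) [Field K]
    [IsAlgClosed K] [CharZero K] [Algebra ℚ_[l] K]
    (p : Module.End ℚ_[l] (Matrix I I ℚ_[l])) (p1 : ∀ Y, p Y ∈ Hp ρ l)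
    (r : ℕ) (a : Matrix I I K) (ha : a ∈ gK K (Hp ρ l)) (p2 : ∀ X ∈ Hp ρ l, p X = X)
    (ha0 : finrank K (ev (ad a) (gK K (Hp ρ l)) 0) = r)
    (ha1 : ∀ z : K, z ≠ 0 → finrank K (ev (ad a) (gK K (Hp ρ l)) z) ≤ 1) :
    ∃ A ∈ ρ.Zt l, fr (r + (Fintype.card I * Fintype.card I - finrank K (gK K (Hp ρ l))))
      (mx (ad A * p)) ≠ 0 := by
  obtain ⟨-, hHp, hZc, -⟩ := hHlz I ρ hsemi
  obtain ⟨b1, b2, b3, b4, b5, b6⟩ := hBc ℚ_[l] K I
  obtain ⟨e1, e2⟩ := hExt ℚ_[l] K I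
  obtain ⟨pK, q1, q2, q3⟩ := e1 (Hp ρ l) p p1 p2
  set L := gK K (Hp ρ l) with hL
  set r' := r + (Fintype.card I * Fintype.card I - finrank K L) with hr'
  have hTL : ∀ X ∈ L, ad a X ∈ L := fun X hX => b3 _ hHp.lie a ha X hX
  obtain ⟨h1, h2⟩ := hRsd K I L pK (ad a) q1 q2 hTL
  have h3 : fr r' (mx (ad a * pK)) ≠ 0 := by
    refine (hFrA K (I × I) r' _).2 (by rw [h2, ha0]) fun z hz => ?_
    rw [h1 z hz]
    exact ha1 z hz
  by_contra hcon
  push Not at hcon
  -- the operators are combinations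
  have hmem : ∀ X ∈ Hp ρ l, ad X * p ∈ Submodule.span ℚ_[l] {T | ∃ A ∈ ρ.Zt l, T = ad A * p} := by
    intro X hX
    obtain ⟨Y, hY, z, hz, rfl⟩ := Submodule.mem_sup.1 hX
    obtain ⟨-, s, hs⟩ := hY
    have hz0 : ad z * p = 0 := by
      ext1 W
      rw [Module.End.mul_apply, ad_apply, LinearMap.zero_apply, sub_eq_zero]
      exact (hHp.com _ (p1 W) z hz.1).symm
    have hs0 : ad (s • (1 : Matrix I I ℚ_[l])) = 0 := by
      ext1 W
      rw [ad_apply, LinearMap.zero_apply, Matrix.smul_mul, Matrix.mul_smul, Matrix.one_mul,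
        Matrix.mul_one, sub_self]
    have h4 : ad (Y + z) * p = ad (Y + s • (1 : Matrix I I ℚ_[l])) * p := by
      rw [ad_add, ad_add, add_mul, add_mul, hz0, hs0, zero_mul]
    rw [h4]
    refine Submodule.span_induction (p := fun W _ => ad W * p ∈ Submodule.span ℚ_[l]
      {T | ∃ A ∈ ρ.Zt l, T = ad A * p}) ?_ ?_ ?_ ?_ hs
    · intro A hA
      exact Submodule.subset_span ⟨A, hA, rfl⟩
    · have : ad (0 : Matrix I I ℚ_[l]) = 0 := by
        ext1 W
        rw [ad_apply, LinearMap.zero_apply, Matrix.zero_mul, Matrix.mul_zero, sub_self]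
      rw [this, zero_mul]
      exact Submodule.zero_mem _
    · intro A B _ _ hA hB
      rw [ad_add, add_mul]
      exact Submodule.add_mem _ hA hB
    · intro c A _ hA
      rw [ad_smul, smul_mul_assoc]
      exact Submodule.smul_mem _ c hA
  have hcompat : ∀ X : Matrix I I ℚ_[l], ∀ W : Matrix I I ℚ_[l],
      (ad (X.map (algebraMap ℚ_[l] K)) * pK) (W.map (algebraMap ℚ_[l] K)) =
        ((ad X * p) W).map (algebraMap ℚ_[l] K) := by
    intro X W
    rw [Module.End.mul_apply, Module.End.mul_apply, q3, ad_apply, ad_apply,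
      Matrix.map_sub _ (map_sub _), map_mul', map_mul']
  have hmx : ∀ X : Matrix I I ℚ_[l], mx (ad (X.map (algebraMap ℚ_[l] K)) * pK) =
      (mx (ad X * p)).map (algebraMap ℚ_[l] K) := fun X => e2 _ _ (hcompat X)
  have hmemK : mx (ad a * pK) ∈
      Submodule.span K {T | ∃ A ∈ ρ.Zt l, T = (adp p A).map (algebraMap ℚ_[l] K)} := by
    refine Submodule.span_induction (p := fun W _ => mx (ad W * pK) ∈
      Submodule.span K {T | ∃ A ∈ ρ.Zt l, T = (adp p A).map (algebraMap ℚ_[l] K)})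
      ?_ ?_ ?_ ?_ ha
    · rintro _ ⟨X, hX, rfl⟩
      rw [hmx]
      have h5 := hmem X hX
      refine Submodule.span_induction (p := fun T _ => (mx T).map (algebraMap ℚ_[l] K) ∈
        Submodule.span K {T | ∃ A ∈ ρ.Zt l, T = (adp p A).map (algebraMap ℚ_[l] K)})
        ?_ ?_ ?_ ?_ h5
      · rintro _ ⟨A, hA, rfl⟩
        exact Submodule.subset_span ⟨A, hA, rfl⟩
      · have : (mx (0 : Module.End ℚ_[l] (Matrix I I ℚ_[l]))).map (algebraMap ℚ_[l] K) = 0 := by
          ext x y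
          simp [mx]
        rw [this]
        exact Submodule.zero_mem _
      · intro T T' _ _ hT hT'
        rw [mx_add, Matrix.map_add _ (map_add _)]
        exact Submodule.add_mem _ hT hT'
      · intro c T _ hT
        have : (mx (c • T)).map (algebraMap ℚ_[l] K) =
            algebraMap ℚ_[l] K c • (mx T).map (algebraMap ℚ_[l] K) := by
          ext x y
          simp [mx]
        rw [this]
        exact Submodule.smul_mem _ _ hT
    · have : ad (0 : Matrix I I K) = 0 := by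
        ext1 W
        rw [ad_apply, LinearMap.zero_apply, Matrix.zero_mul, Matrix.mul_zero, sub_self]
      rw [this, zero_mul]
      have : mx (0 : Module.End K (Matrix I I K)) = 0 := by
        ext x y
        simp [mx]
      rw [this]
      exact Submodule.zero_mem _
    · intro A B _ _ hA hB
      rw [ad_add, add_mul, mx_add]
      exact Submodule.add_mem _ hA hB
    · intro c A _ hA
      rw [ad_smul, smul_mul_assoc, mx_smul]
      exact Submodule.smul_mem _ c hA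
  obtain ⟨n, c, G, hG⟩ := Submodule.mem_span_set'.1 hmemK
  choose A hAZ hAG using fun i => (G i).2
  refine h3 ?_
  rw [← hG]
  have h6 : ∑ i, c i • ((G i : Matrix (I × I) (I × I) K)) =
      ∑ i, c i • (adp p (A i)).map (algebraMap ℚ_[l] K) :=
    Finset.sum_congr rfl fun i _ => by rw [hAG i]
  rw [h6]
  have hZ0 : (0 : Matrix I I ℚ_[l]) ∈ ρ.Zt l := by
    refine ⟨fun _ => 1, ?_⟩
    simp only [map_one, sub_self, smul_zero]
    exact tendsto_const_nhds
  exact hSpn ℚ_[l] K I (I × I) r' (adp p) (ρ.Zt l) hZ0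
    (fun A hA B hB => Zt_add ρ l (norm_l l) (l_ne l) hA hB) (fun A hA => hcon A hA) n A c hAZ

/-- **Almost all elements near the identity are good for `Hp`.** -/
theorem near_Hp (hBc : S_Bc) (hGn0 : S_Gn0) (hRsd : S_Rsd) (hFrA : S_FrA) (hFrB : S_FrB)
    (hExt : S_Ext) (hSpn : S_Spn) (hRnk : S_Rnk) (hGnr : S_Gnr) (hGdp : S_Gdp l)
    (hRgl : S_Rgl l (Γ := Γ)) (hLmt : S_Lmt l (Γ := Γ)) (hGnd : S_Gnd l (Γ := Γ))
    (hHlz : S_Hlz l (Γ := Γ)) (ρ : MRep Γ ℚ_[l] I) (hsemi : ρ.Semi) [MeasurableSpace Γ]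
    [BorelSpace Γ] (ν : Measure Γ) [ν.IsHaarMeasure] :
    NearOne ν (fun γ => GoodM ρ (Hp ρ l) γ) := by
  have hchar : CharZero (AlgebraicClosure ℚ_[l]) :=
    charZero_of_injective_algebraMap (algebraMap ℚ_[l] (AlgebraicClosure ℚ_[l])).injective
  rcases isEmpty_or_nonempty I with hI | hI
  · refine ⟨⊤, Set.univ, isOpen_univ, fun _ _ => trivial, ?_, fun γ _ N _ => ⟨?_, ?_⟩⟩
    · simp
    · intro X _ Y _
      exact Subsingleton.elim _ _
    · intro z _
      have : finrank (AlgebraicClosure ℚ_[l]) (ev (cj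
        ((ρ.M (γ ^ N)).map (algebraMap ℚ_[l] (AlgebraicClosure ℚ_[l])))
        ((ρ.M (γ ^ N)⁻¹).map (algebraMap ℚ_[l] (AlgebraicClosure ℚ_[l]))))
        (gK (AlgebraicClosure ℚ_[l]) (Hp ρ l)) z) = 0 :=
        Module.finrank_zero_of_subsingleton
      omega
  obtain ⟨-, hHp, hZc, U, hU⟩ := hHlz I ρ hsemi
  have hnd := hGnd I ρ hsemi _ hHp le_sup_right
  obtain ⟨b1, b2, b3, b4, b5, b6⟩ := hBc ℚ_[l] (AlgebraicClosure ℚ_[l]) I
  obtain ⟨e1, e2⟩ := hExt ℚ_[l] (AlgebraicClosure ℚ_[l]) I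
  set K := AlgebraicClosure ℚ_[l]
  set L := gK K (Hp ρ l) with hL
  obtain ⟨r, r1, r2, a0, ha0, hr0⟩ := hRnk K I L (b3 _ hHp.lie) (b2 _ hnd)
  obtain ⟨a, ha, ha1, ha2⟩ := hGnr K I L (b3 _ hHp.lie) (b2 _ hnd) a0 ha0 (r2 a0 ha0 hr0)
  obtain ⟨p, p1, p2, -, -⟩ := exists_proj (Hp ρ l) hnd
  obtain ⟨pK, q1, q2, q3⟩ := e1 (Hp ρ l) p p1 p2
  obtain ⟨A0, hA0, hfr0⟩ := exists_Zt l hBc hRsd hFrA hExt hSpn hHlz ρ hsemi K p p1 r a ha p2
    (by rw [ha1, hr0]) ha2
  set r' := r + (Fintype.card I * Fintype.card I - finrank K L) with hr'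
  set f : Γ → ℚ_[l] := fun γ => fr r' (mx ((cj (ρ.M γ) (ρ.M γ⁻¹) - 1) * p)) with hf
  have hreg : IsReg ρ (U.toSubgroup : Set Γ) f := hRgl I ρ _ (fun γ hγ => (hU γ hγ).1)
    (fun γ hγ => U.inv_mem hγ) r' p
  have hnull : ν {γ | γ ∈ U.toSubgroup ∧ f γ = 0} = 0 := by
    rcases null_or_zero ρ ν U.toSubgroup hreg with h | h
    · exact h
    · exact absurd (hLmt I ρ U r' p (fun γ hγ => h γ hγ) A0 hA0) hfr0
  have hcont : Continuous f := by
    refine (hFrB.2.2 ℚ_[l] (I × I) r').comp ?_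
    refine continuous_matrix fun x y => ?_
    have h1 : ∀ γ, mx ((cj (ρ.M γ) (ρ.M γ⁻¹) - 1) * p) x y =
        (ρ.M γ * p (Matrix.single y.1 y.2 1) * ρ.M γ⁻¹ - p (Matrix.single y.1 y.2 1)) x.1 x.2 :=
      fun γ => rfl
    simp only [h1]
    have h2 : Continuous fun γ => ρ.M γ * p (Matrix.single y.1 y.2 1) * ρ.M γ⁻¹ :=
      (ρ.cont.matrix_mul continuous_const).matrix_mul (ρ.cont.comp continuous_inv)
    exact (h2.sub continuous_const).matrix_elem x.1 x.2
  refine ⟨U, {γ | γ ∈ U ∧ f γ ≠ 0}, ?_, fun γ hγ => hγ.1, ?_, ?_⟩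
  · exact U.isOpen.inter (isOpen_ne.preimage hcont)
  · refine measure_mono_null ?_ hnull
    rintro γ ⟨h1, h2⟩
    refine ⟨h1, ?_⟩
    by_contra h3
    exact h2 ⟨h1, h3⟩
  · rintro γ ⟨hγ, hfγ⟩ N hN
    obtain ⟨hS1, hS2, hSC, A, hA, hSA, hAP⟩ := hU γ hγ
    have s1 : ρ.M γ * ρ.M γ⁻¹ = 1 := M_mul_inv ρ _
    have s2 : ρ.M γ⁻¹ * ρ.M γ = 1 := M_inv_mul ρ _
    have hmap1 : ∀ {X Y : Matrix I I ℚ_[l]}, X * Y = 1 →
        X.map (algebraMap ℚ_[l] K) * Y.map (algebraMap ℚ_[l] K) = 1 := by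
      intro X Y h
      rw [← map_mul', h]
      exact Matrix.map_one _ (map_zero _) (map_one _)
    have hmx : mx ((cj ((ρ.M γ).map (algebraMap ℚ_[l] K)) ((ρ.M γ⁻¹).map (algebraMap ℚ_[l] K))
        - 1) * pK) = (mx ((cj (ρ.M γ) (ρ.M γ⁻¹) - 1) * p)).map (algebraMap ℚ_[l] K) := by
      refine e2 _ _ fun X => ?_
      rw [Module.End.mul_apply, Module.End.mul_apply, q3, LinearMap.sub_apply,
        LinearMap.sub_apply, cj_apply, cj_apply, Module.End.one_apply, Module.End.one_apply,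
        Matrix.map_sub _ (map_sub _), map_mul', map_mul']
    have hgood : GoodL L ((ρ.M γ).map (algebraMap ℚ_[l] K))
        ((ρ.M γ⁻¹).map (algebraMap ℚ_[l] K)) := by
      refine goodL_of_fr hBc hGn0 hRsd hFrA K L r r1 r2 pK q1 q2 _ _
        (A.map (algebraMap ℚ_[l] K)) (hmap1 s1) (hmap1 s2)
        (b4 _ _ _ fun X hX => hHp.ad γ X hX) (map_mem_gK K (Submodule.mem_sup_left hA)) ?_
        (fun P hP => b6 A _ hAP P hP) ?_
      · rw [← map_mul', ← map_mul', hSA]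
      · rw [hmx, hFrB.1]
        exact (map_ne_zero _).2 hfγ
    have h1 := hGdp K I (ρ.M γ) (ρ.M γ⁻¹) s1 s2 hS1 hS2 L hgood N hN
    have h2 : (ρ.M (γ ^ N)).map (algebraMap ℚ_[l] K) = (ρ.M γ).map (algebraMap ℚ_[l] K) ^ N := by
      rw [map_pow]
      exact map_pow (algebraMap ℚ_[l] K).mapMatrix (ρ.M γ) N
    have h3 : (ρ.M (γ ^ N)⁻¹).map (algebraMap ℚ_[l] K) =
        (ρ.M γ⁻¹).map (algebraMap ℚ_[l] K) ^ N := by
      rw [← inv_pow, map_pow]
      exact map_pow (algebraMap ℚ_[l] K).mapMatrix (ρ.M γ⁻¹) N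
    rw [h2, h3]
    exact h1

end Pool.Agent.Lib.MP_640417_ag.Mt
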