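import Pool.Agent.Lib.MP_640417_ag.Mt.SpecB

/-!
# MP_640417_ag, Mt, module `Bc`: extension of scalars
-/

set_option autoImplicit false

namespace Pool.Agent.Lib.MP_640417_ag.Mt

open Matrix Module

section

variable {F K : Type} [Field F] [Field K] [Algebra F K] {I : Type} [Fintype I]

private theorem Bc_mul_right (f : K →ₗ[F] F) (P : Matrix I I K) (Y : Matrix I I F) :
    (P * Y.map (algebraMap F K)).map f = P.map f * Y := by
  ext i j
  simp only [Matrix.map_apply, Matrix.mul_apply, map_sum]
  refine Finset.sum_congr rfl fun k _ => ?_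
  rw [mul_comm (P i k), ← Algebra.smul_def, map_smul, smul_eq_mul, mul_comm]

private theorem Bc_mul_left (f : K →ₗ[F] F) (P : Matrix I I K) (Y : Matrix I I F) :
    (Y.map (algebraMap F K) * P).map f = Y * P.map f := by
  ext i j
  simp only [Matrix.map_apply, Matrix.mul_apply, map_sum]
  refine Finset.sum_congr rfl fun k _ => ?_
  rw [← Algebra.smul_def, map_smul, smul_eq_mul]

private theorem Bc_zero (P : Matrix I I K)
    (h : ∀ f : K →ₗ[F] F, P.map f = 0) : P = 0 := by
  ext i j
  rw [Matrix.zero_apply, ← Module.forall_dual_apply_eq_zero_iff F]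
  intro f
  have h1 := congrFun (congrFun (h f) i) j
  simpa using h1

private theorem Bc_eq (P Q : Matrix I I K)
    (h : ∀ f : K →ₗ[F] F, P.map f = Q.map f) : P = Q := by
  refine sub_eq_zero.1 (Bc_zero (F := F) (P - Q) fun f => ?_)
  ext i j
  have h1 := congrFun (congrFun (h f) i) j
  simp only [Matrix.map_apply] at h1
  simp only [Matrix.map_apply, Matrix.sub_apply, map_sub, h1, sub_self, Matrix.zero_apply]

private theorem Bc_alg (f : K →ₗ[F] F) (X : Matrix I I F) :
    (X.map (algebraMap F K)).map f = f 1 • X := by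
  ext i j
  simp only [Matrix.map_apply, Matrix.smul_apply, smul_eq_mul]
  rw [Algebra.algebraMap_eq_smul_one, map_smul, smul_eq_mul, mul_comm]

private theorem Bc_mem (g : Submodule F (Matrix I I F)) (P : Matrix I I K) (hP : P ∈ gK K g) :
    ∀ f : K →ₗ[F] F, P.map f ∈ g := by
  unfold gK at hP
  induction hP using Submodule.span_induction with
  | mem x hx =>
    obtain ⟨X, hX, rfl⟩ := hx
    intro f
    rw [Bc_alg]
    exact g.smul_mem _ hX
  | zero =>
    intro f
    have : (0 : Matrix I I K).map f = 0 := by
      ext i j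
      simp
    rw [this]
    exact g.zero_mem
  | add x y _ _ hx hy =>
    intro f
    have : (x + y).map f = x.map f + y.map f := by
      ext i j
      simp
    rw [this]
    exact g.add_mem (hx f) (hy f)
  | smul c x _ hx =>
    intro f
    have : (c • x).map f = x.map (f ∘ₗ (LinearMap.mulLeft F c)) := by
      ext i j
      simp
    rw [this]
    exact hx _

private theorem Bc_one : ∃ f : K →ₗ[F] F, f 1 = 1 := by
  by_contra h
  push Not at h
  have h1 : ∀ f : Dual F K, f (1 : K) = 0 := by
    intro f
    by_contra h2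
    refine h ((f 1)⁻¹ • f) ?_
    rw [LinearMap.smul_apply, smul_eq_mul, inv_mul_cancel₀ h2]
  exact one_ne_zero ((Module.forall_dual_apply_eq_zero_iff F (1 : K)).1 h1)

private theorem Bc_gen (g : Submodule F (Matrix I I F)) (X : Matrix I I F) (hX : X ∈ g) :
    X.map (algebraMap F K) ∈ gK K g := Submodule.subset_span ⟨X, hX, rfl⟩

end

theorem tBc : S_Bc := by
  intro F K _ _ _ I _ _
  refine ⟨?_, ?_, ?_, ?_, ?_, ?_⟩
  · intro g X hX
    obtain ⟨f, hf⟩ := Bc_one (F := F) (K := K)
    have h := Bc_mem g _ hX f
    rwa [Bc_alg, hf, one_smul] at h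
  · intro g hg P hP ho
    refine Bc_zero (F := F) P fun f => ?_
    refine hg _ (Bc_mem g P hP f) fun Y hY => ?_
    rw [← Bc_mul_right]
    have h := ho _ (Bc_gen (K := K) g Y hY)
    have h2 : ((P * Y.map (algebraMap F K)).map f).trace =
        f (P * Y.map (algebraMap F K)).trace := by
      simp only [Matrix.trace, Matrix.diag_apply, Matrix.map_apply, map_sum]
    rw [h2, h, map_zero]
  · intro g hg X hX Y hY
    unfold gK at hX
    induction hX using Submodule.span_induction with
    | mem x hx =>
      obtain ⟨X, hX, rfl⟩ := hx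
      unfold gK at hY
      induction hY using Submodule.span_induction with
      | mem y hy =>
        obtain ⟨Y, hY, rfl⟩ := hy
        rw [← Matrix.map_mul, ← Matrix.map_mul, ← Matrix.map_sub _ (map_sub _)]
        exact Bc_gen g _ (hg X hX Y hY)
      | zero =>
        rw [Matrix.mul_zero, Matrix.zero_mul, sub_zero]
        exact Submodule.zero_mem _
      | add y z _ _ hy hz =>
        rw [Matrix.mul_add, Matrix.add_mul, add_sub_add_comm]
        exact Submodule.add_mem _ hy hz
      | smul c y _ hy =>
        rw [Matrix.mul_smul, Matrix.smul_mul, ← smul_sub]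
        exact Submodule.smul_mem _ _ hy
    | zero =>
      rw [Matrix.mul_zero, Matrix.zero_mul, sub_zero]
      exact Submodule.zero_mem _
    | add y z _ _ hy hz =>
      rw [Matrix.mul_add, Matrix.add_mul, add_sub_add_comm]
      exact Submodule.add_mem _ hy hz
    | smul c y _ hy =>
      rw [Matrix.mul_smul, Matrix.smul_mul, ← smul_sub]
      exact Submodule.smul_mem _ _ hy
  · intro g S S' h X hX
    unfold gK at hX
    induction hX using Submodule.span_induction with
    | mem x hx =>
      obtain ⟨X, hX, rfl⟩ := hx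
      rw [← Matrix.map_mul, ← Matrix.map_mul]
      exact Bc_gen g _ (h X hX)
    | zero =>
      rw [Matrix.mul_zero, Matrix.zero_mul]
      exact Submodule.zero_mem _
    | add y z _ _ hy hz =>
      rw [Matrix.mul_add, Matrix.add_mul]
      exact Submodule.add_mem _ hy hz
    | smul c y _ hy =>
      rw [Matrix.mul_smul, Matrix.smul_mul]
      exact Submodule.smul_mem _ _ hy
  · intro g h hgh P hP X hX
    have hPf : ∀ f : K →ₗ[F] F, ∀ Y ∈ h, P.map f * Y = Y * P.map f := by
      intro f Y hY
      rw [← Bc_mul_right, ← Bc_mul_left, hP _ (Bc_gen h Y hY)]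
    unfold gK at hX
    induction hX using Submodule.span_induction with
    | mem x hx =>
      obtain ⟨X, hX, rfl⟩ := hx
      refine Bc_eq (F := F) _ _ fun f => ?_
      rw [Bc_mul_right, Bc_mul_left]
      exact hgh _ (hPf f) X hX
    | zero => rw [Matrix.mul_zero, Matrix.zero_mul]
    | add y z _ _ hy hz => rw [Matrix.mul_add, Matrix.add_mul, hy, hz]
    | smul c y _ hy => rw [Matrix.mul_smul, Matrix.smul_mul, hy]
  · intro A S h P hP
    refine Bc_eq (F := F) _ _ fun f => ?_
    rw [Bc_mul_right, Bc_mul_left]
    refine h _ ?_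
    rw [← Bc_mul_right, ← Bc_mul_left, hP]

end Pool.Agent.Lib.MP_640417_ag.Mt
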