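import Pool.Agent.Lib.MP_640417_ag.Mt.SpecB

/-!
# MP_640417_ag, Mt, module Cd1: codimension one on the second power
-/

set_option autoImplicit false

namespace Pool.Agent.Lib.MP_640417_ag.Mt

open Matrix Module TensorProduct MeasureTheory Pool.Agent.Lib.MP_640417_ag
  Pool.Agent.Lib.MP_640417_ag.Frob Pool.Agent.Lib.MP_640417_ag.Glob
  Pool.Agent.Lib.MP_640417_ag.Four Pool.Agent.Lib.MP_640417_ag.Ctl
  Pool.Agent.Lib.MP_640417_ag.Dfr Pool.Agent.Lib.MP_640417_ag.Ty Pool.Agent.Lib.MP_640417_ag.Zo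
  Pool.Agent.Lib.MP_640417_ag.Gen4

section

variable {F : Type} [Field F] {I : Type} [Fintype I] [DecidableEq I]

/-- the vector `x` in the copy `a` -/
private noncomputable def Cd1_v (a : Fin 2) : (I → F) →ₗ[F] ExteriorAlgebra F (Fin 2 → I → F) :=
  ExteriorAlgebra.ι F ∘ₗ LinearMap.single F (fun _ : Fin 2 => I → F) a

private theorem Cd1_v_apply (a : Fin 2) (x : I → F) :
    Cd1_v a x = ExteriorAlgebra.ι F (Pi.single a x : Fin 2 → I → F) := rfl

/-- the class of a matrix -/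
private noncomputable def Cd1_e (B : Matrix I I F) : ExteriorAlgebra F (Fin 2 → I → F) :=
  ∑ i, ∑ j, B i j • (Cd1_v 0 (Pi.single i 1) * Cd1_v 1 (Pi.single j 1))

private theorem Cd1_mem (B : Matrix I I F) : Cd1_e B ∈ ⋀[F]^(2 * 1) (Fin 2 → I → F) := by
  unfold Cd1_e
  refine Submodule.sum_mem _ fun i _ => Submodule.sum_mem _ fun j _ => Submodule.smul_mem _ _ ?_
  show _ ∈ (LinearMap.range (ExteriorAlgebra.ι F (M := Fin 2 → I → F))) ^ (2 * 1)
  rw [mul_one, pow_succ, pow_one]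
  exact Submodule.mul_mem_mul ⟨_, rfl⟩ ⟨_, rfl⟩

omit [DecidableEq I] in
private theorem Cd1_sw {E : Type} [AddCommMonoid E] (f : I → I → I → I → E) :
    ∑ a, ∑ b, ∑ c, ∑ d, f a b c d = ∑ c, ∑ d, ∑ b, ∑ a, f a b c d := by
  calc ∑ a, ∑ b, ∑ c, ∑ d, f a b c d = ∑ a, ∑ c, ∑ b, ∑ d, f a b c d :=
        Finset.sum_congr rfl fun a _ => Finset.sum_comm
    _ = ∑ c, ∑ a, ∑ b, ∑ d, f a b c d := Finset.sum_comm
    _ = ∑ c, ∑ a, ∑ d, ∑ b, f a b c d :=
        Finset.sum_congr rfl fun c _ => Finset.sum_congr rfl fun a _ => Finset.sum_comm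
    _ = ∑ c, ∑ d, ∑ a, ∑ b, f a b c d := Finset.sum_congr rfl fun c _ => Finset.sum_comm
    _ = ∑ c, ∑ d, ∑ b, ∑ a, f a b c d :=
        Finset.sum_congr rfl fun c _ => Finset.sum_congr rfl fun d _ => Finset.sum_comm

private theorem Cd1_exp (P : Matrix I I F) (k : I) :
    P *ᵥ Pi.single k 1 = ∑ i, P i k • (Pi.single i 1 : I → F) := by
  funext x
  rw [Finset.sum_apply]
  simp [Pi.single_apply]

private theorem Cd1_gen (B P Q : Matrix I I F) :
    ∑ i, ∑ j, B i j • (Cd1_v 0 (P *ᵥ Pi.single i 1) * Cd1_v 1 (Q *ᵥ Pi.single j 1)) =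
      Cd1_e (P * B * Qᵀ) := by
  unfold Cd1_e
  have h1 : ∀ i' j' : I, B i' j' •
      (Cd1_v 0 (P *ᵥ Pi.single i' 1) * Cd1_v 1 (Q *ᵥ Pi.single j' 1)) =
      ∑ i, ∑ j, (P i i' * B i' j' * Q j j') •
        (Cd1_v 0 (Pi.single i (1 : F)) * Cd1_v 1 (Pi.single j (1 : F))) := by
    intro i' j'
    rw [Cd1_exp, Cd1_exp, map_sum, map_sum, Finset.sum_mul_sum, Finset.smul_sum]
    refine Finset.sum_congr rfl fun i _ => ?_
    rw [Finset.smul_sum]
    refine Finset.sum_congr rfl fun j _ => ?_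
    rw [map_smul, map_smul, smul_mul_assoc, mul_smul_comm, smul_smul, smul_smul]
    congr 1
    ring
  simp only [h1]
  rw [Cd1_sw]
  refine Finset.sum_congr rfl fun i _ => Finset.sum_congr rfl fun j _ => ?_
  rw [Matrix.mul_apply, Finset.sum_smul]
  refine Finset.sum_congr rfl fun j' _ => ?_
  rw [Matrix.mul_apply, Finset.sum_mul, Finset.sum_smul]
  rfl

private theorem Cd1_map (S B : Matrix I I F) :
    ExteriorAlgebra.map ((Matrix.toLin' S).compLeft (Fin 2)) (Cd1_e B) = Cd1_e (S * B * Sᵀ) := by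
  rw [← Cd1_gen]
  have h : ∀ (a : Fin 2) (x : I → F),
      ExteriorAlgebra.map ((Matrix.toLin' S).compLeft (Fin 2)) (Cd1_v a x) = Cd1_v a (S *ᵥ x) := by
    intro a x
    rw [Cd1_v_apply, Cd1_v_apply, ExteriorAlgebra.map_apply_ι]
    congr 1
    funext b
    rw [LinearMap.compLeft_apply, Function.comp_apply, Matrix.toLin'_apply]
    by_cases h : b = a
    · subst h
      rw [Pi.single_eq_same, Pi.single_eq_same]
    · rw [Pi.single_eq_of_ne h, Pi.single_eq_of_ne h, Matrix.mulVec_zero]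
  conv_lhs => unfold Cd1_e
  simp only [map_sum, map_smul, map_mul, h]

private theorem Cd1_Dv (X B : Matrix I I F) :
    Dv 2 (Matrix.toLin' X) (Cd1_e B) = Cd1_e (X * B + B * Xᵀ) := by
  have h0 : ∀ C D : Matrix I I F, Cd1_e (C + D) = Cd1_e C + Cd1_e D := by
    intro C D
    unfold Cd1_e
    simp only [Matrix.add_apply, add_smul, Finset.sum_add_distrib]
  have h1 : X * B = X * B * (1 : Matrix I I F)ᵀ := by rw [Matrix.transpose_one, Matrix.mul_one]
  have h2 : B * Xᵀ = 1 * B * Xᵀ := by rw [Matrix.one_mul]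
  rw [h0, h1, h2, ← Cd1_gen, ← Cd1_gen, ← Finset.sum_add_distrib]
  conv_lhs => unfold Cd1_e
  rw [map_sum]
  refine Finset.sum_congr rfl fun i _ => ?_
  rw [map_sum, ← Finset.sum_add_distrib]
  refine Finset.sum_congr rfl fun j _ => ?_
  rw [map_smul, ← smul_add]
  congr 1
  have h3 : ∀ (a : Fin 2) (x : I → F),
      ((Matrix.toLin' X).compLeft (Fin 2)) (Pi.single a x) = Pi.single a (X *ᵥ x) := by
    intro a x
    funext b
    rw [LinearMap.compLeft_apply, Function.comp_apply, Matrix.toLin'_apply]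
    by_cases h : b = a
    · subst h
      rw [Pi.single_eq_same, Pi.single_eq_same]
    · rw [Pi.single_eq_of_ne h, Pi.single_eq_of_ne h, Matrix.mulVec_zero]
  have h4 := (isDer_Dv 2 (Matrix.toLin' X)).2
  have h5 : Dv 2 (Matrix.toLin' X) (1 : ExteriorAlgebra F (Fin 2 → I → F)) = 0 := by
    have h := (isDer_Dv 2 (Matrix.toLin' X)).1 1
    rwa [map_one] at h
  have h6 : Cd1_v 0 (Pi.single i (1 : F)) * Cd1_v 1 (Pi.single j (1 : F)) =
      ExteriorAlgebra.ι F (Pi.single 0 (Pi.single i (1 : F)) : Fin 2 → I → F) *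
        (ExteriorAlgebra.ι F (Pi.single 1 (Pi.single j (1 : F)) : Fin 2 → I → F) * 1) := by
    rw [mul_one]
    rfl
  rw [h6, h4, h4, h5, mul_zero, add_zero, mul_one, mul_one, h3, h3, Matrix.one_mulVec,
    Matrix.one_mulVec]
  rfl

/-- the coordinates `(k, x k)` -/
private def Cd1_cproj (x : Fin 2 → I) : (Fin 2 → I → F) →ₗ[F] (Fin 2 → F) where
  toFun w k := w k (x k)
  map_add' _ _ := rfl
  map_smul' _ _ := rfl

private noncomputable def Cd1_coord (x : Fin 2 → I) :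
    ExteriorAlgebra F (Fin 2 → I → F) →ₗ[F] F :=
  ExteriorAlgebra.liftAlternating (R := F) (M := Fin 2 → I → F) (N := F)
    (Function.update (fun _ => 0) 2
      ((Matrix.detRowAlternating (n := Fin 2) (R := F)).compLinearMap (Cd1_cproj x)))

private theorem Cd1_coord_apply (x : Fin 2 → I) (i j : I) :
    Cd1_coord x (Cd1_v 0 (Pi.single i (1 : F)) * Cd1_v 1 (Pi.single j (1 : F))) =
      (if i = x 0 then 1 else 0) * (if j = x 1 then 1 else 0) := by
  have h1 : Cd1_v 0 (Pi.single i (1 : F)) * Cd1_v 1 (Pi.single j (1 : F)) =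
      ExteriorAlgebra.ιMulti F 2
      ![Pi.single 0 (Pi.single i (1 : F)), Pi.single 1 (Pi.single j (1 : F))] := by
    rw [ExteriorAlgebra.ιMulti_apply]
    simp [List.ofFn_succ, Cd1_v]
  rw [h1]
  unfold Cd1_coord
  rw [ExteriorAlgebra.liftAlternating_apply_ιMulti, Function.update_self]
  rw [AlternatingMap.compLinearMap_apply]
  have h2 : ∀ M : Fin 2 → Fin 2 → F, Matrix.detRowAlternating M = Matrix.det (Matrix.of M) :=
    fun M => rfl
  rw [h2]
  have h3 : (Matrix.of fun m => Cd1_cproj x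
      ((![Pi.single 0 (Pi.single i (1 : F)), Pi.single 1 (Pi.single j (1 : F))] :
          Fin 2 → Fin 2 → I → F) m)) =
      Matrix.diagonal ![(if i = x 0 then (1 : F) else 0), (if j = x 1 then 1 else 0)] := by
    ext a b
    fin_cases a <;> fin_cases b <;>
      simp [Matrix.diagonal, Pi.single_apply, Cd1_cproj, eq_comm]
  have h4 := congrArg Matrix.det h3
  refine h4.trans ?_
  rw [Matrix.det_diagonal]
  simp [Fin.prod_univ_two]

private theorem Cd1_zero {B : Matrix I I F} (h : Cd1_e B = 0) : B = 0 := by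
  ext i j
  have h1 := congrArg (Cd1_coord ![i, j]) h
  unfold Cd1_e at h1
  simp only [map_sum, map_smul, Cd1_coord_apply, smul_eq_mul, map_zero] at h1
  simpa [Finset.sum_ite_eq', mul_ite] using h1

private theorem Cd1_J {J S S' : Matrix I I F} (hJ : J.det ≠ 0) {μ : F} (h1 : S * S' = 1)
    (hS : Sᵀ * J * S = μ • J) : J⁻¹ * Sᵀ = μ • (S' * J⁻¹) := by
  have hu : IsUnit J.det := isUnit_iff_ne_zero.mpr hJ
  have h2 : Sᵀ * J = μ • (J * S') := by
    calc Sᵀ * J = Sᵀ * J * (S * S') := by rw [h1, Matrix.mul_one]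
      _ = (Sᵀ * J * S) * S' := by rw [Matrix.mul_assoc (Sᵀ * J) S S']
      _ = μ • (J * S') := by rw [hS, Matrix.smul_mul]
  calc J⁻¹ * Sᵀ = J⁻¹ * (Sᵀ * J) * J⁻¹ := by
        rw [Matrix.mul_assoc, Matrix.mul_assoc, Matrix.mul_nonsing_inv _ hu, Matrix.mul_one]
    _ = μ • (S' * J⁻¹) := by
        rw [h2, Matrix.mul_smul, Matrix.smul_mul, ← Matrix.mul_assoc,
          Matrix.nonsing_inv_mul _ hu, Matrix.one_mul]

private theorem Cd1_skew {J X : Matrix I I F} (hJ : J.det ≠ 0) (hX : Xᵀ * J + J * X = 0) :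
    J⁻¹ * Xᵀ = -(X * J⁻¹) := by
  have hu : IsUnit J.det := isUnit_iff_ne_zero.mpr hJ
  have h1 : Xᵀ * J = -(J * X) := eq_neg_of_add_eq_zero_left hX
  calc J⁻¹ * Xᵀ = J⁻¹ * (Xᵀ * J) * J⁻¹ := by
        rw [Matrix.mul_assoc, Matrix.mul_assoc, Matrix.mul_nonsing_inv _ hu, Matrix.mul_one]
    _ = -(X * J⁻¹) := by
        rw [h1, Matrix.mul_neg, Matrix.neg_mul, ← Matrix.mul_assoc,
          Matrix.nonsing_inv_mul _ hu, Matrix.one_mul]

private theorem Cd1_smul (c : F) (B : Matrix I I F) : Cd1_e (c • B) = c • Cd1_e B := by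
  unfold Cd1_e
  simp only [Finset.smul_sum, Matrix.smul_apply, smul_eq_mul, mul_smul]

end

variable (l : ℕ) [Fact l.Prime] {Γ : Type} [Group Γ] [TopologicalSpace Γ]
  [IsTopologicalGroup Γ] [CompactSpace Γ]

theorem tCd1 : S_Cd1 l (Γ := Γ) := by
  intro I _ _ ρ X hX h b hb
  have hu : IsUnit ρ.J.det := isUnit_iff_ne_zero.2 ρ.det
  obtain ⟨U, hU⟩ := hb
  have ht : TateClass (ρ.act 2) ρ.μ⁻¹ 1 (Cd1_e (b * ρ.J⁻¹)) := by
    refine ⟨Cd1_mem _, U, fun γ hγ => ?_⟩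
    have hm : ρ.M γ * ρ.M γ⁻¹ = 1 := by rw [← map_mul, mul_inv_cancel, map_one]
    have e1 : ExteriorAlgebra.map (ρ.act 2 γ) (Cd1_e (b * ρ.J⁻¹)) =
        Cd1_e (ρ.M γ * (b * ρ.J⁻¹) * (ρ.M γ)ᵀ) := Cd1_map _ _
    have e2 : ((ρ.μ⁻¹ γ : (ℚ_[l])ˣ) : ℚ_[l]) * (ρ.μ γ : ℚ_[l]) = 1 := by
      rw [MonoidHom.inv_apply, Units.inv_mul]
    have e3 : ρ.M γ * (b * ρ.J⁻¹) * (ρ.M γ)ᵀ = (ρ.μ γ : ℚ_[l]) • (b * ρ.J⁻¹) := by
      calc ρ.M γ * (b * ρ.J⁻¹) * (ρ.M γ)ᵀ = (ρ.M γ * b) * (ρ.J⁻¹ * (ρ.M γ)ᵀ) := by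
            simp only [Matrix.mul_assoc]
        _ = b * ρ.M γ * ((ρ.μ γ : ℚ_[l]) • (ρ.M γ⁻¹ * ρ.J⁻¹)) := by
            rw [hU γ hγ, Cd1_J ρ.det hm (ρ.eq γ)]
        _ = (ρ.μ γ : ℚ_[l]) • (b * (ρ.M γ * ρ.M γ⁻¹) * ρ.J⁻¹) := by
            rw [Matrix.mul_smul]
            simp only [Matrix.mul_assoc]
        _ = _ := by rw [hm, Matrix.mul_one]
    rw [e1, e3, Cd1_smul, smul_smul, pow_one, e2, one_smul]
  have h1 := h _ ht
  rw [Cd1_Dv] at h1
  have h2 := Cd1_zero h1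
  have h3 : X * (b * ρ.J⁻¹) + b * ρ.J⁻¹ * Xᵀ = (X * b - b * X) * ρ.J⁻¹ := by
    rw [Matrix.mul_assoc b, Cd1_skew ρ.det hX, Matrix.mul_neg, Matrix.sub_mul, ← sub_eq_add_neg]
    simp only [Matrix.mul_assoc]
  rw [h3] at h2
  have h4 := congrArg (fun Z => Z * ρ.J) h2
  beta_reduce at h4
  rw [Matrix.mul_assoc, Matrix.nonsing_inv_mul _ hu, Matrix.mul_one, Matrix.zero_mul] at h4
  exact sub_eq_zero.1 h4

end Pool.Agent.Lib.MP_640417_ag.Mt
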