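import Pool.Agent.Lib.MP_640417_ag.Mt.SpecA

/-!
# MP_640417_ag, Mt, module `Cor`: `H` is an ideal of `L`
-/

set_option autoImplicit false

namespace Pool.Agent.Lib.MP_640417_ag.Mt

open Matrix Module

theorem tCor (h1 : S_Rt) (h2 : S_Ind) : S_Cor := by
  intro K _ _ _ I _ _ L H S S' A hc
  obtain ⟨t, Φ, X, α, hR⟩ := h1 K I L H S S' A hc
  have hX : ∀ w ∈ Φ, X w ∈ H := h2 K I L H t Φ X α A hR hc.com
  have hs : Submodule.span K (X '' Φ) ≤ H := by
    rw [Submodule.span_le]
    rintro _ ⟨z, hz, rfl⟩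
    exact hX z hz
  have hT : ∀ T ∈ t, ∀ Z ∈ H, T * Z - Z * T ∈ H := by
    intro T hT Z hZ
    obtain ⟨T', hT', -, hs'⟩ := hR.Hgen Z hZ
    have h3 : ∀ s ∈ Submodule.span K (X '' {z | z ∈ Φ ∧ X z ∈ H}), T * s - s * T ∈ H := by
      intro s hs
      refine Submodule.span_induction (p := fun s _ => T * s - s * T ∈ H) ?_ ?_ ?_ ?_ hs
      · rintro _ ⟨z, ⟨hz, hz'⟩, rfl⟩
        rw [hR.wt z hz T hT]
        exact H.smul_mem _ hz'
      · simp
      · intro x y _ _ hx hy
        have e : T * (x + y) - (x + y) * T = (T * x - x * T) + (T * y - y * T) := by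
          rw [Matrix.mul_add, Matrix.add_mul]
          abel
        rw [e]
        exact H.add_mem hx hy
      · intro c x _ hx
        have e : T * (c • x) - (c • x) * T = c • (T * x - x * T) := by
          rw [Matrix.mul_smul, Matrix.smul_mul, smul_sub]
        rw [e]
        exact H.smul_mem _ hx
    have h4 := h3 _ hs'
    have h5 : T * T' = T' * T := hR.tc T hT T' hT'
    have e : T * Z - Z * T = T * (Z - T') - (Z - T') * T := by
      rw [Matrix.mul_sub, Matrix.sub_mul, h5]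
      abel
    rw [e]
    exact h4
  intro Y hY Z hZ
  obtain ⟨T, hTt, hYT⟩ := hR.gen Y hY
  have e : Y * Z - Z * Y = (T * Z - Z * T) + ((Y - T) * Z - Z * (Y - T)) := by
    rw [Matrix.mul_sub, Matrix.sub_mul]
    abel
  rw [e]
  exact H.add_mem (hT T hTt Z hZ) (hc.Hl _ (hs hYT) _ hZ)

end Pool.Agent.Lib.MP_640417_ag.Mt
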