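import Pool.Agent.Lib.MP_640417_ag.Mt.Defs
import Pool.Agent.Lib.MP_640417_ag.T3.Defs
import Pool.Agent.Lib.MP_640417_ag.Wn.Defs

/-!
# MP_640417_ag, Mt, part C (determinants, the center): definitions
-/

set_option autoImplicit false

namespace Pool.Agent.Lib.MP_640417_ag.Mt

open Module TensorProduct Pool.Agent.Lib.MP_640417_ag Pool.Agent.Lib.MP_640417_ag.Frob
  Pool.Agent.Lib.MP_640417_ag.Four Pool.Agent.Lib.MP_640417_ag.Ctl
  Pool.Agent.Lib.MP_640417_ag.Dfr Pool.Agent.Lib.MP_640417_ag.Ty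
  Pool.Agent.Lib.MP_640417_ag.Lef Pool.Agent.Lib.MP_640417_ag.T3

/-- The primitive central idempotents of `C`. -/
structure CSys {K V : Type} [Field K] [AddCommGroup V] [Module K V]
    (form : LinearMap.BilinForm K V) (C : Subalgebra K (Module.End K V)) (N : ℕ)
    (st : Fin N → Fin N) (ε : Fin N → Module.End K V) : Prop where
  mem : ∀ j, ε j ∈ C
  cen : ∀ j, ∀ c ∈ C, c * ε j = ε j * c
  ne : ∀ j, ε j ≠ 0
  idem : ∀ j, ε j * ε j = ε j
  orth : ∀ j k, j ≠ k → ε j * ε k = 0
  sum : ∑ j, ε j = 1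
  inv : ∀ j, st (st j) = j
  adj : ∀ j x y, form (ε j x) y = form x (ε (st j) y)
  all : ∀ z ∈ C, (∀ c ∈ C, c * z = z * c) → ∃ t : Fin N → K, z = ∑ j, t j • ε j

section alg

variable {F : Type} [Field F] {V : Type} [AddCommGroup V] [Module F V]

/-- `∑ s j * tr (p j X) = 0` for all `X` in `g` -/
def TrRel (g : Set (Module.End F V)) {k : ℕ}
    (p : Fin k → Module.End (AlgebraicClosure F) (AlgebraicClosure F ⊗[F] V))
    (s : Fin k → ℤ) : Prop :=
  ∀ X ∈ g, ∑ j, (s j : AlgebraicClosure F) *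
    LinearMap.trace (AlgebraicClosure F) (AlgebraicClosure F ⊗[F] V)
      (p j * X.baseChange (AlgebraicClosure F)) = 0

end alg

section rep

variable {Γ : Type} [Group Γ] [TopologicalSpace Γ] {F : Type} [Field F]
  [TopologicalSpace F] {V : Type} [AddCommGroup V] [Module F V]

/-- All Tate classes on all powers are killed by `g`. -/
def KillsAll (ρ : H1Rep Γ F V) (g : Set (Module.End F V)) : Prop :=
  ∀ n i x, TateClass (fun γ => (ρ.T γ).compLeft (Fin n)) ρ.χ i x → ∀ X ∈ g, Kills n X x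

/-- A relation between the determinants on components holds on an open subgroup and does not hold for `g`. -/
def WeilFor (ρ : H1Rep Γ F V) (g : Set (Module.End F V)) : Prop :=
  ∃ (k : ℕ) (p : Fin k → Module.End (AlgebraicClosure F) (AlgebraicClosure F ⊗[F] V))
    (s : Fin k → ℤ), CenRel (ρ.form.baseChange (AlgebraicClosure F)) (comK ρ) p s ∧
    ¬ TrRel g p s ∧
    ∃ U : OpenSubgroup Γ, ∀ γ ∈ U, detProd p s ((ρ.T γ).baseChange (AlgebraicClosure F)) = 1

/-- The relations between the determinants on components of the powers of `γ` hold for `g`. -/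
def DetFor (ρ : H1Rep Γ F V) (g : Set (Module.End F V)) (γ : Γ) : Prop :=
  ∀ N : ℕ, 0 < N → ∀ (k : ℕ)
    (p : Fin k → Module.End (AlgebraicClosure F) (AlgebraicClosure F ⊗[F] V)) (s : Fin k → ℤ),
    CenRel (ρ.form.baseChange (AlgebraicClosure F)) (comK ρ) p s →
    detProd p s ((ρ.T (γ ^ N)).baseChange (AlgebraicClosure F)) = 1 → TrRel g p s

/-- The Tate classes of codimension one. -/
def DivZ (ρ : H1Rep Γ F V) (n i : ℕ) : Submodule F (ExteriorAlgebra F (Fin n → V)) :=
  Submodule.span F {x | i = 1 ∧ TateClass (fun γ => (ρ.T γ).compLeft (Fin n)) ρ.χ 1 x}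

end rep

end Pool.Agent.Lib.MP_640417_ag.Mt
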