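import Pool.Agent.Lib.MP_640417_ag.Mt.SpecB

/-!
# MP_640417_ag, Mt, module `Ext`: extension of scalars for endomorphisms
-/

set_option autoImplicit false

namespace Pool.Agent.Lib.MP_640417_ag.Mt

open Matrix Module

private theorem Ext_sum {F K : Type} [Field F] [Field K] [Algebra F K] {I : Type} [Fintype I]
    [DecidableEq I] (p : Module.End F (Matrix I I F)) (X : Matrix I I F) :
    ∑ i, ∑ j, (algebraMap F K (X i j)) • (p (Matrix.single i j 1)).map (algebraMap F K) =
      (p X).map (algebraMap F K) := by
  conv_rhs => rw [Matrix.matrix_eq_sum_single X]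
  rw [map_sum]
  ext a b
  simp only [Matrix.sum_apply, Matrix.smul_apply, Matrix.map_apply, smul_eq_mul, map_sum]
  refine Finset.sum_congr rfl fun i _ => Finset.sum_congr rfl fun j _ => ?_
  rw [← map_mul]
  congr 1
  have : Matrix.single i j (X i j) = X i j • Matrix.single i j (1 : F) := by
    rw [Matrix.smul_single, smul_eq_mul, mul_one]
  rw [this, map_smul, Matrix.smul_apply, smul_eq_mul]

theorem tExt : S_Ext := by
  intro F K _ _ _ I _ _
  constructor
  · intro g p hp hpg
    let pK : Module.End K (Matrix I I K) :=
      { toFun := fun Y => ∑ i, ∑ j, (Y i j) • (p (Matrix.single i j 1)).map (algebraMap F K)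
        map_add' := fun Y Y' => by
          simp only [Matrix.add_apply, add_smul, Finset.sum_add_distrib]
        map_smul' := fun c Y => by
          simp only [Matrix.smul_apply, smul_eq_mul, mul_smul, Finset.smul_sum,
            RingHom.id_apply] }
    have hpK : ∀ Y, pK Y = ∑ i, ∑ j, (Y i j) • (p (Matrix.single i j 1)).map (algebraMap F K) :=
      fun _ => rfl
    have h3 : ∀ X : Matrix I I F, pK (X.map (algebraMap F K)) = (p X).map (algebraMap F K) := by
      intro X
      rw [hpK, ← Ext_sum]
      rfl
    refine ⟨pK, fun Y => ?_, fun X hX => ?_, h3⟩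
    · rw [hpK]
      refine Submodule.sum_mem _ fun i _ => Submodule.sum_mem _ fun j _ =>
        Submodule.smul_mem _ _ (Submodule.subset_span ⟨_, hp _, rfl⟩)
    · refine Submodule.span_induction (p := fun X _ => pK X = X) ?_ ?_ ?_ ?_ hX
      · rintro _ ⟨X, hX, rfl⟩
        rw [h3, hpg X hX]
      · exact map_zero _
      · intro X Y _ _ hX hY
        rw [map_add, hX, hY]
      · intro c X _ hX
        rw [map_smul, hX]
  · intro T TK hT
    ext x y
    have h4 : (Matrix.single y.1 y.2 (1 : F)).map (algebraMap F K) =
        Matrix.single y.1 y.2 (1 : K) := by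
      ext a b
      rw [Matrix.map_apply, Matrix.single_apply, Matrix.single_apply]
      split_ifs
      · exact map_one _
      · exact map_zero _
    have h5 : mx TK x y = TK (Matrix.single y.1 y.2 1) x.1 x.2 := rfl
    rw [h5, ← h4, hT]
    rfl

end Pool.Agent.Lib.MP_640417_ag.Mt
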