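import Pool.Agent.Lib.MP_640417_ag.Mt.SpecA

/-!
# MP_640417_ag, Mt, module `FrA`: the polynomial function `fr` and multiplicities
-/

set_option autoImplicit false

namespace Pool.Agent.Lib.MP_640417_ag.Mt

open Matrix Module

open Polynomial in
private theorem FrA_det {K κ : Type} [Field K] [IsAlgClosed K] [Fintype κ] [DecidableEq κ]
    (Z : Matrix κ κ K) (h : K[X]) :
    (aeval Z h).det = (Z.charpoly.roots.map fun c => h.eval c).prod := by
  have hcard : Multiset.card Z.charpoly.roots = Fintype.card κ := by
    rw [Polynomial.splits_iff_card_roots.1 (IsAlgClosed.splits Z.charpoly),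
      Matrix.charpoly_natDegree_eq_dim]
  have hC : ∀ a : K, (aeval Z (C a : K[X])).det =
      (Z.charpoly.roots.map fun c => (C a : K[X]).eval c).prod := by
    intro a
    rw [aeval_C, Algebra.algebraMap_eq_smul_one, Matrix.det_smul, Matrix.det_one, mul_one]
    simp only [eval_C, Multiset.map_const', Multiset.prod_replicate, hcard]
  have hX : ∀ b : K, (aeval Z (X - C b : K[X])).det =
      (Z.charpoly.roots.map fun c => (X - C b : K[X]).eval c).prod := by
    intro b
    have h1 : Z.charpoly.eval b = (Z.charpoly.roots.map fun z => b - z).prod := by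
      conv_lhs => rw [(IsAlgClosed.splits Z.charpoly).eq_prod_roots_of_monic Z.charpoly_monic]
      rw [Polynomial.eval_multiset_prod, Multiset.map_map]
      simp
    have h2 : aeval Z (X - C b : K[X]) = -(Matrix.scalar κ b - Z) := by
      rw [map_sub, aeval_X, aeval_C, neg_sub]
      rfl
    have h3 : (Z.charpoly.roots.map fun c => (X - C b : K[X]).eval c) =
        Z.charpoly.roots.map fun c => (-1 : K) * (b - c) := by
      refine Multiset.map_congr rfl fun c _ => ?_
      rw [eval_sub, eval_X, eval_C]
      ring
    rw [h2, Matrix.det_neg, ← Matrix.eval_charpoly, h1, h3, Multiset.prod_map_mul,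
      Multiset.map_const', Multiset.prod_replicate, hcard]
  have hM : ∀ s : Multiset K, (aeval Z (s.map fun b => (X - C b : K[X])).prod).det =
      (Z.charpoly.roots.map fun c => ((s.map fun b => (X - C b : K[X])).prod).eval c).prod := by
    intro s
    induction s using Multiset.induction_on with
    | empty => simp
    | cons b s ih =>
      rw [Multiset.map_cons, Multiset.prod_cons, map_mul, Matrix.det_mul, ih, hX,
        ← Multiset.prod_map_mul]
      refine congrArg Multiset.prod (Multiset.map_congr rfl fun c _ => ?_)
      rw [eval_mul]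
  rw [(IsAlgClosed.splits h).eq_prod_roots, map_mul, Matrix.det_mul, hC, hM,
    ← Multiset.prod_map_mul]
  refine congrArg Multiset.prod (Multiset.map_congr rfl fun c _ => ?_)
  rw [eval_mul]

open Polynomial in
private theorem FrA_charpoly {K κ : Type} [Field K] [IsAlgClosed K] [Fintype κ] [DecidableEq κ]
    (Z : Matrix κ κ K) (g : K[X]) :
    (aeval Z g).charpoly = ((Z.charpoly.roots.map fun c => g.eval c).map fun b =>
      (X - C b : K[X])).prod := by
  have : Infinite K := IsAlgClosed.instInfinite
  refine Polynomial.funext fun x => ?_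
  have h1 : Matrix.scalar κ x - aeval Z g = aeval Z (C x - g) := by
    rw [map_sub, aeval_C]
    rfl
  rw [Matrix.eval_charpoly, h1, FrA_det, Polynomial.eval_multiset_prod, Multiset.map_map,
    Multiset.map_map]
  refine congrArg Multiset.prod (Multiset.map_congr rfl fun c _ => ?_)
  simp

open Polynomial in
theorem tFrA : S_FrA := by
  classical
  intro K _ _ _ κ _ _ r Z
  set p := Z.charpoly with hp
  set g : K[X] := X * derivative p with hg
  have hM : Z * aeval Z (derivative p) = aeval Z g := by
    rw [hg, map_mul, aeval_X]
  have hfr : fr r Z = (((p.roots.map fun c => g.eval c).map fun b => (X - C b : K[X])).prod).coeff r := by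
    rw [fr, hM, FrA_charpoly]
  set q : K[X] := ((p.roots.map fun c => g.eval c).map fun b => (X - C b : K[X])).prod with hq
  have hq0 : q ≠ 0 := by
    rw [hq, ← FrA_charpoly]
    exact (Matrix.charpoly_monic _).ne_zero
  have hqr : q.roots = p.roots.map fun c => g.eval c := by
    rw [hq, Polynomial.roots_multiset_prod_X_sub_C]
  have hp0 : p ≠ 0 := Z.charpoly_monic.ne_zero
  have hfin : ∀ z : K, finrank K (Module.End.maxGenEigenspace (Matrix.toLin' Z) z) =
      p.rootMultiplicity z := by
    intro z
    rw [LinearMap.finrank_maxGenEigenspace_eq, Matrix.charpoly_toLin']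
  have hm : q.natTrailingDegree = Multiset.card (p.roots.filter fun c => g.eval c = 0) := by
    have h1 : q.natTrailingDegree = q.rootMultiplicity 0 := by
      rw [Polynomial.rootMultiplicity_eq_natTrailingDegree']
    rw [h1, ← Polynomial.count_roots, hqr, Multiset.count_map]
    congr 1
    refine Multiset.filter_congr fun c _ => ?_
    exact eq_comm
  have hle : (p.roots.filter fun c => c = 0) ≤ p.roots.filter fun c => g.eval c = 0 := by
    refine Multiset.monotone_filter_right _ fun c hc => ?_
    rw [hg, eval_mul, eval_X, hc, zero_mul]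
  have h0 : Multiset.card (p.roots.filter fun c => c = 0) = p.rootMultiplicity 0 := by
    rw [← Polynomial.count_roots, ← Multiset.countP_eq_card_filter]
    rw [Multiset.count]
    refine Multiset.countP_congr rfl fun c _ => ?_
    exact propext eq_comm
  refine ⟨fun hne hr => ?_, fun hr hz => ?_⟩
  · rw [hfin] at hr ⊢
    have h2 : q.natTrailingDegree ≤ r := Polynomial.natTrailingDegree_le_of_ne_zero (by rwa [← hfr])
    have h3 := Multiset.card_le_card hle
    rw [h0, ← hm] at h3
    have h4 : p.rootMultiplicity 0 = r := by omega
    refine ⟨h4, fun z hz => ?_⟩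
    rw [hfin]
    by_contra hcon
    rw [not_le] at hcon
    have h5 := (Polynomial.one_lt_rootMultiplicity_iff_isRoot hp0).1 hcon
    have h6 : (p.roots.filter fun c => c = 0) = p.roots.filter fun c => g.eval c = 0 := by
      refine Multiset.eq_of_le_of_card_le hle ?_
      rw [h0, ← hm]
      omega
    have h7 : z ∈ p.roots.filter fun c => g.eval c = 0 := by
      rw [Multiset.mem_filter, hg, eval_mul, h5.2.eq_zero, mul_zero]
      exact ⟨(mem_roots hp0).2 h5.1, rfl⟩
    rw [← h6, Multiset.mem_filter] at h7
    exact hz h7.2
  · rw [hfin] at hr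
    rw [hfr]
    have h6 : (p.roots.filter fun c => c = 0) = p.roots.filter fun c => g.eval c = 0 := by
      refine Multiset.filter_congr fun c hc => ⟨fun h => ?_, fun h => ?_⟩
      · rw [hg, eval_mul, eval_X, h, zero_mul]
      · by_contra hc0
        rw [hg, eval_mul, eval_X] at h
        have h8 := (mul_eq_zero.1 h).resolve_left hc0
        have h9 := (Polynomial.one_lt_rootMultiplicity_iff_isRoot hp0).2
          ⟨(mem_roots hp0).1 hc, h8⟩
        have h10 := hz c hc0
        rw [hfin] at h10
        omega
    have h7 : q.natTrailingDegree = r := by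
      rw [hm, ← h6, h0, hr]
    rw [← h7]
    exact Polynomial.trailingCoeff_nonzero_iff_nonzero.2 hq0

end Pool.Agent.Lib.MP_640417_ag.Mt
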