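import Pool.Agent.Lib.MP_640417_ag.Mt.SpecA

/-!
# MP_640417_ag, Mt, module FrB: `fr` is compatible with ring homomorphisms, homogeneous, continuous
-/

set_option autoImplicit false

namespace Pool.Agent.Lib.MP_640417_ag.Mt

open Matrix Module

private theorem FrB_map {R R' κ : Type} [CommRing R] [CommRing R'] [Fintype κ] [DecidableEq κ]
    (φ : R →+* R') (Z : Matrix κ κ R) :
    Z.map φ * Polynomial.aeval (Z.map φ) (Polynomial.derivative (Z.map φ).charpoly) =
      (Z * Polynomial.aeval Z (Polynomial.derivative Z.charpoly)).map φ := by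
  have h : (algebraMap R' (Matrix κ κ R')).comp φ =
      (RingHom.mapMatrix φ).comp (algebraMap R (Matrix κ κ R)) := by
    ext r i j
    simp only [RingHom.comp_apply, RingHom.mapMatrix_apply, Matrix.map_apply,
      Matrix.algebraMap_matrix_apply]
    split_ifs <;> simp
  have h2 := Polynomial.map_aeval_eq_aeval_map h (Polynomial.derivative Z.charpoly) Z
  rw [Matrix.map_mul, Matrix.charpoly_map, Polynomial.derivative_map]
  rw [RingHom.mapMatrix_apply, RingHom.mapMatrix_apply] at h2
  rw [h2]

/-- the characteristic polynomial of a multiple -/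
private theorem FrB_comp {R κ : Type} [CommRing R] [Fintype κ] [DecidableEq κ] (c : R)
    (Z : Matrix κ κ R) : (c • Z).charpoly.comp (Polynomial.C c * Polynomial.X) =
      Polynomial.C (c ^ Fintype.card κ) * Z.charpoly := by
  rw [Matrix.charpoly, Matrix.charpoly, ← Polynomial.coe_compRingHom_apply, RingHom.map_det,
    map_pow, ← Matrix.det_smul]
  congr 1
  ext1 i j
  rw [RingHom.mapMatrix_apply, Matrix.map_apply, Polynomial.coe_compRingHom_apply,
    Matrix.smul_apply, Matrix.charmatrix_apply, Matrix.charmatrix_apply, Matrix.smul_apply,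
    smul_eq_mul, smul_eq_mul, Polynomial.sub_comp, Polynomial.C_comp, map_mul, mul_sub]
  congr 1
  by_cases h : i = j
  · subst h
    rw [Matrix.diagonal_apply_eq, Polynomial.X_comp]
  · rw [Matrix.diagonal_apply_ne _ h, Polynomial.zero_comp, mul_zero]

private theorem FrB_coeff {R κ : Type} [CommRing R] [Fintype κ] [DecidableEq κ] (c : R)
    (Z : Matrix κ κ R) (m : ℕ) : (c • Z).charpoly.coeff m * c ^ m =
      c ^ Fintype.card κ * Z.charpoly.coeff m := by
  have h := congrArg (fun p => Polynomial.coeff p m) (FrB_comp c Z)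
  rwa [Polynomial.comp_C_mul_X_coeff, Polynomial.coeff_C_mul] at h

private theorem FrB_smul {R κ : Type} [CommRing R] [Fintype κ] [DecidableEq κ] (c : R)
    (Z : Matrix κ κ R) :
    (c • Z) * Polynomial.aeval (c • Z) (Polynomial.derivative (c • Z).charpoly) =
      c ^ Fintype.card κ • (Z * Polynomial.aeval Z (Polynomial.derivative Z.charpoly)) := by
  have h := congrArg (fun p => Polynomial.aeval Z (Polynomial.derivative p)) (FrB_comp c Z)
  rw [Polynomial.derivative_comp, Polynomial.derivative_C_mul, Polynomial.derivative_C_mul,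
    Polynomial.derivative_X, mul_one, map_mul, map_mul, Polynomial.aeval_comp, map_mul,
    Polynomial.aeval_C, Polynomial.aeval_C, Polynomial.aeval_X, ← Algebra.smul_def,
    ← Algebra.smul_def, ← Algebra.smul_def] at h
  rw [Matrix.smul_mul, ← Matrix.mul_smul, h, Matrix.mul_smul]

theorem tFrB : S_FrB := by
  refine ⟨?_, ?_, ?_⟩
  · intro R R' κ _ _ _ _ φ r Z
    unfold fr
    rw [FrB_map, Matrix.charpoly_map, Polynomial.coeff_map]
  · intro F κ _ _ _ r c Z hc h
    unfold fr at h ⊢
    rw [FrB_smul] at h
    have h1 := FrB_coeff (c ^ Fintype.card κ)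
      (Z * Polynomial.aeval Z (Polynomial.derivative Z.charpoly)) r
    rw [h, zero_mul] at h1
    exact (mul_eq_zero.1 h1.symm).resolve_left (pow_ne_zero _ (pow_ne_zero _ hc))
  · intro F κ _ _ _ r
    have h : (fun Z : Matrix κ κ F => Z * Polynomial.aeval Z (Polynomial.derivative Z.charpoly)) =
        fun Z : Matrix κ κ F => Z * ∑ i ∈ Finset.range (Fintype.card κ + 1),
          (Z.charpoly.coeff (i + 1) * ((i : F) + 1)) • Z ^ i := by
      funext Y
      rw [Polynomial.aeval_eq_sum_range' (n := Fintype.card κ + 1)]
      · congr 1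
        refine Finset.sum_congr rfl fun i _ => ?_
        rw [Polynomial.coeff_derivative]
      · have h1 := Polynomial.natDegree_derivative_le Y.charpoly
        rw [Matrix.charpoly_natDegree_eq_dim] at h1
        omega
    have h2 : Continuous fun Z : Matrix κ κ F =>
        Z * Polynomial.aeval Z (Polynomial.derivative Z.charpoly) := by
      rw [h]
      refine continuous_id.mul (continuous_finsetSum _ fun i _ => ?_)
      exact ((Glob.coeff_cont (i + 1)).mul continuous_const).smul (continuous_id.pow i)
    exact (Glob.coeff_cont r).comp h2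

end Pool.Agent.Lib.MP_640417_ag.Mt
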