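import Pool.Agent.Lib.MP_640417_ag.Mt.SpecB

/-!
# MP_640417_ag, Mt: near the identity `GoodL` passes to powers
-/

set_option autoImplicit false

namespace Pool.Agent.Lib.MP_640417_ag.Mt

open Matrix Module TensorProduct MeasureTheory Pool.Agent.Lib.MP_640417_ag
  Pool.Agent.Lib.MP_640417_ag.Frob Pool.Agent.Lib.MP_640417_ag.Glob
  Pool.Agent.Lib.MP_640417_ag.Four Pool.Agent.Lib.MP_640417_ag.Ctl
  Pool.Agent.Lib.MP_640417_ag.Dfr Pool.Agent.Lib.MP_640417_ag.Ty Pool.Agent.Lib.MP_640417_ag.Zo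
  Pool.Agent.Lib.MP_640417_ag.Gen4

/-- an eigenvector in a stable subspace -/
private theorem Gdp_ev {K V : Type} [Field K] [AddCommGroup V] [Module K V] (T : Module.End K V)
    (W : Submodule K V) (hW : ∀ x ∈ W, T x ∈ W) (μ : K) (x : V) (hxW : x ∈ W)
    (hx : x ∈ T.maxGenEigenspace μ) (hx0 : x ≠ 0) : ∃ u ∈ W, u ≠ 0 ∧ T u = μ • u := by
  classical
  rw [Module.End.mem_maxGenEigenspace] at hx
  have hmin := Nat.find_spec hx
  have hlt : ∀ m < Nat.find hx, ((T - μ • (1 : Module.End K V)) ^ m) x ≠ 0 := fun m hm =>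
    Nat.find_min hx hm
  obtain ⟨n, hn⟩ : ∃ n, Nat.find hx = n + 1 := by
    rcases Nat.eq_zero_or_pos (Nat.find hx) with h | h
    · rw [h, pow_zero] at hmin
      exact absurd hmin hx0
    · exact ⟨Nat.find hx - 1, by omega⟩
  have hst : ∀ (m : ℕ), ((T - μ • (1 : Module.End K V)) ^ m) x ∈ W := by
    intro m
    induction m with
    | zero => exact hxW
    | succ m ih =>
      rw [pow_succ', Module.End.mul_apply, LinearMap.sub_apply, LinearMap.smul_apply,
        Module.End.one_apply]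
      exact W.sub_mem (hW _ ih) (W.smul_mem μ ih)
  refine ⟨((T - μ • (1 : Module.End K V)) ^ n) x, hst n, hlt n (by omega), ?_⟩
  rw [hn, pow_succ', Module.End.mul_apply, LinearMap.sub_apply, LinearMap.smul_apply,
    Module.End.one_apply, sub_eq_zero] at hmin
  exact hmin

private theorem Gdp_pow {K V : Type} [Field K] [AddCommGroup V] [Module K V] (T : Module.End K V)
    (μ : K) (u : V) (h : T u = μ • u) (N : ℕ) : (T ^ N) u = μ ^ N • u := by
  induction N with
  | zero => simp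
  | succ n ih =>
    rw [pow_succ', Module.End.mul_apply, ih, map_smul, h, smul_smul, pow_succ]

private theorem Gdp_alt {K V : Type} [Field K] [IsAlgClosed K] [AddCommGroup V] [Module K V]
    [FiniteDimensional K V] (T : Module.End K V) (N : ℕ)
    (huniq : ∀ (μ ν : K) (u v : V), u ≠ 0 → v ≠ 0 → T u = μ • u → T v = ν • v →
      μ ^ N = ν ^ N → μ = ν) (z : K) :
    (T ^ N).maxGenEigenspace z = ⊥ ∨ ∃ (μ : K) (u : V), u ≠ 0 ∧ T u = μ • u ∧ μ ^ N = z ∧
      (T ^ N).maxGenEigenspace z ≤ T.maxGenEigenspace μ := by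
  set W := (T ^ N).maxGenEigenspace z with hWdef
  have hW : ∀ x ∈ W, T x ∈ W := fun x hx =>
    Module.End.mapsTo_maxGenEigenspace_of_comm ((Commute.refl T).pow_left N) z hx
  have hsum : W = ⨆ μ, W ⊓ T.maxGenEigenspace μ :=
    Submodule.eq_iSup_inf_genEigenspace ⊤ hW (Module.End.iSup_maxGenEigenspace_eq_top T)
  have key : ∀ μ, W ⊓ T.maxGenEigenspace μ ≠ ⊥ → ∃ u : V, u ≠ 0 ∧ T u = μ • u ∧ μ ^ N = z := by
    intro μ hμ
    obtain ⟨x, hx, hx0⟩ := Submodule.exists_mem_ne_zero_of_ne_bot hμ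
    obtain ⟨u, huW, hu0, hu⟩ := Gdp_ev T W hW μ x hx.1 hx.2 hx0
    refine ⟨u, hu0, hu, ?_⟩
    rw [hWdef, Module.End.mem_maxGenEigenspace] at huW
    obtain ⟨k, hk⟩ := huW
    have h1 : ∀ m : ℕ, ((T ^ N - z • (1 : Module.End K V)) ^ m) u = (μ ^ N - z) ^ m • u := by
      intro m
      induction m with
      | zero => simp
      | succ m ih =>
        rw [pow_succ', Module.End.mul_apply, ih, map_smul, LinearMap.sub_apply,
          LinearMap.smul_apply, Module.End.one_apply, Gdp_pow T μ u hu N, ← sub_smul, smul_smul,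
          pow_succ]
    rw [h1] at hk
    rcases smul_eq_zero.1 hk with h2 | h2
    · exact sub_eq_zero.1 (eq_zero_of_pow_eq_zero h2)
    · exact absurd h2 hu0
  by_cases hbot : W = ⊥
  · exact Or.inl hbot
  right
  obtain ⟨μ, hμ⟩ : ∃ μ, W ⊓ T.maxGenEigenspace μ ≠ ⊥ := by
    by_contra hcon
    push Not at hcon
    exact hbot (by rw [hsum]; simp [hcon])
  obtain ⟨u, hu0, hu, hμN⟩ := key μ hμ
  refine ⟨μ, u, hu0, hu, hμN, ?_⟩
  rw [hsum]
  refine iSup_le fun ν => ?_
  by_cases hν : W ⊓ T.maxGenEigenspace ν = ⊥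
  · rw [hν]
    exact bot_le
  · obtain ⟨v, hv0, hv, hνN⟩ := key ν hν
    have h1 : ν = μ := huniq ν μ v u hv0 hu0 hv hu (hνN.trans hμN.symm)
    rw [h1]
    exact inf_le_right

variable (l : ℕ) [Fact l.Prime]

/-- the matrix of `cj S S'` -/
private def Gdp_a {R I : Type} [CommRing R] (S S' : Matrix I I R) : Matrix (I × I) (I × I) R :=
  Matrix.of fun x y => S x.1 y.1 * S' y.2 x.2

private theorem Gdp_map {R R' I : Type} [CommRing R] [CommRing R'] (f : R →+* R')
    (S S' : Matrix I I R) : (Gdp_a S S').map f = Gdp_a (S.map f) (S'.map f) := by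
  ext x y
  simp [Gdp_a]

private theorem Gdp_vec {K I : Type} [Field K] [Fintype I] [DecidableEq I] (S S' X : Matrix I I K) :
    Gdp_a S S' *ᵥ (fun p : I × I => X p.1 p.2) = fun p => cj S S' X p.1 p.2 := by
  funext p
  rw [cj_apply, Matrix.mul_apply]
  simp only [Matrix.mulVec, dotProduct, Gdp_a, Matrix.of_apply, Fintype.sum_prod_type,
    Matrix.mul_apply, Finset.sum_mul]
  rw [Finset.sum_comm]
  refine Finset.sum_congr rfl fun j _ => Finset.sum_congr rfl fun i _ => ?_
  ring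

private theorem Gdp_sm {I : Type} [Fintype I] [DecidableEq I] (S S' : Matrix I I ℚ_[l])
    (h1 : Sm (‖(l : ℚ_[l])‖ ^ 2) (S - 1)) (h2 : Sm (‖(l : ℚ_[l])‖ ^ 2) (S' - 1)) :
    Sm (‖(l : ℚ_[l])‖ ^ 2) (Gdp_a S S' - 1) := by
  have hl : ‖(l : ℚ_[l])‖ ^ 2 ≤ 1 := pow_le_one₀ (norm_nonneg _) (norm_l l).le
  have hone : ∀ i j : I, ‖(1 : Matrix I I ℚ_[l]) i j‖ ≤ 1 := by
    intro i j
    rw [Matrix.one_apply]
    split_ifs
    · rw [norm_one]
    · rw [norm_zero]
      exact zero_le_one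
  have hS' : ∀ i j, ‖S' i j‖ ≤ 1 := by
    intro i j
    have h3 : S' i j = (S' - 1) i j + (1 : Matrix I I ℚ_[l]) i j := by
      rw [Matrix.sub_apply]
      ring
    rw [h3]
    exact (IsUltrametricDist.norm_add_le_max _ _).trans (max_le ((h2 i j).trans hl) (hone i j))
  intro x y
  have h3 : (Gdp_a S S' - 1) x y = (S - 1) x.1 y.1 * S' y.2 x.2 +
      (1 : Matrix I I ℚ_[l]) x.1 y.1 * (S' - 1) y.2 x.2 := by
    have h4 : (1 : Matrix (I × I) (I × I) ℚ_[l]) x y =
        (1 : Matrix I I ℚ_[l]) x.1 y.1 * (1 : Matrix I I ℚ_[l]) y.2 x.2 := by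
      simp only [Matrix.one_apply, Prod.ext_iff]
      by_cases ha : x.1 = y.1 <;> by_cases hb : x.2 = y.2 <;> simp [ha, hb, eq_comm]
    rw [Matrix.sub_apply, h4, Matrix.sub_apply, Matrix.sub_apply]
    simp only [Gdp_a, Matrix.of_apply]
    ring
  rw [h3]
  refine (IsUltrametricDist.norm_add_le_max _ _).trans (max_le ?_ ?_)
  · rw [norm_mul]
    calc ‖(S - 1) x.1 y.1‖ * ‖S' y.2 x.2‖ ≤ ‖(l : ℚ_[l])‖ ^ 2 * 1 :=
          mul_le_mul (h1 _ _) (hS' _ _) (norm_nonneg _) (by positivity)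
      _ = _ := mul_one _
  · rw [norm_mul]
    calc ‖(1 : Matrix I I ℚ_[l]) x.1 y.1‖ * ‖(S' - 1) y.2 x.2‖ ≤ 1 * ‖(l : ℚ_[l])‖ ^ 2 :=
          mul_le_mul (hone _ _) (h2 _ _) (norm_nonneg _) zero_le_one
      _ = _ := one_mul _

theorem tGdp (hP : S_Pwc l) : S_Gdp l := by
  intro K _ _ _ I _ _ S S' hSS hSS' hs hs' L hG N hN
  set SK := S.map (algebraMap ℚ_[l] K) with hSK
  set SK' := S'.map (algebraMap ℚ_[l] K) with hSK'
  set T := cj SK SK' with hT
  have hK1 : SK * SK' = 1 := by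
    rw [hSK, hSK', ← Matrix.map_mul, hSS, Matrix.map_one _ (map_zero _) (map_one _)]
  have hTN : cj (SK ^ N) (SK' ^ N) = T ^ N := by
    have h1 : ∀ n : ℕ, cj (SK ^ n) (SK' ^ n) = T ^ n := by
      intro n
      induction n with
      | zero =>
        ext1 X
        rw [pow_zero, pow_zero, pow_zero, cj_apply, Matrix.one_mul, Matrix.mul_one,
          Module.End.one_apply]
      | succ n ih =>
        refine LinearMap.ext fun X => ?_
        rw [pow_succ' T, Module.End.mul_apply, ← ih, hT, cj_apply, cj_apply, cj_apply,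
          pow_succ' SK, pow_succ SK']
        simp only [Matrix.mul_assoc]
    exact h1 N
  have huniq : ∀ (μ ν : K) (u v : Matrix I I K), u ≠ 0 → v ≠ 0 → T u = μ • u → T v = ν • v →
      μ ^ N = ν ^ N → μ = ν := by
    intro μ ν u v hu0 hv0 hu hv hμν
    set a := Gdp_a S S' with ha
    have haK : a.map (algebraMap ℚ_[l] K) = Gdp_a SK SK' := Gdp_map _ _ _
    set vu : I × I → K := fun p => u p.1 p.2 with hvu
    set vv : I × I → K := fun p => v p.1 p.2 with hvv
    have hvu0 : vu ≠ 0 := by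
      intro h
      apply hu0
      ext i j
      exact congrFun h (i, j)
    have hvv0 : vv ≠ 0 := by
      intro h
      apply hv0
      ext i j
      exact congrFun h (i, j)
    have hau : a.map (algebraMap ℚ_[l] K) *ᵥ vu = μ • vu := by
      rw [haK, hvu, Gdp_vec]
      funext p
      have h1 := congrFun (congrFun hu p.1) p.2
      rw [hT] at h1
      rw [h1]
      rfl
    have hav : a.map (algebraMap ℚ_[l] K) *ᵥ vv = ν • vv := by
      rw [haK, hvv, Gdp_vec]
      funext p
      have h1 := congrFun (congrFun hv p.1) p.2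
      rw [hT] at h1
      rw [h1]
      rfl
    obtain ⟨w, hw0, hw⟩ : ∃ w ≠ 0, w ᵥ* (a.map (algebraMap ℚ_[l] K) - ν • 1) = 0 := by
      rw [Matrix.exists_vecMul_eq_zero_iff, ← Matrix.exists_mulVec_eq_zero_iff]
      refine ⟨vv, hvv0, ?_⟩
      rw [Matrix.sub_mulVec, hav, Matrix.smul_mulVec, Matrix.one_mulVec, sub_self]
    have hwa : w ᵥ* a.map (algebraMap ℚ_[l] K) = ν • w := by
      rw [Matrix.vecMul_sub, Matrix.vecMul_smul, Matrix.vecMul_one, sub_eq_zero] at hw
      exact hw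
    set b := Matrix.vecMulVec vu w with hb
    have hab : a.map (algebraMap ℚ_[l] K) * b = μ • b := by
      rw [hb, Matrix.mul_vecMulVec, hau]
      ext i j
      simp [Matrix.vecMulVec_apply, mul_assoc]
    have hba : b * a.map (algebraMap ℚ_[l] K) = ν • b := by
      rw [hb, Matrix.vecMulVec_mul, hwa]
      ext i j
      simp only [Matrix.vecMulVec_apply, Pi.smul_apply, smul_eq_mul, Matrix.smul_apply]
      ring
    have hab' : ∀ n : ℕ, a.map (algebraMap ℚ_[l] K) ^ n * b = μ ^ n • b := by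
      intro n
      induction n with
      | zero => rw [pow_zero, pow_zero, Matrix.one_mul, one_smul]
      | succ n ih => rw [pow_succ, Matrix.mul_assoc, hab, Matrix.mul_smul, ih, smul_smul, pow_succ',]
    have hba' : ∀ n : ℕ, b * a.map (algebraMap ℚ_[l] K) ^ n = ν ^ n • b := by
      intro n
      induction n with
      | zero => rw [pow_zero, pow_zero, Matrix.mul_one, one_smul]
      | succ n ih =>
        rw [pow_succ, ← Matrix.mul_assoc, ih, Matrix.smul_mul, hba, smul_smul, pow_succ]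
    have h1 := hP K (I × I) a (Gdp_sm l S S' hs hs') N hN b (by rw [hab', hba', hμν])
    rw [hab, hba] at h1
    have hb0 : b ≠ 0 := by
      obtain ⟨i, hi⟩ : ∃ i, vu i ≠ 0 := by
        by_contra hcon
        push Not at hcon
        exact hvu0 (funext hcon)
      obtain ⟨j, hj⟩ : ∃ j, w j ≠ 0 := by
        by_contra hcon
        push Not at hcon
        exact hw0 (funext hcon)
      intro h
      have h2 := congrFun (congrFun h i) j
      rw [hb, Matrix.vecMulVec_apply, Matrix.zero_apply] at h2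
      exact (mul_ne_zero hi hj) h2
    have h2 : (μ - ν) • b = 0 := by rw [sub_smul, h1, sub_self]
    rcases smul_eq_zero.1 h2 with h3 | h3
    · exact sub_eq_zero.1 h3
    · exact absurd h3 hb0
  have halt := Gdp_alt T N huniq
  constructor
  · intro X hX Y hY
    rw [ev, hTN] at hX hY
    rcases halt 1 with h | ⟨μ, u, hu0, hu, hμ, hle⟩
    · have hX0 : X = 0 := by
        have := hX.2
        rw [h] at this
        exact (Submodule.mem_bot K).1 this
      rw [hX0, Matrix.zero_mul, Matrix.mul_zero]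
    · have h1 : μ = 1 := by
        refine huniq μ 1 u 1 hu0 ?_ hu ?_ (by rw [hμ, one_pow])
        · intro h
          apply hu0
          rw [← Matrix.mul_one u, h, Matrix.mul_zero]
        · rw [one_smul, hT, cj_apply, Matrix.mul_one, hK1]
      rw [h1] at hle
      exact hG.1 X ⟨hX.1, hle hX.2⟩ Y ⟨hY.1, hle hY.2⟩
  · intro z hz
    rw [ev, hTN]
    rcases halt z with h | ⟨μ, u, hu0, hu, hμ, hle⟩
    · rw [h, inf_bot_eq, finrank_bot]
      exact zero_le_one
    · have h1 : μ ≠ 1 := by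
        rintro rfl
        rw [one_pow] at hμ
        exact hz hμ.symm
      exact (Submodule.finrank_mono (inf_le_inf_left L hle)).trans (hG.2 μ h1)

end Pool.Agent.Lib.MP_640417_ag.Mt
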