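import Pool.Agent.Lib.MP_640417_ag.Mt.SpecB

/-!
# MP_640417_ag, Mt, module `Gn0`: the generalized eigenspace of the logarithm
-/

set_option autoImplicit false

namespace Pool.Agent.Lib.MP_640417_ag.Mt

open Matrix Module

theorem tGn0 : S_Gn0 := by
  intro K _ I _ _ A S S' h1 h2 hSA hP
  have hS'A : S' * A = A * S' := by
    calc S' * A = S' * A * (S * S') := by rw [h1, Matrix.mul_one]
      _ = S' * (A * S) * S' := by simp only [Matrix.mul_assoc]
      _ = S' * (S * A) * S' := by rw [hSA]
      _ = (S' * S) * A * S' := by simp only [Matrix.mul_assoc]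
      _ = A * S' := by rw [h2, Matrix.one_mul]
  have hcomm : Commute (cj S S') (ad A) := by
    apply LinearMap.ext
    intro X
    rw [Module.End.mul_apply, Module.End.mul_apply, cj_apply, ad_apply, ad_apply, cj_apply]
    rw [Matrix.mul_sub, Matrix.sub_mul]
    congr 1
    · rw [← Matrix.mul_assoc, hSA]
      simp only [Matrix.mul_assoc]
    · rw [← Matrix.mul_assoc, Matrix.mul_assoc (S * X), ← hS'A]
      simp only [Matrix.mul_assoc]
  have key : ∀ (k : ℕ) (X : Matrix I I K), ((ad A) ^ k) X = 0 →
      X ∈ (cj S S').maxGenEigenspace 1 := by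
    intro k
    induction k with
    | zero =>
      intro X hX
      rw [pow_zero, Module.End.one_apply] at hX
      rw [hX]
      exact Submodule.zero_mem _
    | succ k ih =>
      intro X hX
      rw [pow_succ', Module.End.mul_apply, ad_apply, sub_eq_zero] at hX
      have h3 : cj S S' (((ad A) ^ k) X) = ((ad A) ^ k) X := by
        rw [cj_apply, hP _ hX, Matrix.mul_assoc, h1, Matrix.mul_one]
      have h4 : ((ad A) ^ k) (cj S S' X - X) = 0 := by
        have h5 : ((ad A) ^ k) (cj S S' X) = cj S S' (((ad A) ^ k) X) := by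
          rw [← Module.End.mul_apply, ← Module.End.mul_apply, (hcomm.pow_right k).eq]
        rw [map_sub, h5, h3, sub_self]
      obtain ⟨n, hn⟩ := (Module.End.mem_maxGenEigenspace _ _ _).1 (ih _ h4)
      rw [Module.End.mem_maxGenEigenspace]
      refine ⟨n + 1, ?_⟩
      rw [pow_succ, Module.End.mul_apply, LinearMap.sub_apply, one_smul, Module.End.one_apply]
      rw [one_smul] at hn
      exact hn
  intro X hX
  obtain ⟨n, hn⟩ := (Module.End.mem_maxGenEigenspace _ _ _).1 hX
  rw [zero_smul, sub_zero] at hn
  exact key n X hn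

end Pool.Agent.Lib.MP_640417_ag.Mt
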