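import Pool.Agent.Lib.MP_640417_ag.Mt.SpecB

/-!
# MP_640417_ag, Mt: nondegenerate trace form
-/

set_option autoImplicit false

namespace Pool.Agent.Lib.MP_640417_ag.Mt

open Filter Topology Matrix Module Pool.Agent.Lib.MP_640417_ag
  Pool.Agent.Lib.MP_640417_ag.Glob Pool.Agent.Lib.MP_640417_ag.Ctl
  Pool.Agent.Lib.MP_640417_ag.Gen4

variable {F : Type} [NontriviallyNormedField F] {I : Type} [Fintype I] [DecidableEq I]
  {Γ : Type} [Group Γ] [TopologicalSpace Γ]

variable [IsUltrametricDist F] [CompleteSpace F] [CharZero F] [IsTopologicalGroup Γ]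
  [CompactSpace Γ] (ρ : MRep Γ F I)

omit [IsTopologicalGroup Γ] [CompactSpace Γ] in
private theorem Gnd_conj_pow (X : Matrix I I F) (γ : Γ) (m : ℕ) :
    (ρ.M γ * X * ρ.M γ⁻¹) ^ m = ρ.M γ * X ^ m * ρ.M γ⁻¹ := by
  induction m with
  | zero => rw [pow_zero, pow_zero, Matrix.mul_one, M_mul_inv]
  | succ m ih =>
    rw [pow_succ, ih, pow_succ]
    calc ρ.M γ * X ^ m * ρ.M γ⁻¹ * (ρ.M γ * X * ρ.M γ⁻¹) =
        ρ.M γ * X ^ m * (ρ.M γ⁻¹ * ρ.M γ) * X * ρ.M γ⁻¹ := by
          simp only [Matrix.mul_assoc]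
      _ = ρ.M γ * (X ^ m * X) * ρ.M γ⁻¹ := by
          rw [M_inv_mul, Matrix.mul_one]
          simp only [Matrix.mul_assoc]

omit [IsTopologicalGroup Γ] [CompactSpace Γ] in
/-- the projection to a stable subspace which commutes with everything -/
private theorem Gnd_exists_e {W K : Submodule F (I → F)} (hW : ∀ γ, ∀ y ∈ W, ρ.M γ *ᵥ y ∈ W)
    (hK : ∀ γ, ∀ y ∈ K, ρ.M γ *ᵥ y ∈ K) (hc : IsCompl W K) :
    ∃ e : Matrix I I F, ρ.InC e ∧ (∀ y ∈ W, e *ᵥ y = y) ∧ ∀ y, e *ᵥ y ∈ W := by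
  let f : (I → F) →ₗ[F] (I → F) := Submodule.projection W K hc
  have hf1 : ∀ y ∈ W, f y = y := fun y hy => Submodule.projection_apply_left hc ⟨y, hy⟩
  have hf2 : ∀ y ∈ K, f y = 0 := fun y hy => Submodule.projection_apply_right hc ⟨y, hy⟩
  have hf3 : ∀ y, f y ∈ W := fun y => Submodule.projection_apply_mem hc y
  have he : ∀ y, (LinearMap.toMatrix' f) *ᵥ y = f y := fun y => LinearMap.toMatrix'_mulVec f y
  have hsplit : ∀ y : I → F, ∃ a ∈ W, ∃ k ∈ K, y = a + k := by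
    intro y
    have h1 : y ∈ W ⊔ K := by
      rw [hc.sup_eq_top]
      trivial
    obtain ⟨a, ha, k, hk, h⟩ := Submodule.mem_sup.1 h1
    exact ⟨a, ha, k, hk, h.symm⟩
  refine ⟨LinearMap.toMatrix' f, ⟨⊤, fun γ _ => ?_⟩, fun y hy => ?_, fun y => ?_⟩
  · refine (Matrix.toLin' : Matrix I I F ≃ₗ[F] _).injective (LinearMap.ext fun v => ?_)
    rw [Matrix.toLin'_apply, Matrix.toLin'_apply, ← Matrix.mulVec_mulVec, ← Matrix.mulVec_mulVec,
      he, he]
    obtain ⟨a, ha, k, hk, rfl⟩ := hsplit v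
    rw [map_add, hf1 a ha, hf2 k hk, add_zero, Matrix.mulVec_add, map_add, hf1 _ (hW γ a ha),
      hf2 _ (hK γ k hk), add_zero]
  · rw [he, hf1 y hy]
  · rw [he]
    exact hf3 y

omit [IsTopologicalGroup Γ] [CompactSpace Γ] in
private theorem Gnd_MT_J (γ : Γ) : (ρ.M γ)ᵀ * ρ.J = (ρ.μ γ : F) • (ρ.J * ρ.M γ⁻¹) := by
  calc (ρ.M γ)ᵀ * ρ.J = (ρ.M γ)ᵀ * ρ.J * (ρ.M γ * ρ.M γ⁻¹) := by
        rw [M_mul_inv, mul_one]
    _ = ((ρ.M γ)ᵀ * ρ.J * ρ.M γ) * ρ.M γ⁻¹ := by simp only [mul_assoc]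
    _ = _ := by rw [ρ.eq γ, Matrix.smul_mul]

/-- Central elements with vanishing traces of powers. -/
private theorem Gnd_trace_zero {X : Matrix I I F}
    (hred : ∀ p : Polynomial F, IsNilpotent (Polynomial.aeval X p) → Polynomial.aeval X p = 0)
    (h : ∀ p : Polynomial F, (X * Polynomial.aeval X p).trace = 0) : X = 0 := by
  have hint : IsIntegral F X := Algebra.IsIntegral.isIntegral X
  have hq0 : minpoly F X ≠ 0 := minpoly.ne_zero hint
  have hsq : Squarefree (minpoly F X) := by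
    rintro x ⟨y, hy⟩
    have h1 : Polynomial.aeval X (x * y) = 0 := by
      refine hred _ ⟨2, ?_⟩
      have h2 : (x * y) ^ 2 = minpoly F X * y := by rw [hy]; ring
      rw [← map_pow, h2, map_mul, minpoly.aeval, zero_mul]
    have h3 : x * x * y ∣ x * y := by
      rw [← hy]; exact minpoly.dvd F X h1
    have hxy : x * y ≠ 0 := by
      intro h
      apply hq0
      rw [hy, mul_assoc, h, mul_zero]
    obtain ⟨z, hz⟩ := h3
    have h4 : x * y * (x * z) = x * y * 1 := by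
      rw [mul_one]; nth_rewrite 2 [hz]; ring
    exact IsUnit.of_mul_eq_one z (mul_left_cancel₀ hxy h4)
  -- a polynomial `e` divisible by `X` with `e(X) X = X`
  obtain ⟨r, hr⟩ : ∃ r : Polynomial F, X * (X * Polynomial.aeval X r) = X := by
    by_cases hd : (Polynomial.X : Polynomial F) ∣ minpoly F X
    · obtain ⟨q, hq⟩ := hd
      have hco : IsCoprime (Polynomial.X : Polynomial F) q := by
        have h1 := hsq
        rw [hq] at h1
        exact (squarefree_mul_iff.1 h1).1.isCoprime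
      obtain ⟨u, v, huv⟩ := hco
      refine ⟨u, ?_⟩
      have h2 := congrArg (fun p => Polynomial.aeval X (Polynomial.X * p)) huv
      simp only [mul_add, map_add, map_mul, Polynomial.aeval_X, mul_one] at h2
      have h3 : X * (Polynomial.aeval X v * Polynomial.aeval X q) = 0 := by
        have h4 : X * (Polynomial.aeval X v * Polynomial.aeval X q) =
            Polynomial.aeval X (v * minpoly F X) := by
          rw [hq]
          simp only [map_mul, Polynomial.aeval_X]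
          rw [← mul_assoc, ← mul_assoc]
          congr 1
          have h5 := congrArg (Polynomial.aeval X) (mul_comm (Polynomial.X : Polynomial F) v)
          simpa using h5
        rw [h4, map_mul, minpoly.aeval, mul_zero]
      rw [h3, add_zero] at h2
      have h6 : Polynomial.aeval X u * X = X * Polynomial.aeval X u := by
        have h5 := congrArg (Polynomial.aeval X) (mul_comm (Polynomial.X : Polynomial F) u)
        simpa using h5.symm
      rwa [h6] at h2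
    · have hco : IsCoprime (Polynomial.X : Polynomial F) (minpoly F X) :=
        (Polynomial.irreducible_X.coprime_iff_not_dvd).2 hd
      obtain ⟨u, v, huv⟩ := hco
      refine ⟨u, ?_⟩
      have h2 := congrArg (fun p => Polynomial.aeval X (Polynomial.X * p)) huv
      simp only [mul_add, map_add, map_mul, Polynomial.aeval_X, mul_one, minpoly.aeval, mul_zero,
        add_zero] at h2
      have h6 : Polynomial.aeval X u * X = X * Polynomial.aeval X u := by
        have h5 := congrArg (Polynomial.aeval X) (mul_comm (Polynomial.X : Polynomial F) u)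
        simpa using h5.symm
      rwa [h6] at h2
  set e : Matrix I I F := X * Polynomial.aeval X r with he
  have hcomm : Polynomial.aeval X r * X = X * Polynomial.aeval X r := by
    have h5 := congrArg (Polynomial.aeval X) (mul_comm (Polynomial.X : Polynomial F) r)
    simpa using h5.symm
  have hee : e * e = e := by
    calc e * e = Polynomial.aeval X r * X * e := by rw [hcomm]
      _ = Polynomial.aeval X r * (X * e) := mul_assoc _ _ _
      _ = Polynomial.aeval X r * X := by rw [hr]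
      _ = e := hcomm
  have htr : e.trace = 0 := h r
  have he0 : e = 0 := by
    have h1 : IsIdempotentElem (Matrix.toLin' e) :=
      (Matrix.toLin'_mul e e).symm.trans (by rw [hee])
    have h2 := LinearMap.IsIdempotentElem.eq_zero_of_trace_eq_zero h1 (by
      rw [Matrix.trace_toLin'_eq, htr])
    exact (Matrix.toLin' : Matrix I I F ≃ₗ[F] _).injective (by rw [h2, map_zero])
  rw [← hr, he0, mul_zero]

/-- the adjoint for the form -/
private noncomputable def Gnd_adj (J Y : Matrix I I F) : Matrix I I F := J⁻¹ * Yᵀ * J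

omit [IsUltrametricDist F] [CompleteSpace F] [CharZero F] in
private theorem Gnd_adj_add (J A B : Matrix I I F) : Gnd_adj J (A + B) = Gnd_adj J A + Gnd_adj J B := by
  unfold Gnd_adj
  rw [Matrix.transpose_add, Matrix.mul_add, Matrix.add_mul]

omit [IsUltrametricDist F] [CompleteSpace F] [CharZero F] in
private theorem Gnd_adj_sub (J A B : Matrix I I F) : Gnd_adj J (A - B) = Gnd_adj J A - Gnd_adj J B := by
  unfold Gnd_adj
  rw [Matrix.transpose_sub, Matrix.mul_sub, Matrix.sub_mul]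

omit [IsUltrametricDist F] [CompleteSpace F] [CharZero F] in
private theorem Gnd_adj_mul {J : Matrix I I F} (hJ : IsUnit J.det) (A B : Matrix I I F) :
    Gnd_adj J (A * B) = Gnd_adj J B * Gnd_adj J A := by
  unfold Gnd_adj
  rw [Matrix.transpose_mul]
  calc J⁻¹ * (Bᵀ * Aᵀ) * J = J⁻¹ * Bᵀ * (J * J⁻¹) * Aᵀ * J := by
        rw [Matrix.mul_nonsing_inv J hJ, Matrix.mul_one]
        simp only [Matrix.mul_assoc]
    _ = _ := by simp only [Matrix.mul_assoc]

omit [IsUltrametricDist F] [CompleteSpace F] [CharZero F] in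
private theorem Gnd_adj_adj {J : Matrix I I F} (hJ : IsUnit J.det) (hs : Jᵀ = -J) (A : Matrix I I F) :
    Gnd_adj J (Gnd_adj J A) = A := by
  unfold Gnd_adj
  have h1 : (J⁻¹)ᵀ * J = -1 := by
    have h2 : (J⁻¹)ᵀ * Jᵀ = 1 := by
      rw [← Matrix.transpose_mul, Matrix.mul_nonsing_inv J hJ, Matrix.transpose_one]
    rw [hs, Matrix.mul_neg] at h2
    rw [← h2, neg_neg]
  rw [Matrix.transpose_mul, Matrix.transpose_mul, Matrix.transpose_transpose, hs]
  calc J⁻¹ * (-J * (A * (J⁻¹)ᵀ)) * J = -(J⁻¹ * J * A * ((J⁻¹)ᵀ * J)) := by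
        simp only [Matrix.neg_mul, Matrix.mul_neg, Matrix.mul_assoc]
    _ = A := by
        rw [h1, Matrix.nonsing_inv_mul J hJ, Matrix.one_mul, Matrix.mul_neg, Matrix.mul_one,
          neg_neg]

omit [IsUltrametricDist F] [CompleteSpace F] [CharZero F] in
private theorem Gnd_adj_trace {J : Matrix I I F} (hJ : IsUnit J.det) (A : Matrix I I F) :
    (Gnd_adj J A).trace = A.trace := by
  unfold Gnd_adj
  rw [Matrix.trace_mul_comm, ← Matrix.mul_assoc, Matrix.mul_nonsing_inv J hJ, Matrix.one_mul,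
    Matrix.trace_transpose]

omit [IsUltrametricDist F] [CompleteSpace F] [CharZero F] in
private theorem Gnd_adj_spJ {J : Matrix I I F} (hJ : IsUnit J.det) {A : Matrix I I F} :
    A ∈ spJ J ↔ Gnd_adj J A = -A := by
  rw [mem_spJ]
  unfold Gnd_adj
  constructor
  · intro h
    rw [Matrix.mul_assoc, eq_neg_of_add_eq_zero_left h, Matrix.mul_neg, ← Matrix.mul_assoc,
      Matrix.nonsing_inv_mul J hJ, Matrix.one_mul]
  · intro h
    have h1 := congrArg (fun Z => J * Z) h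
    rw [Matrix.mul_assoc, ← Matrix.mul_assoc, Matrix.mul_nonsing_inv J hJ, Matrix.one_mul,
      Matrix.mul_neg] at h1
    rw [h1, neg_add_cancel]

omit [IsTopologicalGroup Γ] [CompactSpace Γ] in
private theorem Gnd_adj_inC {c : Matrix I I F} (hc : ρ.InC c) : ρ.InC (Gnd_adj ρ.J c) := by
  have hJ : IsUnit ρ.J.det := isUnit_iff_ne_zero.2 ρ.det
  obtain ⟨U, hU⟩ := hc
  refine ⟨U, fun γ hγ => ?_⟩
  have hM : Gnd_adj ρ.J (ρ.M γ) = (ρ.μ γ : F) • ρ.M γ⁻¹ := by
    unfold Gnd_adj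
    rw [Matrix.mul_assoc, Gnd_MT_J, Matrix.mul_smul, ← Matrix.mul_assoc,
      Matrix.nonsing_inv_mul _ hJ, Matrix.one_mul]
  have h1 := congrArg (Gnd_adj ρ.J) (hU γ hγ)
  rw [Gnd_adj_mul hJ, Gnd_adj_mul hJ, hM, Matrix.mul_smul, Matrix.smul_mul] at h1
  have h2 : Gnd_adj ρ.J c * ρ.M γ⁻¹ = ρ.M γ⁻¹ * Gnd_adj ρ.J c :=
    smul_right_injective _ (ρ.μ γ).ne_zero h1
  calc ρ.M γ * Gnd_adj ρ.J c = ρ.M γ * (Gnd_adj ρ.J c * ρ.M γ⁻¹) * ρ.M γ := by
        rw [show ρ.M γ * (Gnd_adj ρ.J c * ρ.M γ⁻¹) * ρ.M γ =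
          ρ.M γ * Gnd_adj ρ.J c * (ρ.M γ⁻¹ * ρ.M γ) by simp only [Matrix.mul_assoc], M_inv_mul,
          Matrix.mul_one]
    _ = ρ.M γ * ρ.M γ⁻¹ * Gnd_adj ρ.J c * ρ.M γ := by
        rw [h2]
        simp only [Matrix.mul_assoc]
    _ = Gnd_adj ρ.J c * ρ.M γ := by rw [M_mul_inv, Matrix.one_mul]

omit [IsTopologicalGroup Γ] [CompactSpace Γ] in
private theorem Gnd_adj_central {c : Matrix I I F} (hc : ∀ d, ρ.InC d → c * d = d * c)
    (d : Matrix I I F) (hd : ρ.InC d) : Gnd_adj ρ.J c * d = d * Gnd_adj ρ.J c := by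
  have hJ : IsUnit ρ.J.det := isUnit_iff_ne_zero.2 ρ.det
  have h1 := congrArg (Gnd_adj ρ.J) (hc _ (Gnd_adj_inC ρ hd))
  rw [Gnd_adj_mul hJ, Gnd_adj_mul hJ, Gnd_adj_adj hJ (J_skew ρ)] at h1
  exact h1.symm

private theorem Gnd_main (l : ℕ) (hl : ‖(l : F)‖ < 1) (hl0 : (l : F) ≠ 0) (hsemi : ρ.Semi)
    (g : Submodule F (Matrix I I F)) (hg : HL ρ l g) (hz : Zm ρ ≤ g)
    (X : Matrix I I F) (hX : X ∈ g) (h0 : ∀ Y ∈ g, (X * Y).trace = 0) : X = 0 := by
  have hJ : IsUnit ρ.J.det := isUnit_iff_ne_zero.2 ρ.det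
  let R : Submodule F (Matrix I I F) :=
    { carrier := {X | X ∈ g ∧ ∀ Y ∈ g, (X * Y).trace = 0}
      zero_mem' := ⟨Submodule.zero_mem _, fun Y _ => by rw [Matrix.zero_mul, Matrix.trace_zero]⟩
      add_mem' := fun {X Y} hX hY => ⟨Submodule.add_mem _ hX.1 hY.1, fun Z hZ => by
        rw [Matrix.add_mul, Matrix.trace_add, hX.2 Z hZ, hY.2 Z hZ, add_zero]⟩
      smul_mem' := fun c X hX => ⟨Submodule.smul_mem _ c hX.1, fun Z hZ => by
        rw [Matrix.smul_mul, Matrix.trace_smul, hX.2 Z hZ, smul_zero]⟩ }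
  have hXR : X ∈ R := ⟨hX, h0⟩
  have hvec : ∀ X ∈ g, ∀ W : Submodule F (I → F), (∀ γ, ∀ y ∈ W, ρ.M γ *ᵥ y ∈ W) →
      ∀ y ∈ W, X *ᵥ y ∈ W := by
    intro X hX W hW y hy
    obtain ⟨K, hK, hc⟩ := hsemi W hW
    obtain ⟨e, heC, he1, he2⟩ := Gnd_exists_e ρ hW hK hc
    have h2 : X *ᵥ y = e *ᵥ (X *ᵥ y) := by
      rw [Matrix.mulVec_mulVec, ← hg.com X hX e heC, ← Matrix.mulVec_mulVec, he1 y hy]
    rw [h2]
    exact he2 _
  -- 1. stability
  have hRad : ∀ γ, ∀ X ∈ R, ρ.M γ * X * ρ.M γ⁻¹ ∈ R := by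
    intro γ X hX
    refine ⟨hg.ad γ _ hX.1, fun Y hY => ?_⟩
    have h1 := hX.2 _ (hg.ad γ⁻¹ _ hY)
    rw [inv_inv] at h1
    have h2 : (ρ.M γ * X * ρ.M γ⁻¹ * Y).trace = (X * (ρ.M γ⁻¹ * Y * ρ.M γ)).trace := by
      rw [show ρ.M γ * X * ρ.M γ⁻¹ * Y = ρ.M γ * (X * (ρ.M γ⁻¹ * Y)) by
        simp only [Matrix.mul_assoc], Matrix.trace_mul_comm]
      simp only [Matrix.mul_assoc]
    rw [h2]
    exact h1
  have hRlie : ∀ X ∈ g, ∀ Y ∈ R, X * Y - Y * X ∈ R := by
    intro X hX Y hY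
    refine ⟨hg.lie _ hX _ hY.1, fun Z hZ => ?_⟩
    have h1 := hY.2 _ (hg.lie _ hZ _ hX)
    have h2 : ((X * Y - Y * X) * Z).trace = (Y * (Z * X - X * Z)).trace := by
      rw [Matrix.sub_mul, Matrix.mul_sub, Matrix.trace_sub, Matrix.trace_sub]
      congr 1
      · rw [Matrix.mul_assoc, Matrix.trace_mul_comm, Matrix.mul_assoc]
      · rw [Matrix.mul_assoc]
    rw [h2]
    exact h1
  -- 2. R is commutative
  have hcomm : ∀ X ∈ R, ∀ Y ∈ R, X * Y = Y * X := by
    have h1 := semi_all ρ hsemi {Z | ∃ X ∈ R, ∃ Y ∈ R, Z = X * Y - Y * X} (by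
      rintro γ _ ⟨X, hX, Y, hY, rfl⟩
      refine ⟨_, hRad γ X hX, _, hRad γ Y hY, ?_⟩
      have h2 : ∀ X Y : Matrix I I F, ρ.M γ * X * ρ.M γ⁻¹ * (ρ.M γ * Y * ρ.M γ⁻¹) =
          ρ.M γ * (X * Y) * ρ.M γ⁻¹ := by
        intro X Y
        calc ρ.M γ * X * ρ.M γ⁻¹ * (ρ.M γ * Y * ρ.M γ⁻¹) =
            ρ.M γ * X * (ρ.M γ⁻¹ * ρ.M γ) * Y * ρ.M γ⁻¹ := by simp only [Matrix.mul_assoc]
          _ = _ := by
            rw [M_inv_mul, Matrix.mul_one]
            simp only [Matrix.mul_assoc]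
      rw [h2, h2, Matrix.mul_sub, Matrix.sub_mul]) (by
      intro W hW hWs
      obtain ⟨v, hv, hv0, h2⟩ := exists_killed R (fun X hX Y hY => hRlie X hX.1 Y hY)
        (fun X hX Y hY => hX.2 Y hY.1) W hW (fun X hX y hy => hvec X hX.1 W hWs y hy)
      refine ⟨v, hv, hv0, ?_⟩
      rintro _ ⟨X, hX, Y, hY, rfl⟩
      exact h2 X hX Y hY)
    intro X hX Y hY
    exact sub_eq_zero.1 (h1 _ ⟨X, hX, Y, hY, rfl⟩)
  -- 3. the algebra generated by R
  let B : Subalgebra F (Matrix I I F) := Algebra.adjoin F (R : Set (Matrix I I F))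
  have hBc : ∀ X ∈ B, ∀ Y ∈ B, X * Y = Y * X := by
    intro X hX Y hY
    exact Algebra.commute_of_mem_adjoin_of_forall_mem_commute hY fun Z hZ =>
      (Algebra.commute_of_mem_adjoin_of_forall_mem_commute hX fun Z' hZ' =>
        hcomm Z hZ Z' hZ').symm
  have hBad : ∀ γ, ∀ X ∈ B, ρ.M γ * X * ρ.M γ⁻¹ ∈ B := by
    intro γ X hX
    refine Algebra.adjoin_induction (p := fun X _ => ρ.M γ * X * ρ.M γ⁻¹ ∈ B) ?_ ?_ ?_ ?_ hX
    · intro X hX
      exact Algebra.subset_adjoin (hRad γ X hX)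
    · intro c
      rw [Algebra.algebraMap_eq_smul_one, Matrix.mul_smul, Matrix.smul_mul, Matrix.mul_one,
        M_mul_inv]
      exact B.smul_mem B.one_mem c
    · intro X Y _ _ hX hY
      rw [Matrix.mul_add, Matrix.add_mul]
      exact B.add_mem hX hY
    · intro X Y _ _ hX hY
      have h2 : ρ.M γ * (X * Y) * ρ.M γ⁻¹ = ρ.M γ * X * ρ.M γ⁻¹ * (ρ.M γ * Y * ρ.M γ⁻¹) := by
        calc ρ.M γ * (X * Y) * ρ.M γ⁻¹ = ρ.M γ * X * (ρ.M γ⁻¹ * ρ.M γ) * Y * ρ.M γ⁻¹ := by
              rw [M_inv_mul, Matrix.mul_one]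
              simp only [Matrix.mul_assoc]
          _ = _ := by simp only [Matrix.mul_assoc]
      rw [h2]
      exact B.mul_mem hX hY
  have hBW : ∀ X ∈ B, ∀ W : Submodule F (I → F), (∀ γ, ∀ y ∈ W, ρ.M γ *ᵥ y ∈ W) →
      ∀ y ∈ W, X *ᵥ y ∈ W := by
    intro X hX W hW
    refine Algebra.adjoin_induction (p := fun X _ => ∀ y ∈ W, X *ᵥ y ∈ W) ?_ ?_ ?_ ?_ hX
    · intro X hX y hy
      exact hvec X hX.1 W hW y hy
    · intro c y hy
      rw [Algebra.algebraMap_eq_smul_one, Matrix.smul_mulVec, Matrix.one_mulVec]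
      exact W.smul_mem c hy
    · intro X Y _ _ hX hY y hy
      rw [Matrix.add_mulVec]
      exact W.add_mem (hX y hy) (hY y hy)
    · intro X Y _ _ hX hY y hy
      rw [← Matrix.mulVec_mulVec]
      exact hX _ (hY y hy)
  have hred : ∀ X ∈ B, IsNilpotent X → X = 0 := by
    have h1 := semi_all ρ hsemi {Z | Z ∈ B ∧ IsNilpotent Z} (by
      rintro γ Z ⟨hZ, m, hm⟩
      exact ⟨hBad γ Z hZ, m, by rw [Gnd_conj_pow, hm, Matrix.mul_zero, Matrix.zero_mul]⟩) (by
      intro W hW hWs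
      let N : Submodule F (Matrix I I F) :=
        { carrier := {Z | Z ∈ B ∧ IsNilpotent Z}
          zero_mem' := ⟨B.zero_mem, IsNilpotent.zero⟩
          add_mem' := fun {X Y} hX hY => ⟨B.add_mem hX.1 hY.1,
            Commute.isNilpotent_add (hBc _ hX.1 _ hY.1) hX.2 hY.2⟩
          smul_mem' := fun c X hX => ⟨B.smul_mem hX.1 c, hX.2.smul c⟩ }
      exact exists_common N (fun X hX Y hY => hBc X hX.1 Y hY.1) (fun X hX => hX.2) W hW
        (fun X hX y hy => hBW X hX.1 W hWs y hy))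
    intro X hX hn
    exact h1 X ⟨hX, hn⟩
  -- 4. all elements of B commute with an open subgroup
  obtain ⟨U, hU⟩ := comm_small ρ l hl hl0
  have hBC : ∀ b ∈ B, ρ.InC b := by
    intro b hb
    refine ⟨U, fun γ hγ => ?_⟩
    obtain ⟨D, hD, h1⟩ := hU γ hγ
    have hD' : D ∈ g := hg.hh hD
    refine h1 b (deriv_zero B hBc hred D ?_ b hb)
    intro b hb
    refine Algebra.adjoin_induction (p := fun X _ => D * X - X * D ∈ B) ?_ ?_ ?_ ?_ hb
    · intro X hX
      exact Algebra.subset_adjoin (hRlie D hD' X hX)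
    · intro c
      rw [Algebra.algebraMap_eq_smul_one, Matrix.mul_smul, Matrix.smul_mul, Matrix.mul_one,
        Matrix.one_mul, sub_self]
      exact B.zero_mem
    · intro X Y _ _ hX hY
      rw [Matrix.mul_add, Matrix.add_mul, show D * X + D * Y - (X * D + Y * D) =
        (D * X - X * D) + (D * Y - Y * D) by abel]
      exact B.add_mem hX hY
    · intro X Y hX' hY' hX hY
      have h2 : D * (X * Y) - X * Y * D = (D * X - X * D) * Y + X * (D * Y - Y * D) := by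
        rw [Matrix.sub_mul, Matrix.mul_sub]
        simp only [Matrix.mul_assoc]
        abel
      rw [h2]
      exact B.add_mem (B.mul_mem hX hY') (B.mul_mem hX' hY)
  -- 5. elements of `R` are central
  have hRc : ∀ Y ∈ R, ∀ c, ρ.InC c → Y * c = c * Y := by
    intro Y hY c hc
    exact hg.com Y hY.1 c hc
  have hBcen : ∀ Y ∈ B, ∀ c, ρ.InC c → Y * c = c * Y := by
    intro Y hY c hc
    exact (Algebra.commute_of_mem_adjoin_of_forall_mem_commute hY fun Z hZ =>
      (hRc Z hZ c hc).symm).symm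
  have hXs : X ∈ spJ ρ.J := hg.skew X hX
  have hXa : Gnd_adj ρ.J X = -X := (Gnd_adj_spJ hJ).1 hXs
  have htr : ∀ Y, ρ.InC Y → (∀ c, ρ.InC c → Y * c = c * Y) → (X * Y).trace = 0 := by
    intro Y hY hYc
    have hm : Y - Gnd_adj ρ.J Y ∈ g := by
      refine hz ⟨?_, ?_, ?_⟩
      · have h1 := inC_add ρ hY (inC_smul ρ (-1) (Gnd_adj_inC ρ hY))
        rwa [neg_one_smul, ← sub_eq_add_neg] at h1
      · intro c hc
        rw [Matrix.sub_mul, Matrix.mul_sub, hYc c hc, Gnd_adj_central ρ hYc c hc]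
      · rw [Gnd_adj_spJ hJ, Gnd_adj_sub, Gnd_adj_adj hJ (J_skew ρ), neg_sub]
    have h1 := h0 _ hm
    have h2 : (X * (Y + Gnd_adj ρ.J Y)).trace = -(X * (Y + Gnd_adj ρ.J Y)).trace := by
      calc (X * (Y + Gnd_adj ρ.J Y)).trace = (Gnd_adj ρ.J (X * (Y + Gnd_adj ρ.J Y))).trace :=
            (Gnd_adj_trace hJ _).symm
        _ = ((Gnd_adj ρ.J Y + Y) * (-X)).trace := by
            rw [Gnd_adj_mul hJ, Gnd_adj_add, Gnd_adj_adj hJ (J_skew ρ), hXa]
        _ = -(X * (Y + Gnd_adj ρ.J Y)).trace := by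
            rw [Matrix.mul_neg, Matrix.trace_neg, Matrix.trace_mul_comm, add_comm]
    have h3 : (X * (Y + Gnd_adj ρ.J Y)).trace = 0 := self_eq_neg.1 h2
    rw [Matrix.mul_sub, Matrix.trace_sub] at h1
    rw [Matrix.mul_add, Matrix.trace_add] at h3
    have h4 : (2 : F) * (X * Y).trace = 0 := by linear_combination h1 + h3
    exact (mul_eq_zero.1 h4).resolve_left two_ne_zero
  have hmemB : ∀ p : Polynomial F, Polynomial.aeval X p ∈ B := fun p =>
    Algebra.adjoin_le (Set.singleton_subset_iff.2 (Algebra.subset_adjoin hXR))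
      (Polynomial.aeval_mem_adjoin_singleton F X)
  exact Gnd_trace_zero (fun p hp => hred _ (hmemB p) hp)
    fun p => htr _ (hBC _ (hmemB p)) (hBcen _ (hmemB p))


variable (l : ℕ) [Fact l.Prime]

theorem tGnd : S_Gnd l (Γ := Γ) := by
  intro I _ _ ρ hsemi g hg hz X hX h0
  exact Gnd_main ρ l (norm_l l) (l_ne l) hsemi g hg hz X hX h0

end Pool.Agent.Lib.MP_640417_ag.Mt
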