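import Pool.Agent.Lib.MP_640417_ag.Mt.SpecA

/-!
# MP_640417_ag, Mt: a stable subspace is the sum of its parts in the generalized eigenspaces
-/

set_option autoImplicit false

namespace Pool.Agent.Lib.MP_640417_ag.Mt

open Module

theorem tGrd : S_Grd := by
  intro K _ _ W _ _ _ T L hL
  exact (Submodule.eq_iSup_inf_genEigenspace (f := T) (p := L) ⊤ hL
    (Module.End.iSup_maxGenEigenspace_eq_top T)).le

end Pool.Agent.Lib.MP_640417_ag.Mt
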