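import Pool.Agent.Lib.MP_640417_ag.Mt.SpecB

/-!
# MP_640417_ag, Mt, module `Gz`: adding central elements
-/

set_option autoImplicit false

namespace Pool.Agent.Lib.MP_640417_ag.Mt

open Matrix Module

private theorem Gz_pow {K : Type} [Field K] {I : Type} [Fintype I] [DecidableEq I]
    (T : Module.End K (Matrix I I K)) (z : K) (c : Matrix I I K) (hc : T c = c) (n : ℕ) :
    ((T - z • (1 : Module.End K (Matrix I I K))) ^ n) c = (1 - z) ^ n • c := by
  induction n with
  | zero => rw [pow_zero, pow_zero, one_smul, Module.End.one_apply]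
  | succ n ih =>
    rw [pow_succ', Module.End.mul_apply, ih, map_smul, LinearMap.sub_apply, LinearMap.smul_apply,
      Module.End.one_apply, hc, pow_succ, mul_smul, sub_smul, one_smul]

private theorem Gz_stab {K : Type} [Field K] {I : Type} [Fintype I] [DecidableEq I]
    (T : Module.End K (Matrix I I K)) (z : K) (L : Submodule K (Matrix I I K))
    (hL : ∀ X ∈ L, T X ∈ L) (n : ℕ) :
    ∀ X ∈ L, ((T - z • (1 : Module.End K (Matrix I I K))) ^ n) X ∈ L := by
  induction n with
  | zero =>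
    intro X hX
    rwa [pow_zero, Module.End.one_apply]
  | succ n ih =>
    intro X hX
    rw [pow_succ, Module.End.mul_apply]
    refine ih _ ?_
    rw [LinearMap.sub_apply, LinearMap.smul_apply, Module.End.one_apply]
    exact L.sub_mem (hL X hX) (L.smul_mem z hX)

theorem tGz : S_Gz := by
  intro K _ I _ _ L Z S S' h1 h2 hL hZS hZL hZ hg
  have hT : ∀ c ∈ Z, cj S S' c = c := by
    intro c hc
    rw [cj_apply, hZS c hc, Matrix.mul_assoc, h1, Matrix.mul_one]
  constructor
  · rintro X ⟨hX, hX1⟩ X' ⟨hX', hX1'⟩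
    have key : ∀ X ∈ L ⊔ Z, X ∈ (cj S S').maxGenEigenspace 1 →
        ∃ Y ∈ ev (cj S S') L 1, ∃ c ∈ Z, X = Y + c := by
      intro X hX hX1
      obtain ⟨Y, hY, c, hc, rfl⟩ := Submodule.mem_sup.1 hX
      have hc1 : c ∈ (cj S S').maxGenEigenspace 1 := by
        rw [Module.End.mem_maxGenEigenspace]
        refine ⟨1, ?_⟩
        rw [Gz_pow _ _ _ (hT c hc), sub_self, pow_one, zero_smul]
      refine ⟨Y, ⟨hY, ?_⟩, c, hc, rfl⟩
      have := Submodule.sub_mem _ hX1 hc1
      rwa [add_sub_cancel_right] at this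
    obtain ⟨Y, hY, c, hc, rfl⟩ := key X hX hX1
    obtain ⟨Y', hY', c', hc', rfl⟩ := key X' hX' hX1'
    have e1 : Y * Y' = Y' * Y := hg.1 Y hY Y' hY'
    have e2 : c * Y' = Y' * c := hZL c hc Y' hY'.1
    have e3 : c' * Y = Y * c' := hZL c' hc' Y hY.1
    have e4 : c * c' = c' * c := hZ c hc c' hc'
    rw [Matrix.add_mul, Matrix.mul_add, Matrix.mul_add, Matrix.add_mul, Matrix.mul_add,
      Matrix.mul_add, e1, e2, e3, e4]
    abel
  · intro z hz
    refine le_trans (Submodule.finrank_mono ?_) (hg.2 z hz)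
    rintro X ⟨hX, hX1⟩
    obtain ⟨Y, hY, c, hc, rfl⟩ := Submodule.mem_sup.1 hX
    obtain ⟨n, hn⟩ := (Module.End.mem_maxGenEigenspace _ _ _).1 hX1
    rw [map_add, Gz_pow _ _ _ (hT c hc)] at hn
    have hz' : (1 - z) ^ n ≠ 0 := pow_ne_zero _ (sub_ne_zero.2 (Ne.symm hz))
    have hcL : c ∈ L := by
      have h3 : (1 - z) ^ n • c ∈ L := by
        rw [add_comm] at hn
        rw [eq_neg_of_add_eq_zero_left hn]
        exact L.neg_mem (Gz_stab _ z L (fun X hX => hL X hX) n Y hY)
      have h4 := L.smul_mem ((1 - z) ^ n)⁻¹ h3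
      rwa [smul_smul, inv_mul_cancel₀ hz', one_smul] at h4
    exact ⟨L.add_mem hY hcL, hX1⟩

end Pool.Agent.Lib.MP_640417_ag.Mt
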