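import Pool.Agent.Lib.MP_640417_ag.Mt.SpecB

/-!
# MP_640417_ag, Mt, module Hlz: adding the central skew elements, logarithms
-/

set_option autoImplicit false

namespace Pool.Agent.Lib.MP_640417_ag.Mt

open Matrix Module TensorProduct MeasureTheory Pool.Agent.Lib.MP_640417_ag
  Pool.Agent.Lib.MP_640417_ag.Frob Pool.Agent.Lib.MP_640417_ag.Glob
  Pool.Agent.Lib.MP_640417_ag.Four Pool.Agent.Lib.MP_640417_ag.Ctl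
  Pool.Agent.Lib.MP_640417_ag.Dfr Pool.Agent.Lib.MP_640417_ag.Ty Pool.Agent.Lib.MP_640417_ag.Zo
  Pool.Agent.Lib.MP_640417_ag.Gen4

section

variable {F : Type} [NontriviallyNormedField F] [IsUltrametricDist F] [CompleteSpace F]
  [CharZero F] {I : Type} [Fintype I] [DecidableEq I]
  {Γ : Type} [Group Γ] [TopologicalSpace Γ] (ρ : MRep Γ F I)

private theorem Hlz_MT_J (γ : Γ) : (ρ.M γ)ᵀ * ρ.J = (ρ.μ γ : F) • (ρ.J * ρ.M γ⁻¹) := by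
  calc (ρ.M γ)ᵀ * ρ.J = (ρ.M γ)ᵀ * ρ.J * (ρ.M γ * ρ.M γ⁻¹) := by
        rw [M_mul_inv, mul_one]
    _ = ((ρ.M γ)ᵀ * ρ.J * ρ.M γ) * ρ.M γ⁻¹ := by simp only [mul_assoc]
    _ = _ := by rw [ρ.eq γ, Matrix.smul_mul]

private theorem Hlz_spJ_ad (γ : Γ) {X : Matrix I I F} (h1 : X ∈ spJ ρ.J) :
    ρ.M γ * X * ρ.M γ⁻¹ ∈ spJ ρ.J := by
  rw [mem_spJ] at h1 ⊢
  have e := ρ.eq γ
  have e1 := Hlz_MT_J ρ γ
  have e2 : ρ.J * ρ.M γ = (ρ.μ γ : F) • ((ρ.M γ⁻¹)ᵀ * ρ.J) := by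
    have e3 : (ρ.M γ⁻¹)ᵀ * (ρ.M γ)ᵀ = 1 := by
      rw [← Matrix.transpose_mul, M_mul_inv, Matrix.transpose_one]
    calc ρ.J * ρ.M γ = ((ρ.M γ⁻¹)ᵀ * (ρ.M γ)ᵀ) * (ρ.J * ρ.M γ) := by rw [e3, one_mul]
      _ = (ρ.M γ⁻¹)ᵀ * ((ρ.M γ)ᵀ * ρ.J * ρ.M γ) := by simp only [mul_assoc]
      _ = _ := by rw [e, Matrix.mul_smul]
  have e4 : (ρ.M γ * X * ρ.M γ⁻¹)ᵀ * ρ.J =
      (ρ.μ γ : F) • ((ρ.M γ⁻¹)ᵀ * (Xᵀ * ρ.J) * ρ.M γ⁻¹) := by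
    rw [Matrix.transpose_mul, Matrix.transpose_mul, mul_assoc, mul_assoc, e1,
      Matrix.mul_smul, Matrix.mul_smul]
    simp only [mul_assoc]
  have e5 : ρ.J * (ρ.M γ * X * ρ.M γ⁻¹) =
      (ρ.μ γ : F) • ((ρ.M γ⁻¹)ᵀ * (ρ.J * X) * ρ.M γ⁻¹) := by
    rw [← mul_assoc, ← mul_assoc, e2, Matrix.smul_mul, Matrix.smul_mul]
    simp only [mul_assoc]
  rw [e4, e5, ← smul_add, ← add_mul, ← mul_add, h1, mul_zero, zero_mul, smul_zero]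

private theorem Hlz_center_conj {b : Matrix I I F}
    (hc : ∀ c, ρ.InC c → b * c = c * b) (γ : Γ) (c : Matrix I I F)
    (h2 : ρ.InC (ρ.M γ⁻¹ * c * ρ.M γ)) :
    ρ.M γ * b * ρ.M γ⁻¹ * c = c * (ρ.M γ * b * ρ.M γ⁻¹) := by
  have h1 := hc _ h2
  calc ρ.M γ * b * ρ.M γ⁻¹ * c = ρ.M γ * (b * (ρ.M γ⁻¹ * c * ρ.M γ)) * ρ.M γ⁻¹ := by
        rw [show ρ.M γ * (b * (ρ.M γ⁻¹ * c * ρ.M γ)) * ρ.M γ⁻¹ =
          ρ.M γ * b * ρ.M γ⁻¹ * c * (ρ.M γ * ρ.M γ⁻¹) by simp only [Matrix.mul_assoc],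
          M_mul_inv, Matrix.mul_one]
    _ = ρ.M γ * ((ρ.M γ⁻¹ * c * ρ.M γ) * b) * ρ.M γ⁻¹ := by rw [h1]
    _ = (ρ.M γ * ρ.M γ⁻¹) * c * (ρ.M γ * b * ρ.M γ⁻¹) := by simp only [Matrix.mul_assoc]
    _ = _ := by rw [M_mul_inv, Matrix.one_mul]

end

variable (l : ℕ) [Fact l.Prime] {Γ : Type} [Group Γ] [TopologicalSpace Γ]
  [IsTopologicalGroup Γ] [CompactSpace Γ]

omit [CompactSpace Γ] in
private theorem Hlz_Zm_ad {I : Type} [Fintype I] [DecidableEq I] (ρ : MRep Γ ℚ_[l] I) (γ : Γ)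
    {z : Matrix I I ℚ_[l]} (hz : z ∈ Zm ρ) : ρ.M γ * z * ρ.M γ⁻¹ ∈ Zm ρ := by
  refine ⟨inC_conj ρ hz.1 γ, fun c hc => ?_, Hlz_spJ_ad ρ γ hz.2.2⟩
  refine Hlz_center_conj ρ hz.2.1 γ c ?_
  have h2 := inC_conj ρ hc γ⁻¹
  rwa [inv_inv] at h2

theorem tHlz : S_Hlz l (Γ := Γ) := by
  intro I _ _ ρ hsemi
  have hl : ‖(l : ℚ_[l])‖ < 1 := norm_l l
  have hl0 : (l : ℚ_[l]) ≠ 0 := l_ne l
  refine ⟨fun g hg => ⟨?_, ?_, ?_, ?_, ?_⟩, ⟨?_, ?_, ?_, ?_, ?_⟩, ?_, ?_⟩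
  · intro X hX Y hY
    obtain ⟨a, ha, z, hz, rfl⟩ := Submodule.mem_sup.1 hX
    obtain ⟨b, hb, w, hw, rfl⟩ := Submodule.mem_sup.1 hY
    have h1 : a * w = w * a := hg.com a ha w hw.1
    have h2 : b * z = z * b := hg.com b hb z hz.1
    have h3 : z * w = w * z := hz.2.1 w hw.1
    have h4 : (a + z) * (b + w) - (b + w) * (a + z) = a * b - b * a := by
      rw [Matrix.add_mul, Matrix.mul_add, Matrix.mul_add, Matrix.add_mul, Matrix.mul_add,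
        Matrix.mul_add, h1, h2, h3]
      abel
    rw [h4]
    exact Submodule.mem_sup_left (hg.lie a ha b hb)
  · intro X hX
    obtain ⟨a, ha, z, hz, rfl⟩ := Submodule.mem_sup.1 hX
    exact (spJ ρ.J).add_mem (hg.skew a ha) hz.2.2
  · intro γ X hX
    obtain ⟨a, ha, z, hz, rfl⟩ := Submodule.mem_sup.1 hX
    rw [Matrix.mul_add, Matrix.add_mul]
    exact Submodule.add_mem_sup (hg.ad γ a ha) (Hlz_Zm_ad l ρ γ hz)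
  · exact hg.hh.trans le_sup_left
  · intro X hX b hb
    obtain ⟨a, ha, z, hz, rfl⟩ := Submodule.mem_sup.1 hX
    rw [Matrix.add_mul, Matrix.mul_add, hg.com a ha b hb, hz.2.1 b hb]
  · intro X hX Y hY
    exact Hp_lie ρ l hl hl0 hX hY
  · intro X hX
    obtain ⟨a, ha, z, hz, rfl⟩ := Submodule.mem_sup.1 hX
    exact (spJ ρ.J).add_mem ha.1 hz.2.2
  · intro γ X hX
    exact Hp_ad ρ l γ hX
  · exact le_sup_left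
  · intro X hX b hb
    obtain ⟨a, ha, z, hz, rfl⟩ := Submodule.mem_sup.1 hX
    rw [Matrix.add_mul, Matrix.mul_add, Hh_comm_C ρ l hl hl0 ha hb, hz.2.1 b hb]
  · intro z hz z' hz'
    exact hz.2.1 z' hz'.1
  · obtain ⟨h1, h2⟩ := Comm_pos hl hl0
    obtain ⟨U, hU⟩ := exists_U0 ρ h1 h2
    refine ⟨U, fun γ hγ => ?_⟩
    have hs := (hU γ).1 hγ
    obtain ⟨X, hX, key⟩ := Comm_key ρ l hl hl0 hs
    exact ⟨hs, (hU γ⁻¹).1 (inv_mem hγ),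
      fun b hb => key b (Hh_comm_C ρ l hl hl0 hX hb), X, hX, key X rfl, key⟩

end Pool.Agent.Lib.MP_640417_ag.Mt
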