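import Pool.Agent.Lib.MP_640417_ag.Mt.SpecB

/-!
# MP_640417_ag, Mt: the ideal lemma
-/

set_option autoImplicit false

namespace Pool.Agent.Lib.MP_640417_ag.Mt

open Matrix Module TensorProduct MeasureTheory Pool.Agent.Lib.MP_640417_ag
  Pool.Agent.Lib.MP_640417_ag.Frob Pool.Agent.Lib.MP_640417_ag.Glob
  Pool.Agent.Lib.MP_640417_ag.Four Pool.Agent.Lib.MP_640417_ag.Ctl
  Pool.Agent.Lib.MP_640417_ag.Dfr Pool.Agent.Lib.MP_640417_ag.Ty Pool.Agent.Lib.MP_640417_ag.Zo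
  Pool.Agent.Lib.MP_640417_ag.Gen4

variable (l : ℕ) [Fact l.Prime]

variable {Γ : Type} [Group Γ] [TopologicalSpace Γ] [IsTopologicalGroup Γ] [CompactSpace Γ]

theorem tIdl : S_Idl l (Γ := Γ) := by
  intro I _ _ ρ hsemi X hX hXc hXY
  have hl : ‖(l : ℚ_[l])‖ < 1 := norm_l l
  have hl0 : (l : ℚ_[l]) ≠ 0 := l_ne l
  obtain ⟨p, p1, p2, p3, p4⟩ := exists_proj (Hp ρ l) (fun X hX h0 =>
    Hp_nondeg ρ l hl hl0 hsemi X hX h0)
  have hZH : ∀ z ∈ Zm ρ, z ∈ Hp ρ l := fun z hz => Submodule.mem_sup_right hz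
  have hlie : ∀ A ∈ Hp ρ l, ∀ B ∈ Hp ρ l, A * B - B * A ∈ Hp ρ l := fun A hA B hB =>
    Hp_lie ρ l hl hl0 hA hB
  have htr2 : ∀ A B C : Matrix I I ℚ_[l],
      ((A * B - B * A) * C).trace = (A * (B * C - C * B)).trace := by
    intro A B C
    rw [Matrix.sub_mul, Matrix.mul_sub, Matrix.trace_sub, Matrix.trace_sub]
    congr 1
    · rw [Matrix.mul_assoc]
    · rw [Matrix.mul_assoc, Matrix.trace_mul_comm, Matrix.mul_assoc]
  have hHs : ∀ Y ∈ Hp ρ l, Y ∈ spJ ρ.J := by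
    intro Y hY
    obtain ⟨a, ha, z, hz, rfl⟩ := Submodule.mem_sup.1 hY
    exact (spJ ρ.J).add_mem ha.1 hz.2.2
  have hHc : ∀ Y ∈ Hp ρ l, ∀ c, ρ.InC c → Y * c = c * Y := by
    intro Y hY c hc
    obtain ⟨a, ha, z, hz, rfl⟩ := Submodule.mem_sup.1 hY
    rw [Matrix.add_mul, Matrix.mul_add, Hh_comm_C ρ l hl hl0 ha hc, hz.2.1 c hc]
  have hcomm : ∀ Y ∈ Hp ρ l, (X - p X) * Y = Y * (X - p X) := by
    intro Y hY
    refine sub_eq_zero.1 (Hp_nondeg ρ l hl hl0 hsemi _ ?_ fun Z hZ => ?_)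
    · have h1 := (Hp ρ l).sub_mem (hXY Y hY) (hlie _ (p1 X) Y hY)
      have h2 : (X - p X) * Y - Y * (X - p X) = X * Y - Y * X - (p X * Y - Y * p X) := by
        rw [Matrix.sub_mul, Matrix.mul_sub]
        abel
      rwa [h2]
    · have h1 : (((X - p X) * Y - Y * (X - p X)) * Z).trace =
          ((X - p X) * (Y * Z - Z * Y)).trace := htr2 _ _ _
      rw [h1, Matrix.sub_mul, Matrix.trace_sub, p3 X _ (hlie Y hY Z hZ), sub_self]
  have hmem : X - p X ∈ Zm ρ := by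
    refine ⟨?_, ?_, ?_⟩
    · obtain ⟨U, hU⟩ := comm_open ρ l hl hl0
      exact ⟨U, hU _ fun Y hY => (hcomm Y (Submodule.mem_sup_left hY)).symm⟩
    · intro c hc
      rw [Matrix.sub_mul, Matrix.mul_sub, hXc c hc, hHc _ (p1 X) c hc]
    · exact (spJ ρ.J).sub_mem hX (hHs _ (p1 X))
  have h1 := p2 _ (hZH _ hmem)
  rw [map_sub, p2 _ (p1 X), sub_self] at h1
  rw [sub_eq_zero.1 h1.symm]
  exact p1 X

end Pool.Agent.Lib.MP_640417_ag.Mt
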