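import Pool.Agent.Lib.MP_640417_ag.Mt.SpecA

/-!
# MP_640417_ag, Mt, module Ind: all root vectors are in `H`
-/

set_option autoImplicit false

namespace Pool.Agent.Lib.MP_640417_ag.Mt

open Matrix Module

/-- If integers have the sum two, then one of them is positive. -/
private theorem Ind_pos {K : Type} [Field K] [CharZero K] {n : ℕ} (x : Fin n → K)
    (hx : ∀ i, ∃ k : ℤ, x i = k) (hs : ∑ i, x i = 2) : ∃ i, ∃ k : ℕ, x i = k + 1 := by
  choose k hk using hx
  have h1 : ∑ i, k i = 2 := by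
    have h2 : ((∑ i, k i : ℤ) : K) = ((2 : ℤ) : K) := by
      rw [Int.cast_sum, ← Finset.sum_congr rfl fun i _ => hk i, hs]
      norm_num
    exact_mod_cast h2
  by_contra hcon
  push Not at hcon
  have h3 : ∑ i, k i ≤ 0 := by
    refine Finset.sum_nonpos fun i _ => ?_
    by_contra h4
    refine hcon i (k i - 1).toNat ?_
    have h5 : (((k i - 1).toNat : ℤ) : K) = ((k i - 1 : ℤ) : K) := by
      rw [Int.toNat_of_nonneg (by omega)]
    rw [hk i]
    push_cast at h5
    rw [h5]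
    ring
  omega

/-- The `sl2`-triple of a root. -/
private theorem Ind_sl {K : Type} [Field K] [IsAlgClosed K] [CharZero K] {I : Type} [Fintype I]
    [DecidableEq I] (hLin : S_Lin) (hSlt : S_Slt) {L H t : Submodule K (Matrix I I K)} {Φ : Set K}
    {X : K → Matrix I I K} {α : K → Matrix I I K → K} {A : Matrix I I K}
    (hR : Roots L H t Φ X α A) (w : K) (hw : w ∈ Φ) :
    ∃ (c : K) (h : Matrix I I K), h ∈ t ∧ α w h = 2 ∧
      X w * (c • X w⁻¹) - (c • X w⁻¹) * X w = h ∧ h * X w - X w * h = (2 : K) • X w ∧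
      h * (c • X w⁻¹) - (c • X w⁻¹) * h = (-2 : K) • (c • X w⁻¹) := by
  obtain ⟨_, hsm, hinv, _⟩ := hLin K I L H t Φ X α A hR
  have h0 := hSlt K I L H t Φ X α A hR w hw
  have hb : bz X w ∈ t := hR.br w hw
  have h1 : α w ((2 / α w (bz X w)) • bz X w) = 2 := by
    rw [hsm w hw _ _ hb, div_mul_cancel₀ _ h0]
  have ht : (2 / α w (bz X w)) • bz X w ∈ t := t.smul_mem _ hb
  refine ⟨2 / α w (bz X w), (2 / α w (bz X w)) • bz X w, ht, h1, ?_, ?_, ?_⟩
  · rw [mul_smul_comm, smul_mul_assoc, ← smul_sub]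
    rfl
  · rw [hR.wt w hw _ ht, h1]
  · have h2 := hR.wt w⁻¹ (hR.inv w hw) _ ht
    rw [hinv w hw _ ht, h1] at h2
    generalize (2 / α w (bz X w)) • bz X w = h at h2
    rw [mul_smul_comm, smul_mul_assoc, ← smul_sub, h2, smul_comm]

theorem tInd (hLin : S_Lin) (hSlt : S_Slt) (hInt : S_Int) (hWtl : S_Wtl) : S_Ind := by
  intro K _ _ _ I _ _ L H t Φ X α A hR hcom
  have claim : ∀ (n : ℕ) (w : K), w ∈ Φ → ∀ v : Fin n → K, (∀ i, v i ∈ Φ ∧ X (v i) ∈ H) →
      (∀ P ∈ t, α w P = ∑ i, α (v i) P) → X w ∈ H := by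
    intro n
    induction n with
    | zero =>
      intro w hw v _ hs
      have h1 := hs A hR.At
      rw [Fin.sum_univ_zero] at h1
      exact absurd h1 (hR.αA w hw)
    | succ n ih =>
      intro w hw v hv hs
      obtain ⟨_, _, hinv, hmul⟩ := hLin K I L H t Φ X α A hR
      obtain ⟨c, h, ht, h2, he, hh, hf⟩ := Ind_sl hLin hSlt hR w hw
      have hI := fun i => hInt K I (X w) (c • X w⁻¹) h (X (v i)) (α (v i) h) he hh hf
        (hR.Xne _ (hv i).1) (hR.wt _ (hv i).1 h ht)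
      obtain ⟨i, hi⟩ := Ind_pos (fun i => α (v i) h) (fun i => (hI i).1)
        (by rw [← hs h ht, h2])
      have h3 := (hI i).2 hi
      obtain ⟨hz, hzH⟩ := hv i
      set z := v i with hzd
      have h4 : X w⁻¹ * X z - X z * X w⁻¹ ≠ 0 := by
        intro h5
        apply h3
        rw [smul_mul_assoc, mul_smul_comm, ← smul_sub, h5, smul_zero]
      by_cases hzw : z = w
      · rw [← hzw]
        exact hzH
      have hw0 : w ≠ 0 := fun h5 => hR.zero (h5 ▸ hw)
      have hz0 : z ≠ 0 := fun h5 => hR.zero (h5 ▸ hz)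
      have h5 : w⁻¹ * z ≠ 1 := by
        intro h6
        apply hzw
        have h7 : w * (w⁻¹ * z) = w * 1 := by rw [h6]
        rwa [mul_inv_cancel_left₀ hw0, mul_one] at h7
      have hwi := hR.inv w hw
      have h6 : w⁻¹ * z ∈ Φ := by
        by_contra h7
        exact h4 (sub_eq_zero.2 (hR.br2 _ hwi _ hz h5 h7))
      obtain ⟨c', hc'⟩ := hR.br1 _ hwi _ hz h6
      have hc'0 : c' ≠ 0 := by
        rintro rfl
        rw [zero_smul] at hc'
        exact h4 hc'
      have hw' : (w⁻¹ * z)⁻¹ ∈ Φ := hR.inv _ h6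
      have h7 : X (w⁻¹ * z)⁻¹ ∈ H := by
        refine ih _ hw' (fun j => v (i.succAbove j)) (fun j => hv _) fun P hP => ?_
        rw [hinv _ h6 P hP, hmul _ hwi _ hz h6 h4 P hP, hinv w hw P hP, hs P hP,
          Fin.sum_univ_succAbove _ i, ← hzd]
        ring
      have h8 : z * (w⁻¹ * z)⁻¹ = w := by
        field_simp
      obtain ⟨c'', hc''⟩ := hR.br1 z hz _ hw' (by rw [h8]; exact hw)
      rw [h8] at hc''
      have h9 : X z * X (w⁻¹ * z)⁻¹ - X (w⁻¹ * z)⁻¹ * X z ∈ H := hR.Hl _ hzH _ h7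
      have hc''0 : c'' ≠ 0 := by
        rintro rfl
        rw [zero_smul] at hc''
        have h10 : ((X z * X (w⁻¹ * z)⁻¹ - X (w⁻¹ * z)⁻¹ * X z) * X w⁻¹).trace =
            (X (w⁻¹ * z)⁻¹ * (X w⁻¹ * X z - X z * X w⁻¹)).trace := by
          rw [sub_mul, mul_sub, trace_sub, trace_sub, mul_assoc (X z), trace_mul_comm (X z),
            mul_assoc, mul_assoc]
        rw [hc'', zero_mul, trace_zero, hc', mul_smul_comm, trace_smul, smul_eq_mul] at h10
        have h11 := hR.tr _ hw'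
        rw [inv_inv] at h11
        exact mul_ne_zero hc'0 h11 h10.symm
      rw [hc''] at h9
      have h12 := H.smul_mem c''⁻¹ h9
      rwa [smul_smul, inv_mul_cancel₀ hc''0, one_smul] at h12
  intro w hw
  obtain ⟨n, v, hv, hs⟩ := hWtl K I L H t Φ X α A hR hcom w hw
  exact claim n w hw v hv hs

end Pool.Agent.Lib.MP_640417_ag.Mt
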