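import Pool.Agent.Lib.MP_640417_ag.Mt.SpecA
import Mathlib.Algebra.Lie.Sl2

/-!
# MP_640417_ag, Mt, module Int: integrality for a triple `h, e, f` with the relations of sl2
-/

set_option autoImplicit false

namespace Pool.Agent.Lib.MP_640417_ag.Mt

open Matrix Module Set

attribute [local instance 100] LieRing.ofAssociativeRing

section

variable {K : Type} [Field K] [CharZero K] {I : Type} [Fintype I] [DecidableEq I]

omit [CharZero K] in
private theorem lie_pow {e f h Z : Matrix I I K} {μ : K} (t : IsSl2Triple h e f)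
    (hZ : ⁅h, Z⁆ = μ • Z) (n : ℕ) :
    ⁅h, ((LieModule.toEnd K (Matrix I I K) (Matrix I I K) e) ^ n) Z⁆ =
      (μ + 2 * n) • ((LieModule.toEnd K (Matrix I I K) (Matrix I I K) e) ^ n) Z := by
  induction n with
  | zero => simpa using hZ
  | succ n ih =>
    rw [pow_succ', Module.End.mul_apply, LieModule.toEnd_apply_apply, Nat.cast_add, Nat.cast_one,
      leibniz_lie h, t.lie_h_e_smul K, ih, lie_smul, smul_lie, ← add_smul]
    congr 1
    ring

private theorem exists_pow {e f h Z : Matrix I I K} {μ : K} (t : IsSl2Triple h e f)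
    (hZ : ⁅h, Z⁆ = μ • Z) :
    ∃ n : ℕ, ((LieModule.toEnd K (Matrix I I K) (Matrix I I K) e) ^ n) Z = 0 := by
  have hs : (range <| fun (n : ℕ) ↦ μ + 2 * n).Infinite := by
    rw [infinite_range_iff (fun n m ↦ by simp)]; infer_instance
  by_contra! contra
  exact hs ((LieModule.toEnd K (Matrix I I K) (Matrix I I K) h).eigenvectors_linearIndependent
    {μ + 2 * n | n : ℕ}
    (fun ⟨s, hs⟩ ↦ ((LieModule.toEnd K (Matrix I I K) (Matrix I I K) e) ^ Classical.choose hs) Z)
    (fun ⟨r, hr⟩ ↦ by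
      simp [lie_pow t hZ, Classical.choose_spec hr, contra,
        Module.End.hasEigenvector_iff])).finite

private theorem int_nonzero {e f h Z : Matrix I I K} {μ : K} (t : IsSl2Triple h e f)
    (hZ0 : Z ≠ 0) (hZ : ⁅h, Z⁆ = μ • Z) : ∃ k : ℤ, μ = k := by
  obtain ⟨n, hn₁, hn₂⟩ := Nat.exists_not_and_succ_of_not_zero_of_exists
    (p := fun n => ((LieModule.toEnd K (Matrix I I K) (Matrix I I K) e) ^ n) Z = 0)
    (by simpa using hZ0) (exists_pow t hZ)
  have P : t.HasPrimitiveVectorWith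
      (((LieModule.toEnd K (Matrix I I K) (Matrix I I K) e) ^ n) Z) (μ + 2 * n) := by
    refine ⟨hn₁, lie_pow t hZ n, ?_⟩
    rw [pow_succ', Module.End.mul_apply, LieModule.toEnd_apply_apply] at hn₂
    exact hn₂
  obtain ⟨m, hm⟩ := P.exists_nat
  refine ⟨m - 2 * n, ?_⟩
  push_cast
  rw [← hm]
  ring

end

theorem tInt : S_Int := by
  intro K _ _ I _ _ e f h Z μ hef hhe hhf hZ0 hZ
  have hZl : ⁅h, Z⁆ = μ • Z := by rw [Ring.lie_def]; exact hZ
  by_cases h0 : h = 0
  · subst h0
    have hμ : μ = 0 := by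
      have h1 : μ • Z = 0 := by rw [← hZ]; simp
      exact (smul_eq_zero.mp h1).resolve_right hZ0
    refine ⟨⟨0, by simp [hμ]⟩, ?_⟩
    rintro ⟨k, hk⟩
    rw [hμ] at hk
    exact absurd hk.symm (Nat.cast_add_one_ne_zero k)
  · have t : IsSl2Triple h e f := by
      refine ⟨h0, ?_, ?_, ?_⟩
      · rw [Ring.lie_def]; exact hef
      · rw [Ring.lie_def, hhe, two_smul, two_smul]
      · rw [Ring.lie_def, hhf, neg_smul, two_smul, two_smul]
    refine ⟨int_nonzero t hZ0 hZl, ?_⟩
    rintro ⟨k, hk⟩ hfZ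
    have P : t.symm.HasPrimitiveVectorWith Z (-μ) := by
      refine ⟨hZ0, ?_, ?_⟩
      · rw [neg_lie, hZl, neg_smul]
      · rw [Ring.lie_def]; exact hfZ
    obtain ⟨m, hm⟩ := P.exists_nat
    have h2 : ((k + 1 + m : ℕ) : K) = 0 := by
      push_cast
      rw [← hm, hk]
      ring
    have h3 := Nat.cast_eq_zero.mp h2
    omega

end Pool.Agent.Lib.MP_640417_ag.Mt
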