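import Pool.Agent.Lib.MP_640417_ag.Mt.SpecA

/-!
# MP_640417_ag, Mt, module Jac: eigenvalues on the centralizer of `X`
-/

set_option autoImplicit false

namespace Pool.Agent.Lib.MP_640417_ag.Mt

open Matrix Module

private theorem Jac_com {K R : Type} [Field K] [Ring R] [Algebra K R] (D E : R)
    (h : D * E - E * D = (2 : K) • E) (k : ℕ) :
    D * E ^ k - E ^ k * D = (2 * k : K) • E ^ k := by
  induction k with
  | zero => simp
  | succ k ih =>
    have h1 : D * E ^ (k + 1) - E ^ (k + 1) * D =
        (D * E ^ k - E ^ k * D) * E + E ^ k * (D * E - E * D) := by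
      rw [pow_succ]
      noncomm_ring
    rw [h1, ih, h, smul_mul_assoc, mul_smul_comm, ← pow_succ, ← add_smul]
    congr 1
    push_cast
    ring

private theorem Jac_nil {K R : Type} [Field K] [CharZero K] [Ring R] [Algebra K R]
    [FiniteDimensional K R] (D E : R) (h : D * E - E * D = (2 : K) • E) : IsNilpotent E := by
  by_contra hn
  let T : Module.End K R := LinearMap.mulLeft K D - LinearMap.mulRight K D
  have hev : ∀ k : ℕ, T.HasEigenvalue (2 * k : K) := by
    intro k
    have hne : E ^ k ≠ 0 := fun h0 => hn ⟨k, h0⟩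
    exact Module.End.hasEigenvalue_of_hasEigenvector (x := E ^ k)
      ⟨Module.End.mem_eigenspace_iff.2 (Jac_com D E h k), hne⟩
  have hfin : (Set.range fun k : ℕ => (2 * k : K)).Finite :=
    (Module.End.finite_hasEigenvalue T).subset (by
      rintro _ ⟨k, rfl⟩
      exact hev k)
  have hinj : Function.Injective (fun k : ℕ => (2 * k : K)) := by
    intro a b hab
    have h2 : (2 : K) ≠ 0 := two_ne_zero
    exact_mod_cast mul_left_cancel₀ h2 hab
  exact Set.infinite_range_of_injective hinj hfin

private theorem Jac_rel {K R : Type} [Field K] [Ring R] [Algebra K R] (D E F : R)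
    (hD : E * F - F * E = D) (h : D * E - E * D = (2 : K) • E) (k : ℕ) :
    E ^ (k + 1) * F - F * E ^ (k + 1) = (k + 1 : K) • (E ^ k * D + (k : K) • E ^ k) := by
  induction k with
  | zero => simp [hD]
  | succ k ih =>
    have h1 : E ^ (k + 1 + 1) * F - F * E ^ (k + 1 + 1) =
        E * (E ^ (k + 1) * F - F * E ^ (k + 1)) + (E * F - F * E) * E ^ (k + 1) := by
      rw [pow_succ' E (k + 1)]
      noncomm_ring
    have h2 : D * E ^ (k + 1) = E ^ (k + 1) * D + (2 * (k + 1 : ℕ) : K) • E ^ (k + 1) := by
      rw [← Jac_com D E h (k + 1)]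
      abel
    rw [h1, ih, hD, h2, mul_smul_comm, mul_add, mul_smul_comm, ← mul_assoc, ← pow_succ']
    module

theorem tJac : S_Jac := by
  intro K _ _ _ I _ _ X Y h Z n hXY hhX hXZ hhZ
  let E : Module.End K (Matrix I I K) := ad X
  let F : Module.End K (Matrix I I K) := ad Y
  let D : Module.End K (Matrix I I K) := ad h
  have hD : E * F - F * E = D := by
    refine LinearMap.ext fun U => ?_
    show X * (Y * U - U * Y) - (Y * U - U * Y) * X - (Y * (X * U - U * X) - (X * U - U * X) * Y) =
      h * U - U * h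
    rw [← hXY]
    noncomm_ring
  have hE : D * E - E * D = (2 : K) • E := by
    refine LinearMap.ext fun U => ?_
    show h * (X * U - U * X) - (X * U - U * X) * h - (X * (h * U - U * h) - (h * U - U * h) * X) =
      (2 : K) • (X * U - U * X)
    rw [smul_sub, ← smul_mul_assoc, ← mul_smul_comm, ← hhX]
    noncomm_ring
  obtain ⟨N, hN⟩ := Jac_nil D E hE
  have hEZ : E Z = 0 := sub_eq_zero.2 hXZ
  have hDZ : D Z = (-((n : K) + 1)) • Z := hhZ
  have hr : ∀ k : ℕ, ∃ U, (E ^ k) U = Z := by
    intro k
    induction k with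
    | zero => exact ⟨Z, rfl⟩
    | succ k ih =>
      obtain ⟨U, hU⟩ := ih
      have h1 := congrArg (fun T : Module.End K (Matrix I I K) => T U) (Jac_rel D E F hD hE k)
      have h2 := congrArg (fun T : Module.End K (Matrix I I K) => T U) (Jac_com D E hE k)
      simp only [LinearMap.sub_apply, LinearMap.add_apply, LinearMap.smul_apply,
        Module.End.mul_apply, hU] at h1 h2
      have h3 : (E ^ (k + 1)) U = 0 := by
        rw [pow_succ', Module.End.mul_apply, hU, hEZ]
      rw [h3, map_zero, sub_zero] at h1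
      rw [hDZ] at h2
      have h4 : (E ^ k) (D U) = (-((n : K) + 1 + 2 * k)) • Z := by
        have h5 : (E ^ k) (D U) = (-((n : K) + 1)) • Z - (2 * (k : K)) • Z := by
          rw [← h2]
          abel
        rw [h5]
        module
      rw [h4] at h1
      have h6 : (E ^ (k + 1)) (F U) = (-(((k + 1 : ℕ) : K) * ((n + 1 + k : ℕ) : K))) • Z := by
        rw [h1]
        push_cast
        module
      have h7 : (-(((k + 1 : ℕ) : K) * ((n + 1 + k : ℕ) : K))) ≠ 0 := by
        refine neg_ne_zero.2 (mul_ne_zero ?_ ?_)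
        · exact Nat.cast_ne_zero.2 (by omega)
        · exact Nat.cast_ne_zero.2 (by omega)
      refine ⟨(-(((k + 1 : ℕ) : K) * ((n + 1 + k : ℕ) : K)))⁻¹ • F U, ?_⟩
      rw [map_smul, h6, smul_smul, inv_mul_cancel₀ h7, one_smul]
  obtain ⟨U, hU⟩ := hr N
  rw [← hU, hN, LinearMap.zero_apply]

end Pool.Agent.Lib.MP_640417_ag.Mt
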