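import Pool.Agent.Lib.MP_640417_ag.Mt.SpecB

/-!
# MP_640417_ag, Mt, module Kap: the canonical class of codimension two on the fourth power
-/

set_option autoImplicit false

namespace Pool.Agent.Lib.MP_640417_ag.Mt

open Matrix Module TensorProduct MeasureTheory Pool.Agent.Lib.MP_640417_ag
  Pool.Agent.Lib.MP_640417_ag.Frob Pool.Agent.Lib.MP_640417_ag.Glob
  Pool.Agent.Lib.MP_640417_ag.Four Pool.Agent.Lib.MP_640417_ag.Ctl
  Pool.Agent.Lib.MP_640417_ag.Dfr Pool.Agent.Lib.MP_640417_ag.Ty Pool.Agent.Lib.MP_640417_ag.Zo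
  Pool.Agent.Lib.MP_640417_ag.Gen4

variable (l : ℕ) [Fact l.Prime] {Γ : Type} [Group Γ] [TopologicalSpace Γ]
  [IsTopologicalGroup Γ] [CompactSpace Γ]

theorem tKap : S_Kap l (Γ := Γ) := by
  intro I _ _ ρ hsemi
  have hl : ‖(l : ℚ_[l])‖ < 1 := norm_l l
  have hl0 : (l : ℚ_[l]) ≠ 0 := l_ne l
  obtain ⟨p, p1, p2, p3, p4⟩ := exists_proj (Hp ρ l) (fun X hX h0 =>
    Hp_nondeg ρ l hl hl0 hsemi X hX h0)
  have hZH : ∀ z ∈ Zm ρ, z ∈ Hp ρ l := fun z hz => Submodule.mem_sup_right hz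
  have hlie : ∀ A ∈ Hp ρ l, ∀ B ∈ Hp ρ l, A * B - B * A ∈ Hp ρ l := fun A hA B hB =>
    Hp_lie ρ l hl hl0 hA hB
  have htr : ∀ A B C : Matrix I I ℚ_[l],
      ((A * B - B * A) * C).trace = (B * (C * A - A * C)).trace := by
    intro A B C
    rw [Matrix.sub_mul, Matrix.mul_sub, Matrix.trace_sub, Matrix.trace_sub]
    congr 1
    · rw [Matrix.mul_assoc, Matrix.trace_mul_comm, Matrix.mul_assoc]
    · rw [Matrix.mul_assoc]
  have hpz : ∀ z ∈ Zm ρ, ∀ Y, z * p Y - p Y * z = p (z * Y - Y * z) := by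
    intro z hz Y
    refine sub_eq_zero.1 (Hp_nondeg ρ l hl hl0 hsemi _
      ((Hp ρ l).sub_mem (hlie z (hZH z hz) _ (p1 Y)) (p1 _)) fun W hW => ?_)
    rw [Matrix.sub_mul, Matrix.trace_sub, p3 _ W hW, htr, htr,
      p3 _ _ (hlie W hW z (hZH z hz)), sub_self]
  refine ⟨emb (tQ ρ.J p), tate_Q ρ p ⊤ ?_, fun z hz => ?_, fun X hX hX0 Y hY => ?_⟩
  · intro γ _ Y
    refine p4 (ρ.M γ) (ρ.M γ⁻¹) (M_mul_inv ρ γ) (M_inv_mul ρ γ) ?_ ?_ Y
    · intro X hX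
      exact Hp_ad ρ l γ hX
    · intro X hX
      have h := Hp_ad ρ l γ⁻¹ hX
      rwa [inv_inv] at h
  · exact der_of_comm ρ.J ρ.det p z hz.2.2 (hpz z hz)
  · have h1 := comm_of_der ρ.J ρ.det p X hX hX0 Y
    rw [p2 Y hY] at h1
    rw [h1]
    exact p1 _

end Pool.Agent.Lib.MP_640417_ag.Mt
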