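import Pool.Agent.Lib.MP_640417_ag.Mt.SpecB

/-!
# MP_640417_ag, Mt, module Kn: the Lie algebra which kills the known classes
-/

set_option autoImplicit false

namespace Pool.Agent.Lib.MP_640417_ag.Mt

open Matrix Module TensorProduct MeasureTheory Pool.Agent.Lib.MP_640417_ag
  Pool.Agent.Lib.MP_640417_ag.Frob Pool.Agent.Lib.MP_640417_ag.Glob
  Pool.Agent.Lib.MP_640417_ag.Four Pool.Agent.Lib.MP_640417_ag.Ctl
  Pool.Agent.Lib.MP_640417_ag.Dfr Pool.Agent.Lib.MP_640417_ag.Ty Pool.Agent.Lib.MP_640417_ag.Zo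
  Pool.Agent.Lib.MP_640417_ag.Gen4

section

variable {Γ : Type} [Group Γ] [TopologicalSpace Γ] {F : Type} [Field F]
  [TopologicalSpace F] {V : Type} [AddCommGroup V] [Module F V] [FiniteDimensional F V]

/-- the Lie algebra of the known classes as a subspace -/
private def Kn_S (ρ : H1Rep Γ F V) (Z : (n i : ℕ) → Submodule F (ExteriorAlgebra F (Fin n → V))) :
    Submodule F (Module.End F V) where
  carrier := LieOf ρ Z
  zero_mem' := by
    refine ⟨fun x y => ?_, fun n i x _ => ?_⟩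
    · rw [LinearMap.zero_apply, LinearMap.zero_apply, map_zero, map_zero, LinearMap.zero_apply,
        add_zero]
    · rw [kills_iff, Dv_zero, LinearMap.zero_apply]
  add_mem' := by
    rintro A B ⟨hA, hA'⟩ ⟨hB, hB'⟩
    refine ⟨fun x y => ?_, fun n i x hx => ?_⟩
    · have h1 := hA x y
      have h2 := hB x y
      rw [LinearMap.add_apply, LinearMap.add_apply, map_add, map_add, LinearMap.add_apply]
      linear_combination h1 + h2
    · have h1 := (kills_iff n A x).1 (hA' n i x hx)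
      have h2 := (kills_iff n B x).1 (hB' n i x hx)
      rw [kills_iff, Dv_add, LinearMap.add_apply, h1, h2, add_zero]
  smul_mem' := by
    rintro c A ⟨hA, hA'⟩
    refine ⟨fun x y => ?_, fun n i x hx => ?_⟩
    · have h1 := hA x y
      rw [LinearMap.smul_apply, LinearMap.smul_apply, map_smul, map_smul, LinearMap.smul_apply,
        ← smul_add, h1, smul_zero]
    · have h1 := (kills_iff n A x).1 (hA' n i x hx)
      rw [kills_iff, Dv_smul, LinearMap.smul_apply, h1, smul_zero]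

private theorem Kn_mem (ρ : H1Rep Γ F V)
    (Z : (n i : ℕ) → Submodule F (ExteriorAlgebra F (Fin n → V))) (A : Module.End F V) :
    A ∈ Kn_S ρ Z ↔ (∀ x y, ρ.form (A x) y + ρ.form x (A y) = 0) ∧
      ∀ n i, ∀ x ∈ Z n i, Dv n A x = 0 := by
  show (_ ∧ _) ↔ _
  simp only [kills_iff]

private theorem Kn_lie (ρ : H1Rep Γ F V)
    (Z : (n i : ℕ) → Submodule F (ExteriorAlgebra F (Fin n → V))) {A B : Module.End F V}
    (hA : A ∈ Kn_S ρ Z) (hB : B ∈ Kn_S ρ Z) : A * B - B * A ∈ Kn_S ρ Z := by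
  rw [Kn_mem] at hA hB ⊢
  refine ⟨fun x y => ?_, fun n i x hx => ?_⟩
  · have h1 := hA.1 (B x) y
    have h2 := hB.1 x (A y)
    have h3 := hB.1 (A x) y
    have h4 := hA.1 x (B y)
    simp only [LinearMap.sub_apply, Module.End.mul_apply, map_sub]
    linear_combination h1 - h2 - h3 + h4
  · rw [Dv_comm, LinearMap.sub_apply, Module.End.mul_apply, Module.End.mul_apply,
      hA.2 n i x hx, hB.2 n i x hx, map_zero, map_zero, sub_zero]

private theorem Kn_conj (ρ : H1Rep Γ F V)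
    (Z : (n i : ℕ) → Submodule F (ExteriorAlgebra F (Fin n → V)))
    (hZ : ∀ γ n i x, x ∈ Z n i → ExteriorAlgebra.map ((ρ.T γ).compLeft (Fin n)) x ∈ Z n i)
    {A : Module.End F V} (hA : A ∈ Kn_S ρ Z) (γ : Γ) : ρ.T γ * A * ρ.T γ⁻¹ ∈ Kn_S ρ Z := by
  rw [Kn_mem] at hA ⊢
  have hTT : ρ.T γ * ρ.T γ⁻¹ = 1 := by rw [← map_mul, mul_inv_cancel, map_one]
  have hTT' : ρ.T γ⁻¹ * ρ.T γ = 1 := by rw [← map_mul, inv_mul_cancel, map_one]
  have hT : ∀ x, ρ.T γ (ρ.T γ⁻¹ x) = x := fun x => LinearMap.congr_fun hTT x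
  refine ⟨fun x y => ?_, fun n i x hx => ?_⟩
  · have h1 := ρ.form_equivariant γ (A (ρ.T γ⁻¹ x)) (ρ.T γ⁻¹ y)
    have h2 := ρ.form_equivariant γ (ρ.T γ⁻¹ x) (A (ρ.T γ⁻¹ y))
    rw [hT] at h1 h2
    simp only [Module.End.mul_apply]
    rw [h1, h2, ← mul_add, hA.1, mul_zero]
  · have h1 : x = ExteriorAlgebra.map ((ρ.T γ).compLeft (Fin n))
        (ExteriorAlgebra.map ((ρ.T γ⁻¹).compLeft (Fin n)) x) := by
      have e1 : (ExteriorAlgebra.map ((ρ.T γ).compLeft (Fin n))).comp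
          (ExteriorAlgebra.map ((ρ.T γ⁻¹).compLeft (Fin n))) = AlgHom.id F _ := by
        rw [ExteriorAlgebra.map_comp_map]
        have e2 : (ρ.T γ).compLeft (Fin n) ∘ₗ (ρ.T γ⁻¹).compLeft (Fin n) = LinearMap.id := by
          refine LinearMap.ext fun y => funext fun a => ?_
          exact LinearMap.congr_fun hTT (y a)
        rw [e2, ExteriorAlgebra.map_id]
      exact (congrArg (fun a => a x) e1).symm
    rw [h1, ← map_Dv (ρ.T γ) A (ρ.T γ * A * ρ.T γ⁻¹) (by rw [mul_assoc, hTT', mul_one]),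
      hA.2 n i _ (hZ γ⁻¹ n i x hx), map_zero]

end

variable (l : ℕ) [Fact l.Prime] {Γ : Type} [Group Γ] [TopologicalSpace Γ]
  [IsTopologicalGroup Γ] [CompactSpace Γ]

theorem tKn (hC : S_Cd1 l (Γ := Γ)) : S_Kn l (Γ := Γ) := by
  intro V _ _ _ I _ _ ρ e R h1 h2 h3 Z hZ
  have hl : ‖(l : ℚ_[l])‖ < 1 := norm_l l
  have hl0 : (l : ℚ_[l]) ≠ 0 := l_ne l
  have hmul : ∀ A B : Module.End ℚ_[l] V, LinearMap.toMatrix e e A * LinearMap.toMatrix e e B =
      LinearMap.toMatrix e e (A * B) := fun A B => (LinearMap.toMatrix_mul e A B).symm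
  refine ⟨(Kn_S ρ Z).comap (LinearMap.toMatrix e e).symm.toLinearMap, fun X => ?_, ?_, ?_, ?_, ?_,
    ?_⟩
  · rw [Submodule.mem_comap, LinearEquiv.coe_coe, LinearEquiv.symm_apply_apply]
    exact Iff.rfl
  all_goals
    have hmem : ∀ A : Module.End ℚ_[l] V, LinearMap.toMatrix e e A ∈
        (Kn_S ρ Z).comap (LinearMap.toMatrix e e).symm.toLinearMap ↔ A ∈ Kn_S ρ Z := fun A => by
      rw [Submodule.mem_comap, LinearEquiv.coe_coe, LinearEquiv.symm_apply_apply]
  · intro X hX Y hY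
    obtain ⟨A, rfl⟩ := (LinearMap.toMatrix e e).surjective X
    obtain ⟨B, rfl⟩ := (LinearMap.toMatrix e e).surjective Y
    rw [hmem] at hX hY
    rw [hmul, hmul, ← map_sub, hmem]
    exact Kn_lie ρ Z hX hY
  · intro X hX
    obtain ⟨A, rfl⟩ := (LinearMap.toMatrix e e).surjective X
    rw [hmem] at hX
    exact (coord_skew ρ e R h3 A).2 ((Kn_mem ρ Z A).1 hX).1
  · intro γ X hX
    obtain ⟨A, rfl⟩ := (LinearMap.toMatrix e e).surjective X
    rw [hmem] at hX
    rw [h1, h1, hmul, hmul, hmem]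
    exact Kn_conj ρ Z hZ.stable hX γ
  · intro X hX
    obtain ⟨A, rfl⟩ := (LinearMap.toMatrix e e).surjective X
    rw [hmem, Kn_mem]
    refine ⟨(coord_skew ρ e R h3 A).1 hX.1, fun n i x hx => ?_⟩
    obtain ⟨y, hy, hy'⟩ := coord_dv ρ e R h1 h2 n i x (hZ.tate n i x hx)
    rw [← hy']
    exact hh_tate R l hl hl0 _ hX n i y hy
  · intro X hX b hb
    obtain ⟨A, rfl⟩ := (LinearMap.toMatrix e e).surjective X
    rw [hmem, Kn_mem] at hX
    refine hC I R _ ((coord_skew ρ e R h3 A).2 hX.1) (fun y hy => ?_) b hb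
    obtain ⟨x, hx, hx'⟩ := coord_dv' ρ e R h1 h2 2 1 y hy
    rw [← hx']
    exact hX.2 2 1 x (hZ.one 2 x hx)

end Pool.Agent.Lib.MP_640417_ag.Mt
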