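import Pool.Agent.Lib.MP_640417_ag.Mt.SpecA

/-!
# MP_640417_ag, Mt: the weights are linear
-/

set_option autoImplicit false

namespace Pool.Agent.Lib.MP_640417_ag.Mt

open Matrix Module

theorem tLin : S_Lin := by
  intro K _ _ I _ _ L H t Φ X α A h
  have inj : ∀ z ∈ Φ, ∀ a b : K, a • X z = b • X z → a = b := by
    intro z hz a b hab
    have h1 : (a - b) • X z = 0 := by rw [sub_smul, hab, sub_self]
    rcases smul_eq_zero.1 h1 with h2 | h2
    · exact sub_eq_zero.1 h2
    · exact absurd h2 (h.Xne z hz)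
  refine ⟨?_, ?_, ?_, ?_⟩
  · intro z hz P hP Q hQ
    apply inj z hz
    rw [← h.wt z hz (P + Q) (t.add_mem hP hQ), add_smul, ← h.wt z hz P hP, ← h.wt z hz Q hQ,
      Matrix.add_mul, Matrix.mul_add]
    abel
  · intro z hz c P hP
    apply inj z hz
    rw [← h.wt z hz (c • P) (t.smul_mem c hP), mul_smul, ← h.wt z hz P hP, Matrix.smul_mul,
      Matrix.mul_smul, smul_sub]
  · intro z hz P hP
    have h1 := h.wt z hz P hP
    have h2 := h.wt z⁻¹ (h.inv z hz) P hP
    have h3 : ((P * X z - X z * P) * X z⁻¹).trace + (X z * (P * X z⁻¹ - X z⁻¹ * P)).trace = 0 := by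
      rw [← Matrix.trace_add, Matrix.sub_mul, Matrix.mul_sub]
      have h4 : P * X z * X z⁻¹ - X z * P * X z⁻¹ + (X z * (P * X z⁻¹) - X z * (X z⁻¹ * P)) =
          P * (X z * X z⁻¹) - (X z * X z⁻¹) * P := by
        simp only [Matrix.mul_assoc]
        abel
      rw [h4, Matrix.trace_sub, Matrix.trace_mul_comm, sub_self]
    rw [h1, h2, Matrix.smul_mul, Matrix.mul_smul, Matrix.trace_smul, Matrix.trace_smul,
      smul_eq_mul, smul_eq_mul, ← add_mul] at h3
    rcases mul_eq_zero.1 h3 with h4 | h4
    · exact eq_neg_of_add_eq_zero_right h4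
    · exact absurd h4 (h.tr z hz)
  · intro z hz w hw hzw hne P hP
    obtain ⟨c, hc⟩ := h.br1 z hz w hw hzw
    have hc0 : c ≠ 0 := by
      rintro rfl
      rw [zero_smul] at hc
      exact hne hc
    apply inj (z * w) hzw
    have h1 := h.wt z hz P hP
    have h2 := h.wt w hw P hP
    have h3 := h.wt (z * w) hzw P hP
    have h4 : P * (X z * X w - X w * X z) - (X z * X w - X w * X z) * P =
        (α z P + α w P) • (X z * X w - X w * X z) := by
      have h5 : P * (X z * X w - X w * X z) - (X z * X w - X w * X z) * P =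
          ((P * X z - X z * P) * X w - X w * (P * X z - X z * P)) +
            (X z * (P * X w - X w * P) - (P * X w - X w * P) * X z) := by
        simp only [Matrix.mul_sub, Matrix.sub_mul, Matrix.mul_assoc]
        abel
      rw [h5, h1, h2]
      simp only [Matrix.smul_mul, Matrix.mul_smul, add_smul, smul_sub]
      abel
    rw [hc, Matrix.mul_smul, Matrix.smul_mul, ← smul_sub, h3, smul_comm (α z P + α w P) c] at h4
    have h6 : c • (α (z * w) P • X (z * w) - (α z P + α w P) • X (z * w)) = 0 := by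
      rw [smul_sub, h4, sub_self]
    rcases smul_eq_zero.1 h6 with h7 | h7
    · exact absurd h7 hc0
    · exact sub_eq_zero.1 h7

end Pool.Agent.Lib.MP_640417_ag.Mt
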