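import Pool.Agent.Lib.MP_640417_ag.Mt.SpecA

/-!
# MP_640417_ag, Mt, module Mul: eigenspaces of conjugation and of ad multiply, traces
-/

set_option autoImplicit false

namespace Pool.Agent.Lib.MP_640417_ag.Mt

open Matrix Module

section

variable {K : Type} [Field K] {I : Type} [Fintype I]

private theorem Mul_gen (N P T Q : Module.End K (Matrix I I K)) (c : K)
    (h : ∀ X Y, N (X * Y) = P X * T Y + c • (X * Q Y)) (hT : ∀ Y, T (Q Y) = Q (T Y)) (n : ℕ) :
    ∀ (p q : ℕ) (X Y : Matrix I I K), p + q ≤ n → (P ^ p) X = 0 → (Q ^ q) Y = 0 →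
      (N ^ n) (X * Y) = 0 := by
  have hTq : ∀ (q : ℕ) (Y : Matrix I I K), (Q ^ q) (T Y) = T ((Q ^ q) Y) := by
    intro q
    induction q with
    | zero => intro Y; rfl
    | succ q ih =>
      intro Y
      rw [pow_succ, Module.End.mul_apply, Module.End.mul_apply, ← hT, ih]
  induction n with
  | zero =>
    intro p q X Y hpq hX hY
    have hp : p = 0 := by omega
    subst hp
    rw [pow_zero, Module.End.one_apply] at hX
    rw [hX, Matrix.zero_mul, map_zero]
  | succ n ih =>
    intro p q X Y hpq hX hY
    rcases p with _ | p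
    · rw [pow_zero, Module.End.one_apply] at hX
      rw [hX, Matrix.zero_mul, map_zero]
    rcases q with _ | q
    · rw [pow_zero, Module.End.one_apply] at hY
      rw [hY, Matrix.mul_zero, map_zero]
    rw [pow_succ, Module.End.mul_apply, h, map_add, map_smul]
    have h1 : (N ^ n) (P X * T Y) = 0 := by
      refine ih p (q + 1) (P X) (T Y) (by omega) ?_ ?_
      · rw [pow_succ, Module.End.mul_apply] at hX
        exact hX
      · rw [hTq, hY, map_zero]
    have h2 : (N ^ n) (X * Q Y) = 0 := by
      refine ih (p + 1) q X (Q Y) (by omega) hX ?_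
      rw [pow_succ, Module.End.mul_apply] at hY
      exact hY
    rw [h1, h2, smul_zero, add_zero]

private theorem Mul_tr (N : Module.End K (Matrix I I K)) (c : K)
    (h : ∀ X, (N X).trace = c * X.trace) (hc : c ≠ 0) (p : ℕ) (X : Matrix I I K)
    (hX : (N ^ p) X = 0) : X.trace = 0 := by
  have h1 : ∀ (p : ℕ) (X : Matrix I I K), ((N ^ p) X).trace = c ^ p * X.trace := by
    intro p
    induction p with
    | zero => intro X; rw [pow_zero, Module.End.one_apply, pow_zero, one_mul]
    | succ p ih =>
      intro X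
      rw [pow_succ, Module.End.mul_apply, ih, h, pow_succ, mul_assoc]
  have h2 := h1 p X
  rw [hX, Matrix.trace_zero] at h2
  exact (mul_eq_zero.1 h2.symm).resolve_left (pow_ne_zero _ hc)

end

theorem tMul : S_Mul := by
  intro K _ I _ _
  refine ⟨fun S S' hS => ⟨?_, ?_, ?_⟩, fun A => ⟨?_, ?_⟩⟩
  · intro z w X Y hX hY
    rw [Module.End.mem_maxGenEigenspace] at hX hY ⊢
    obtain ⟨p, hp⟩ := hX
    obtain ⟨q, hq⟩ := hY
    refine ⟨p + q, Mul_gen _ _ (cj S S') _ z ?_ ?_ (p + q) p q X Y le_rfl hp hq⟩
    · intro X Y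
      simp only [LinearMap.sub_apply, LinearMap.smul_apply, Module.End.one_apply, cj_apply]
      have h1 : S * (X * Y) * S' = (S * X * S') * (S * Y * S') := by
        have : (S * X * S') * (S * Y * S') = S * X * (S' * S) * Y * S' := by
          simp only [Matrix.mul_assoc]
        rw [this, hS, Matrix.mul_one, ← Matrix.mul_assoc S X Y]
      rw [h1, Matrix.sub_mul, Matrix.mul_sub, Matrix.smul_mul, Matrix.mul_smul, smul_sub,
        smul_smul]
      abel
    · intro Y
      simp only [LinearMap.sub_apply, LinearMap.smul_apply, Module.End.one_apply, map_sub,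
        map_smul]
  · intro z X hz hX
    rw [Module.End.mem_maxGenEigenspace] at hX
    obtain ⟨p, hp⟩ := hX
    refine Mul_tr _ (1 - z) (fun X => ?_) (sub_ne_zero.2 hz.symm) p X hp
    simp only [LinearMap.sub_apply, LinearMap.smul_apply, Module.End.one_apply, cj_apply]
    rw [Matrix.trace_sub, Matrix.trace_smul, Matrix.trace_mul_comm (S * X) S', ← Matrix.mul_assoc,
      hS, Matrix.one_mul, smul_eq_mul]
    ring
  · intro X hX
    rw [Module.End.mem_maxGenEigenspace] at hX
    obtain ⟨p, hp⟩ := hX
    rw [zero_smul, sub_zero] at hp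
    have hSS : S * S' = 1 := mul_eq_one_comm.1 hS
    have hinj : Function.Injective (cj S S') := by
      intro Y Z h
      simp only [cj_apply] at h
      have h1 : ∀ W : Matrix I I K, S' * (S * W * S') * S = W := by
        intro W
        have : S' * (S * W * S') * S = (S' * S) * W * (S' * S) := by
          simp only [Matrix.mul_assoc]
        rw [this, hS, Matrix.one_mul, Matrix.mul_one]
      rw [← h1 Y, h, h1 Z]
    have hinj' : Function.Injective ((cj S S') ^ p : Module.End K (Matrix I I K)) := by
      rw [Module.End.coe_pow]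
      exact hinj.iterate p
    exact hinj' (by rw [hp, map_zero])
  · intro z w X Y hX hY
    rw [Module.End.mem_maxGenEigenspace] at hX hY ⊢
    obtain ⟨p, hp⟩ := hX
    obtain ⟨q, hq⟩ := hY
    refine ⟨p + q, Mul_gen _ _ (1 : Module.End K (Matrix I I K)) (ad A - w • 1) 1 ?_
      (fun Y => rfl) (p + q) p q X Y le_rfl hp hq⟩
    intro X Y
    simp only [LinearMap.sub_apply, LinearMap.smul_apply, Module.End.one_apply, ad_apply, one_smul]
    rw [Matrix.sub_mul, Matrix.mul_sub, Matrix.sub_mul, Matrix.mul_sub, Matrix.smul_mul,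
      Matrix.mul_smul, add_smul, Matrix.mul_assoc X A Y, Matrix.mul_assoc A X Y,
      ← Matrix.mul_assoc X Y A]
    abel
  · intro z X hz hX
    rw [Module.End.mem_maxGenEigenspace] at hX
    obtain ⟨p, hp⟩ := hX
    refine Mul_tr _ (- z) (fun X => ?_) (neg_ne_zero.2 hz) p X hp
    simp only [LinearMap.sub_apply, LinearMap.smul_apply, Module.End.one_apply, ad_apply]
    rw [Matrix.trace_sub, Matrix.trace_sub, Matrix.trace_smul, Matrix.trace_mul_comm A X, sub_self,
      smul_eq_mul]
    ring

end Pool.Agent.Lib.MP_640417_ag.Mt
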