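import Pool.Agent.Lib.MP_640417_ag.Mt.SpecA

/-!
# MP_640417_ag, Mt: the root spaces have dimension one
-/

set_option autoImplicit false

namespace Pool.Agent.Lib.MP_640417_ag.Mt

open Matrix Module

section

variable {K : Type} [Field K] {I : Type} [Fintype I] [DecidableEq I]

omit [DecidableEq I] in
private theorem One_adc {A B : Matrix I I K} (h : A * B = B * A) :
    Commute (ad A) (ad B) := by
  refine LinearMap.ext fun X => ?_
  have h1 : A * (B * X) = B * (A * X) := by rw [← mul_assoc, h, mul_assoc]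
  have h2 : X * B * A = X * A * B := by rw [mul_assoc, ← h, ← mul_assoc]
  show A * (B * X - X * B) - (B * X - X * B) * A = B * (A * X - X * A) - (A * X - X * A) * B
  rw [mul_sub, mul_sub, sub_mul, sub_mul, h1, h2, mul_assoc B X A, mul_assoc A X B]
  abel

/-- a nonzero vector with a property which is killed -/
private theorem One_nil {V : Type} [AddCommGroup V] [Module K V] (f : Module.End K V)
    (P : V → Prop) (hP : ∀ v, P v → P (f v)) (k : ℕ) : ∀ v : V, P v → v ≠ 0 → (f ^ k) v = 0 →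
      ∃ w, w ≠ 0 ∧ P w ∧ f w = 0 := by
  induction k with
  | zero => exact fun v _ h0 hk => absurd (by simpa using hk) h0
  | succ k ih =>
    intro v hv h0 hk
    by_cases h : f v = 0
    · exact ⟨v, h0, hv, h⟩
    · exact ih (f v) (hP v hv) h (by rw [pow_succ] at hk; exact hk)

omit [DecidableEq I] in
private theorem One_mem {C : Submodule K (Matrix I I K)} {ψ : Matrix I I K → K}
    {X : Matrix I I K} :
    X ∈ (⨅ H ∈ C, Module.End.maxGenEigenspace (ad H) (ψ H) : Submodule K (Matrix I I K)) ↔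
      ∀ H ∈ C, X ∈ Module.End.maxGenEigenspace (ad H) (ψ H) := by
  simp only [Submodule.mem_iInf]

/-- the weight spaces of `χ` and `-χ` are paired by the trace form -/
private theorem One_pp [IsAlgClosed K] (h1 : S_Mul) {L C : Submodule K (Matrix I I K)}
    (hL : Lie L) (hN : Nd L) (hCL : C ≤ L) (hC : Cm C) (χ : Matrix I I K → K)
    {X : Matrix I I K} (hX : X ∈ L)
    (hW : ∀ H ∈ C, X ∈ Module.End.maxGenEigenspace (ad H) (χ H)) (h0 : X ≠ 0) :
    ∃ Y ∈ L, (∀ H ∈ C, Y ∈ Module.End.maxGenEigenspace (ad H) (-χ H)) ∧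
      (X * Y).trace ≠ 0 := by
  by_contra hcon
  push Not at hcon
  refine h0 (hN X hX fun Y hY => ?_)
  have hst : ∀ H ∈ C, ∀ x ∈ L, ad H x ∈ L := fun H hH x hx => hL H (hCL hH) x hx
  have hcomm : Pairwise fun i j : C => Commute ((ad i.1).restrict (hst i.1 i.2))
      ((ad j.1).restrict (hst j.1 j.2)) := by
    intro i j _
    refine LinearMap.ext fun x => Subtype.ext ?_
    exact LinearMap.congr_fun (One_adc (hC i.1 i.2 j.1 j.2)) x.1
  have htop := Module.End.iSup_iInf_maxGenEigenspace_eq_top_of_iSup_maxGenEigenspace_eq_top_of_commute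
    (fun i : C => (ad i.1).restrict (hst i.1 i.2)) hcomm
    (fun i => Module.End.iSup_maxGenEigenspace_eq_top _)
  have hmem : (⟨Y, hY⟩ : L) ∈ ⨆ ψ : C → K, ⨅ i : C,
      Module.End.maxGenEigenspace ((ad i.1).restrict (hst i.1 i.2)) (ψ i) := by
    rw [htop]
    exact Submodule.mem_top
  refine Submodule.iSup_induction _ (motive := fun y : L => (X * y.1).trace = 0) hmem ?_ ?_ ?_
  · intro ψ y hy
    by_contra hne
    refine hne (hcon y.1 y.2 fun H hH => ?_)
    rw [Submodule.mem_iInf] at hy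
    have h3 := hy ⟨H, hH⟩
    rw [Module.End.maxGenEigenspace, Module.End.genEigenspace_restrict,
      Submodule.mem_comap] at h3
    have h3' : y.1 ∈ Module.End.maxGenEigenspace (ad H) (ψ ⟨H, hH⟩) := h3
    have h4 : χ H + ψ ⟨H, hH⟩ = 0 := by
      by_contra h5
      exact hne (((h1 K I).2 H).2 _ _ h5 (((h1 K I).2 H).1 _ _ _ _ (hW H hH) h3'))
    rwa [eq_neg_of_add_eq_zero_right h4] at h3'
  · simp
  · intro x y hx hy
    have h6 : X * (x + y).1 = X * x.1 + X * y.1 := mul_add _ _ _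
    rw [h6, Matrix.trace_add, hx, hy, add_zero]

/-- a common eigenvector -/
private theorem One_com {C N₀ : Submodule K (Matrix I I K)} (hC : Cm C)
    (χ : Matrix I I K → K) (hst : ∀ H ∈ C, ∀ x ∈ N₀, ad H x ∈ N₀)
    (hW : ∀ X ∈ N₀, ∀ H ∈ C, X ∈ Module.End.maxGenEigenspace (ad H) (χ H)) (h0 : N₀ ≠ ⊥) :
    ∃ X ∈ N₀, X ≠ 0 ∧ ∀ H ∈ C, H * X - X * H = χ H • X := by
  obtain ⟨N, ⟨hN1, hN2, hN3⟩, hmin⟩ := IsArtinian.set_has_minimal
    {N : Submodule K (Matrix I I K) | N ≤ N₀ ∧ N ≠ ⊥ ∧ ∀ H ∈ C, ∀ x ∈ N, ad H x ∈ N}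
    ⟨N₀, le_rfl, h0, hst⟩
  obtain ⟨X, hX, hX0⟩ := (Submodule.ne_bot_iff N).1 hN2
  refine ⟨X, hN1 hX, hX0, fun H hH => ?_⟩
  by_contra hne
  have hlt : N ⊓ LinearMap.ker (ad H - χ H • (1 : Module.End K (Matrix I I K))) < N := by
    refine lt_of_le_of_ne inf_le_left fun h => hne ?_
    rw [← h] at hX
    have h2 : (ad H - χ H • (1 : Module.End K (Matrix I I K))) X = 0 := hX.2
    exact sub_eq_zero.1 h2
  refine hmin _ ⟨inf_le_left.trans hN1, ?_, ?_⟩ hlt
  · rw [Submodule.ne_bot_iff]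
    obtain ⟨k, hk⟩ := (Module.End.mem_maxGenEigenspace _ _ _).1 (hW X (hN1 hX) H hH)
    obtain ⟨w, hw0, hw, hfw⟩ := One_nil (ad H - χ H • (1 : Module.End K (Matrix I I K)))
      (fun x => x ∈ N) (fun v hv => N.sub_mem (hN3 H hH v hv) (N.smul_mem _ hv)) k X hX hX0 hk
    exact ⟨w, ⟨hw, hfw⟩, hw0⟩
  · intro H' hH' x hx
    refine ⟨hN3 H' hH' x hx.1, ?_⟩
    have h2 : (ad H - χ H • (1 : Module.End K (Matrix I I K))) x = 0 := hx.2
    show (ad H - χ H • (1 : Module.End K (Matrix I I K))) (ad H' x) = 0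
    have h3 : Commute (ad H - χ H • (1 : Module.End K (Matrix I I K))) (ad H') :=
      (One_adc (hC H hH H' hH')).sub_left ((Commute.one_left _).smul_left _)
    have h4 := LinearMap.congr_fun h3 x
    rw [Module.End.mul_apply, Module.End.mul_apply, h2, map_zero] at h4
    exact h4

end

theorem tOne (h1 : S_Mul) (_h2 : S_Grd) (h3 : S_Tnl) (h4 : S_Jac) : S_One := by
  intro K _ _ _ I _ _ L hL hN a ha hC χ hχ
  obtain ⟨H₀, hH₀, hχ₀⟩ := hχ
  set C := ev (ad a) L 0 with hCdef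
  have hCL : C ≤ L := inf_le_left
  have haC : a ∈ C := by
    refine ⟨ha, (Module.End.mem_maxGenEigenspace _ _ _).2 ⟨1, ?_⟩⟩
    simp
  have hmC : ∀ X ∈ L, (∀ H ∈ C, X ∈ Module.End.maxGenEigenspace (ad H) 0) → X ∈ C :=
    fun X hX h => ⟨hX, h a haC⟩
  have hC0 : ∀ X ∈ C, ∀ H ∈ C, X ∈ Module.End.maxGenEigenspace (ad H) 0 := by
    intro X hX H hH
    refine (Module.End.mem_maxGenEigenspace _ _ _).2 ⟨1, ?_⟩
    simp [hC X hX H hH]
  by_cases hbot : (L ⊓ ⨅ H ∈ C, Module.End.maxGenEigenspace (ad H) (χ H) :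
      Submodule K (Matrix I I K)) = ⊥
  · rw [hbot, finrank_bot]
    exact Nat.zero_le _
  -- nondegenerate on `C`
  have hndC : ∀ D ∈ C, (∀ H ∈ C, (H * D).trace = 0) → D = 0 := by
    intro D hD h
    by_contra hne
    obtain ⟨Y, hY, hYW, htr⟩ := One_pp h1 hL hN hCL hC (fun _ => 0) (hCL hD)
      (fun H hH => hC0 D hD H hH) hne
    refine htr ?_
    rw [Matrix.trace_mul_comm]
    refine h Y (hmC Y hY fun H hH => ?_)
    have h5 := hYW H hH
    rwa [neg_zero] at h5
  -- a common eigenvector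
  obtain ⟨X, hX, hX0, hXe⟩ := One_com hC χ (N₀ := L ⊓ ⨅ H ∈ C,
    Module.End.maxGenEigenspace (ad H) (χ H)) (by
      intro H hH x hx
      refine ⟨hL H (hCL hH) x hx.1, One_mem.2 fun H' hH' => ?_⟩
      exact Module.End.mapsTo_maxGenEigenspace_of_comm (One_adc (hC H' hH' H hH)) _
        (One_mem.1 hx.2 H' hH')) (fun X hX H hH => One_mem.1 hX.2 H hH) hbot
  have hXW := One_mem.1 hX.2
  obtain ⟨Y, hY, hYW, htr⟩ := One_pp h1 hL hN hCL hC χ hX.1 hXW hX0
  -- commutators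
  have hbr : ∀ Z ∈ L, (∀ H ∈ C, Z ∈ Module.End.maxGenEigenspace (ad H) (-χ H)) →
      X * Z - Z * X ∈ C := by
    intro Z hZ hZW
    refine hmC _ (hL X hX.1 Z hZ) fun H hH => ?_
    have e1 := ((h1 K I).2 H).1 _ _ _ _ (hXW H hH) (hZW H hH)
    have e2 := ((h1 K I).2 H).1 _ _ _ _ (hZW H hH) (hXW H hH)
    rw [add_neg_cancel] at e1
    rw [neg_add_cancel] at e2
    exact Submodule.sub_mem _ e1 e2
  have htrH : ∀ Z : Matrix I I K, ∀ H ∈ C, (H * (X * Z - Z * X)).trace =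
      χ H * (X * Z).trace := by
    intro Z H hH
    have e1 : (H * (X * Z - Z * X)).trace = ((H * X - X * H) * Z).trace := by
      rw [mul_sub, sub_mul, Matrix.trace_sub, Matrix.trace_sub, mul_assoc H X Z,
        mul_assoc X H Z, Matrix.trace_mul_comm X (H * Z), mul_assoc H Z X]
    rw [e1, hXe H hH, Matrix.smul_mul, Matrix.trace_smul, smul_eq_mul]
  obtain ⟨T, hT⟩ : ∃ T, T = X * Y - Y * X := ⟨_, rfl⟩
  have hTC : T ∈ C := hT ▸ hbr Y hY hYW
  have hTX : T * X - X * T = χ T • X := hXe T hTC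
  have hχT : χ T ≠ 0 := by
    intro h0
    rw [h0, zero_smul, sub_eq_zero] at hTX
    have hnil := (h3 K I).2 X Y T hT hTX
    have hnil2 : IsNilpotent (H₀ * T) :=
      Commute.isNilpotent_mul_left (hC H₀ hH₀ T hTC) hnil
    have h5 : (H₀ * T).trace = 0 := (Matrix.isNilpotent_trace_of_isNilpotent hnil2).eq_zero
    rw [hT, htrH Y H₀ hH₀] at h5
    exact (mul_ne_zero hχ₀ htr) h5
  -- injectivity
  have hinj : ∀ Z ∈ L, (∀ H ∈ C, Z ∈ Module.End.maxGenEigenspace (ad H) (-χ H)) →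
      X * Z = Z * X → Z = 0 := by
    intro Z hZ hZW hXZ
    by_contra hZ0
    obtain ⟨k, hk⟩ := (Module.End.mem_maxGenEigenspace _ _ _).1 (hZW T hTC)
    obtain ⟨w, hw0, hw, hfw⟩ := One_nil (ad T - (-χ T) • (1 : Module.End K (Matrix I I K)))
      (fun x => X * x = x * X) (by
        intro v hv
        show X * (T * v - v * T - (-χ T) • v) = (T * v - v * T - (-χ T) • v) * X
        have e1 : X * T = T * X - χ T • X := by rw [← hTX]; abel
        have e2 : X * (T * v) = T * v * X - χ T • (v * X) := by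
          rw [← mul_assoc, e1, sub_mul, Matrix.smul_mul, mul_assoc, mul_assoc, hv]
        have e3 : X * (v * T) = v * T * X - χ T • (v * X) := by
          rw [← mul_assoc, hv, mul_assoc, e1, mul_sub, Matrix.mul_smul, mul_assoc]
        rw [mul_sub, mul_sub, Matrix.mul_smul, e2, e3, hv, sub_mul, sub_mul, Matrix.smul_mul]
        abel) k Z hXZ hZ0 hk
    have hfw' : T * w - w * T = -χ T • w := sub_eq_zero.1 hfw
    refine hw0 (h4 K I X ((2 / χ T) • Y) ((2 / χ T) • T) w 1 ?_ ?_ hw ?_)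
    · rw [Matrix.mul_smul, Matrix.smul_mul, ← smul_sub, hT]
    · rw [Matrix.mul_smul, Matrix.smul_mul, ← smul_sub, hTX, smul_smul,
        div_mul_cancel₀ _ hχT]
    · rw [Matrix.mul_smul, Matrix.smul_mul, ← smul_sub, hfw', smul_smul]
      congr 1
      field_simp
      norm_num
  -- dimension at most one
  have hone : ∀ Z ∈ L, (∀ H ∈ C, Z ∈ Module.End.maxGenEigenspace (ad H) (-χ H)) →
      ∃ c : K, Z = c • Y := by
    intro Z hZ hZW
    refine ⟨(X * Z).trace / (X * Y).trace, ?_⟩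
    rw [← sub_eq_zero]
    have hm : ∀ H ∈ C, Z - ((X * Z).trace / (X * Y).trace) • Y ∈
        Module.End.maxGenEigenspace (ad H) (-χ H) := fun H hH =>
      Submodule.sub_mem _ (hZW H hH) (Submodule.smul_mem _ _ (hYW H hH))
    have hmL : Z - ((X * Z).trace / (X * Y).trace) • Y ∈ L :=
      Submodule.sub_mem _ hZ (Submodule.smul_mem _ _ hY)
    refine hinj _ hmL hm (sub_eq_zero.1 ?_)
    refine hndC _ (hbr _ hmL hm) fun H hH => ?_
    rw [htrH _ H hH, mul_sub, Matrix.mul_smul, Matrix.trace_sub, Matrix.trace_smul, smul_eq_mul,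
      div_mul_cancel₀ _ htr, sub_self, mul_zero]
  refine finrank_le_one (⟨X, hX⟩ : (L ⊓ ⨅ H ∈ C, Module.End.maxGenEigenspace (ad H) (χ H) :
    Submodule K (Matrix I I K))) ?_
  rintro ⟨X', hX'⟩
  refine ⟨(X' * Y).trace / (X * Y).trace, Subtype.ext ?_⟩
  show ((X' * Y).trace / (X * Y).trace) • X = X'
  symm
  rw [← sub_eq_zero]
  by_contra hne
  obtain ⟨Y', hY', hYW', htr'⟩ := One_pp h1 hL hN hCL hC χ
    (Submodule.sub_mem _ hX'.1 (Submodule.smul_mem _ _ hX.1) :
      X' - ((X' * Y).trace / (X * Y).trace) • X ∈ L)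
    (fun H hH => Submodule.sub_mem _ (One_mem.1 hX'.2 H hH)
      (Submodule.smul_mem _ _ (hXW H hH))) hne
  obtain ⟨c, rfl⟩ := hone Y' hY' hYW'
  refine htr' ?_
  rw [Matrix.mul_smul, sub_mul, Matrix.smul_mul, Matrix.trace_smul, Matrix.trace_sub,
    Matrix.trace_smul, smul_eq_mul, smul_eq_mul, div_mul_cancel₀ _ htr, sub_self, mul_zero]

end Pool.Agent.Lib.MP_640417_ag.Mt
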