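import Pool.Agent.Lib.MP_640417_ag.Mt.SpecB

/-!
# MP_640417_ag, Mt, module Pwc: near the identity, what commutes with a power commutes with the element
-/

set_option autoImplicit false

namespace Pool.Agent.Lib.MP_640417_ag.Mt

open Filter Topology Matrix Module Pool.Agent.Lib.MP_640417_ag
  Pool.Agent.Lib.MP_640417_ag.Glob Pool.Agent.Lib.MP_640417_ag.Gen4

variable (l : ℕ) [Fact l.Prime]

private theorem Pwc_left {K : Type} [Field K] [Algebra ℚ_[l] K] {κ : Type} [Fintype κ]
    (f : Module.Dual ℚ_[l] K) (Y : Matrix κ κ ℚ_[l]) (P : Matrix κ κ K) :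
    (Y.map (algebraMap ℚ_[l] K) * P).map f = Y * P.map f := by
  ext i j
  rw [Matrix.map_apply, Matrix.mul_apply, Matrix.mul_apply, map_sum]
  refine Finset.sum_congr rfl fun k _ => ?_
  rw [Matrix.map_apply, Matrix.map_apply, ← Algebra.smul_def, map_smul, smul_eq_mul]

private theorem Pwc_right {K : Type} [Field K] [Algebra ℚ_[l] K] {κ : Type} [Fintype κ]
    (f : Module.Dual ℚ_[l] K) (Y : Matrix κ κ ℚ_[l]) (P : Matrix κ κ K) :
    (P * Y.map (algebraMap ℚ_[l] K)).map f = P.map f * Y := by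
  ext i j
  rw [Matrix.map_apply, Matrix.mul_apply, Matrix.mul_apply, map_sum]
  refine Finset.sum_congr rfl fun k _ => ?_
  rw [Matrix.map_apply, Matrix.map_apply, mul_comm, ← Algebra.smul_def, map_smul, smul_eq_mul,
    mul_comm]

private theorem Pwc_scalar {κ : Type} [Fintype κ] [DecidableEq κ] (a : Matrix κ κ ℚ_[l])
    (ha : Sm (‖(l : ℚ_[l])‖ ^ 2) (a - 1)) (N : ℕ) (hN : 0 < N) (c : Matrix κ κ ℚ_[l])
    (hc : a ^ N * c = c * a ^ N) : a * c = c * a := by
  obtain ⟨A, hA⟩ := Glob.exists_log l (norm_l l) (l_ne l) ha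
  have h1 := Glob.lim_pow l (norm_l l) (fun j => a ^ l ^ j) (fun j => j) (fun _ => N)
    tendsto_id (fun _ => hN) A hA
  have h2 : A * c = c * A := by
    have t1 := h1.mul_const c
    have t2 := h1.const_mul c
    refine tendsto_nhds_unique (t1.congr fun j => ?_) t2
    have h3 : (a ^ l ^ j) ^ N * c = c * (a ^ l ^ j) ^ N := by
      have h4 : Commute (a ^ N) c := hc
      rw [← pow_mul, mul_comm (l ^ j) N, pow_mul]
      exact h4.pow_left _
    rw [smul_mul_assoc, mul_smul_comm, sub_mul, mul_sub, one_mul, mul_one, h3]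
  exact Glob.inj_comm l (norm_l l) (l_ne l) ha hA h2

theorem tPwc : S_Pwc l := by
  intro K _ _ κ _ _ a ha N hN b hb
  have hpow : a.map (algebraMap ℚ_[l] K) ^ N = (a ^ N).map (algebraMap ℚ_[l] K) := by
    have h := map_pow (algebraMap ℚ_[l] K).mapMatrix a N
    rw [RingHom.mapMatrix_apply, RingHom.mapMatrix_apply] at h
    exact h.symm
  rw [hpow] at hb
  have key : ∀ f : Module.Dual ℚ_[l] K, (a.map (algebraMap ℚ_[l] K) * b).map f =
      (b * a.map (algebraMap ℚ_[l] K)).map f := by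
    intro f
    rw [Pwc_left, Pwc_right]
    refine Pwc_scalar l a ha N hN _ ?_
    rw [← Pwc_left, ← Pwc_right, hb]
  ext i j
  rw [← sub_eq_zero, ← Module.forall_dual_apply_eq_zero_iff ℚ_[l]]
  intro f
  rw [map_sub, sub_eq_zero]
  have h := congrFun (congrFun (key f) i) j
  rwa [Matrix.map_apply, Matrix.map_apply] at h

end Pool.Agent.Lib.MP_640417_ag.Mt
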