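import Pool.Agent.Lib.MP_640417_ag.Mt.SpecB

/-!
# MP_640417_ag, Mt, module `Rgl`: the function `fr` of the conjugation is regular
-/

set_option autoImplicit false

namespace Pool.Agent.Lib.MP_640417_ag.Mt

open Matrix Module Pool.Agent.Lib.MP_640417_ag.Glob Pool.Agent.Lib.MP_640417_ag.Zo
  Pool.Agent.Lib.MP_640417_ag.Gen4

section

variable {F : Type} [NontriviallyNormedField F] [IsUltrametricDist F] [CompleteSpace F] [CharZero F]
  {I : Type} [Fintype I] [DecidableEq I] {Γ : Type} [Group Γ] [TopologicalSpace Γ]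
  [IsTopologicalGroup Γ] (ρ : MRep Γ F I) (U : Set Γ)

private theorem Rgl_congr {f g : Γ → F} (hf : IsReg ρ U f) (h : ∀ γ, f γ = g γ) :
    IsReg ρ U g := by
  have h1 : f = g := funext h
  rw [← h1]
  exact hf

private theorem Rgl_fsum {ι : Type} (s : Finset ι) (f : ι → Γ → F)
    (h : ∀ i ∈ s, IsReg ρ U (f i)) : IsReg ρ U (fun γ => ∑ i ∈ s, f i γ) := by
  classical
  induction s using Finset.induction_on with
  | empty =>
    simp only [Finset.sum_empty]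
    exact isReg_const ρ U 0
  | insert a s ha ih =>
    refine Rgl_congr ρ U (isReg_add ρ U (h a (Finset.mem_insert_self a s))
      (ih fun i hi => h i (Finset.mem_insert_of_mem hi))) fun γ => ?_
    rw [Finset.sum_insert ha]

private theorem Rgl_mmul {α β δ : Type} [Fintype β] (A : Γ → Matrix α β F)
    (B : Γ → Matrix β δ F) (hA : ∀ i j, IsReg ρ U (fun γ => A γ i j))
    (hB : ∀ i j, IsReg ρ U (fun γ => B γ i j)) (i : α) (j : δ) :
    IsReg ρ U (fun γ => (A γ * B γ) i j) := by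
  refine Rgl_congr ρ U (Rgl_fsum ρ U Finset.univ (fun k γ => A γ i k * B γ k j)
    (fun k _ => isReg_mul ρ U (hA i k) (hB k j))) (fun γ => ?_)
  rw [Matrix.mul_apply]

private theorem Rgl_pow {κ : Type} [Fintype κ] [DecidableEq κ] (B : Γ → Matrix κ κ F)
    (hB : ∀ i j, IsReg ρ U (fun γ => B γ i j)) (n : ℕ) :
    ∀ i j, IsReg ρ U (fun γ => (B γ ^ n) i j) := by
  induction n with
  | zero =>
    intro i j
    simp only [pow_zero]
    exact isReg_const ρ U _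
  | succ n ih =>
    intro i j
    simp only [pow_succ]
    exact Rgl_mmul ρ U (fun γ => B γ ^ n) B ih hB i j

private theorem Rgl_fr {κ : Type} [Fintype κ] [DecidableEq κ] (B : Γ → Matrix κ κ F)
    (hB : ∀ i j, IsReg ρ U (fun γ => B γ i j)) (r : ℕ) :
    IsReg ρ U (fun γ => fr r (B γ)) := by
  unfold fr
  refine isReg_coeff ρ U
    (fun γ => B γ * Polynomial.aeval (B γ) (Polynomial.derivative (B γ).charpoly)) ?_ r
  refine Rgl_mmul ρ U B
    (fun γ => Polynomial.aeval (B γ) (Polynomial.derivative (B γ).charpoly)) hB ?_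
  intro i j
  refine Rgl_congr ρ U (f := fun γ => ∑ k ∈ Finset.range (Fintype.card κ + 1),
    (((B γ).charpoly.coeff (k + 1)) * ((k : F) + 1)) * (B γ ^ k) i j)
    (Rgl_fsum ρ U _ _ fun k _ => isReg_mul ρ U (isReg_mul ρ U (isReg_coeff ρ U B hB (k + 1))
      (isReg_const ρ U _)) (Rgl_pow ρ U B hB k i j)) fun γ => ?_
  have h1 : (Polynomial.derivative (B γ).charpoly).natDegree < Fintype.card κ + 1 := by
    refine lt_of_le_of_lt (Polynomial.natDegree_derivative_le _) ?_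
    rw [Matrix.charpoly_natDegree_eq_dim]
    omega
  rw [Polynomial.aeval_eq_sum_range' h1, Matrix.sum_apply]
  refine Finset.sum_congr rfl fun k _ => ?_
  rw [Matrix.smul_apply, smul_eq_mul, Polynomial.coeff_derivative]

end

variable (l : ℕ) [Fact l.Prime] {Γ : Type} [Group Γ] [TopologicalSpace Γ] [IsTopologicalGroup Γ]
  [CompactSpace Γ]

theorem tRgl : S_Rgl l (Γ := Γ) := by
  intro I _ _ _ ρ U hU hUi r p
  have hE := isReg_entry ρ U l (norm_l l) hU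
  have hi := isReg_mu_inv ρ U l (norm_l l) hU hUi
  have hM' : ∀ i j, IsReg ρ U (fun γ => ρ.M γ⁻¹ i j) := by
    intro i j
    have h1 := isReg_mul ρ U hi (Rgl_mmul ρ U (fun γ => ρ.J⁻¹ * (ρ.M γ)ᵀ) (fun _ => ρ.J)
      (Rgl_mmul ρ U (fun _ => ρ.J⁻¹) (fun γ => (ρ.M γ)ᵀ) (fun a b => isReg_const ρ U _)
        (fun a b => hE b a)) (fun a b => isReg_const ρ U _) i j)
    refine Rgl_congr ρ U h1 fun γ => ?_
    have h2 : (ρ.μ γ : ℚ_[l])⁻¹ • (ρ.J⁻¹ * (ρ.M γ)ᵀ * ρ.J) = ρ.M γ⁻¹ := by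
      have h3 : ρ.M γ * ρ.M γ⁻¹ = 1 := M_mul_inv ρ γ
      calc (ρ.μ γ : ℚ_[l])⁻¹ • (ρ.J⁻¹ * (ρ.M γ)ᵀ * ρ.J)
          = (ρ.μ γ : ℚ_[l])⁻¹ • (ρ.J⁻¹ * (ρ.M γ)ᵀ * ρ.J * (ρ.M γ * ρ.M γ⁻¹)) := by
            rw [h3, Matrix.mul_one]
        _ = (ρ.μ γ : ℚ_[l])⁻¹ • (ρ.J⁻¹ * ((ρ.M γ)ᵀ * ρ.J * ρ.M γ) * ρ.M γ⁻¹) := by
            simp only [Matrix.mul_assoc]
        _ = ρ.M γ⁻¹ := by
            rw [ρ.eq γ, Matrix.mul_smul, Matrix.nonsing_inv_mul _ (isUnit_iff_ne_zero.2 ρ.det),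
              Matrix.smul_mul, Matrix.one_mul, smul_smul, inv_mul_cancel₀ (ρ.μ γ).ne_zero,
              one_smul]
    rw [← h2]
    rfl
  refine Rgl_fr ρ U (fun γ => mx ((cj (ρ.M γ) (ρ.M γ⁻¹) - 1) * p)) ?_ r
  intro x y
  have h1 := isReg_add ρ U (Rgl_mmul ρ U (fun γ => ρ.M γ * p (Matrix.single y.1 y.2 1))
    (fun γ => ρ.M γ⁻¹) (Rgl_mmul ρ U (fun γ => ρ.M γ) (fun _ => p (Matrix.single y.1 y.2 1)) hE
      (fun a b => isReg_const ρ U _)) hM' x.1 x.2)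
    (isReg_const ρ U (-(p (Matrix.single y.1 y.2 1)) x.1 x.2))
  refine Rgl_congr ρ U h1 fun γ => ?_
  have h2 : mx ((cj (ρ.M γ) (ρ.M γ⁻¹) - 1) * p) x y =
    ((cj (ρ.M γ) (ρ.M γ⁻¹) - 1) * p) (Matrix.single y.1 y.2 1) x.1 x.2 := rfl
  rw [h2, Module.End.mul_apply, LinearMap.sub_apply, Module.End.one_apply, cj_apply,
    Matrix.sub_apply, sub_eq_add_neg]

end Pool.Agent.Lib.MP_640417_ag.Mt
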