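import Pool.Agent.Lib.MP_640417_ag.Mt.SpecA

/-!
# MP_640417_ag, Mt, module Rnk: the rank of a Lie algebra of matrices
-/

set_option autoImplicit false

namespace Pool.Agent.Lib.MP_640417_ag.Mt

open Matrix Module

attribute [local instance 100] LieRing.ofAssociativeRing

section

variable {K : Type} [Field K] {I : Type} [Fintype I] [DecidableEq I]
  (L : Submodule K (Matrix I I K))

/-- `L` as a Lie subalgebra. -/
private def Rnk_S (hL : Lie L) : LieSubalgebra K (Matrix I I K) :=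
  { L with
    lie_mem' := fun {x y} hx hy => by
      rw [Ring.lie_def]
      exact hL x hx y hy }

variable {L}

private theorem Rnk_pow (hL : Lie L) (b y : Rnk_S L hL) (n : ℕ) :
    (((LieAlgebra.ad K (Rnk_S L hL) b ^ n) y : Rnk_S L hL) : Matrix I I K) =
      (ad (b : Matrix I I K) ^ n) (y : Matrix I I K) := by
  induction n with
  | zero => rfl
  | succ n ih =>
    rw [pow_succ', Module.End.mul_apply, pow_succ', Module.End.mul_apply, ← ih]
    rfl

private theorem Rnk_mem (hL : Lie L) (b y : Rnk_S L hL) :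
    y ∈ LieSubalgebra.engel K b ↔ (y : Matrix I I K) ∈ ev (ad (b : Matrix I I K)) L 0 := by
  rw [LieSubalgebra.mem_engel_iff, ev, Submodule.mem_inf, Module.End.mem_maxGenEigenspace]
  constructor
  · rintro ⟨n, hn⟩
    refine ⟨y.2, n, ?_⟩
    rw [zero_smul, sub_zero, ← Rnk_pow, hn]
    rfl
  · rintro ⟨_, n, hn⟩
    rw [zero_smul, sub_zero, ← Rnk_pow] at hn
    exact ⟨n, Subtype.ext hn⟩

private theorem Rnk_fin (hL : Lie L) (b : Rnk_S L hL) :
    finrank K (LieSubalgebra.engel K b) = finrank K (ev (ad (b : Matrix I I K)) L 0) := by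
  have h1 : (LieSubalgebra.engel K b).toSubmodule.map (Rnk_S L hL).toSubmodule.subtype =
      ev (ad (b : Matrix I I K)) L 0 := by
    ext Y
    rw [Submodule.mem_map]
    constructor
    · rintro ⟨y, hy, rfl⟩
      exact (Rnk_mem hL b y).1 hy
    · intro hY
      exact ⟨⟨Y, hY.1⟩, (Rnk_mem hL b ⟨Y, hY.1⟩).2 hY, rfl⟩
  rw [← h1]
  exact (LinearEquiv.finrank_eq (Submodule.equivMapOfInjective _
    (Submodule.injective_subtype _) _))

/-- A nilpotent Lie algebra of matrices with nondegenerate trace form is commutative. -/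
private theorem Rnk_ab [CharZero K] {𝔏 : LieSubalgebra K (Matrix I I K)}
    (E : LieSubalgebra K 𝔏) (hE : LieRing.IsNilpotent E)
    (hnd : ∀ x : E, (∀ y : E, (((x : 𝔏) : Matrix I I K) * ((y : 𝔏) : Matrix I I K)).trace = 0) →
      x = 0) (x y : E) :
    ((x : 𝔏) : Matrix I I K) * ((y : 𝔏) : Matrix I I K) =
      ((y : 𝔏) : Matrix I I K) * ((x : 𝔏) : Matrix I I K) := by
  let φ : E →ₗ⁅K⁆ Module.End K (I → K) :=
    ((lieEquivMatrix' (R := K) (n := I)).symm : Matrix I I K →ₗ⁅K⁆ Module.End K (I → K)).comp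
      (𝔏.incl.comp E.incl)
  let _ : LieRingModule E (I → K) := LieRingModule.compLieHom (I → K) φ
  have _ : LieModule K E (I → K) := LieModule.compLieHom (I → K) φ
  have hφ : ∀ x : E, LieModule.toEnd K E (I → K) x = Matrix.toLin' ((x : 𝔏) : Matrix I I K) := by
    intro x
    rfl
  have hab : IsLieAbelian E := by
    refine LieModule.isLieAbelian_of_ker_traceForm_eq_bot K E (I → K) ?_
    rw [LinearMap.ker_eq_bot']
    intro x hx
    refine hnd x fun y => ?_
    have h1 := LinearMap.congr_fun hx y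
    rw [LieModule.traceForm_apply_apply, hφ, hφ, ← Matrix.toLin'_mul, Matrix.trace_toLin'_eq] at h1
    exact h1
  have h2 : ⁅x, y⁆ = 0 := hab.trivial x y
  have h3 := congrArg (fun z : E => ((z : 𝔏) : Matrix I I K)) h2
  exact sub_eq_zero.1 h3

end

theorem tRnk (hMul : S_Mul) (hGrd : S_Grd) : S_Rnk := by
  classical
  intro K _ _ _ I _ _ L hL hN
  have hex : ∃ r : ℕ, ∃ a ∈ L, finrank K (ev (ad a) L 0) = r := ⟨_, 0, L.zero_mem, rfl⟩
  have hmin : ∀ b ∈ L, Nat.find hex ≤ finrank K (ev (ad b) L 0) := fun b hb =>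
    Nat.find_min' hex ⟨b, hb, rfl⟩
  refine ⟨Nat.find hex, hmin, ?_, Nat.find_spec hex⟩
  intro b hb hbr
  let 𝔏 : LieSubalgebra K (Matrix I I K) := Rnk_S L hL
  let x : 𝔏 := ⟨b, hb⟩
  have hnil : LieRing.IsNilpotent (LieSubalgebra.engel K x) := by
    apply LieSubalgebra.isNilpotent_of_forall_le_engel
    intro y hy
    set Ex : {LieSubalgebra.engel K z | z ∈ LieSubalgebra.engel K x} :=
      ⟨LieSubalgebra.engel K x, x, LieSubalgebra.self_mem_engel _ _, rfl⟩
    suffices h : IsBot Ex from @h ⟨LieSubalgebra.engel K y, y, hy, rfl⟩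
    apply LieAlgebra.engel_isBot_of_isMin
      (Cardinal.natCast_le_aleph0.trans <| Cardinal.infinite_iff.mp inferInstance)
      (LieSubalgebra.engel K x) Ex le_rfl
    rintro ⟨_, y, hy, rfl⟩ hyx
    suffices h1 : finrank K (LieSubalgebra.engel K x) ≤ finrank K (LieSubalgebra.engel K y) by
      suffices h2 : LieSubalgebra.engel K y = LieSubalgebra.engel K x from h2.ge
      apply LieSubalgebra.toSubmodule_injective
      exact Submodule.eq_of_le_of_finrank_le hyx h1
    rw [Rnk_fin, Rnk_fin]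
    show finrank K (ev (ad b) L 0) ≤ _
    rw [hbr]
    exact hmin _ y.2
  have hnd : ∀ u : LieSubalgebra.engel K x, (∀ v : LieSubalgebra.engel K x,
      (((u : 𝔏) : Matrix I I K) * ((v : 𝔏) : Matrix I I K)).trace = 0) → u = 0 := by
    intro u hu
    have hu0 := (Rnk_mem hL x (u : 𝔏)).1 u.2
    have h1 : ((u : 𝔏) : Matrix I I K) = 0 := by
      refine hN _ hu0.1 fun Y hY => ?_
      have h2 : Y ∈ ⨆ z, L ⊓ (ad b).maxGenEigenspace z :=
        hGrd K (Matrix I I K) (ad b) L (fun Z hZ => hL b hb Z hZ) hY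
      refine Submodule.iSup_induction (fun z => L ⊓ (ad b).maxGenEigenspace z)
        (motive := fun Y => (((u : 𝔏) : Matrix I I K) * Y).trace = 0) h2 ?_ ?_ ?_
      · intro z Z hZ
        by_cases hz : z = 0
        · subst hz
          exact hu ⟨⟨Z, hZ.1⟩, (Rnk_mem hL x ⟨Z, hZ.1⟩).2 hZ⟩
        · have h3 := ((hMul K I).2 b).1 0 z _ Z hu0.2 hZ.2
          rw [zero_add] at h3
          exact ((hMul K I).2 b).2 z _ hz h3
      · rw [mul_zero, trace_zero]
      · intro Z Z' h3 h4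
        rw [mul_add, trace_add, h3, h4, add_zero]
    exact Subtype.ext (Subtype.ext h1)
  intro Y hY Y' hY'
  exact Rnk_ab (LieSubalgebra.engel K x) hnil hnd ⟨⟨Y, hY.1⟩, (Rnk_mem hL x ⟨Y, hY.1⟩).2 hY⟩
    ⟨⟨Y', hY'.1⟩, (Rnk_mem hL x ⟨Y', hY'.1⟩).2 hY'⟩

end Pool.Agent.Lib.MP_640417_ag.Mt
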