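import Pool.Agent.Lib.MP_640417_ag.Mt.SpecB

/-!
# MP_640417_ag, Mt/Rsd: an operator on `L` and its matrix on all matrices
-/

set_option autoImplicit false

namespace Pool.Agent.Lib.MP_640417_ag.Mt

open Matrix Module

section

variable {K : Type} [Field K] {I : Type} [Fintype I] [DecidableEq I]

/-- matrices as functions on `I × I` -/
private def Rsd_e : Matrix I I K ≃ₗ[K] (I × I → K) where
  toFun X := fun x => X x.1 x.2
  invFun f := Matrix.of fun i j => f (i, j)
  map_add' X Y := by ext x; rfl
  map_smul' c X := by ext x; rfl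
  left_inv X := by ext i j; rfl
  right_inv f := by ext x; rfl

private theorem Rsd_mx (T : Module.End K (Matrix I I K)) (X : Matrix I I K) :
    Matrix.toLin' (mx T) (Rsd_e X) = Rsd_e (T X) := by
  have h1 : X = ∑ i, ∑ j, X i j • Matrix.single i j (1 : K) := by
    conv_lhs => rw [Matrix.matrix_eq_sum_single X]
    refine Finset.sum_congr rfl fun i _ => Finset.sum_congr rfl fun j _ => ?_
    rw [Matrix.smul_single, smul_eq_mul, mul_one]
  ext x
  rw [Matrix.toLin'_apply]
  have h2 : T X = ∑ i, ∑ j, X i j • T (Matrix.single i j (1 : K)) := by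
    conv_lhs => rw [h1]
    rw [map_sum]
    refine Finset.sum_congr rfl fun i _ => ?_
    rw [map_sum]
    refine Finset.sum_congr rfl fun j _ => ?_
    rw [map_smul]
  have h3 : Rsd_e (T X) x = (T X) x.1 x.2 := rfl
  rw [h3, h2, Matrix.sum_apply]
  simp only [Matrix.sum_apply, Matrix.smul_apply, smul_eq_mul]
  rw [Matrix.mulVec, dotProduct, Fintype.sum_prod_type]
  refine Finset.sum_congr rfl fun i _ => Finset.sum_congr rfl fun j _ => ?_
  have h4 : mx T x (i, j) = T (Matrix.single i j 1) x.1 x.2 := rfl
  have h5 : Rsd_e X (i, j) = X i j := rfl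
  rw [h4, h5, mul_comm]

private theorem Rsd_pow (T : Module.End K (Matrix I I K)) (z : K) (n : ℕ) (X : Matrix I I K) :
    ((Matrix.toLin' (mx T) - z • (1 : Module.End K (I × I → K))) ^ n) (Rsd_e X) =
      Rsd_e (((T - z • (1 : Module.End K (Matrix I I K))) ^ n) X) := by
  induction n generalizing X with
  | zero => simp
  | succ n ih =>
    rw [pow_succ, pow_succ, Module.End.mul_apply, Module.End.mul_apply]
    have h : (Matrix.toLin' (mx T) - z • (1 : Module.End K (I × I → K))) (Rsd_e X) =
        Rsd_e ((T - z • (1 : Module.End K (Matrix I I K))) X) := by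
      rw [LinearMap.sub_apply, LinearMap.sub_apply, Rsd_mx, map_sub, LinearMap.smul_apply,
        LinearMap.smul_apply, Module.End.one_apply, Module.End.one_apply, map_smul]
    rw [h, ih]

private theorem Rsd_rank (T : Module.End K (Matrix I I K)) (z : K) :
    finrank K (Module.End.maxGenEigenspace (Matrix.toLin' (mx T)) z) =
      finrank K (Module.End.maxGenEigenspace T z) := by
  have h : Module.End.maxGenEigenspace (Matrix.toLin' (mx T)) z =
      (Module.End.maxGenEigenspace T z).map (Rsd_e (K := K) (I := I)).toLinearMap := by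
    ext f
    rw [Submodule.mem_map, Module.End.mem_maxGenEigenspace]
    constructor
    · rintro ⟨n, hn⟩
      refine ⟨Rsd_e.symm f, ?_, by simp⟩
      rw [Module.End.mem_maxGenEigenspace]
      refine ⟨n, ?_⟩
      apply (Rsd_e (K := K) (I := I)).injective
      rw [← Rsd_pow, LinearEquiv.apply_symm_apply, hn, map_zero]
    · rintro ⟨X, hX, rfl⟩
      rw [Module.End.mem_maxGenEigenspace] at hX
      obtain ⟨n, hn⟩ := hX
      refine ⟨n, ?_⟩
      rw [LinearEquiv.coe_coe, Rsd_pow, hn, map_zero]
  rw [h]
  exact LinearEquiv.finrank_map_eq Rsd_e _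

variable {L : Submodule K (Matrix I I K)} {p T : Module.End K (Matrix I I K)}

private theorem Rsd_L (hp : ∀ X ∈ L, p X = X) (hT : ∀ X ∈ L, T X ∈ L) (z : K) (n : ℕ)
    (Y : Matrix I I K) (hY : Y ∈ L) :
    ((T * p - z • (1 : Module.End K (Matrix I I K))) ^ n) Y =
      ((T - z • (1 : Module.End K (Matrix I I K))) ^ n) Y ∧
    ((T - z • (1 : Module.End K (Matrix I I K))) ^ n) Y ∈ L := by
  induction n generalizing Y with
  | zero => exact ⟨by simp, by simpa using hY⟩
  | succ n ih =>
    rw [pow_succ, pow_succ, Module.End.mul_apply, Module.End.mul_apply]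
    have h : (T * p - z • (1 : Module.End K (Matrix I I K))) Y =
        (T - z • (1 : Module.End K (Matrix I I K))) Y := by
      rw [LinearMap.sub_apply, LinearMap.sub_apply, Module.End.mul_apply, hp Y hY]
    have h2 : (T - z • (1 : Module.End K (Matrix I I K))) Y ∈ L := by
      rw [LinearMap.sub_apply, LinearMap.smul_apply, Module.End.one_apply]
      exact L.sub_mem (hT Y hY) (L.smul_mem _ hY)
    rw [h]
    exact ih _ h2

private theorem Rsd_k (z : K) (n : ℕ) (k : Matrix I I K) (hk : p k = 0) :
    ((T * p - z • (1 : Module.End K (Matrix I I K))) ^ n) k = (-z) ^ n • k := by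
  induction n with
  | zero => simp
  | succ n ih =>
    have h : (T * p - z • (1 : Module.End K (Matrix I I K))) k = (-z) • k := by
      rw [LinearMap.sub_apply, LinearMap.smul_apply, Module.End.one_apply, Module.End.mul_apply,
        hk, map_zero, zero_sub, neg_smul]
    rw [pow_succ, Module.End.mul_apply, h, map_smul, ih, smul_smul, pow_succ, mul_comm]

private theorem Rsd_zero (hL : ∀ Y, p Y ∈ L) (hp : ∀ X ∈ L, p X = X) (hT : ∀ X ∈ L, T X ∈ L)
    (z : K) (n : ℕ) (X : Matrix I I K) :
    ((T * p - z • (1 : Module.End K (Matrix I I K))) ^ n) X = 0 ↔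
      ((T - z • (1 : Module.End K (Matrix I I K))) ^ n) (p X) = 0 ∧
        (-z) ^ n • (X - p X) = 0 := by
  have hk : p (X - p X) = 0 := by rw [map_sub, hp _ (hL X), sub_self]
  obtain ⟨h1, h2⟩ := Rsd_L hp hT z n (p X) (hL X)
  have h3 := Rsd_k (p := p) (T := T) z n (X - p X) hk
  have h4 : ((T * p - z • (1 : Module.End K (Matrix I I K))) ^ n) X =
      ((T - z • (1 : Module.End K (Matrix I I K))) ^ n) (p X) + (-z) ^ n • (X - p X) := by
    rw [← h1, ← h3, ← map_add]
    congr 1
    abel
  rw [h4]
  constructor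
  · intro h
    have h5 : p (((T - z • (1 : Module.End K (Matrix I I K))) ^ n) (p X) +
        (-z) ^ n • (X - p X)) = 0 := by rw [h, map_zero]
    rw [map_add, map_smul, hk, smul_zero, add_zero, hp _ h2] at h5
    refine ⟨h5, ?_⟩
    rw [h5, zero_add] at h
    exact h
  · rintro ⟨h5, h6⟩
    rw [h5, h6, add_zero]

end

theorem tRsd : S_Rsd := by
  intro K _ I _ _ L p T hL hp hT
  refine ⟨fun z hz => ?_, ?_⟩
  · rw [Rsd_rank]
    have h : Module.End.maxGenEigenspace (T * p) z = ev T L z := by
      ext X
      rw [Module.End.mem_maxGenEigenspace, ev, Submodule.mem_inf, Module.End.mem_maxGenEigenspace]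
      constructor
      · rintro ⟨n, hn⟩
        obtain ⟨h1, h2⟩ := (Rsd_zero hL hp hT z n X).1 hn
        have h3 : X - p X = 0 := by
          rcases smul_eq_zero.1 h2 with h | h
          · exact absurd h (pow_ne_zero _ (neg_ne_zero.2 hz))
          · exact h
        have h4 : p X = X := (sub_eq_zero.1 h3).symm
        rw [h4] at h1
        exact ⟨h4 ▸ hL X, n, h1⟩
      · rintro ⟨h1, n, h2⟩
        refine ⟨n, (Rsd_zero hL hp hT z n X).2 ?_⟩
        rw [hp X h1, sub_self, smul_zero]
        exact ⟨h2, rfl⟩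
    rw [h]
  · rw [Rsd_rank]
    have h : Module.End.maxGenEigenspace (T * p) 0 = ev T L 0 ⊔ LinearMap.ker p := by
      ext X
      rw [Module.End.mem_maxGenEigenspace, Submodule.mem_sup]
      constructor
      · rintro ⟨n, hn⟩
        obtain ⟨h1, h2⟩ := (Rsd_zero hL hp hT 0 n X).1 hn
        refine ⟨p X, ?_, X - p X, ?_, by abel⟩
        · rw [ev, Submodule.mem_inf, Module.End.mem_maxGenEigenspace]
          exact ⟨hL X, n, h1⟩
        · rw [LinearMap.mem_ker, map_sub, hp _ (hL X), sub_self]
      · rintro ⟨Y, hY, k, hk, rfl⟩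
        rw [ev, Submodule.mem_inf, Module.End.mem_maxGenEigenspace] at hY
        obtain ⟨hY1, n, hn⟩ := hY
        rw [LinearMap.mem_ker] at hk
        refine ⟨n + 1, (Rsd_zero hL hp hT 0 (n + 1) (Y + k)).2 ?_⟩
        have h1 : p (Y + k) = Y := by rw [map_add, hk, add_zero, hp Y hY1]
        rw [h1, neg_zero, zero_pow (Nat.succ_ne_zero n)]
        refine ⟨?_, zero_smul _ _⟩
        rw [pow_succ', Module.End.mul_apply, hn, map_zero]
    have hd : Disjoint (ev T L 0) (LinearMap.ker p) := by
      rw [Submodule.disjoint_def]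
      intro X hX hk
      rw [ev, Submodule.mem_inf] at hX
      rw [LinearMap.mem_ker] at hk
      rw [← hp X hX.1, hk]
    have hr : LinearMap.range p = L := by
      ext X
      rw [LinearMap.mem_range]
      exact ⟨fun ⟨Y, hY⟩ => hY ▸ hL Y, fun hX => ⟨X, hp X hX⟩⟩
    have h1 := Submodule.finrank_sup_add_finrank_inf_eq (ev T L 0) (LinearMap.ker p)
    rw [disjoint_iff.1 hd, finrank_bot, add_zero] at h1
    have h2 := LinearMap.finrank_range_add_finrank_ker p
    rw [hr] at h2
    have h3 : finrank K (Matrix I I K) = Fintype.card I * Fintype.card I := by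
      rw [Module.finrank_matrix, Module.finrank_self, mul_one]
    rw [h, h1]
    rw [h3] at h2
    omega

end Pool.Agent.Lib.MP_640417_ag.Mt
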