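import Pool.Agent.Lib.MP_640417_ag.Mt.SpecA

/-!
# MP_640417_ag, Mt: the root data
-/

set_option autoImplicit false

namespace Pool.Agent.Lib.MP_640417_ag.Mt

open Matrix Module

/-- in a space of dimension at most one every element is a multiple of a nonzero one -/
private theorem Rt_line {K V : Type} [Field K] [AddCommGroup V] [Module K V]
    [FiniteDimensional K V] (M : Submodule K V) (h : finrank K M ≤ 1) (x y : V) (hx : x ∈ M)
    (hx0 : x ≠ 0) (hy : y ∈ M) : ∃ c : K, y = c • x := by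
  obtain ⟨v, hv⟩ := finrank_le_one_iff.mp h
  obtain ⟨a, ha⟩ := hv ⟨x, hx⟩
  obtain ⟨b, hb⟩ := hv ⟨y, hy⟩
  have ha' : a • (v : V) = x := congrArg Subtype.val ha
  have hb' : b • (v : V) = y := congrArg Subtype.val hb
  have ha0 : a ≠ 0 := by
    rintro rfl
    rw [zero_smul] at ha'
    exact hx0 ha'.symm
  exact ⟨b * a⁻¹, by rw [← ha', ← hb', smul_smul, mul_assoc, inv_mul_cancel₀ ha0, mul_one]⟩

section

variable {K I : Type} [Field K] [Fintype I] [DecidableEq I]

/-- commutators of eigenspaces -/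
private theorem Rt_comm (h1 : S_Mul) {L : Submodule K (Matrix I I K)} {S S' : Matrix I I K}
    (hs : S' * S = 1) (hL : Lie L) {z w : K} {X Y : Matrix I I K}
    (hX : X ∈ ev (cj S S') L z) (hY : Y ∈ ev (cj S S') L w) :
    X * Y - Y * X ∈ ev (cj S S') L (z * w) := by
  refine ⟨hL X hX.1 Y hY.1, ?_⟩
  have h := ((h1 K I).1 S S' hs).1
  refine Submodule.sub_mem _ (h z w X Y hX.2 hY.2) ?_
  have h2 := h w z Y X hY.2 hX.2
  rwa [mul_comm w z] at h2

/-- the trace form pairs `z` and `z⁻¹` -/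
private theorem Rt_key [IsAlgClosed K] (h1 : S_Mul) (h2 : S_Grd)
    {M : Submodule K (Matrix I I K)} {S S' : Matrix I I K}
    (hs : S' * S = 1) (hst : ∀ X ∈ M, S * X * S' ∈ M) (hN : Nd M) {z : K} {x : Matrix I I K}
    (hx : x ∈ ev (cj S S') M z) (hx0 : x ≠ 0) :
    z ≠ 0 ∧ ∃ Y ∈ ev (cj S S') M z⁻¹, (x * Y).trace ≠ 0 := by
  have hY : ∃ Y ∈ M, (x * Y).trace ≠ 0 := by
    by_contra hcon
    push Not at hcon
    exact hx0 (hN x hx.1 hcon)
  obtain ⟨Y, hYM, hYt⟩ := hY
  have hsup : Y ∈ ⨆ w, M ⊓ (cj S S').maxGenEigenspace w := h2 K (Matrix I I K) (cj S S') M hst hYM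
  have hw : ∃ w, ∃ Y' ∈ M ⊓ (cj S S').maxGenEigenspace w, (x * Y').trace ≠ 0 := by
    by_contra hcon
    push Not at hcon
    let φ : Matrix I I K →ₗ[K] K :=
      (Matrix.traceLinearMap I K K) ∘ₗ (LinearMap.mulLeft K x)
    have hle : (⨆ w, M ⊓ (cj S S').maxGenEigenspace w) ≤ LinearMap.ker φ := by
      refine iSup_le fun w y hy => ?_
      exact hcon w y hy
    exact hYt (hle hsup)
  obtain ⟨w, Y', hY', hne⟩ := hw
  have hm := (h1 K I).1 S S' hs
  have hzw : z * w = 1 := by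
    by_contra hzw
    exact hne (hm.2.1 (z * w) _ hzw (hm.1 z w x Y' hx.2 hY'.2))
  have hz0 : z ≠ 0 := left_ne_zero_of_mul_eq_one hzw
  have hw' : w = z⁻¹ := eq_inv_of_mul_eq_one_right hzw
  subst hw'
  exact ⟨hz0, Y', hY', hne⟩

end

theorem tRt (h1 : S_Mul) (h2 : S_Grd) : S_Rt := by
  intro K _ _ _ I _ _ L H S S' A hC
  classical
  have hm := (h1 K I).1 S S' hC.s2
  set T := cj S S' with hT
  let Φ : Set K := {z | z ≠ 1 ∧ ev T L z ≠ ⊥}
  have hex : ∀ z ∈ Φ, ∃ x ∈ ev T L z, x ≠ 0 := by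
    intro z hz
    by_contra hcon
    push Not at hcon
    exact hz.2 ((Submodule.eq_bot_iff _).mpr hcon)
  let X : K → Matrix I I K := fun z => if h : z ∈ Φ then (hex z h).choose else 0
  have hXm : ∀ z ∈ Φ, X z ∈ ev T L z := by
    intro z hz
    simp only [X, dif_pos hz]
    exact (hex z hz).choose_spec.1
  have hX0 : ∀ z ∈ Φ, X z ≠ 0 := by
    intro z hz
    simp only [X, dif_pos hz]
    exact (hex z hz).choose_spec.2
  have hline : ∀ z ∈ Φ, ∀ y ∈ ev T L z, ∃ c : K, y = c • X z := fun z hz y hy =>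
    Rt_line (ev T L z) (hC.good.2 z hz.1) (X z) y (hXm z hz) (hX0 z hz) hy
  let α : K → Matrix I I K → K := fun z P =>
    if h : ∃ c : K, P * X z - X z * P = c • X z then h.choose else 0
  have hα : ∀ z ∈ Φ, ∀ P ∈ ev T L 1, P * X z - X z * P = α z P • X z := by
    intro z hz P hP
    have hc : ∃ c : K, P * X z - X z * P = c • X z := by
      have h := Rt_comm h1 hC.s2 hC.Ll hP (hXm z hz)
      rw [one_mul] at h
      exact hline z hz _ h
    simp only [α, dif_pos hc]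
    exact hc.choose_spec
  have hbot : ∀ z, z ≠ 1 → z ∉ Φ → ∀ y ∈ ev T L z, y = 0 := by
    intro z hz1 hz y hy
    have : ev T L z = ⊥ := by
      by_contra hcon
      exact hz ⟨hz1, hcon⟩
    rw [this] at hy
    exact (Submodule.mem_bot K).mp hy
  have hzero : (0 : K) ∉ Φ := by
    intro h0
    exact hX0 0 h0 (hm.2.2 (X 0) (hXm 0 h0).2)
  have hAt : A ∈ ev T L 1 := by
    refine ⟨hC.le hC.AH, ?_⟩
    have hTA : T A = A := by
      rw [hT, cj_apply, hC.AS, Matrix.mul_assoc, hC.s1, Matrix.mul_one]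
    exact (Module.End.mem_maxGenEigenspace T 1 A).mpr ⟨1, by simp [hTA]⟩
  have hinv : ∀ z ∈ Φ, z ≠ 0 ∧ z⁻¹ ∈ Φ ∧ (X z * X z⁻¹).trace ≠ 0 := by
    intro z hz
    obtain ⟨hz0, Y, hY, hne⟩ := Rt_key h1 h2 hC.s2 hC.SL hC.Ln (hXm z hz) (hX0 z hz)
    have hY0 : Y ≠ 0 := by
      rintro rfl
      exact hne (by simp)
    have hzi : z⁻¹ ∈ Φ := by
      refine ⟨fun h => hz.1 (inv_eq_one.mp h), fun h => ?_⟩
      rw [h] at hY
      exact hY0 ((Submodule.mem_bot K).mp hY)
    refine ⟨hz0, hzi, fun h => ?_⟩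
    obtain ⟨c, hc⟩ := hline _ hzi Y hY
    rw [hc, Matrix.mul_smul, Matrix.trace_smul, h, smul_zero] at hne
    exact hne rfl
  refine ⟨ev T L 1, Φ, X, α, ?_⟩
  refine
    { tL := inf_le_left
      tc := hC.good.1
      At := hAt
      AH := hC.AH
      HL := hC.le
      Hl := hC.Hl
      one := fun h => h.1 rfl
      zero := hzero
      XL := fun z hz => (hXm z hz).1
      Xne := hX0
      gen := ?_
      wt := hα
      αA := ?_
      inv := fun z hz => (hinv z hz).2.1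
      tr := fun z hz => (hinv z hz).2.2
      br := ?_
      br1 := ?_
      br2 := ?_
      Hgen := ?_
      Hinv := ?_ }
  · intro Y hY
    have hsup : Y ∈ ⨆ z, L ⊓ T.maxGenEigenspace z := h2 K (Matrix I I K) T L hC.SL hY
    refine Submodule.iSup_induction (fun z => L ⊓ T.maxGenEigenspace z)
      (motive := fun Y => ∃ T₀ ∈ ev T L 1, Y - T₀ ∈ Submodule.span K (X '' Φ)) hsup ?_ ?_ ?_
    · intro z y hy
      by_cases hz1 : z = 1
      · subst hz1
        exact ⟨y, hy, by rw [sub_self]; exact Submodule.zero_mem _⟩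
      by_cases hz : z ∈ Φ
      · obtain ⟨c, hc⟩ := hline z hz y hy
        refine ⟨0, Submodule.zero_mem _, ?_⟩
        rw [sub_zero, hc]
        exact Submodule.smul_mem _ _ (Submodule.subset_span ⟨z, hz, rfl⟩)
      · refine ⟨0, Submodule.zero_mem _, ?_⟩
        rw [hbot z hz1 hz y hy, sub_zero]
        exact Submodule.zero_mem _
    · exact ⟨0, Submodule.zero_mem _, by rw [sub_zero]; exact Submodule.zero_mem _⟩
    · rintro y y' ⟨a, ha, hy⟩ ⟨b, hb, hy'⟩
      refine ⟨a + b, Submodule.add_mem _ ha hb, ?_⟩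
      have : y + y' - (a + b) = (y - a) + (y' - b) := by abel
      rw [this]
      exact Submodule.add_mem _ hy hy'
  · intro z hz h0
    have h3 := hα z hz A hAt
    rw [h0, zero_smul] at h3
    have h4 := hC.inj (X z) (hXm z hz).1 (sub_eq_zero.mp h3)
    have hTX : T (X z) = X z := by
      rw [hT, cj_apply, h4, Matrix.mul_assoc, hC.s1, Matrix.mul_one]
    have h5 : X z ∈ T.maxGenEigenspace 1 := by
      exact (Module.End.mem_maxGenEigenspace T 1 (X z)).mpr ⟨1, by simp [hTX]⟩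
    have h6 := Module.End.disjoint_genEigenspace T (Ne.symm hz.1) ⊤ ⊤
    have h7 := Submodule.disjoint_def.mp h6 (X z) h5 (hXm z hz).2
    exact hX0 z hz h7
  · intro z hz
    have h := Rt_comm h1 hC.s2 hC.Ll (hXm z hz) (hXm _ (hinv z hz).2.1)
    rwa [mul_inv_cancel₀ (hinv z hz).1] at h
  · intro z hz w hw hzw
    exact hline _ hzw _ (Rt_comm h1 hC.s2 hC.Ll (hXm z hz) (hXm w hw))
  · intro z hz w hw hzw1 hzw
    exact sub_eq_zero.mp (hbot _ hzw1 hzw _ (Rt_comm h1 hC.s2 hC.Ll (hXm z hz) (hXm w hw)))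
  · intro Y hY
    have hsup : Y ∈ ⨆ z, H ⊓ T.maxGenEigenspace z := h2 K (Matrix I I K) T H hC.SH hY
    refine Submodule.iSup_induction (fun z => H ⊓ T.maxGenEigenspace z)
      (motive := fun Y => ∃ T₀ ∈ ev T L 1, T₀ ∈ H ∧
        Y - T₀ ∈ Submodule.span K (X '' {z | z ∈ Φ ∧ X z ∈ H})) hsup ?_ ?_ ?_
    · intro z y hy
      have hyL : y ∈ ev T L z := ⟨hC.le hy.1, hy.2⟩
      by_cases hz1 : z = 1
      · subst hz1
        exact ⟨y, hyL, hy.1, by rw [sub_self]; exact Submodule.zero_mem _⟩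
      by_cases hz : z ∈ Φ
      · obtain ⟨c, hc⟩ := hline z hz y hyL
        refine ⟨0, Submodule.zero_mem _, Submodule.zero_mem _, ?_⟩
        rw [sub_zero]
        by_cases hc0 : c = 0
        · rw [hc, hc0, zero_smul]
          exact Submodule.zero_mem _
        · have hXH : X z ∈ H := by
            have : X z = c⁻¹ • y := by rw [hc, smul_smul, inv_mul_cancel₀ hc0, one_smul]
            rw [this]
            exact Submodule.smul_mem _ _ hy.1
          rw [hc]
          exact Submodule.smul_mem _ _ (Submodule.subset_span ⟨z, ⟨hz, hXH⟩, rfl⟩)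
      · refine ⟨0, Submodule.zero_mem _, Submodule.zero_mem _, ?_⟩
        rw [hbot z hz1 hz y hyL, sub_zero]
        exact Submodule.zero_mem _
    · exact ⟨0, Submodule.zero_mem _, Submodule.zero_mem _, by
        rw [sub_zero]; exact Submodule.zero_mem _⟩
    · rintro y y' ⟨a, ha, haH, hy⟩ ⟨b, hb, hbH, hy'⟩
      refine ⟨a + b, Submodule.add_mem _ ha hb, Submodule.add_mem _ haH hbH, ?_⟩
      have : y + y' - (a + b) = (y - a) + (y' - b) := by abel
      rw [this]
      exact Submodule.add_mem _ hy hy'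
  · intro z hz hzH
    obtain ⟨hz0, Y, hY, hne⟩ := Rt_key h1 h2 hC.s2 hC.SH hC.Hn
      (z := z) (x := X z) ⟨hzH, (hXm z hz).2⟩ (hX0 z hz)
    obtain ⟨c, hc⟩ := hline _ (hinv z hz).2.1 Y ⟨hC.le hY.1, hY.2⟩
    have hc0 : c ≠ 0 := by
      rintro rfl
      rw [hc, zero_smul, Matrix.mul_zero, Matrix.trace_zero] at hne
      exact hne rfl
    have : X z⁻¹ = c⁻¹ • Y := by rw [hc, smul_smul, inv_mul_cancel₀ hc0, one_smul]
    rw [this]
    exact Submodule.smul_mem _ _ hY.1

end Pool.Agent.Lib.MP_640417_ag.Mt
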