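import Pool.Agent.Lib.MP_640417_ag.Mt.SpecA

/-!
# MP_640417_ag, Mt: the coroots do not vanish
-/

set_option autoImplicit false

namespace Pool.Agent.Lib.MP_640417_ag.Mt

open Matrix Module

private theorem Slt_trace {K I : Type} [Field K] [Fintype I] (A X Y : Matrix I I K) :
    (A * (X * Y - Y * X)).trace = ((A * X - X * A) * Y).trace := by
  have h : (A * (Y * X)).trace = (X * A * Y).trace := by
    rw [← Matrix.mul_assoc, Matrix.trace_mul_comm (A * Y) X, Matrix.mul_assoc]
  have h2 : (A * (X * Y)).trace = (A * X * Y).trace := by rw [Matrix.mul_assoc]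
  rw [Matrix.mul_sub, Matrix.sub_mul, Matrix.trace_sub, Matrix.trace_sub, h, h2]

theorem tSlt (h1 : S_Tnl) : S_Slt := by
  intro K _ _ _ I _ _ L H t Φ X α A hR z hz h0
  have hTt : bz X z ∈ t := hR.br z hz
  have hcom : bz X z * X z - X z * bz X z = 0 := by rw [hR.wt z hz _ hTt, h0, zero_smul]
  have hnil : IsNilpotent (bz X z) :=
    (h1 K I).2 (X z) (X z⁻¹) (bz X z) rfl (sub_eq_zero.mp hcom)
  have hAT : Commute A (bz X z) := hR.tc A hR.At _ hTt
  have hnil2 : IsNilpotent (A * bz X z) := by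
    obtain ⟨n, hn⟩ := hnil
    exact ⟨n, by rw [hAT.mul_pow, hn, mul_zero]⟩
  have htr : (A * bz X z).trace = 0 :=
    (Matrix.isNilpotent_trace_of_isNilpotent hnil2).eq_zero
  have h2 : (A * bz X z).trace = α z A * (X z * X z⁻¹).trace := by
    have : (A * bz X z).trace = ((A * X z - X z * A) * X z⁻¹).trace := Slt_trace A (X z) (X z⁻¹)
    rw [this, hR.wt z hz A hR.At, Matrix.smul_mul, Matrix.trace_smul, smul_eq_mul]
  rw [h2] at htr
  rcases mul_eq_zero.mp htr with h | h
  · exact hR.αA z hz h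
  · exact hR.tr z hz h

end Pool.Agent.Lib.MP_640417_ag.Mt
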