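import Pool.Agent.Lib.MP_640417_ag.Mt.SpecB
import Pool.Agent.Lib.MP_640417_ag.Glob.GenZ

/-!
# MP_640417_ag, Mt, module Spn: a polynomial identity on an additive set
-/

set_option autoImplicit false

namespace Pool.Agent.Lib.MP_640417_ag.Mt

open Matrix Module

private theorem Spn_nsmul {M : Type} [AddCommMonoid M] (Z : Set M) (h0 : (0 : M) ∈ Z)
    (hadd : ∀ A ∈ Z, ∀ B ∈ Z, A + B ∈ Z) {A : M} (hA : A ∈ Z) (k : ℕ) : k • A ∈ Z := by
  induction k with
  | zero =>
    rw [zero_smul]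
    exact h0
  | succ k ih =>
    rw [succ_nsmul]
    exact hadd _ ih _ hA

private theorem Spn_sum {M : Type} [AddCommMonoid M] (Z : Set M) (h0 : (0 : M) ∈ Z)
    (hadd : ∀ A ∈ Z, ∀ B ∈ Z, A + B ∈ Z) {ι : Type} (w : Finset ι) (A : ι → M)
    (hA : ∀ i, A i ∈ Z) (t : ι → ℕ) : (∑ i ∈ w, t i • A i) ∈ Z :=
  Finset.sum_induction _ (· ∈ Z) (fun a b ha hb => hadd a ha b hb) h0
    fun i _ => Spn_nsmul Z h0 hadd (hA i) (t i)

theorem tSpn (h1 : S_FrB) : S_Spn := by
  intro F K _ _ _ _ I κ _ _ _ _ r f Z h0 hadd hZ n A c hA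
  set M : Matrix κ κ (MvPolynomial (Fin n) F) :=
    ∑ j, (MvPolynomial.X j : MvPolynomial (Fin n) F) • (f (A j)).map MvPolynomial.C with hM
  have hmap : M.map (MvPolynomial.eval₂Hom (algebraMap F K) c) =
      ∑ i, c i • (f (A i)).map (algebraMap F K) := by
    refine Matrix.ext fun a b => ?_
    simp only [hM, Matrix.map_apply, Matrix.sum_apply, Matrix.smul_apply, smul_eq_mul, map_sum,
      map_mul, MvPolynomial.eval₂Hom_X', MvPolynomial.eval₂Hom_C]
  have hev : ∀ v : Fin n → F, M.map (MvPolynomial.eval v) = ∑ i, v i • f (A i) := by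
    intro v
    refine Matrix.ext fun a b => ?_
    simp only [hM, Matrix.map_apply, Matrix.sum_apply, Matrix.smul_apply, smul_eq_mul, map_sum,
      map_mul, MvPolynomial.eval_X, MvPolynomial.eval_C]
  have hG : fr r M = 0 := by
    by_contra hne
    obtain ⟨t, ht⟩ := Glob.exists_nat (fr r M) hne
    apply ht
    rw [← h1.1, hev, ← hZ _ (Spn_sum Z h0 hadd Finset.univ A hA t), map_sum]
    congr 1
    refine Finset.sum_congr rfl fun i _ => ?_
    rw [map_nsmul, Nat.cast_smul_eq_nsmul]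
  rw [← hmap, h1.1, hG, map_zero]

end Pool.Agent.Lib.MP_640417_ag.Mt
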