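import Pool.Agent.Lib.MP_640417_ag.Mt.SpecB

/-!
# MP_640417_ag, Mt, module Tg: `GoodFor` in coordinates
-/

set_option autoImplicit false

namespace Pool.Agent.Lib.MP_640417_ag.Mt

open Matrix Module TensorProduct MeasureTheory Pool.Agent.Lib.MP_640417_ag
  Pool.Agent.Lib.MP_640417_ag.Frob Pool.Agent.Lib.MP_640417_ag.Glob
  Pool.Agent.Lib.MP_640417_ag.Four Pool.Agent.Lib.MP_640417_ag.Ctl
  Pool.Agent.Lib.MP_640417_ag.Dfr Pool.Agent.Lib.MP_640417_ag.Ty Pool.Agent.Lib.MP_640417_ag.Zo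
  Pool.Agent.Lib.MP_640417_ag.Gen4

section

variable {K : Type} [Field K] {A B : Type} [AddCommGroup A] [Module K A] [AddCommGroup B]
  [Module K B]

/-- generalized eigenspaces and equivalences -/
private theorem Tg_mge (Φ : A ≃ₗ[K] B) (f : Module.End K A) (f' : Module.End K B)
    (h : ∀ x, Φ (f x) = f' (Φ x)) (z : K) (x : A) :
    x ∈ Module.End.maxGenEigenspace f z ↔ Φ x ∈ Module.End.maxGenEigenspace f' z := by
  have h1 : ∀ (k : ℕ) (x : A), Φ (((f - z • (1 : Module.End K A)) ^ k) x) =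
      ((f' - z • (1 : Module.End K B)) ^ k) (Φ x) := by
    intro k
    induction k with
    | zero =>
      intro x
      rw [pow_zero, pow_zero, Module.End.one_apply, Module.End.one_apply]
    | succ k ih =>
      intro x
      rw [pow_succ, pow_succ, Module.End.mul_apply, Module.End.mul_apply, ih]
      congr 1
      rw [LinearMap.sub_apply, LinearMap.sub_apply, map_sub, h, LinearMap.smul_apply,
        LinearMap.smul_apply, map_smul, Module.End.one_apply, Module.End.one_apply]
  rw [Module.End.mem_maxGenEigenspace, Module.End.mem_maxGenEigenspace]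
  refine exists_congr fun k => ?_
  rw [← h1, LinearEquiv.map_eq_zero_iff]

end

variable (l : ℕ) [Fact l.Prime] {Γ : Type} [Group Γ] [TopologicalSpace Γ]
  [IsTopologicalGroup Γ] [CompactSpace Γ]

theorem tTg : S_Tg l (Γ := Γ) := by
  intro V _ _ _ I _ _ ρ e R h1 g g' hg γ
  let K := AlgebraicClosure ℚ_[l]
  let Φ : Module.End K (K ⊗[ℚ_[l]] V) ≃ₐ[K] Matrix I I K :=
    LinearMap.toMatrixAlgEquiv (Algebra.TensorProduct.basis K e)
  have hΦ : ∀ X : Module.End ℚ_[l] V, Φ (X.baseChange K) =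
      (LinearMap.toMatrix e e X).map (algebraMap ℚ_[l] K) := fun X =>
    LinearMap.toMatrix_baseChange K X e e
  have hpart : ∀ (δ : Γ) (z : K) (A : Module.End K (K ⊗[ℚ_[l]] V)), A ∈ Part ρ g δ z ↔
      Φ A ∈ ev (cj ((R.M δ).map (algebraMap ℚ_[l] K)) ((R.M δ⁻¹).map (algebraMap ℚ_[l] K)))
        (gK K g') z := by
    intro δ z A
    unfold Part ev
    rw [Submodule.mem_inf, Submodule.mem_inf, and_comm]
    refine and_congr ?_ ?_
    · have e1 : gK K g' = Submodule.map Φ.toLinearEquiv.toLinearMap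
          (Submodule.span K ((fun X => X.baseChange K) '' g)) := by
        rw [Submodule.map_span]
        unfold gK
        congr 1
        ext Y
        constructor
        · rintro ⟨X, hX, rfl⟩
          obtain ⟨X', rfl⟩ := (LinearMap.toMatrix e e).surjective X
          exact ⟨_, ⟨X', (hg X').2 hX, rfl⟩, hΦ X'⟩
        · rintro ⟨_, ⟨X, hX, rfl⟩, rfl⟩
          exact ⟨_, (hg X).1 hX, hΦ X⟩
      rw [e1]
      constructor
      · intro h
        exact ⟨A, h, rfl⟩
      · rintro ⟨A', h, h'⟩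
        have h'' : A' = A := Φ.injective h'
        rwa [← h'']
    · refine Tg_mge Φ.toLinearEquiv (conjK ρ δ) _ (fun x => ?_) z A
      show Φ ((ρ.T δ).baseChange K * (x * (ρ.T δ⁻¹).baseChange K)) =
        (R.M δ).map (algebraMap ℚ_[l] K) * Φ x * (R.M δ⁻¹).map (algebraMap ℚ_[l] K)
      rw [map_mul, map_mul, hΦ, hΦ, h1, h1, Matrix.mul_assoc]
  unfold GoodFor GoodM GoodL
  refine forall_congr' fun N => forall_congr' fun _ => and_congr ?_ ?_
  · constructor
    · intro h X hX Y hY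
      obtain ⟨A, rfl⟩ := Φ.surjective X
      obtain ⟨B, rfl⟩ := Φ.surjective Y
      rw [← map_mul, ← map_mul, h A ((hpart _ _ A).2 hX) B ((hpart _ _ B).2 hY)]
    · intro h A hA B hB
      apply Φ.injective
      rw [map_mul, map_mul]
      exact h _ ((hpart _ _ A).1 hA) _ ((hpart _ _ B).1 hB)
  · refine forall_congr' fun z => forall_congr' fun _ => ?_
    have e2 : ev (cj ((R.M (γ ^ N)).map (algebraMap ℚ_[l] K))
        ((R.M (γ ^ N)⁻¹).map (algebraMap ℚ_[l] K))) (gK K g') z =
        Submodule.map Φ.toLinearEquiv.toLinearMap (Part ρ g (γ ^ N) z) := by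
      ext Y
      constructor
      · intro hY
        obtain ⟨A, rfl⟩ := Φ.surjective Y
        exact ⟨A, (hpart _ _ A).2 hY, rfl⟩
      · rintro ⟨A, hA, rfl⟩
        exact (hpart _ _ A).1 hA
    have e3 : finrank K (ev (cj ((R.M (γ ^ N)).map (algebraMap ℚ_[l] K))
        ((R.M (γ ^ N)⁻¹).map (algebraMap ℚ_[l] K))) (gK K g') z) =
        finrank K (Part ρ g (γ ^ N) z) := by
      rw [e2]
      exact LinearEquiv.finrank_map_eq Φ.toLinearEquiv _
    have e4 : finrank K (Part ρ g (γ ^ N) z) ≤ 1 ↔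
        finrank K (ev (cj ((R.M (γ ^ N)).map (algebraMap ℚ_[l] K))
        ((R.M (γ ^ N)⁻¹).map (algebraMap ℚ_[l] K))) (gK K g') z) ≤ 1 := by
      rw [e3]
    exact e4

end Pool.Agent.Lib.MP_640417_ag.Mt
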