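import Pool.Agent.Lib.MP_640417_ag.Mt.SpecA
import Mathlib.LinearAlgebra.Eigenspace.Pi

/-!
# MP_640417_ag, Mt, module Wtl: every root is a sum of roots of `H`
-/

set_option autoImplicit false

namespace Pool.Agent.Lib.MP_640417_ag.Mt

open Matrix Module

private theorem Wtl_shift {K : Type} [Field K] {I : Type} [Fintype I] [DecidableEq I]
    {P Y : Matrix I I K} {c m : K} (h : P * Y - Y * P = c • Y) {v : I → K}
    (hv : v ∈ Module.End.maxGenEigenspace (Matrix.toLin' P) m) :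
    Matrix.toLin' Y v ∈ Module.End.maxGenEigenspace (Matrix.toLin' P) (m + c) := by
  rw [Module.End.mem_maxGenEigenspace] at hv ⊢
  obtain ⟨k, hk⟩ := hv
  refine ⟨k, ?_⟩
  have h1 : (Matrix.toLin' P - (m + c) • (1 : Module.End K (I → K))) * Matrix.toLin' Y =
      Matrix.toLin' Y * (Matrix.toLin' P - m • (1 : Module.End K (I → K))) := by
    have h2 : Matrix.toLin' P * Matrix.toLin' Y = Matrix.toLin' Y * Matrix.toLin' P +
        c • Matrix.toLin' Y := by
      have h3 : P * Y = Y * P + c • Y := by rw [← h]; abel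
      have h4 := congrArg (Matrix.toLinAlgEquiv' (R := K) (n := I)) h3
      rw [map_mul, map_add, map_mul, map_smul] at h4
      exact h4
    rw [sub_mul, mul_sub, h2, smul_mul_assoc, one_mul, mul_smul_comm, mul_one, add_smul]
    abel
  have h5 : ∀ k : ℕ, (Matrix.toLin' P - (m + c) • (1 : Module.End K (I → K))) ^ k *
      Matrix.toLin' Y = Matrix.toLin' Y *
      (Matrix.toLin' P - m • (1 : Module.End K (I → K))) ^ k := by
    intro k
    induction k with
    | zero => rw [pow_zero, pow_zero, one_mul, mul_one]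
    | succ k ih => rw [pow_succ', mul_assoc, ih, ← mul_assoc, h1, mul_assoc, ← pow_succ']
  have h6 := LinearMap.congr_fun (h5 k) v
  rw [Module.End.mul_apply, Module.End.mul_apply, hk, map_zero] at h6
  exact h6

theorem tWtl : S_Wtl := by
  classical
  intro K _ _ _ I _ _ L H t Φ X α A hR hcom w hw
  -- the weights
  let V : (t → K) → Submodule K (I → K) := fun χ =>
    ⨅ P : t, Module.End.maxGenEigenspace (Matrix.toLin' (P : Matrix I I K)) (χ P)
  have hmaps : ∀ (P Q : t) (φ : K), Set.MapsTo (Matrix.toLin' (P : Matrix I I K))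
      (Module.End.maxGenEigenspace (Matrix.toLin' (Q : Matrix I I K)) φ)
      (Module.End.maxGenEigenspace (Matrix.toLin' (Q : Matrix I I K)) φ) := by
    intro P Q φ
    refine Module.End.mapsTo_maxGenEigenspace_of_comm ?_ φ
    show Matrix.toLin' (Q : Matrix I I K) * Matrix.toLin' (P : Matrix I I K) =
      Matrix.toLin' (P : Matrix I I K) * Matrix.toLin' (Q : Matrix I I K)
    have h4 := congrArg (Matrix.toLinAlgEquiv' (R := K) (n := I)) (hR.tc Q Q.2 P P.2)
    rw [map_mul, map_mul] at h4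
    exact h4
  have hind : iSupIndep V := Module.End.independent_iInf_maxGenEigenspace_of_forall_mapsTo
    (fun P : t => Matrix.toLin' (P : Matrix I I K)) hmaps
  have htop : ⨆ χ, V χ = ⊤ := Module.End.iSup_iInf_maxGenEigenspace_eq_top_of_forall_mapsTo
    (fun P : t => Matrix.toLin' (P : Matrix I I K)) hmaps
    (fun P => Module.End.iSup_maxGenEigenspace_eq_top _)
  have hX : ∀ z ∈ Φ, ∀ χ : t → K, ∀ v ∈ V χ,
      Matrix.toLin' (X z) v ∈ V (fun P => χ P + α z P) := by
    intro z hz χ v hv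
    rw [Submodule.mem_iInf] at hv ⊢
    intro P
    exact Wtl_shift (hR.wt z hz P P.2) (hv P)
  have hT : ∀ T ∈ t, ∀ χ : t → K, ∀ v ∈ V χ, Matrix.toLin' T v ∈ V χ := by
    intro T hT χ v hv
    rw [Submodule.mem_iInf] at hv ⊢
    intro P
    exact hmaps ⟨T, hT⟩ P (χ P) (hv P)
  -- sums of roots of H
  let Λ : Set (t → K) := {lam | ∃ (n : ℕ) (v : Fin n → K), (∀ i, v i ∈ Φ ∧ X (v i) ∈ H) ∧
    ∀ P : t, lam P = ∑ i, α (v i) P}
  have hΛ0 : (fun _ => 0 : t → K) ∈ Λ := ⟨0, Fin.elim0, fun i => i.elim0, fun P => by simp⟩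
  have hΛa : ∀ lam ∈ Λ, ∀ z ∈ Φ, X z ∈ H → (fun P => lam P + α z P) ∈ Λ := by
    rintro lam ⟨n, v, hv, hl⟩ z hz hzH
    refine ⟨n + 1, Fin.snoc v z, ?_, ?_⟩
    · intro i
      refine Fin.lastCases ?_ (fun i => ?_) i
      · rw [Fin.snoc_last]
        exact ⟨hz, hzH⟩
      · rw [Fin.snoc_castSucc]
        exact hv i
    · intro P
      rw [Fin.sum_univ_castSucc]
      simp only [Fin.snoc_castSucc, Fin.snoc_last]
      rw [hl]
  have hneg : ∀ z ∈ Φ, ∀ P ∈ t, α z⁻¹ P = - α z P := by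
    intro z hz P hP
    have h1 := hR.wt z hz P hP
    have h2 := hR.wt z⁻¹ (hR.inv z hz) P hP
    have h3 : (P * (X z * X z⁻¹) - (X z * X z⁻¹) * P).trace = 0 := by
      rw [Matrix.trace_sub, Matrix.trace_mul_comm, sub_self]
    have h4 : P * (X z * X z⁻¹) - (X z * X z⁻¹) * P =
        (P * X z - X z * P) * X z⁻¹ + X z * (P * X z⁻¹ - X z⁻¹ * P) := by noncomm_ring
    rw [h4, h1, h2, Matrix.smul_mul, Matrix.mul_smul, ← add_smul, Matrix.trace_smul,
      smul_eq_mul] at h3
    have h5 := (mul_eq_zero.mp h3).resolve_right (hR.tr z hz)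
    linear_combination h5
  -- a weight vector which `X w` does not kill
  obtain ⟨χ₀, v, hv, hv0⟩ : ∃ χ₀, ∃ v ∈ V χ₀, Matrix.toLin' (X w) v ≠ 0 := by
    by_contra hcon
    push Not at hcon
    apply hR.Xne w hw
    have h1 : (⊤ : Submodule K (I → K)) ≤ LinearMap.ker (Matrix.toLin' (X w)) := by
      rw [← htop]
      exact iSup_le fun χ v hv => hcon χ v hv
    have h2 : Matrix.toLin' (X w) = 0 := LinearMap.ker_eq_top.mp (top_le_iff.mp h1)
    exact (LinearEquiv.map_eq_zero_iff _).mp h2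
  let S : Set (t → K) := {χ | (fun P => χ P - χ₀ P) ∈ Λ}
  let W : Submodule K (I → K) := ⨆ χ ∈ S, V χ
  let W' : Submodule K (I → K) := ⨆ χ ∈ Sᶜ, V χ
  have hdis : Disjoint W W' := hind.disjoint_biSup_biSup disjoint_compl_right
  have hsup : W ⊔ W' = ⊤ := by
    rw [eq_top_iff, ← htop]
    refine iSup_le fun χ => ?_
    by_cases h : χ ∈ S
    · exact le_sup_of_le_left (le_iSup₂_of_le χ h le_rfl)
    · exact le_sup_of_le_right (le_iSup₂_of_le χ h le_rfl)
  have hcompl : IsCompl W W' := ⟨hdis, codisjoint_iff.mpr hsup⟩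
  have hadd : ∀ z ∈ Φ, X z ∈ H → ∀ χ : t → K, χ ∈ S → (fun P : t => χ P + α z P) ∈ S := by
    intro z hz hzH χ hχ
    have h1 := hΛa _ hχ z hz hzH
    show (fun P : t => χ P + α z P - χ₀ P) ∈ Λ
    convert h1 using 2
    ring
  have hadd' : ∀ z ∈ Φ, X z ∈ H → ∀ χ : t → K, χ ∉ S → (fun P : t => χ P + α z P) ∉ S := by
    intro z hz hzH χ hχ h1
    apply hχ
    have h2 := hadd z⁻¹ (hR.inv z hz) (hR.Hinv z hz hzH) _ h1
    convert h2 using 2 with P
    rw [hneg z hz P P.2]
    ring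
  have hstab : ∀ U : Set (t → K), (∀ z ∈ Φ, X z ∈ H → ∀ χ : t → K, χ ∈ U →
      (fun P : t => χ P + α z P) ∈ U) → ∀ Y ∈ H, ∀ x ∈ ⨆ χ ∈ U, V χ,
      Matrix.toLin' Y x ∈ ⨆ χ ∈ U, V χ := by
    intro U hU Y hY x hx
    obtain ⟨T, hTt, -, hYT⟩ := hR.Hgen Y hY
    have h1 : ∀ T' ∈ t, (⨆ χ ∈ U, V χ) ≤ (⨆ χ ∈ U, V χ).comap (Matrix.toLin' T') := by
      intro T' hT'
      refine iSup₂_le fun χ hχ v hv => ?_
      exact (le_iSup₂_of_le (f := fun (χ : t → K) (_ : χ ∈ U) => V χ) χ hχ le_rfl) (hT T' hT' χ v hv)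
    have h2 : ∀ Y' ∈ Submodule.span K (X '' {z | z ∈ Φ ∧ X z ∈ H}),
        (⨆ χ ∈ U, V χ) ≤ (⨆ χ ∈ U, V χ).comap (Matrix.toLin' Y') := by
      intro Y' hY'
      induction hY' using Submodule.span_induction with
      | mem Y' hY' =>
        obtain ⟨z, ⟨hz, hzH⟩, rfl⟩ := hY'
        refine iSup₂_le fun χ hχ v hv => ?_
        exact (le_iSup₂_of_le (f := fun (χ : t → K) (_ : χ ∈ U) => V χ) _ (hU z hz hzH χ hχ) le_rfl)
          (hX z hz χ v hv)
      | zero =>
        intro x _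
        rw [Submodule.mem_comap, map_zero, LinearMap.zero_apply]
        exact Submodule.zero_mem _
      | add a b _ _ ha hb =>
        intro x hx
        rw [Submodule.mem_comap, map_add, LinearMap.add_apply]
        exact Submodule.add_mem _ (ha hx) (hb hx)
      | smul c a _ ha =>
        intro x hx
        rw [Submodule.mem_comap, map_smul, LinearMap.smul_apply]
        exact Submodule.smul_mem _ _ (ha hx)
    have h3 : Matrix.toLin' Y x = Matrix.toLin' T x + Matrix.toLin' (Y - T) x := by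
      rw [map_sub, LinearMap.sub_apply]
      abel
    rw [h3]
    exact Submodule.add_mem _ (h1 T hTt hx) (h2 _ hYT hx)
  -- the projection
  let p : Module.End K (I → K) := W.projection W' hcompl
  let P : Matrix I I K := LinearMap.toMatrix' p
  have hPp : Matrix.toLin' P = p := Matrix.toLin'_toMatrix' p
  have hPcom : ∀ Y ∈ H, P * Y = Y * P := by
    intro Y hY
    apply (Matrix.toLinAlgEquiv' (R := K) (n := I)).injective
    rw [map_mul, map_mul]
    refine LinearMap.ext fun x => ?_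
    show Matrix.toLin' P (Matrix.toLin' Y x) = Matrix.toLin' Y (Matrix.toLin' P x)
    rw [hPp]
    obtain ⟨a, ha, b, hb, rfl⟩ := Submodule.mem_sup.mp (hsup ▸ Submodule.mem_top : x ∈ W ⊔ W')
    have hYa : Matrix.toLin' Y a ∈ W := hstab S hadd Y hY a ha
    have hYb : Matrix.toLin' Y b ∈ W' := hstab Sᶜ hadd' Y hY b hb
    have e1 : p a = a := Submodule.projection_apply_of_mem_left hcompl ha
    have e2 : p b = 0 := Submodule.projection_apply_of_mem_right hcompl hb
    have e3 : p (Matrix.toLin' Y a) = Matrix.toLin' Y a :=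
      Submodule.projection_apply_of_mem_left hcompl hYa
    have e4 : p (Matrix.toLin' Y b) = 0 := Submodule.projection_apply_of_mem_right hcompl hYb
    rw [map_add, map_add, map_add, e1, e2, e3, e4, add_zero, add_zero]
  have hPw := hcom P hPcom (X w) (hR.XL w hw)
  have hPw' : p (Matrix.toLin' (X w) v) = Matrix.toLin' (X w) (p v) := by
    have h4 := congrArg (Matrix.toLinAlgEquiv' (R := K) (n := I)) hPw
    rw [map_mul, map_mul] at h4
    have h5 := LinearMap.congr_fun h4 v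
    have h6 : Matrix.toLin' P (Matrix.toLin' (X w) v) = Matrix.toLin' (X w) (Matrix.toLin' P v) := h5
    rwa [hPp] at h6
  have hχS : χ₀ ∈ S := by
    show (fun P : t => χ₀ P - χ₀ P) ∈ Λ
    convert hΛ0 using 2
    exact sub_self _
  have hvW : v ∈ W := (le_iSup₂_of_le (f := fun (χ : t → K) (_ : χ ∈ S) => V χ) χ₀ hχS le_rfl) hv
  have hpv : p v = v := Submodule.projection_apply_of_mem_left hcompl hvW
  rw [hpv] at hPw'
  by_cases hmem : (fun P : t => χ₀ P + α w P) ∈ S
  · obtain ⟨n, u, hu, hl⟩ : (fun P : t => χ₀ P + α w P - χ₀ P) ∈ Λ := hmem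
    refine ⟨n, u, hu, fun P hP => ?_⟩
    have h1 := hl ⟨P, hP⟩
    rw [← h1]
    ring
  · exfalso
    apply hv0
    rw [← hPw']
    refine Submodule.projection_apply_of_mem_right hcompl ?_
    exact (le_iSup₂_of_le (f := fun (χ : t → K) (_ : χ ∈ Sᶜ) => V χ) _ hmem le_rfl)
      (hX w hw χ₀ v hv)

end Pool.Agent.Lib.MP_640417_ag.Mt
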