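import Pool.Agent.Lib.MP_640417_ag.Mt.AsmF
import Pool.Agent.Lib.MP_640417_ag.Mt.Bc
import Pool.Agent.Lib.MP_640417_ag.Mt.Cd1
import Pool.Agent.Lib.MP_640417_ag.Mt.Cor
import Pool.Agent.Lib.MP_640417_ag.Mt.Ext
import Pool.Agent.Lib.MP_640417_ag.Mt.FrA
import Pool.Agent.Lib.MP_640417_ag.Mt.FrB
import Pool.Agent.Lib.MP_640417_ag.Mt.Gdp
import Pool.Agent.Lib.MP_640417_ag.Mt.Gn0
import Pool.Agent.Lib.MP_640417_ag.Mt.Gnd
import Pool.Agent.Lib.MP_640417_ag.Mt.Gnr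
import Pool.Agent.Lib.MP_640417_ag.Mt.Grd
import Pool.Agent.Lib.MP_640417_ag.Mt.Gz
import Pool.Agent.Lib.MP_640417_ag.Mt.Hlz
import Pool.Agent.Lib.MP_640417_ag.Mt.Idl
import Pool.Agent.Lib.MP_640417_ag.Mt.Ind
import Pool.Agent.Lib.MP_640417_ag.Mt.Int
import Pool.Agent.Lib.MP_640417_ag.Mt.Jac
import Pool.Agent.Lib.MP_640417_ag.Mt.Kap
import Pool.Agent.Lib.MP_640417_ag.Mt.Kn
import Pool.Agent.Lib.MP_640417_ag.Mt.Lin
import Pool.Agent.Lib.MP_640417_ag.Mt.Lmt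
import Pool.Agent.Lib.MP_640417_ag.Mt.Mul
import Pool.Agent.Lib.MP_640417_ag.Mt.One
import Pool.Agent.Lib.MP_640417_ag.Mt.Pwc
import Pool.Agent.Lib.MP_640417_ag.Mt.Rgl
import Pool.Agent.Lib.MP_640417_ag.Mt.Rnk
import Pool.Agent.Lib.MP_640417_ag.Mt.Rsd
import Pool.Agent.Lib.MP_640417_ag.Mt.Rt
import Pool.Agent.Lib.MP_640417_ag.Mt.Slt
import Pool.Agent.Lib.MP_640417_ag.Mt.Spn
import Pool.Agent.Lib.MP_640417_ag.Mt.Tg
import Pool.Agent.Lib.MP_640417_ag.Mt.Tnl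
import Pool.Agent.Lib.MP_640417_ag.Mt.Wtl

/-!
# MP_640417_ag, Mt: the theorem on the Mumford-Tate conjecture up to the center
-/

set_option autoImplicit false

namespace Pool.Agent.Lib.MP_640417_ag.Mt

open Module TensorProduct MeasureTheory Pool.Agent.Lib.MP_640417_ag
  Pool.Agent.Lib.MP_640417_ag.Frob Pool.Agent.Lib.MP_640417_ag.Glob
  Pool.Agent.Lib.MP_640417_ag.Four Pool.Agent.Lib.MP_640417_ag.Ctl
  Pool.Agent.Lib.MP_640417_ag.Dfr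

/-- **Mumford-Tate up to the center**: codimension two on the fourth power, one class, one Frobenius element. -/
theorem partA (l : ℕ) [Fact l.Prime] {Γ : Type} [Group Γ] [TopologicalSpace Γ]
    [IsTopologicalGroup Γ] [CompactSpace Γ] [MeasurableSpace Γ] [BorelSpace Γ] (ν : Measure Γ)
    [ν.IsHaarMeasure] {V : Type} [AddCommGroup V] [Module ℚ_[l] V] [FiniteDimensional ℚ_[l] V]
    (ρ : H1Rep Γ ℚ_[l] V) (hss : Semisimple ρ) :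
    ∃ κ, TateClass (fun γ => (ρ.T γ).compLeft (Fin 4)) ρ.χ 2 κ ∧
      ∀ Z : (n i : ℕ) → Submodule ℚ_[l] (ExteriorAlgebra ℚ_[l] (Fin n → V)), Known ρ Z →
        List.TFAE [∀ n i, Controls ρ (LieOf ρ Z) n i, Controls ρ (LieOf ρ Z) 4 2,
          ∀ X ∈ LieOf ρ Z, Kills 4 X κ, NearOne ν (GoodFor ρ (LieOf ρ Z)),
          ∀ D : Set Γ, Dense D → ∃ γ ∈ D, GoodFor ρ (LieOf ρ Z) γ,
          ∃ γ, GoodFor ρ (LieOf ρ Z) γ] :=
  main_of l tBc tGz (tCor (tRt tMul tGrd) (tInd tLin (tSlt tTnl) tInt tWtl)) tGn0 tRsd tFrA tFrB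
    tExt (tSpn tFrB) (tRnk tMul tGrd) (tGnr (tOne tMul tGrd tTnl tJac)) (tGdp l (tPwc l))
    (tRgl l) (tLmt l tFrB) (tGnd l) (tIdl l) (tKap l) (tHlz l) (tTg l) (tKn l (tCd1 l)) ν ρ hss

end Pool.Agent.Lib.MP_640417_ag.Mt
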