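import Pool.Agent.Lib.MP_640417_ag.Mt.SpecA

/-!
# MP_640417_ag, Mt, module Gnr: a generic element of a Cartan subalgebra
-/

set_option autoImplicit false

namespace Pool.Agent.Lib.MP_640417_ag.Mt

open Matrix Module

/-- A linear family of commuting operators: for a generic member the generalized eigenspaces are the
common generalized eigenspaces of the family. -/
theorem Gnr_generic {K : Type} [Field K] [IsAlgClosed K] {V : Type} [AddCommGroup V] [Module K V]
    [FiniteDimensional K V] {C : Type} [AddCommGroup C] [Module K C]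
    (f : C →ₗ[K] Module.End K V) (hf : ∀ x y, Commute (f x) (f y)) :
    ∃ b : C, (∀ z : K, ∃ χ : C → K, χ b = z ∧
      (f b).maxGenEigenspace z ≤ ⨅ H, (f H).maxGenEigenspace (χ H)) ∧
      (f b).maxGenEigenspace 0 ≤ ⨅ H, (f H).maxGenEigenspace 0 := by
  classical
  set W : (C → K) → Submodule K V := fun χ => ⨅ H, (f H).maxGenEigenspace (χ H) with hW
  have htop : ⨆ χ, W χ = ⊤ :=
    Module.End.iSup_iInf_maxGenEigenspace_eq_top_of_iSup_maxGenEigenspace_eq_top_of_commute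
      (fun H => f H) (fun i j _ => hf i j) (fun H => Module.End.iSup_maxGenEigenspace_eq_top (f H))
  have hind : iSupIndep W :=
    Module.End.independent_iInf_maxGenEigenspace_of_forall_mapsTo (fun H => f H)
      (fun i j φ => Module.End.mapsTo_maxGenEigenspace_of_comm (hf j i) φ)
  have hfin : {χ | W χ ≠ ⊥}.Finite := WellFoundedGT.finite_ne_bot_of_iSupIndep hind
  have hlin : ∀ χ, W χ ≠ ⊥ → ∃ g : Module.Dual K C, ∀ H, g H = χ H := by
    intro χ hχ
    refine ⟨{ toFun := χ, map_add' := ?_, map_smul' := ?_ }, fun H => rfl⟩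
    · intro x y
      exact Module.End.map_add_of_iInf_genEigenspace_ne_bot_of_commute f χ ⊤ hχ hf x y
    · intro c x
      exact Module.End.map_smul_of_iInf_genEigenspace_ne_bot f χ ⊤ hχ c x
  -- the differences
  let ι := {p : (C → K) × (C → K) // p.1 ∈ hfin.toFinset ∧ p.2 ∈ insert 0 hfin.toFinset ∧
    p.1 ≠ p.2}
  have hιfin : Finite ι := by
    refine Finite.of_injective
      (fun p : ι => (⟨p.1, Finset.mem_product.2 ⟨p.2.1, p.2.2.1⟩⟩ :
        {q // q ∈ hfin.toFinset ×ˢ insert 0 hfin.toFinset})) ?_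
    intro p q h
    exact Subtype.ext (congrArg (fun s => s.1) h)
  have hex : ∀ p : ι, ∃ g : Module.Dual K C, (∀ H, g H = p.1.1 H - p.1.2 H) := by
    intro p
    obtain ⟨g1, h1⟩ := hlin p.1.1 (by simpa using p.2.1)
    have h2' : ∃ g2 : Module.Dual K C, ∀ H, g2 H = p.1.2 H := by
      rcases Finset.mem_insert.1 p.2.2.1 with h | h
      · exact ⟨0, fun H => by rw [h]; rfl⟩
      · exact hlin p.1.2 (by simpa using h)
    obtain ⟨g2, h2⟩ := h2'
    exact ⟨g1 - g2, fun H => by rw [LinearMap.sub_apply, h1, h2]⟩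
  choose g hg using hex
  obtain ⟨b, hb⟩ := Module.Dual.exists_forall_ne_zero_of_forall_exists g (fun p => by
    obtain ⟨H, hH⟩ := Function.ne_iff.1 p.2.2.2
    exact ⟨H, by rw [hg]; exact sub_ne_zero.2 hH⟩)
  have hsep : ∀ χ ψ, W χ ≠ ⊥ → (ψ = 0 ∨ W ψ ≠ ⊥) → χ ≠ ψ → χ b ≠ ψ b := by
    intro χ ψ h1 h2 h3
    have h := hb ⟨(χ, ψ), by simpa using h1, by
      rcases h2 with h2 | h2
      · exact Finset.mem_insert.2 (Or.inl h2)
      · exact Finset.mem_insert.2 (Or.inr (by simpa using h2)), h3⟩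
    rw [hg] at h
    exact sub_ne_zero.1 h
  have hle : ∀ χ, W χ ≤ (f b).maxGenEigenspace (χ b) := fun χ => iInf_le _ b
  -- the eigenspaces of `f b`
  have key : ∀ z : K, (f b).maxGenEigenspace z ≤ ⨆ (χ : C → K) (_ : χ b = z), W χ := by
    intro z
    have h1 : (⨆ (χ : C → K) (_ : χ b = z), W χ) ≤ (f b).maxGenEigenspace z := by
      refine iSup₂_le ?_
      rintro χ rfl
      exact hle χ
    have h2 : (⨆ (χ : C → K) (_ : χ b ≠ z), W χ) ≤ ⨆ (w : K) (_ : w ≠ z),
        (f b).maxGenEigenspace w := by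
      refine iSup₂_le ?_
      intro χ hχ
      exact (hle χ).trans (le_iSup₂_of_le (χ b) hχ le_rfl)
    have h3 : (⨆ (χ : C → K) (_ : χ b = z), W χ) ⊔ (⨆ (χ : C → K) (_ : χ b ≠ z), W χ) = ⊤ := by
      rw [eq_top_iff, ← htop]
      refine iSup_le ?_
      intro χ
      by_cases h : χ b = z
      · exact le_sup_of_le_left (le_iSup₂_of_le χ h le_rfl)
      · exact le_sup_of_le_right (le_iSup₂_of_le χ h le_rfl)
    have h4 : Disjoint ((f b).maxGenEigenspace z) (⨆ (χ : C → K) (_ : χ b ≠ z), W χ) :=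
      ((f b).independent_maxGenEigenspace z).mono_right h2
    have h5 := sup_inf_assoc_of_le (⨆ (χ : C → K) (_ : χ b ≠ z), W χ) h1
    rw [h3, top_inf_eq, inf_comm, h4.eq_bot, sup_bot_eq] at h5
    exact h5.le
  have hzero : ∀ (z : K) (χ₀ : C → K), (∀ χ, χ b = z → W χ ≠ ⊥ → χ = χ₀) →
      (f b).maxGenEigenspace z ≤ W χ₀ := by
    intro z χ₀ h
    refine (key z).trans (iSup₂_le ?_)
    intro χ hχ
    by_cases h0 : W χ = ⊥
    · rw [h0]; exact bot_le
    · rw [h χ hχ h0]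
  refine ⟨b, ?_, ?_⟩
  · intro z
    by_cases h : ∃ χ, χ b = z ∧ W χ ≠ ⊥
    · obtain ⟨χ, hχ, h0⟩ := h
      refine ⟨χ, hχ, hzero z χ ?_⟩
      intro ψ hψ h1
      by_contra hne
      exact hsep ψ χ h1 (Or.inr h0) hne (hψ.trans hχ.symm)
    · refine ⟨fun _ => z, rfl, hzero z _ ?_⟩
      intro ψ hψ h1
      exact absurd ⟨ψ, hψ, h1⟩ h
  · refine hzero 0 (0 : C → K) ?_
    intro ψ hψ h1
    by_contra hne
    exact hsep ψ 0 h1 (Or.inl rfl) hne hψ

/-- S_Gnr -/
theorem tGnr (h1 : S_One) : S_Gnr := by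
  classical
  intro K _ _ _ I _ _ L hL hN a ha hC
  set C := ev (ad a) L 0 with hCdef
  have hCL : C ≤ L := inf_le_left
  have hmap : ∀ H : C, ∀ x ∈ L, ad H.1 x ∈ L := fun H x hx => hL _ (hCL H.2) _ hx
  let f : C →ₗ[K] Module.End K L :=
    { toFun := fun H => (ad H.1).restrict (hmap H)
      map_add' := fun x y => by
        refine LinearMap.ext fun v => Subtype.ext ?_
        change (x.1 + y.1) * v.1 - v.1 * (x.1 + y.1) =
          (x.1 * v.1 - v.1 * x.1) + (y.1 * v.1 - v.1 * y.1)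
        rw [add_mul, mul_add]; abel
      map_smul' := fun c x => by
        refine LinearMap.ext fun v => Subtype.ext ?_
        change (c • x.1) * v.1 - v.1 * (c • x.1) = c • (x.1 * v.1 - v.1 * x.1)
        rw [Matrix.smul_mul, Matrix.mul_smul, smul_sub] }
  have hfa : ∀ (H : C) (v : L), ((f H v : L) : Matrix I I K) = H.1 * v.1 - v.1 * H.1 :=
    fun H v => rfl
  have hcomm : ∀ x y : C, Commute (f x) (f y) := by
    intro x y
    refine LinearMap.ext fun v => Subtype.ext ?_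
    rw [Module.End.mul_apply, Module.End.mul_apply, hfa, hfa, hfa, hfa]
    have hxy : x.1 * y.1 = y.1 * x.1 := hC _ x.2 _ y.2
    have e1 : x.1 * (y.1 * v.1 - v.1 * y.1) - (y.1 * v.1 - v.1 * y.1) * x.1 =
        (x.1 * y.1) * v.1 - x.1 * v.1 * y.1 - y.1 * v.1 * x.1 + v.1 * (y.1 * x.1) := by
      noncomm_ring
    have e2 : y.1 * (x.1 * v.1 - v.1 * x.1) - (x.1 * v.1 - v.1 * x.1) * y.1 =
        (y.1 * x.1) * v.1 - x.1 * v.1 * y.1 - y.1 * v.1 * x.1 + v.1 * (x.1 * y.1) := by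
      noncomm_ring
    rw [e1, e2, hxy]
  have hres : ∀ (H : C) (z : K), ev (ad H.1) L z = ((f H).maxGenEigenspace z).map L.subtype :=
    fun H z => Submodule.inf_genEigenspace (ad H.1) L (hmap H)
  obtain ⟨b, hb1, hb2⟩ := Gnr_generic f hcomm
  refine ⟨b.1, hCL b.2, le_antisymm ?_ ?_, ?_⟩
  · -- the zero weight space
    have haC : a ∈ C := by
      refine ⟨ha, (Module.End.mem_maxGenEigenspace _ _ _).2 ⟨1, ?_⟩⟩
      rw [pow_one, zero_smul, sub_zero, ad_apply, sub_self]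
    have h3 := hres ⟨a, haC⟩ 0
    have h4 : ev (ad b.1) L 0 ≤ ev (ad (⟨a, haC⟩ : C).1) L 0 := by
      rw [hres b 0, h3]
      exact Submodule.map_mono (hb2.trans (iInf_le _ _))
    exact h4
  · intro x hx
    refine ⟨hCL hx, (Module.End.mem_maxGenEigenspace _ _ _).2 ⟨1, ?_⟩⟩
    rw [pow_one, zero_smul, sub_zero, ad_apply, hC _ b.2 _ hx, sub_self]
  · intro z hz
    obtain ⟨χ, hχ, hle⟩ := hb1 z
    have h2 := h1 K I L hL hN a ha hC (fun H => if h : H ∈ C then χ ⟨H, h⟩ else 0)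
      ⟨b.1, b.2, by rw [dif_pos b.2]; rw [show (⟨b.1, b.2⟩ : C) = b from rfl, hχ]; exact hz⟩
    refine le_trans (Submodule.finrank_mono ?_) h2
    rw [hres b z]
    rintro _ ⟨v, hv, rfl⟩
    refine ⟨v.2, ?_⟩
    rw [SetLike.mem_coe, Submodule.mem_iInf]
    intro H
    rw [Submodule.mem_iInf]
    intro hH
    have h4 : v ∈ (f ⟨H, hH⟩).maxGenEigenspace (χ ⟨H, hH⟩) := by
      have := hle hv
      rw [Submodule.mem_iInf] at this
      exact this ⟨H, hH⟩
    have h5 : L.subtype v ∈ ev (ad H) L (χ ⟨H, hH⟩) := by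
      rw [show ev (ad H) L (χ ⟨H, hH⟩) = ((f ⟨H, hH⟩).maxGenEigenspace (χ ⟨H, hH⟩)).map L.subtype
        from hres ⟨H, hH⟩ _]
      exact Submodule.mem_map_of_mem h4
    rw [dif_pos hH]
    exact h5.2

end Pool.Agent.Lib.MP_640417_ag.Mt
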