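import Pool.Agent.Lib.MP_640417_ag.Mt.FinalC

/-!
# MP_640417_ag, Mt: the statement with short definitions (for the hand-in)
-/

set_option autoImplicit false

namespace Pool.Agent.Lib.MP_640417_ag.Mt.Hand

open Module MeasureTheory Pool.Agent.Lib.MP_640417_ag Pool.Agent.Lib.MP_640417_ag.Frob
  Pool.Agent.Lib.MP_640417_ag.Four Pool.Agent.Lib.MP_640417_ag.Dfr Pool.Agent.Lib.MP_640417_ag.Wn
  Pool.Agent.Lib.MP_640417_ag.T3

section rep

variable {Γ : Type} [Group Γ] [TopologicalSpace Γ] {F : Type} [Field F]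
  [TopologicalSpace F] {V : Type} [AddCommGroup V] [Module F V]

/-- A family of spaces of classes: `Z n i` for the `n`-th power and codimension `i`. -/
abbrev Fam (F V : Type) [Field F] [AddCommGroup V] [Module F V] : Type :=
  (n i : ℕ) → Submodule F (ExteriorAlgebra F (Fin n → V))

/-- `x` is a Tate class of codimension `i` on the `n`-th power. -/
def IsTate (ρ : H1Rep Γ F V) (n i : ℕ) (x : ExteriorAlgebra F (Fin n → V)) : Prop :=
  TateClass (fun γ => (ρ.T γ).compLeft (Fin n)) ρ.χ i x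

/-- the action of `γ` on the cohomology of the `n`-th power -/
def act (ρ : H1Rep Γ F V) (n : ℕ) (γ : Γ) (x : ExteriorAlgebra F (Fin n → V)) :
    ExteriorAlgebra F (Fin n → V) :=
  ExteriorAlgebra.map ((ρ.T γ).compLeft (Fin n)) x

/-- All elements of `Z n i` are Tate classes of codimension `i` on the `n`-th power. -/
def AllTate (ρ : H1Rep Γ F V) (Z : Fam F V) : Prop :=
  ∀ n i x, x ∈ Z n i → IsTate ρ n i x

/-- All `Z n i` are stable under `Γ`. -/
def AllStable (ρ : H1Rep Γ F V) (Z : Fam F V) : Prop :=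
  ∀ γ n i x, x ∈ Z n i → act ρ n γ x ∈ Z n i

/-- `Z n 1` contains all Tate classes of codimension one on the `n`-th power. -/
def AllDivisors (ρ : H1Rep Γ F V) (Z : Fam F V) : Prop :=
  ∀ n x, IsTate ρ n 1 x → x ∈ Z n 1

/-- `Z n i` is a space of Tate classes of codimension `i` on the `n`-th power (the known ones), stable under `Γ`, and
equal to the space of all Tate classes for `i = 1`. -/
def Known (ρ : H1Rep Γ F V) (Z : Fam F V) : Prop :=
  AllTate ρ Z ∧ AllStable ρ Z ∧ AllDivisors ρ Z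

theorem known_iff (ρ : H1Rep Γ F V) (Z : Fam F V) : Known ρ Z ↔ Mt.Known ρ Z :=
  ⟨fun h => ⟨h.1, h.2.1, h.2.2⟩, fun h => ⟨h.tate, h.stable, h.one⟩⟩

end rep

end Pool.Agent.Lib.MP_640417_ag.Mt.Hand
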