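import Pool.Agent.Lib.MP_640417_ag.Mt.SpecB

/-!
# MP_640417_ag, Mt, module `Lmt`: from an open subgroup to the tangent vectors
-/

set_option autoImplicit false

namespace Pool.Agent.Lib.MP_640417_ag.Mt

open Filter Topology Matrix Module Pool.Agent.Lib.MP_640417_ag.Glob
  Pool.Agent.Lib.MP_640417_ag.Gen4

private theorem Lmt_inv {F : Type} [NontriviallyNormedField F] {I : Type} [Fintype I]
    [DecidableEq I] {Γ : Type} [Group Γ] [TopologicalSpace Γ] (ρ : MRep Γ F I) {γ : ℕ → Γ}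
    (h : Tendsto (fun k => ρ.M (γ k)) atTop (𝓝 1)) :
    Tendsto (fun k => ρ.M (γ k)⁻¹) atTop (𝓝 1) := by
  have h1 : Tendsto (fun k => (ρ.M (γ k)).det) atTop (𝓝 1) := by
    have h2 := ((continuous_id.matrix_det).tendsto (1 : Matrix I I F)).comp h
    simp only [id, Matrix.det_one] at h2
    exact h2
  have h3 : Tendsto (fun k => (ρ.M (γ k)).adjugate) atTop (𝓝 1) := by
    have h2 := ((continuous_id.matrix_adjugate).tendsto (1 : Matrix I I F)).comp h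
    simp only [id, Matrix.adjugate_one] at h2
    exact h2
  have h4 := (h1.inv₀ one_ne_zero).smul h3
  rw [inv_one, one_smul] at h4
  refine h4.congr fun k => ?_
  have h6 : ρ.M (γ k) * ρ.M (γ k)⁻¹ = 1 := by
    rw [← map_mul, mul_inv_cancel, map_one]
  have h5 : ρ.M (γ k)⁻¹ = (ρ.M (γ k))⁻¹ := (Matrix.inv_eq_right_inv h6).symm
  rw [h5, Matrix.inv_def, Ring.inverse_eq_inv']

variable (l : ℕ) [Fact l.Prime] {Γ : Type} [Group Γ] [TopologicalSpace Γ] [IsTopologicalGroup Γ]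
  [CompactSpace Γ]

theorem tLmt (h1 : S_FrB) : S_Lmt l (Γ := Γ) := by
  intro I _ _ ρ U r p hU A hA
  obtain ⟨n, hn, γ, hγ, hlim⟩ := Zt_open ρ l (norm_l l) (l_ne l) U hA
  have hM := Zt_tendsto_one ρ l (norm_l l) (l_ne l) hlim
  have hM' := Lmt_inv ρ hM
  have key : ∀ Y : Matrix I I ℚ_[l],
      Tendsto (fun k => ((l : ℚ_[l]) ^ k)⁻¹ • (ρ.M (γ k) * Y * ρ.M (γ k)⁻¹ - Y)) atTop
        (𝓝 (((n : ℚ_[l]) • A) * Y - Y * ((n : ℚ_[l]) • A))) := by
    intro Y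
    have h2 := ((hlim.mul_const Y).sub (hlim.const_mul Y)).mul hM'
    rw [mul_one] at h2
    refine h2.congr fun k => ?_
    have h3 : ρ.M (γ k) * ρ.M (γ k)⁻¹ = 1 := by
      rw [← map_mul, mul_inv_cancel, map_one]
    have h4 : (ρ.M (γ k) - 1) * Y - Y * (ρ.M (γ k) - 1) = ρ.M (γ k) * Y - Y * ρ.M (γ k) := by
      rw [Matrix.sub_mul, Matrix.mul_sub, Matrix.one_mul, Matrix.mul_one]
      abel
    rw [Matrix.smul_mul, Matrix.mul_smul, ← smul_sub, Matrix.smul_mul, h4, Matrix.sub_mul,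
      Matrix.mul_assoc Y, h3, Matrix.mul_one]
  have hZ : Tendsto (fun k => ((l : ℚ_[l]) ^ k)⁻¹ •
      mx ((cj (ρ.M (γ k)) (ρ.M (γ k)⁻¹) - 1) * p)) atTop
        (𝓝 ((n : ℚ_[l]) • mx (ad A * p))) := by
    refine tendsto_pi_nhds.2 fun x => tendsto_pi_nhds.2 fun y => ?_
    have h4 := key (p (Matrix.single y.1 y.2 1))
    have h5 := (tendsto_pi_nhds.1 ((tendsto_pi_nhds.1 h4) x.1)) x.2
    have h6 : (((n : ℚ_[l]) • A) * p (Matrix.single y.1 y.2 1) -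
        p (Matrix.single y.1 y.2 1) * ((n : ℚ_[l]) • A)) x.1 x.2 =
        ((n : ℚ_[l]) • mx (ad A * p)) x y := by
      rw [Matrix.smul_mul, Matrix.mul_smul, ← smul_sub]
      rfl
    rw [← h6]
    refine h5.congr fun k => ?_
    rfl
  have h7 : ∀ k : ℕ, fr r (((l : ℚ_[l]) ^ k)⁻¹ •
      mx ((cj (ρ.M (γ k)) (ρ.M (γ k)⁻¹) - 1) * p)) = 0 := by
    intro k
    have hlk : (l : ℚ_[l]) ^ k ≠ 0 := pow_ne_zero _ (l_ne l)
    refine h1.2.1 _ _ r ((l : ℚ_[l]) ^ k) _ hlk ?_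
    rw [smul_smul, mul_inv_cancel₀ hlk, one_smul]
    exact hU _ (hγ k)
  have h8 := ((h1.2.2 ℚ_[l] (I × I) r).tendsto _).comp hZ
  have h9 : fr r ((n : ℚ_[l]) • mx (ad A * p)) = 0 := by
    refine tendsto_nhds_unique h8 ?_
    refine tendsto_const_nhds.congr fun k => ?_
    exact (h7 k).symm
  exact h1.2.1 _ _ r _ _ (Nat.cast_ne_zero.2 hn.ne') h9

end Pool.Agent.Lib.MP_640417_ag.Mt
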