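import Pool.Agent.Lib.MP_640417_ag.Mt.Defs

/-!
# MP_640417_ag, Mt, part A: linear algebra over a field `K`

Every statement `S_X` is a `Prop`; the module `X` proves it (`theorem tX : S_X`), with the statements
named in the docstring as hypotheses (`theorem tX (h1 : S_Y) ... : S_X`). `K` is any algebraically
closed field of characteristic zero. NOTATION: `L_z` is `ev (cj S S') L z` or `ev (ad A) L z`, `[X, Y] = X * Y - Y * X`,
`tr` the trace.
-/

set_option autoImplicit false

namespace Pool.Agent.Lib.MP_640417_ag.Mt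

open Matrix Module

/-- MODULE `Mul` (80 lines). Eigenspaces multiply, the trace is zero on `L_z` for `z ≠ 1` (`z ≠ 0` for `ad`), the value `0`
is not an eigenvalue of `cj S S'`.
PROOF. 1. Let `T = cj S S'`, so `T (X * Y) = T X * T Y` (`S' * S = 1`). Claim: for all `p q`, if `(T - z) ^ p X = 0` and
`(T - w) ^ q Y = 0`, then `(T - z w) ^ (p + q) (X * Y) = 0`. Induction on `p + q`: `p = 0` or `q = 0` gives `X = 0` or
`Y = 0`. Otherwise `(T - z w) (X * Y) = ((T - z) X) * (T Y) + z • (X * ((T - w) Y))`; `(T - z) X` is killed by the power `p - 1`,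
`T Y` by `q` (`T` commutes with `T - w`), `(T - w) Y` by `q - 1`.
2. `tr (T Z) = tr Z` (`tr (S Z S') = tr (S' S Z)`), so `tr ((T - z) Z) = (1 - z) tr Z`, `(1 - z) ^ p tr Z = 0`.
3. For `D = ad A`: `D (X * Y) = D X * Y + X * D Y`, `(D - (z + w)) (X * Y) = ((D - z) X) * Y + X * ((D - w) Y)`, same induction; `tr (D Z) = 0`,
so `(- z) ^ p tr Z = 0`.
4. `T` is injective (`S' * (S * X * S') * S = X`), so `T ^ p X = 0` gives `X = 0`. -/
def S_Mul : Prop := ∀ (K : Type) [Field K] (I : Type) [Fintype I] [DecidableEq I],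
  (∀ (S S' : Matrix I I K), S' * S = 1 →
    (∀ (z w : K) (X Y : Matrix I I K), X ∈ Module.End.maxGenEigenspace (cj S S') z →
      Y ∈ Module.End.maxGenEigenspace (cj S S') w →
      X * Y ∈ Module.End.maxGenEigenspace (cj S S') (z * w)) ∧
    (∀ (z : K) (X : Matrix I I K), z ≠ 1 → X ∈ Module.End.maxGenEigenspace (cj S S') z →
      X.trace = 0) ∧
    ∀ X ∈ Module.End.maxGenEigenspace (cj S S') 0, X = 0) ∧
  ∀ A : Matrix I I K,
    (∀ (z w : K) (X Y : Matrix I I K), X ∈ Module.End.maxGenEigenspace (ad A) z →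
      Y ∈ Module.End.maxGenEigenspace (ad A) w →
      X * Y ∈ Module.End.maxGenEigenspace (ad A) (z + w)) ∧
    ∀ (z : K) (X : Matrix I I K), z ≠ 0 → X ∈ Module.End.maxGenEigenspace (ad A) z → X.trace = 0

/-- MODULE `Grd` (40 lines). A stable subspace is the sum of its parts in the generalized eigenspaces.
PROOF. Mathlib: `Submodule.eq_iSup_inf_genEigenspace` (or `inf_iSup_genEigenspace`) with `Module.End.iSup_maxGenEigenspace_eq_top`. -/
def S_Grd : Prop := ∀ (K : Type) [Field K] [IsAlgClosed K] (W : Type) [AddCommGroup W] [Module K W]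
  [FiniteDimensional K W] (T : Module.End K W) (L : Submodule K W), (∀ x ∈ L, T x ∈ L) →
  L ≤ ⨆ z, L ⊓ T.maxGenEigenspace z

/-- MODULE `Rt` (150 to 200 lines; uses `S_Mul`, `S_Grd`). The root data.
PROOF. `T = cj S S'`, `L_z = ev T L z`, `t = L_1`, `Φ = {z | z ≠ 1 ∧ L_z ≠ ⊥}`. For `z ∈ Φ` the space `L_z` has dimension
one: choose `X z ≠ 0` in it (`L_z = K X z`); for `z ∉ Φ` any value. `α z P`: for `P ∈ t`
`[P, X z] ∈ L_z` (`S_Mul`: products `1 * z`, `z * 1`; `Lie`), choose the coefficient. `tc`: `good`. `At`, `AH`: `A ∈ H ≤ L`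
and `T A = A` (`S A S' = A S S' = A`). `one` by definition, `zero`: `S_Mul`. `gen`: `S_Grd` and induction on the supremum
(`Submodule.iSup_induction`): parts in `L_1` go to `t`, parts in `L_z`, `z ∈ Φ`, are multiples of `X z`, the others are 0. `αA`: if `α z A = 0` then
`[A, X z] = 0`, by `inj` `S X z = X z S`, `T (X z) = X z`, so `X z ∈ L_1 ⊓ L_z = ⊥` (`Module.End.disjoint_genEigenspace` for `z ≠ 1`),
contradiction. `inv`, `tr`: by `Ln` there is `Y ∈ L` with `tr (X z * Y) ≠ 0`; by `S_Grd` (and induction on the supremum)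
there is `w` and `Y' ∈ L_w` with `tr (X z * Y') ≠ 0`; `X z * Y' ∈ maxGenEigenspace (z * w)`, so `z w = 1` (`S_Mul`), `w = z⁻¹`, `w ≠ 1`,
`L_w ≠ ⊥`: `z⁻¹ ∈ Φ`, `Y' = c • X z⁻¹`, so `tr (X z * X z⁻¹) ≠ 0`. `br`: `[X z, X z⁻¹] ∈ L_1`. `br1`: `[X z, X w] ∈ L_(z w)`,
which is the line of `X (z w)`. `br2`: `L_(z w) = ⊥`. `Hgen`: as `gen` for `H` (it is `T`-stable: `SH`): a nonzero element of
`H ⊓ maxGenEigenspace z` is a nonzero multiple of `X z`, so `X z ∈ H`. `Hinv`: as `inv`, with `Hn` and `Y' ∈ H`. -/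
def S_Rt : Prop := ∀ (K : Type) [Field K] [IsAlgClosed K] [CharZero K] (I : Type) [Fintype I]
  [DecidableEq I] (L H : Submodule K (Matrix I I K)) (S S' A : Matrix I I K), Core L H S S' A →
  ∃ (t : Submodule K (Matrix I I K)) (Φ : Set K) (X : K → Matrix I I K)
    (α : K → Matrix I I K → K), Roots L H t Φ X α A

/-- MODULE `Tnl` (50 lines). A matrix all of whose powers have trace zero is nilpotent; a commutator `[X, Y]` which
commutes with `X` is nilpotent.
PROOF. 1. Over `K` algebraically closed of characteristic 0: for every polynomial `p` without constant term `tr (p (T)) = 0`.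
`K^I` is the sum of the generalized eigenspaces of `T`; if `c ≠ 0` were an eigenvalue, take `p` with `p (T) =` the projection to the generalized
`c`-eigenspace (or: a polynomial `p = x q`, `p = 1` modulo `(x - c)^n`, `p = 0` modulo the other factors of the characteristic polynomial), its trace is a positive
integer. Other ways: Newton's identities (`Matrix.charpoly` from traces of powers), or `Matrix.trace_pow_eq_sum..` of the roots of the
characteristic polynomial and a Vandermonde argument, or a lemma in Mathlib or in our library (search for `IsNilpotent` and `trace`, `trace_zero` in `Ctl/Plus.lean`).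
2. `T = [X, Y]`, `T X = X T`: `T ^ (k + 1) = T ^ k [X, Y] = [X, T ^ k Y]`, trace zero. -/
def S_Tnl : Prop := ∀ (K : Type) [Field K] [IsAlgClosed K] [CharZero K] (I : Type) [Fintype I]
  [DecidableEq I],
  (∀ T : Matrix I I K, (∀ k : ℕ, (T ^ (k + 1)).trace = 0) → IsNilpotent T) ∧
  ∀ X Y T : Matrix I I K, T = X * Y - Y * X → T * X = X * T → IsNilpotent T

/-- MODULE `Lin` (50 lines). The weights are linear on `t`.
PROOF. `X z ≠ 0` and `wt`: compare coefficients. For `α z⁻¹ = - α z`: `0 = tr ([P, X z * X z⁻¹])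
= tr ([P, X z] * X z⁻¹) + tr (X z * [P, X z⁻¹]) = (α z P + α z⁻¹ P) tr (X z * X z⁻¹)`. For products: if
`c • X (z * w) = [X z, X w] ≠ 0`, apply `[P, ·]` (Jacobi identity). -/
def S_Lin : Prop := ∀ (K : Type) [Field K] [CharZero K] (I : Type) [Fintype I]
  [DecidableEq I] (L H t : Submodule K (Matrix I I K)) (Φ : Set K) (X : K → Matrix I I K)
  (α : K → Matrix I I K → K) (A : Matrix I I K), Roots L H t Φ X α A →
  (∀ z ∈ Φ, ∀ P ∈ t, ∀ Q ∈ t, α z (P + Q) = α z P + α z Q) ∧
  (∀ z ∈ Φ, ∀ (c : K), ∀ P ∈ t, α z (c • P) = c * α z P) ∧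
  (∀ z ∈ Φ, ∀ P ∈ t, α z⁻¹ P = - α z P) ∧
  ∀ z ∈ Φ, ∀ w ∈ Φ, z * w ∈ Φ → X z * X w - X w * X z ≠ 0 → ∀ P ∈ t,
    α (z * w) P = α z P + α w P

/-- MODULE `Slt` (50 lines; uses `S_Tnl`). The coroots: `α z ([X z, X z⁻¹]) ≠ 0`.
PROOF. Let `T = [X z, X z⁻¹] ∈ t` (`br`) and suppose `α z T = 0`: `T` commutes with `X z` (`wt`), so it is nilpotent (`S_Tnl` with
`X = X z`, `Y = X z⁻¹`). `A` and `T` commute (`tc`, `At`), so `A * T` is nilpotent and `tr (A T) = 0`. But
`tr (A [X z, X z⁻¹]) = tr ([A, X z] X z⁻¹) = α z A * tr (X z X z⁻¹) ≠ 0`. -/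
def S_Slt : Prop := ∀ (K : Type) [Field K] [IsAlgClosed K] [CharZero K] (I : Type) [Fintype I]
  [DecidableEq I] (L H t : Submodule K (Matrix I I K)) (Φ : Set K) (X : K → Matrix I I K)
  (α : K → Matrix I I K → K) (A : Matrix I I K), Roots L H t Φ X α A →
  ∀ z ∈ Φ, α z (bz X z) ≠ 0

/-- MODULE `Int` (90 lines). Integrality, in terms of matrices: `e f h` an `sl2`-triple of matrices, `Z ≠ 0` with `[h, Z] = μ Z`: then `μ`
is an integer, and if it is positive then `[f, Z] ≠ 0`.
PROOF. Mathlib: `IsSl2Triple` in the Lie ring `Module.End K (Matrix I I K)` for `ad h, ad e, ad f` (or in the Lie ring `Matrix I I K` acting on itself by `ad`), `HasPrimitiveVectorWith`,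
`IsSl2Triple.HasPrimitiveVectorWith.exists_nat`. For the last claim: if `[f, Z] = 0` then `Z` is primitive for the triple `(-h, f, e)` (`IsSl2Triple.symm`)
with weight `- μ`, so `- μ` is a natural number. For integrality: apply `ad e` until the next value is zero: `E ^ k Z ≠ 0`,
`E ^ (k + 1) Z = 0` (such `k` exists: the nonzero `E ^ j Z` are eigenvectors of `ad h` for the different eigenvalues `μ + 2 j`,
finite dimension), it is primitive of weight `μ + 2 k = n`, `μ = n - 2 k`. -/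
def S_Int : Prop := ∀ (K : Type) [Field K] [CharZero K] (I : Type) [Fintype I] [DecidableEq I]
  (e f h Z : Matrix I I K) (μ : K), e * f - f * e = h → h * e - e * h = (2 : K) • e →
  h * f - f * h = (-2 : K) • f → Z ≠ 0 → h * Z - Z * h = μ • Z →
  (∃ k : ℤ, μ = k) ∧ ((∃ k : ℕ, μ = k + 1) → f * Z - Z * f ≠ 0)

/-- MODULE `Wtl` (150 lines; uses `S_Lin`). Every root is a sum of roots of `H`.
PROOF. Let `Ψ = {z ∈ Φ | X z ∈ H}` and `Λ` the set of the functions `fun P : t => ∑ i, α (v i) P` for `n : ℕ`, `v : Fin n → K` with values in `Ψ`. It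
contains 0, is closed under addition (`Fin.append`; or use lists or multisets inside the proof), and under negation (`Hinv`, `S_Lin`). For `χ : t → K` let `V_χ = ⨅ P : t, maxGenEigenspace (toLin' P) (χ P)` (a subspace of `I → K`).
Since the elements of `t` commute: `⨆ χ, V_χ = ⊤` and the `V_χ` are independent
(`Module.End.iSup_iInf_maxGenEigenspace_eq_top_of_forall_mapsTo` or `..._of_iSup_maxGenEigenspace_eq_top_of_commute`,
`Module.End.independent_iInf_maxGenEigenspace_of_forall_mapsTo`, `Module.End.iSup_maxGenEigenspace_eq_top`). If `[P, Y] = c Y` then `Y` maps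
`maxGenEigenspace P m` to `maxGenEigenspace P (m + c)` (`(P - (m + c)) Y = Y (P - m)`), so `X z` maps `V_χ` to `V_(χ + α z)`, and `P ∈ t` maps `V_χ` to
itself. Let `w ∈ Φ`. As `X w ≠ 0` there is `χ₀` and `v ∈ V_χ₀` with `X w v ≠ 0`. Let `W` be the sum of the `V_χ` with `χ - χ₀ ∈ Λ`, `W'` the sum
of the others; `IsCompl W W'`. Both are stable under `H` (`Hgen`; for `z ∈ Ψ` `χ - χ₀ ∈ Λ ↔ χ + α z - χ₀ ∈ Λ`). The projection
`P` on `W` along `W'` (a matrix) commutes with all `Y ∈ H`, so with `X w` (the hypothesis). So `X w v = X w P v = P X w v ∈ W`. It is in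
`V_(χ₀ + α w)` and not zero: if `α w ∉ Λ` this would be in `W'`. So `α w ∈ Λ`. -/
def S_Wtl : Prop := ∀ (K : Type) [Field K] [IsAlgClosed K] [CharZero K] (I : Type) [Fintype I]
  [DecidableEq I] (L H t : Submodule K (Matrix I I K)) (Φ : Set K) (X : K → Matrix I I K)
  (α : K → Matrix I I K → K) (A : Matrix I I K), Roots L H t Φ X α A →
  (∀ P : Matrix I I K, (∀ Y ∈ H, P * Y = Y * P) → ∀ Y ∈ L, P * Y = Y * P) →
  ∀ w ∈ Φ, ∃ (n : ℕ) (v : Fin n → K), (∀ i, v i ∈ Φ ∧ X (v i) ∈ H) ∧
    ∀ P ∈ t, α w P = ∑ i, α (v i) P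

/-- MODULE `Ind` (120 lines; uses `S_Lin`, `S_Slt`, `S_Int`, `S_Wtl`). All `X w` are in `H`.
PROOF. For `w ∈ Φ`: `hz X α w ∈ t`, `α w (hz w) = 2` (`S_Lin`, `S_Slt`), `e = X w`, `f = (2 / α w (bz X w)) • X w⁻¹`, `h = hz X α w` satisfy the hypotheses of
`S_Int` (`α w⁻¹ = - α w`). CLAIM: for all `n`, `w ∈ Φ` and `v : Fin n → K` with `v i ∈ Φ`, `X (v i) ∈ H`,
`α w P = ∑ i, α (v i) P` on `t`: `X w ∈ H`. Induction on `n`. `n = 0`: `α w A = 0`, contradiction to `αA`.
`n + 1`: the numbers `α (v i) (hz w)` are integers (`S_Int`, `Z = X (v i)`), their sum is 2, so one of them is `k + 1`, `k : ℕ`. Let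
`z = v i`. By `S_Int` `[X w⁻¹, X z] ≠ 0`. If `z = w` we are done. Otherwise `w⁻¹ z ≠ 1`, by `br2` `w⁻¹ z ∈ Φ`,
by `br1` `[X w⁻¹, X z] = c • X (w⁻¹ z)`, `c ≠ 0`. Let `w' = (w⁻¹ z)⁻¹ ∈ Φ` (`inv`), `w' z = w`. `α w' = - α (w⁻¹ z) = - (α w⁻¹ + α z) = α w - α z` on `t` (`S_Lin`), a sum of
`n` of the `α (v j)` (`j ≠ i`: `Fin.succAbove`). By induction `X w' ∈ H`. `[X z, X w'] ∈ H` (`Hl`), it is `c' • X (z w') = c' • X w`
(`br1`), and `c' ≠ 0` because `tr ([X z, X w'] X w⁻¹) = tr (X w' [X w⁻¹, X z]) = c tr (X w' * X w'⁻¹) ≠ 0`. So `X w ∈ H`. -/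
def S_Ind : Prop := ∀ (K : Type) [Field K] [IsAlgClosed K] [CharZero K] (I : Type) [Fintype I]
  [DecidableEq I] (L H t : Submodule K (Matrix I I K)) (Φ : Set K) (X : K → Matrix I I K)
  (α : K → Matrix I I K → K) (A : Matrix I I K), Roots L H t Φ X α A →
  (∀ P : Matrix I I K, (∀ Y ∈ H, P * Y = Y * P) → ∀ Y ∈ L, P * Y = Y * P) →
  ∀ w ∈ Φ, X w ∈ H

/-- MODULE `Cor` (60 lines; uses `S_Rt`, `S_Ind`). `H` is an ideal of `L`.
PROOF. Take the root data. By `S_Ind` all `X z ∈ H`, `z ∈ Φ`. By `gen` and `Hgen`, linearity (`Submodule.span_induction`): it is enough to take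
`X ∈ t` or `X = X z`, and `Y ∈ t ⊓ H` or `Y = X w`. `X = X z ∈ H`: `Hl`. `X ∈ t`, `Y ∈ t`: zero (`tc`). `X ∈ t`,
`Y = X w`: `α w X • X w ∈ H`. -/
def S_Cor : Prop := ∀ (K : Type) [Field K] [IsAlgClosed K] [CharZero K] (I : Type) [Fintype I]
  [DecidableEq I] (L H : Submodule K (Matrix I I K)) (S S' A : Matrix I I K), Core L H S S' A →
  ∀ X ∈ L, ∀ Y ∈ H, X * Y - Y * X ∈ H

/-! ### Regular elements -/

/-- MODULE `Rnk` (120 lines; uses `S_Mul`, `S_Grd`). The rank of a Lie algebra of matrices with nondegenerate trace form.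
PROOF. `L` as a `LieSubalgebra K (Matrix I I K)` and so a Lie algebra; `r = LieAlgebra.rank K L`. For `b ∈ L`
`LieSubalgebra.engel K ⟨b, _⟩` corresponds to `ev (ad b) L 0` (its carrier is the generalized 0-eigenspace of `LieAlgebra.ad`): equal dimensions, `rank_le_finrank_engel`;
`LieAlgebra.exists_isRegular`, `isRegular_iff_finrank_engel_eq_rank`. If the dimension is `r`: as in the proof of
`LieAlgebra.exists_isCartanSubalgebra_engel_of_finrank_le_card` (Mathlib, CartanExists.lean, last lemmas; copy it) `engel K b` is a Cartan subalgebra, so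
nilpotent. The trace form (`LieModule.traceForm` for the module `I → K`, or the trace of the product of matrices) is nondegenerate on `ev (ad b) L 0`: an element `X` of it
with `tr (X Y) = 0` for `Y` in it has `tr (X Y) = 0` for all `Y ∈ L` (`S_Grd`; `X * Y ∈ maxGenEigenspace (ad b) z` has trace zero for `Y ∈ L_z`, `z ≠ 0`, `S_Mul`), so `X = 0`.
By `LieModule.isLieAbelian_of_ker_traceForm_eq_bot` it is abelian. -/
def S_Rnk : Prop := ∀ (K : Type) [Field K] [IsAlgClosed K] [CharZero K] (I : Type) [Fintype I]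
  [DecidableEq I] (L : Submodule K (Matrix I I K)), Lie L → Nd L →
  ∃ r : ℕ, (∀ b ∈ L, r ≤ finrank K (ev (ad b) L 0)) ∧
    (∀ b ∈ L, finrank K (ev (ad b) L 0) = r → Cm (ev (ad b) L 0)) ∧
    ∃ a ∈ L, finrank K (ev (ad a) L 0) = r

/-- MODULE `Jac` (60 lines). If `h = [X, Y]` and `[h, X] = 2 X`, then `ad h` has only eigenvalues `0, 1, 2, ...` on the centralizer
of `X`.
PROOF. In `Module.End K (Matrix I I K)` let `E = ad X`, `F = ad Y`, `D = ad h`: `[E, F] = D`, `[D, E] = 2 E` (`ad` is a Lie homomorphism). By induction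
`D E^j = E^j (D + 2 j)` and `E^(k+1) F - F E^(k+1) = (k + 1) E^k (D + k)`. CLAIM: if `Z = E^k U`, `E Z = 0`, `D Z = - (n + 1) Z`, then `Z ∈ range (E^(k+1))`: `(k+1) E^k (D + k) U = E^(k+1) F U - F E^(k+1) U = E^(k+1) F U`,
and `E^k (D + k) U = (D - 2 k + k) E^k U = (D - k) Z = - (n + 1 + k) Z`; the number `(k + 1) (n + 1 + k)` is not zero. So `Z ∈ range (E^k)` for
all `k`: by the claim write `Z = E^k U_k` with all `k`. `E` is nilpotent: `[D, E] = 2 E` and characteristic zero (the nonzero `E^j U` ... ; or: `X` is nilpotent because `[h, X] = 2 X`: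
Mathlib has a lemma for `IsNilpotent` from `⁅h, e⁆ = 2 e`, or use `S_Tnl`: `X ^ (k+1) = [h, X ^ (k+1)] / (2 (k + 1))`, trace 0; then `ad X = mulLeft X - mulRight X` is
nilpotent). So `Z = 0`. (Uses `S_Tnl` if wanted.) -/
def S_Jac : Prop := ∀ (K : Type) [Field K] [IsAlgClosed K] [CharZero K] (I : Type) [Fintype I]
  [DecidableEq I] (X Y h Z : Matrix I I K) (n : ℕ), X * Y - Y * X = h →
  h * X - X * h = (2 : K) • X → X * Z = Z * X → h * Z - Z * h = (-((n : K) + 1)) • Z → Z = 0

/-- MODULE `One` (150 to 200 lines; uses `S_Mul`, `S_Grd`, `S_Tnl`, `S_Jac`). The root spaces have dimension one. Let `C = L_0` for `ad a`, commutative,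
`L_χ = L ⊓ ⨅ H ∈ C, maxGenEigenspace (ad H) (χ H)`.
PROOF. Let `χ` be given, `χ H₀ ≠ 0`, `H₀ ∈ C`, `L_χ ≠ ⊥`. 0. `C` is closed under commutators trivially and acts on `L`; the operators `ad H`, `H ∈ C`, commute
(`C` is commutative). The space `L` is the sum of the `L_ψ`, `ψ : C → K` (`Module.End.iSup_iInf_maxGenEigenspace_eq_top_of_forall_mapsTo` for the restrictions, or for
`Matrix I I K` and then `S_Grd`-like); `L_ψ * L_ψ' ⊆` the weight space of `ψ + ψ'` in `Matrix I I K` (`S_Mul`), trace zero if `ψ + ψ' ≠ 0` on `C`. The zero weight space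
`L_0` is in `L ⊓ maxGenEigenspace (ad a) 0 = C`. 1. There is `X ∈ L_χ`, `X ≠ 0`, with `[H, X] = χ H X` for all `H ∈ C` (the commuting nilpotent operators
`ad H - χ H` on `L_χ` have a common kernel; or take `X ∈ L_χ` in the (nonzero) intersection by induction on a finite generating set, see `exists_common` in `Glob/Nil.lean` for the idea). So `χ` is linear on `C`. 2. For `Y ∈ L_(-χ)`: `[X, Y] ∈ L_0 = C` and for `H ∈ C`
`tr (H [X, Y]) = tr ([H, X] Y) = χ H tr (X Y)`. The trace form is nondegenerate on `C` (as in `Rnk`) and pairs `L_χ` and `L_(-χ)` perfectly (`Nd L`). Take `Y ∈ L_(-χ)` with `tr (X Y) = 1` and `T = [X, Y]`, so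
`tr (H T) = χ H`. If `χ T = 0`: `T` commutes with `X`, so it is nilpotent (`S_Tnl`), commutes with `H ∈ C`, so `tr (H T) = 0` for all `H`, contradiction for `H₀`. 3. Let
`h = (2 / χ T) T`, `Y₁ = (2 / χ T) Y`: `[X, Y₁] = h`, `[h, X] = 2 X`, `χ h = 2`. If `Z ∈ L_(-χ)` and `[X, Z] = 0` then `Z = 0`: the subspace `N` of such `Z` is stable under `ad h`
(`[X, [h, Z]] = - [[h, X], Z] = 0`), and `ad h + 2` is nilpotent on it; if `N ≠ ⊥` there is `Z ≠ 0` in `N` with `[h, Z] = - 2 Z`, contradiction to `S_Jac` (`n = 1`).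
4. For `Z ∈ L_(-χ)` `[X, Z]` and `tr (X Z) T` have the same traces with all `H ∈ C` (2.), so they are equal. So `ad X` maps `L_(-χ)` injectively to `K T`:
`dim L_(-χ) ≤ 1`. By the perfect pairing `dim L_χ ≤ 1`. -/
def S_One : Prop := ∀ (K : Type) [Field K] [IsAlgClosed K] [CharZero K] (I : Type) [Fintype I]
  [DecidableEq I] (L : Submodule K (Matrix I I K)), Lie L → Nd L →
  ∀ a ∈ L, Cm (ev (ad a) L 0) → ∀ χ : Matrix I I K → K,
    (∃ H ∈ ev (ad a) L 0, χ H ≠ 0) →
    finrank K (L ⊓ ⨅ H ∈ ev (ad a) L 0, Module.End.maxGenEigenspace (ad H) (χ H) :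
      Submodule K (Matrix I I K)) ≤ 1

/-- MODULE `Gnr` (120 lines; uses `S_One`). A generic element of `C` has simple nonzero eigenvalues on `L`.
PROOF. `C = ev (ad a) L 0`, commutative. `L` is the direct sum of the finitely many nonzero weight spaces `L_χ`, `χ : C → K`, as in `One`; each nonzero weight `χ`
is linear on `C` (a common eigenvector; or: `χ` is determined by traces, `χ (H) * finrank L_χ` is the trace of `ad H` on `L_χ`, which is linear in `H`, characteristic zero). For different weights `χ ≠ ψ` the set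
`{H ∈ C | χ H = ψ H}` is a proper subspace of `C`; finitely many proper subspaces do not cover `C` (`K` is infinite; Mathlib: `Subspace.biUnion_ne_univ_of_top_notMem` or
`Module.Dual.exists_forall_mem_ne_zero_of_forall_exists`). Take `a' ∈ C` outside. Then `L_z` for `ad a'` is the sum of the `L_χ` with `χ a' = z`, at most one; for `z ≠ 0` its dimension is at most one by `S_One` (`χ a' ≠ 0`), for `z = 0` it is the zero weight
space, which is `C` (contained in `L ⊓ maxGenEigenspace (ad a) 0 = C`; and contains `C` because `C` is commutative). -/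
def S_Gnr : Prop := ∀ (K : Type) [Field K] [IsAlgClosed K] [CharZero K] (I : Type) [Fintype I]
  [DecidableEq I] (L : Submodule K (Matrix I I K)), Lie L → Nd L →
  ∀ a ∈ L, Cm (ev (ad a) L 0) → ∃ a' ∈ L, ev (ad a') L 0 = ev (ad a) L 0 ∧
    ∀ z : K, z ≠ 0 → finrank K (ev (ad a') L z) ≤ 1

/-! ### The polynomial function -/

/-- MODULE `FrA` (80 lines). What `fr r Z ≠ 0` says, over an algebraically closed field.
PROOF. Let `T = toLin' Z`, `p = Z.charpoly`, `g = x p'`, so `fr r Z` is the coefficient `r` of the characteristic polynomial of `g (T)`. (1) `fr r Z ≠ 0`: then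
`finrank (maxGenEigenspace (g T) 0) = natTrailingDegree (charpoly) ≤ r` (`LinearMap.finrank_maxGenEigenspace_zero_eq`). For every root `c` of `g` `maxGenEigenspace T c ≤
maxGenEigenspace (g T) 0` (`g (T) = (T - c) q (T)`, commuting). `c = 0` is a root of `g`. With `r ≤ finrank (maxGenEigenspace T 0)` we get equality. If `c ≠ 0` has
`finrank (maxGenEigenspace T c) ≥ 2`, then `c` is a root of `p` of multiplicity at least two (`LinearMap.finrank_maxGenEigenspace_eq` or similar, `rootMultiplicity`), so `p' (c) = 0`, and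
`maxGenEigenspace T 0 ⊔ maxGenEigenspace T c` (disjoint) is in `maxGenEigenspace (g T) 0`: dimension `≥ r + 2 > r`, contradiction. (2) Conversely: `maxGenEigenspace (g T) 0`
is the sum of the `maxGenEigenspace T c` with `g (c) = 0` (`g T` is `S_Grd`-stable; on `maxGenEigenspace T c` the operator `g T - g (c)` is nilpotent); for an eigenvalue `c ≠ 0` the multiplicity is one, so `p' (c) ≠ 0`, `g (c) ≠ 0`. So it is `maxGenEigenspace T 0`, dimension `r`: the
trailing degree of the characteristic polynomial of `g T` is `r`, its coefficient is not zero. -/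
def S_FrA : Prop := ∀ (K : Type) [Field K] [IsAlgClosed K] [CharZero K] (κ : Type) [Fintype κ]
  [DecidableEq κ] (r : ℕ) (Z : Matrix κ κ K),
  (fr r Z ≠ 0 → r ≤ finrank K (Module.End.maxGenEigenspace (Matrix.toLin' Z) 0) →
    finrank K (Module.End.maxGenEigenspace (Matrix.toLin' Z) 0) = r ∧
    ∀ z : K, z ≠ 0 → finrank K (Module.End.maxGenEigenspace (Matrix.toLin' Z) z) ≤ 1) ∧
  (finrank K (Module.End.maxGenEigenspace (Matrix.toLin' Z) 0) = r →
    (∀ z : K, z ≠ 0 → finrank K (Module.End.maxGenEigenspace (Matrix.toLin' Z) z) ≤ 1) →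
    fr r Z ≠ 0)

/-- MODULE `FrB` (60 lines). `fr` is compatible with ring homomorphisms, homogeneous, continuous.
PROOF. 1. `Matrix.charpoly_map`, `Polynomial.derivative_map`, `aeval` and `map` (see `f1_map'` in `Ty/OpenK.lean`). 2. `charpoly (c Z) = ∑ c^(d-k) a_k x^k`, so `(c Z) * (charpoly (c Z))' (c Z) = c ^ d • (Z * (charpoly Z)' (Z))`
(compare: over a field, `c ≠ 0`: `charpoly (c • Z) = scaleRoots`: `Matrix.charpoly_smul`? or `c^d * p (x / c)`), then `coeff_smul_zero` in `Glob/Cont.lean`. 3. As `f1_cont` and `coeff_cont` in `Glob/Cont.lean`. -/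
def S_FrB : Prop :=
  (∀ (R R' κ : Type) [CommRing R] [CommRing R'] [Fintype κ] [DecidableEq κ] (φ : R →+* R')
    (r : ℕ) (Z : Matrix κ κ R), fr r (Z.map φ) = φ (fr r Z)) ∧
  (∀ (F κ : Type) [Field F] [Fintype κ] [DecidableEq κ] (r : ℕ) (c : F) (Z : Matrix κ κ F),
    c ≠ 0 → fr r (c • Z) = 0 → fr r Z = 0) ∧
  ∀ (F κ : Type) [NontriviallyNormedField F] [Fintype κ] [DecidableEq κ] (r : ℕ),
    Continuous fun Z : Matrix κ κ F => fr r Z

end Pool.Agent.Lib.MP_640417_ag.Mt
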