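import Pool.Agent.Lib.MP_640417_ag.Mt.SpecA
import Pool.Agent.Lib.MP_640417_ag.Ctl.Kill
import Pool.Agent.Lib.MP_640417_ag.Gen4.Main

/-!
# MP_640417_ag, Mt, part B: change of fields, Galois representations

Notation as in part A. `F = ℚ_[l]`; `norm_l`, `l_ne` (Gen4/Main.lean) give `‖(l : ℚ_[l])‖ < 1` and `(l : ℚ_[l]) ≠ 0` for the lemmas of `Glob`, `Ctl`, `Zo`.
THE FUNCTIONAL TRICK (for `S_Bc`, `S_Pwc`): for an `F`-linear map `λ : K → F` let `Λ P = P.map λ : Matrix I I F` for `P : Matrix I I K`. Then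
`Λ (P * Y.map (algebraMap F K)) = Λ P * Y`, `Λ (Y.map _ * P) = Y * Λ P`, `Λ (c • Y.map _) = λ c • Y`, `tr (Λ P) = λ (tr P)`, and `P = 0` if `Λ P = 0` for all `λ`
(`Module.forall_dual_apply_eq_zero_iff`); there is `λ` with `λ 1 = 1`.
-/

set_option autoImplicit false

namespace Pool.Agent.Lib.MP_640417_ag.Mt

open Matrix Module TensorProduct MeasureTheory Pool.Agent.Lib.MP_640417_ag
  Pool.Agent.Lib.MP_640417_ag.Frob Pool.Agent.Lib.MP_640417_ag.Glob
  Pool.Agent.Lib.MP_640417_ag.Four Pool.Agent.Lib.MP_640417_ag.Ctl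
  Pool.Agent.Lib.MP_640417_ag.Dfr Pool.Agent.Lib.MP_640417_ag.Ty Pool.Agent.Lib.MP_640417_ag.Zo
  Pool.Agent.Lib.MP_640417_ag.Gen4

/-- MODULE `Bc` (120 lines). Extension of scalars.
PROOF. The functional trick; everything is easy. 1. With `λ 1 = 1`: `Λ (gK K g) ⊆ g`, `Λ (X.map _) = X`. 2. `P ∈ gK K g` orthogonal to `gK K g`: `Λ P ∈ g`,
`tr (Λ P * Y) = λ (tr (P * Y.map _)) = 0` for `Y ∈ g`, so `Λ P = 0` for all `λ`. 3., 4. `Submodule.span_induction`. 5. `Λ P` commutes with `h`, so with `g`;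
`Λ (P * X.map _ - X.map _ * P) = 0` for all `λ`; then span induction in `X`. 6. The same. -/
def S_Bc : Prop := ∀ (F K : Type) [Field F] [Field K] [Algebra F K] (I : Type) [Fintype I]
  [DecidableEq I],
  (∀ (g : Submodule F (Matrix I I F)) (X : Matrix I I F),
    X.map (algebraMap F K) ∈ gK K g → X ∈ g) ∧
  (∀ g : Submodule F (Matrix I I F), Nd g → Nd (gK K g)) ∧
  (∀ g : Submodule F (Matrix I I F), Lie g → Lie (gK K g)) ∧
  (∀ (g : Submodule F (Matrix I I F)) (S S' : Matrix I I F), (∀ X ∈ g, S * X * S' ∈ g) →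
    ∀ X ∈ gK K g, S.map (algebraMap F K) * X * S'.map (algebraMap F K) ∈ gK K g) ∧
  (∀ g h : Submodule F (Matrix I I F),
    (∀ P : Matrix I I F, (∀ Y ∈ h, P * Y = Y * P) → ∀ X ∈ g, P * X = X * P) →
    ∀ P : Matrix I I K, (∀ Y ∈ gK K h, P * Y = Y * P) → ∀ X ∈ gK K g, P * X = X * P) ∧
  ∀ A S : Matrix I I F, (∀ P : Matrix I I F, A * P = P * A → S * P = P * S) →
    ∀ P : Matrix I I K, A.map (algebraMap F K) * P = P * A.map (algebraMap F K) →
      S.map (algebraMap F K) * P = P * S.map (algebraMap F K)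

/-- MODULE `Gz` (70 lines). Adding central elements which commute with `S`.
PROOF. `T = cj S S'`, `T z = z` for `z ∈ Z`. Let `X = Y + c`, `Y ∈ L`, `c ∈ Z`, `(T - z) ^ n X = 0`. `z ≠ 1`: `(T - z) ^ n Y + (1 - z) ^ n c = 0`, so
`c ∈ L` (`L` is `T`-stable), `X ∈ L`: `ev T (L ⊔ Z) z ≤ ev T L z`. `z = 1`: `c ∈ maxGenEigenspace 1`, so `Y ∈ ev T L 1`; two such elements `Y + c`, `Y' + c'` commute. -/
def S_Gz : Prop := ∀ (K : Type) [Field K] (I : Type) [Fintype I] [DecidableEq I]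
  (L Z : Submodule K (Matrix I I K)) (S S' : Matrix I I K), S * S' = 1 → S' * S = 1 →
  (∀ X ∈ L, S * X * S' ∈ L) → (∀ z ∈ Z, S * z = z * S) → (∀ z ∈ Z, ∀ X ∈ L, z * X = X * z) →
  Cm Z → GoodL L S S' → GoodL (L ⊔ Z) S S'

/-- MODULE `Gn0` (40 lines). The generalized `0`-eigenspace of the logarithm is in the generalized `1`-eigenspace.
PROOF. `D = ad A`, `T = cj S S'` commute (`S A = A S`, also `S' A = A S'`). `D X = 0` gives `T X = X`. If `D ^ (k + 1) X = 0`: `D (D ^ k X) = 0`, so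
`(T - 1) D ^ k X = 0 = D ^ k ((T - 1) X)`. Induction on `k`: `(T - 1) X ∈ maxGenEigenspace T 1`, so `X` too. -/
def S_Gn0 : Prop := ∀ (K : Type) [Field K] (I : Type) [Fintype I] [DecidableEq I]
  (A S S' : Matrix I I K), S * S' = 1 → S' * S = 1 → S * A = A * S →
  (∀ P : Matrix I I K, A * P = P * A → S * P = P * S) →
  Module.End.maxGenEigenspace (ad A) 0 ≤ Module.End.maxGenEigenspace (cj S S') 1

/-- MODULE `Rsd` (130 lines). An operator on `L` and its matrix on all matrices.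
PROOF. The linear equivalence `Matrix I I K ≃ (I × I → K)`, `X ↦ fun x => X x.1 x.2`, takes `T * p` to `toLin' (mx (T * p))`. `p` is a projection onto `L`:
`Matrix I I K = L ⊕ ker p`. `T * p` agrees with `T` on `L` (which is `T`-stable) and is zero on `ker p`. For `X = Y + k`, `Y ∈ L`, `k ∈ ker p`: `(T p - z) ^ n X =
(T - z) ^ n Y + (-z) ^ n k` (first summand in `L`, second in `ker p`). So for `z ≠ 0` the generalized eigenspace is `ev T L z`, for `z = 0` it is `ev T L 0 ⊕ ker p`. -/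
def S_Rsd : Prop := ∀ (K : Type) [Field K] (I : Type) [Fintype I] [DecidableEq I]
  (L : Submodule K (Matrix I I K)) (p T : Module.End K (Matrix I I K)), (∀ Y, p Y ∈ L) →
  (∀ X ∈ L, p X = X) → (∀ X ∈ L, T X ∈ L) →
  (∀ z : K, z ≠ 0 → finrank K (Module.End.maxGenEigenspace (Matrix.toLin' (mx (T * p))) z) =
    finrank K (ev T L z)) ∧
  finrank K (Module.End.maxGenEigenspace (Matrix.toLin' (mx (T * p))) 0) =
    finrank K (ev T L 0) + (Fintype.card I * Fintype.card I - finrank K L)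

/-- MODULE `Ext` (70 lines). Extension of scalars for endomorphisms of `Matrix I I F`.
PROOF. `pK Y = ∑ i j, Y i j • (p (single i j 1)).map (algebraMap F K)`. -/
def S_Ext : Prop := ∀ (F K : Type) [Field F] [Field K] [Algebra F K] (I : Type) [Fintype I]
  [DecidableEq I],
  (∀ (g : Submodule F (Matrix I I F)) (p : Module.End F (Matrix I I F)), (∀ Y, p Y ∈ g) →
    (∀ X ∈ g, p X = X) → ∃ pK : Module.End K (Matrix I I K), (∀ Y, pK Y ∈ gK K g) ∧
      (∀ X ∈ gK K g, pK X = X) ∧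
      ∀ X : Matrix I I F, pK (X.map (algebraMap F K)) = (p X).map (algebraMap F K)) ∧
  ∀ (T : Module.End F (Matrix I I F)) (TK : Module.End K (Matrix I I K)),
    (∀ X : Matrix I I F, TK (X.map (algebraMap F K)) = (T X).map (algebraMap F K)) →
    mx TK = (mx T).map (algebraMap F K)

/-- MODULE `Spn` (60 lines). A polynomial identity on an additive set extends to the span over a bigger field.
PROOF. If not, the polynomial `G = fr r (∑ i, X_i • (f (A i)).map C)` in `MvPolynomial (Fin n) F` (a matrix over `MvPolynomial`, `fr_map`) is not zero (its image in `MvPolynomial (Fin n) K` has a nonzero value at `c`), so by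
`Glob.exists_nat` there is `t : Fin n → ℕ` with `G (t) ≠ 0`, but `∑ t i • A i ∈ Z`. See `gen_span` in `Glob/GenZ.lean` (the same argument). Uses `S_FrB` (first part). -/
def S_Spn : Prop := ∀ (F K : Type) [Field F] [CharZero F] [Field K] [Algebra F K] (I κ : Type)
  [Fintype I] [DecidableEq I] [Fintype κ] [DecidableEq κ] (r : ℕ)
  (f : Matrix I I F →ₗ[F] Matrix κ κ F) (Z : Set (Matrix I I F)), (0 : Matrix I I F) ∈ Z →
  (∀ A ∈ Z, ∀ B ∈ Z, A + B ∈ Z) → (∀ A ∈ Z, fr r (f A) = 0) →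
  ∀ (n : ℕ) (A : Fin n → Matrix I I F) (c : Fin n → K), (∀ i, A i ∈ Z) →
    fr r (∑ i, c i • (f (A i)).map (algebraMap F K)) = 0

section analytic

variable (l : ℕ) [Fact l.Prime]

/-- MODULE `Pwc` (60 lines). Near the identity, what commutes with a power commutes with the element.
PROOF. By the functional trick we may take `b : Matrix κ κ ℚ_[l]`. Let `A = lim l^(-k) (a^(l^k) - 1)` (`Glob.exists_log`). `Glob.lim_pow` for the sequence `a^(l^j)`, `k j = j`, `N j = N`: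
`(N l^j)⁻¹ (a^(l^j N) - 1) → A`. These commute with `b`, so `A b = b A`, and `Glob.inj_comm`. -/
def S_Pwc : Prop := ∀ (K : Type) [Field K] [Algebra ℚ_[l] K] (κ : Type) [Fintype κ]
  [DecidableEq κ] (a : Matrix κ κ ℚ_[l]), Sm (‖(l : ℚ_[l])‖ ^ 2) (a - 1) → ∀ N : ℕ, 0 < N →
  ∀ b : Matrix κ κ K,
    a.map (algebraMap ℚ_[l] K) ^ N * b = b * a.map (algebraMap ℚ_[l] K) ^ N →
    a.map (algebraMap ℚ_[l] K) * b = b * a.map (algebraMap ℚ_[l] K)

/-- MODULE `Gdp` (150 lines; uses `S_Pwc`). Near the identity `GoodL` passes to powers.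
PROOF. Let `T = cj S S'` over `K`, so `cj (S ^ N) (S' ^ N) = T ^ N`. 1. If `μ ν` are eigenvalues of `T` with `μ ^ N = ν ^ N`, then `μ = ν`: the matrix `a` of `T` on `I × I → K` has the entries
`S i i' * S' j' j`, it comes from a matrix over `ℚ_[l]` with `Sm (‖l‖ ^ 2) (a - 1)` (`a - 1 = (S - 1) ⊗ S' + 1 ⊗ (S' - 1)`, all entries of `S'` have norm at most 1). Let `a v = μ v`, `w a = ν w` (row vector; `aᵀ` has the same
eigenvalues), `v, w ≠ 0`, `b = v wᵀ ≠ 0`: `a ^ N b = μ ^ N b = ν ^ N b = b a ^ N`, so `a b = b a` by `S_Pwc`, `μ b = ν b`. 2. So for every eigenvalue `μ` of `T`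
`maxGenEigenspace (T ^ N) (μ ^ N) = maxGenEigenspace T μ` (`⊇`: `T ^ N - μ ^ N = (T - μ) q (T)`; `⊆`: `Matrix I I K` is the sum of the `maxGenEigenspace T ν ≤ maxGenEigenspace (T ^ N) (ν ^ N)`, the
`ν ^ N` are different, and the generalized eigenspaces of `T ^ N` are independent), and `maxGenEigenspace (T ^ N) z = ⊥` for the other `z`. 3. `1` is an eigenvalue of `T` (`T 1 = 1`, if `I` is nonempty; if `I` is empty everything is trivial), so
`ev (T ^ N) L 1 = ev T L 1`; for `z ≠ 1` `ev (T ^ N) L z` is `⊥` or `ev T L μ` with `μ ^ N = z`, `μ ≠ 1`. -/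
def S_Gdp : Prop := ∀ (K : Type) [Field K] [IsAlgClosed K] [Algebra ℚ_[l] K] (I : Type)
  [Fintype I] [DecidableEq I] (S S' : Matrix I I ℚ_[l]), S * S' = 1 → S' * S = 1 →
  Sm (‖(l : ℚ_[l])‖ ^ 2) (S - 1) → Sm (‖(l : ℚ_[l])‖ ^ 2) (S' - 1) →
  ∀ L : Submodule K (Matrix I I K),
    GoodL L (S.map (algebraMap ℚ_[l] K)) (S'.map (algebraMap ℚ_[l] K)) → ∀ N : ℕ, 0 < N →
    GoodL L (S.map (algebraMap ℚ_[l] K) ^ N) (S'.map (algebraMap ℚ_[l] K) ^ N)

variable {Γ : Type} [Group Γ] [TopologicalSpace Γ] [IsTopologicalGroup Γ] [CompactSpace Γ]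

/-- MODULE `Rgl` (90 lines). The function `fr` of the conjugation is regular (`Zo.IsReg`).
PROOF. `Zo.isReg_entry` for the entries of `ρ.M γ`; `ρ.M γ⁻¹ = (ρ.μ γ)⁻¹ • (J⁻¹ * (ρ.M γ)ᵀ * J)` (`ρ.eq`), `Zo.isReg_mu_inv`; `isReg_add`, `isReg_mul`, `isReg_const`, sums. The entry `(x, y)` of the matrix is `∑ a b, M x.1 a * P a b * M' b x.2 - P x.1 x.2`,
`P = p (single y.1 y.2 1)`. For `B γ` with regular entries: `aeval (B γ) (derivative (charpoly (B γ)))
= ∑ k < n, (k + 1) * coeff (k + 1) • (B γ) ^ k` has regular entries (`isReg_coeff`), then `isReg_coeff` again. -/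
def S_Rgl : Prop := ∀ (I : Type) [Fintype I] [DecidableEq I] [Nonempty I] (ρ : MRep Γ ℚ_[l] I)
  (U : Set Γ), (∀ γ ∈ U, Sm (‖(l : ℚ_[l])‖ ^ 2) (ρ.M γ - 1)) → (∀ γ ∈ U, γ⁻¹ ∈ U) →
  ∀ (r : ℕ) (p : Module.End ℚ_[l] (Matrix I I ℚ_[l])),
    IsReg ρ U fun γ => fr r (mx ((cj (ρ.M γ) (ρ.M γ⁻¹) - 1) * p))

/-- MODULE `Lmt` (90 lines; uses `S_FrB`). If `fr` vanishes on an open subgroup, it vanishes on the tangent vectors.
PROOF. `A ∈ ρ.Zt l`: by `Glob.Zt_open` there are `n > 0` and `γ k ∈ U` with `l^(-k) (M (γ k) - 1) → n A`; `M (γ k) → 1` (`Zt_tendsto_one`), `M (γ k)⁻¹ → 1` (`(M (γ k))⁻¹` is continuous, or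
`Sm`-estimates as in `Glob/Tan.lean`, `tendsto_inv_one`). `l^(-k) (M Y M' - Y) = l^(-k) (M Y - Y M) M' → (n A) Y - Y (n A)` for `Y : Matrix I I F`.
So the matrices `l^(-k) • mx ((cj (M (γ k)) (M (γ k)⁻¹) - 1) * p)` converge to `mx (ad (n A) * p) = n • mx (ad A * p)` (entrywise). `fr` of them is `0` (`S_FrB`: homogeneous, from `fr (l^k • (l^(-k) • Z)) = 0`), so by continuity `fr r (n • mx (ad A * p)) = 0`, and
again by homogeneity (`S_FrB`). -/
def S_Lmt : Prop := ∀ (I : Type) [Fintype I] [DecidableEq I] (ρ : MRep Γ ℚ_[l] I)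
  (U : OpenSubgroup Γ) (r : ℕ) (p : Module.End ℚ_[l] (Matrix I I ℚ_[l])),
  (∀ γ ∈ U, fr r (mx ((cj (ρ.M γ) (ρ.M γ⁻¹) - 1) * p)) = 0) →
  ∀ A ∈ ρ.Zt l, fr r (mx (ad A * p)) = 0

/-- MODULE `Gnd` (150 lines). The trace form is nondegenerate on `g` if `g` contains the central skew elements.
PROOF. The proof of `Hp_nondeg` (Ctl/Plus.lean) works for every `g` with `HL ρ l g` and `Zm ρ ≤ g` in place of `Hp ρ l` (`Hp_ad`: `HL.ad`, `Hp_lie`: `HL.lie`; `hvec`: `X ∈ g` commutes with the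
projection `e` to `W` (`exists_e`: private, copy it; `hsemi`), which is in the commutant, so `X` preserves `W`; step 4 uses `ρ.Hh l ≤ g`; step 5: `HL.com`; `Zm ρ ≤ g` at the end). Copy it. -/
def S_Gnd : Prop := ∀ (I : Type) [Fintype I] [DecidableEq I] (ρ : MRep Γ ℚ_[l] I), ρ.Semi →
  ∀ g : Submodule ℚ_[l] (Matrix I I ℚ_[l]), HL ρ l g → Zm ρ ≤ g → Nd g

/-- MODULE `Idl` (70 lines). PROOF. Step 3 of the proof of `mem_Hp_of_Q` in Ctl/Kill.lean (copy it). -/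
def S_Idl : Prop := ∀ (I : Type) [Fintype I] [DecidableEq I] (ρ : MRep Γ ℚ_[l] I), ρ.Semi →
  ∀ X ∈ spJ ρ.J, (∀ b, ρ.InC b → X * b = b * X) → (∀ Y ∈ Hp ρ l, X * Y - Y * X ∈ Hp ρ l) →
  X ∈ Hp ρ l

/-- MODULE `Kap` (80 lines). The canonical class of codimension two on the fourth power.
PROOF. Step 2 of the proof of `mem_Hp_of_Q` and the proof of `mem_Hp` (Ctl/Kill.lean): the projection `p` onto `Hp` (`exists_proj`, `Hp_nondeg`), `x = emb (tQ ρ.J p)`: `tate_Q`, `der_of_comm`, and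
`comm_of_der` for the last property (`p Y = Y` for `Y ∈ Hp`). -/
def S_Kap : Prop := ∀ (I : Type) [Fintype I] [DecidableEq I] (ρ : MRep Γ ℚ_[l] I), ρ.Semi →
  ∃ x : ExteriorAlgebra ℚ_[l] (Fin 4 → I → ℚ_[l]), TateClass (ρ.act 4) ρ.μ⁻¹ 2 x ∧
    (∀ z ∈ Zm ρ, Dv 4 (Matrix.toLin' z) x = 0) ∧
    ∀ X ∈ spJ ρ.J, Dv 4 (Matrix.toLin' X) x = 0 → ∀ Y ∈ Hp ρ l, X * Y - Y * X ∈ Hp ρ l

/-- MODULE `Hlz` (60 lines). Adding the central skew elements to `g`; the logarithms; `Hp` is `HL`.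
PROOF. 1. `z ∈ Zm` is in the commutant and commutes with the commutant, so it commutes with `g` (`HL.com`), and `Zm` is commutative; stable under conjugation: `Hp_ad` shows how. 2. `Hp_lie`, `Hp_ad`, `Hh_comm_C`. 3. `exists_U0` (Glob/Open.lean) and
`Comm_key` (Glob/Comm.lean): take `b = X` for `M γ * X = X * M γ`; the last property: `Hh_comm_C`. -/
def S_Hlz : Prop := ∀ (I : Type) [Fintype I] [DecidableEq I] (ρ : MRep Γ ℚ_[l] I), ρ.Semi →
  (∀ g : Submodule ℚ_[l] (Matrix I I ℚ_[l]), HL ρ l g → HL ρ l (g ⊔ Zm ρ)) ∧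
  HL ρ l (Hp ρ l) ∧ (∀ z ∈ Zm ρ, ∀ z' ∈ Zm ρ, z * z' = z' * z) ∧
  ∃ U : OpenSubgroup Γ, ∀ γ ∈ U, Sm (‖(l : ℚ_[l])‖ ^ 2) (ρ.M γ - 1) ∧
    Sm (‖(l : ℚ_[l])‖ ^ 2) (ρ.M γ⁻¹ - 1) ∧
    (∀ b, ρ.InC b → ρ.M γ * b = b * ρ.M γ) ∧
    ∃ A ∈ ρ.Hh l, ρ.M γ * A = A * ρ.M γ ∧
      ∀ P : Matrix I I ℚ_[l], A * P = P * A → ρ.M γ * P = P * ρ.M γ

/-- MODULE `Cd1` (80 lines). A skew map which kills the Tate classes of codimension one on the second power commutes with the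
commutant.
PROOF. Let `b` commute with `M γ`, `γ ∈ U`, and `B = b * J⁻¹`. The class `x = ∑ i j, B i j • (ι (single 0 (single i 1)) * ι (single 1 (single j 1)))` in the exterior algebra of `Fin 2 → I → F` is a Tate class of codimension one: `M` maps it to the class of
`M B Mᵀ = b M J⁻¹ Mᵀ = μ b J⁻¹` (compare `act4_tQ` in Glob/Class.lean, `emb_map` in Glob/Emb.lean). The derivation `X` maps it to the class of `X B + B Xᵀ` (compare `Dv_prod` in Ctl/DerE.lean), and `X B + B Xᵀ = X b J⁻¹ + b J⁻¹ Xᵀ = (X b - b X) J⁻¹`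
(`J⁻¹ Xᵀ = - X J⁻¹`). The class of a matrix is zero only if the matrix is zero (compare `emb_inj`: an alternating form with the value `B i j`). -/
def S_Cd1 : Prop := ∀ (I : Type) [Fintype I] [DecidableEq I] (ρ : MRep Γ ℚ_[l] I),
  ∀ X ∈ spJ ρ.J, (∀ x, TateClass (ρ.act 2) ρ.μ⁻¹ 1 x → Dv 2 (Matrix.toLin' X) x = 0) →
  ∀ b, ρ.InC b → X * b = b * X

/-- MODULE `Tg` (120 lines). `GoodFor` in coordinates.
PROOF. The algebra isomorphism `Φ : End_K (K ⊗ V) ≃ₐ Matrix I I K` (`LinearMap.toMatrixAlgEquiv` for the basis `e.baseChange K` of `K ⊗ V`) takes `X.baseChange K` to `(toMatrix e e X).map (algebraMap F K)` (`LinearMap.toMatrix_baseChange`), so the span of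
`g` to `gK K g'`, and conjugation by `γ ^ N` to `cj`. -/
def S_Tg : Prop := ∀ (V : Type) [AddCommGroup V] [Module ℚ_[l] V] [FiniteDimensional ℚ_[l] V]
  (I : Type) [Fintype I] [DecidableEq I] (ρ : H1Rep Γ ℚ_[l] V) (e : Basis I ℚ_[l] V)
  (R : MRep Γ ℚ_[l] I), (∀ γ, R.M γ = LinearMap.toMatrix e e (ρ.T γ)) →
  ∀ (g : Set (Module.End ℚ_[l] V)) (g' : Submodule ℚ_[l] (Matrix I I ℚ_[l])),
    (∀ X, X ∈ g ↔ LinearMap.toMatrix e e X ∈ g') → ∀ γ, GoodFor ρ g γ ↔ GoodM R g' γ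

/-- MODULE `Kn` (100 lines; uses `S_Cd1`). The Lie algebra of the maps which kill the known classes has the property `HL`.
PROOF. `g' = {Y | toLin e e Y ∈ LieOf ρ Z}` is a submodule (`kills_iff` in Dfr/Stmt.lean; `Dv` is linear in the map and `Dv [X, Y] = [Dv X, Dv Y]`, Four/Der.lean). `lie`, `skew` (`coord_skew`) clear. `ad`: `Dv (T X T⁻¹) = map T ∘ Dv X ∘ map T⁻¹` and `Z` is stable.
`hh`: `hh_tate` (Ctl/Tang.lean) with `coord_dv` (Ctl/CoordD.lean): a known class is a Tate class `x`; `y` as in `coord_dv` is killed by `Hh`. `com`: `S_Cd1` with `coord_dv'` (`n = 2`, `i = 1`; `Known.one`). -/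
def S_Kn : Prop := ∀ (V : Type) [AddCommGroup V] [Module ℚ_[l] V] [FiniteDimensional ℚ_[l] V]
  (I : Type) [Fintype I] [DecidableEq I] (ρ : H1Rep Γ ℚ_[l] V) (e : Basis I ℚ_[l] V)
  (R : MRep Γ ℚ_[l] I), (∀ γ, R.M γ = LinearMap.toMatrix e e (ρ.T γ)) → R.μ = ρ.χ⁻¹ →
  (∀ i j, R.J i j = ρ.form (e i) (e j)) →
  ∀ Z : (n i : ℕ) → Submodule ℚ_[l] (ExteriorAlgebra ℚ_[l] (Fin n → V)), Known ρ Z →
    ∃ g' : Submodule ℚ_[l] (Matrix I I ℚ_[l]),
      (∀ X, X ∈ LieOf ρ Z ↔ LinearMap.toMatrix e e X ∈ g') ∧ HL R l g'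

end analytic

end Pool.Agent.Lib.MP_640417_ag.Mt
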