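import Pool.Agent.Lib.MP_640417_ag.Mt.DefsC
import Pool.Agent.Lib.MP_640417_ag.Mt.SpecB
import Pool.Agent.Lib.MP_640417_ag.Wn.Ball
import Pool.Agent.Lib.MP_640417_ag.T3.Final

/-!
# MP_640417_ag, Mt, part C: determinants and the center

`K = AlgebraicClosure ℚ_[l]` in the analytic statements, `form_K = ρ.form.baseChange K`. `RelM.Adj` (Dfr/Rel.lean) is the relation between an endomorphism and
its adjoint, with `Adj.unique`, `Adj.mul`, `Adj.trace`, `RelM.exists_adj`, `RelM.trace_idem`, `RelM.det_mul'`. The condition `hfull` (the commutant commutes with all of `Γ`) holds for the restriction of `ρ` to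
the open subgroup `U` of `exists_U0 ρ`; see `T3/Final.lean`, `near_free`, and `T3/NoEx.lean`, `hasSys_of_noIII`, for how to use it (`comK_resU`, `topGroup_U`, `compact_U`, `semi_res`).
-/

set_option autoImplicit false

namespace Pool.Agent.Lib.MP_640417_ag.Mt

open Matrix Module TensorProduct MeasureTheory Pool.Agent.Lib.MP_640417_ag
  Pool.Agent.Lib.MP_640417_ag.Frob Pool.Agent.Lib.MP_640417_ag.Glob
  Pool.Agent.Lib.MP_640417_ag.Four Pool.Agent.Lib.MP_640417_ag.Ctl
  Pool.Agent.Lib.MP_640417_ag.Dfr Pool.Agent.Lib.MP_640417_ag.Ty Pool.Agent.Lib.MP_640417_ag.Zo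
  Pool.Agent.Lib.MP_640417_ag.Gen4 Pool.Agent.Lib.MP_640417_ag.Lef Pool.Agent.Lib.MP_640417_ag.Wn
  Pool.Agent.Lib.MP_640417_ag.T3

/-! ### Algebra -/

/-- MODULE `Wl` (copy, then 30 lines). A relation gives a Tate class on which all skew maps act by the relation between traces.
PROOF. Copy the proof of `exists_weil` (Dfr/Rel.lean) up to the last part; it does not use `hne` before. The class `x` of `exists_top` has
`Dv n z x = (∑ t, tr (q t * z)) • x` if `z` commutes with the `q t`. Let `z` be skew and commute with the `p j`. Its adjoint is `-z`, so `z` commutes with the adjoint `p' j` of `p j`, and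
`tr (p' j * z) = tr (-(z * p j)) = - tr (p j * z)` (`Adj.trace` for the product `z * p j` with the adjoint `p' j * (-z)`). So `σ j * tr (q j * z) = s j * tr (p j * z)` in both cases, then `sum_fin`. -/
def S_Wl : Prop := ∀ (K V : Type) [Field K] [CharZero K] [AddCommGroup V] [Module K V]
  [FiniteDimensional K V] (form : LinearMap.BilinForm K V) (C : Subalgebra K (Module.End K V))
  (Γ : Type) [Group Γ] [TopologicalSpace Γ] (T : Γ →* Module.End K V) (χ : Γ →* Kˣ),
  (∀ x, form x x = 0) → (∀ x, (∀ y, form x y = 0) → x = 0) →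
  (∀ γ x y, form (T γ x) (T γ y) = ((χ γ)⁻¹ : Kˣ).val * form x y) →
  ∀ (k : ℕ) (p : Fin k → Module.End K V) (s : Fin k → ℤ), CenRel form C p s →
  ∀ U : OpenSubgroup Γ, (∀ j, ∀ γ ∈ U, p j * T γ = T γ * p j) →
  (∀ γ ∈ U, detProd p s (T γ) = 1) →
  ∃ (n i : ℕ) (x : ExteriorAlgebra K (Fin n → V)), x ≠ 0 ∧
    TateClass (fun γ => (T γ).compLeft (Fin n)) χ i x ∧
    ∀ z : Module.End K V, Skew form z → (∀ j, z * p j = p j * z) →
      Dv n z x = (∑ j, (s j : K) * LinearMap.trace K V (p j * z)) • x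

/-- MODULE `Csy` (150 lines). The primitive central idempotents.
PROOF. Let `Z` be the commutative subalgebra of the `z ∈ C` which commute with `C`. It is reduced: if `z ^ 2 = 0`, `z d z = z` with `d ∈ C` (`Reg`), then `z = z ^ 2 d = 0`. So `Z` is a reduced finite `K`-algebra and `K` is algebraically closed:
`IsArtinianRing.equivPi`, the quotients by the maximal ideals are `K`; `ε j` corresponds to `Pi.single j 1`. (Or: choose a family of nonzero orthogonal idempotents of `Z` with sum 1 and with the largest number of members, which is at most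
`dim V`; if `z ε j` is not a multiple of `ε j` for some `z ∈ Z`, its minimal polynomial on the range of `ε j` has two different roots (`Z` is reduced), which gives a splitting of `ε j`.) This gives `mem, cen, ne, idem, orth, sum, all`.
`st`: the adjoint `a'` of `a = ε j` is in `C` (`AdjC`, `Adj.unique`) and central (take adjoints of `a c' = c' a`), an idempotent, so `a' = ∑ t i • ε i` with `t i = 0` or `1`, say `∑ i ∈ S, ε i`. The adjoint of this is `a = ∑ i ∈ S, (ε i)'`, the `(ε i)'` are nonzero and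
orthogonal, and each is a sum of some `ε m`; only one `ε m = a` occurs, so `S` has exactly one element `st j`. `inv`: the adjoint of the adjoint is `a` (the form is alternating). -/
def S_Csy : Prop := ∀ (K V : Type) [Field K] [IsAlgClosed K] [CharZero K] [AddCommGroup V]
  [Module K V] [FiniteDimensional K V] (form : LinearMap.BilinForm K V)
  (C : Subalgebra K (Module.End K V)), (∀ x, form x x = 0) →
  (∀ x, (∀ y, form x y = 0) → x = 0) → Reg C → AdjC form C →
  ∃ (N : ℕ) (st : Fin N → Fin N) (ε : Fin N → Module.End K V), CSys form C N st ε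

/-- MODULE `CnA` (150 lines). The central skew elements, algebraic part.
PROOF. `d j` = dimension of the range of `ε j`, positive (`ne`). A basis `e` of `V` indexed by `Σ j, Fin (d j)` with `e (j, _)` in the range of `ε j` (`DirectSum.IsInternal.collectedBasis` or the like). A central `a ∈ C` is `∑ c j • ε j` (`all`), so it is diagonal: `a (e (j, _)) = c j • e (j, _)`, `tr (ε j * a) = c j * d j`
(`trace_idem`), and `c (st j) = - c j` if `a` is skew (the adjoint of `∑ c j • ε j` is `∑ c (st j) • ε j`; multiply by `ε j ≠ 0`). `d (st j) = d j` (`Adj.trace`, `trace_idem`). Let `t j` be the numbers for `z`. Apply `Dv_kills` (Dfr/Diag.lean) with the index set `A`, `X a = a`, `G = z`. Let `m` be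
given and `M j = ∑ k, m (j, k)`; so `∑ M j * c j = 0` for all `a ∈ A`. Let `s j = (∏ i ≠ j, d i) * (M j - M (st j))`, so `s j * d j = D * (M j - M (st j))`, `D = ∏ d i ≠ 0`, `s (st j) = - s j`, and `∑ s j • ε j` is skew. For `a ∈ A`: `∑ s j * tr (ε j * a) = D * ∑ (M j - M (st j)) * c j = 2 D ∑ M j * c j = 0`
(reindex with `st`). So the hypothesis gives `0 = ∑ s j * tr (ε j * z) = 2 D ∑ M j * t j`, hence `∑ m v * t v.1 = 0`. -/
def S_CnA : Prop := ∀ (K V : Type) [Field K] [CharZero K] [AddCommGroup V] [Module K V]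
  [FiniteDimensional K V] (form : LinearMap.BilinForm K V) (C : Subalgebra K (Module.End K V))
  (N : ℕ) (st : Fin N → Fin N) (ε : Fin N → Module.End K V),
  (∀ x, form x x = 0) → (∀ x, (∀ y, form x y = 0) → x = 0) → CSys form C N st ε →
  ∀ (A : Set (Module.End K V)) (z : Module.End K V),
  (∀ a ∈ A, a ∈ C ∧ (∀ c ∈ C, c * a = a * c) ∧ Skew form a) →
  (z ∈ C ∧ (∀ c ∈ C, c * z = z * c) ∧ Skew form z) →
  (∀ s : Fin N → ℤ, Skew form (∑ j, (s j : K) • ε j) →
    (∀ a ∈ A, ∑ j, (s j : K) * LinearMap.trace K V (ε j * a) = 0) →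
    ∑ j, (s j : K) * LinearMap.trace K V (ε j * z) = 0) →
  ∀ (n i : ℕ) (x : ExteriorAlgebra K (Fin n → V)), x ∈ ⋀[K]^i (Fin n → V) →
    (∀ a ∈ A, Dv n a x = 0) → Dv n z x = 0

/-- MODULE `Fm` (100 lines). Every relation is a relation between the primitive central idempotents.
PROOF. Copy `exists_goodT` with `det_sum`, `det_ne0`, `exists_fin` (Wn/Fam.lean). In `exists_fin`: `p = ∑ t i • ε i` (`all`), `p * p = p` gives `t i = 0` or `1`. -/
def S_Fm : Prop := ∀ (K V : Type) [Field K] [CharZero K] [AddCommGroup V] [Module K V]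
  [FiniteDimensional K V] (form : LinearMap.BilinForm K V) (C : Subalgebra K (Module.End K V))
  (N : ℕ) (st : Fin N → Fin N) (ε : Fin N → Module.End K V), CSys form C N st ε →
  ∀ (k : ℕ) (p : Fin k → Module.End K V) (s : Fin k → ℤ), CenRel form C p s →
    ∃ t : Fin N → ℤ, ∑ i, (t i : K) • ε i = ∑ j, (s j : K) • p j ∧
      ∀ g : Module.End K V, (∀ c ∈ C, c * g = g * c) → IsUnit g →
        detProd ε t g = detProd p s g

/-- MODULE `El` (copy, 100 lines). PROOF. Copy `exists_set` and `elt_trace` (Wn/Elt.lean); `root_iff` gives the first claim for all `n` (`⟨n, hn, _⟩` instead of `⟨1, one_pos, _⟩`). -/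
def S_El : Prop := ∀ (F V : Type) [Field F] [TopologicalSpace F] [CharZero F] [AddCommGroup V]
  [Module F V] [FiniteDimensional F V] (Γ : Type) [Group Γ] [TopologicalSpace Γ]
  (ρ : H1Rep Γ F V), (∀ c, CommF ρ c → ∀ γ, c * ρ.T γ = ρ.T γ * c) →
  ∀ (N : ℕ) (st : Fin N → Fin N)
    (ε : Fin N → Module.End (AlgebraicClosure F) (AlgebraicClosure F ⊗[F] V)),
  CSys (ρ.form.baseChange (AlgebraicClosure F)) (comK ρ) N st ε →
  ∃ n0 M : ℕ, 0 < n0 ∧ ∀ γ, FrobLike ρ γ → ∃ S : Set (Fin N → Fin (M + 1)), ∀ t : Fin N → ℤ,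
    Skew (ρ.form.baseChange (AlgebraicClosure F)) (∑ i, (t i : AlgebraicClosure F) • ε i) →
    (∀ n : ℕ, 0 < n → detProd ε t ((ρ.T γ).baseChange (AlgebraicClosure F)) ^ n = 1 →
      ∀ v ∈ S, ∑ i, t i * ((v i : ℕ) : ℤ) = 0) ∧
    ((∀ v ∈ S, ∑ i, t i * ((v i : ℕ) : ℤ) = 0) →
      detProd ε t ((ρ.T γ).baseChange (AlgebraicClosure F)) ^ n0 = 1)

/-- MODULE `Nl` (copy, 60 lines). A relation which does not hold for `g` holds only on a null set.
PROOF. Copy `null_of_goodT` (Wn/Null.lean); if the kernel is open, `⟨N, ε, t, _, _, ⟨R.ker, ho⟩, _⟩` shows `WeilFor ρ g` (`CenRel` from `CSys`). -/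
def S_Nl : Prop := ∀ (F V : Type) [NontriviallyNormedField F] [CharZero F] [AddCommGroup V]
  [Module F V] [FiniteDimensional F V] (Γ : Type) [Group Γ] [TopologicalSpace Γ]
  [IsTopologicalGroup Γ] [CompactSpace Γ] [MeasurableSpace Γ] [BorelSpace Γ] (ν : Measure Γ)
  [ν.IsHaarMeasure] (ρ : H1Rep Γ F V), (∀ c, CommF ρ c → ∀ γ, c * ρ.T γ = ρ.T γ * c) →
  ∀ (N : ℕ) (st : Fin N → Fin N)
    (ε : Fin N → Module.End (AlgebraicClosure F) (AlgebraicClosure F ⊗[F] V)),
  CSys (ρ.form.baseChange (AlgebraicClosure F)) (comK ρ) N st ε →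
  ∀ g : Set (Module.End F V), ¬ WeilFor ρ g → ∀ t : Fin N → ℤ,
    Skew (ρ.form.baseChange (AlgebraicClosure F)) (∑ i, (t i : AlgebraicClosure F) • ε i) →
    ¬ TrRel g ε t →
    IsOpen {γ | detProd ε t ((ρ.T γ).baseChange (AlgebraicClosure F)) ≠ 1} ∧
      ν {γ | detProd ε t ((ρ.T γ).baseChange (AlgebraicClosure F)) = 1} = 0

/-- MODULE `Bl` (copy, 100 lines; uses `S_Fm`, `S_El`, `S_Nl`). Almost all Frobenius elements have only the relations of `g`.
PROOF. Copy `exists_ball` (Wn/Ball.lean) with `GoodT` replaced by `Skew form_K (∑ t i • ε i) ∧ ¬ TrRel g ε t` (both pass to `n0 * t`). At the end: `γ ∈ O`, `FrobLike ρ γ`, `0 < N`, `k p s` with `CenRel`, `detProd p s (T (γ ^ N)) = 1`, `¬ TrRel g p s`; `S_Fm` gives `t` with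
`detProd ε t (T γ ^ N) = 1`, so `detProd ε t (T γ) ^ N = 1` (`det_mul'` by induction), and `¬ TrRel g ε t` since `∑ t i * tr (ε i * X) = tr ((∑ t i • ε i) * X)`; `S_El` (first claim with `n = N`) and the choice of `τ S` give the contradiction. -/
def S_Bl : Prop := ∀ (F V : Type) [NontriviallyNormedField F] [CharZero F] [AddCommGroup V]
  [Module F V] [FiniteDimensional F V] (Γ : Type) [Group Γ] [TopologicalSpace Γ]
  [IsTopologicalGroup Γ] [CompactSpace Γ] [MeasurableSpace Γ] [BorelSpace Γ] (ν : Measure Γ)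
  [ν.IsHaarMeasure] (ρ : H1Rep Γ F V), (∀ c, CommF ρ c → ∀ γ, c * ρ.T γ = ρ.T γ * c) →
  ∀ (N : ℕ) (st : Fin N → Fin N)
    (ε : Fin N → Module.End (AlgebraicClosure F) (AlgebraicClosure F ⊗[F] V)),
  CSys (ρ.form.baseChange (AlgebraicClosure F)) (comK ρ) N st ε →
  ∀ g : Set (Module.End F V), ¬ WeilFor ρ g →
    ∃ O : Set Γ, IsOpen O ∧ ν Oᶜ = 0 ∧ ∀ γ ∈ O, FrobLike ρ γ → DetFor ρ g γ

/-! ### Galois representations -/

section analytic

variable (l : ℕ) [Fact l.Prime]

variable {Γ : Type} [Group Γ] [TopologicalSpace Γ] [IsTopologicalGroup Γ] [CompactSpace Γ]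

/-- MODULE `Nwl` (80 lines; uses `S_Wl`). If `g` kills all Tate classes there is no relation which does not hold for `g`.
PROOF. Let `k p s U` be as in `WeilFor`. Let `U0` be as in `exists_U0 ρ`; `comK ρ` commutes with `T γ`, `γ ∈ U0` (as in `comK_full`: an element of `comK ρ` is a combination of the `(cp φ c).baseChange`, `cp_comm`). `S_Wl` for `U ⊓ U0` (`TK ρ`, `chK ρ`, `formK_eq ρ` as in `not_weilRel_full`, Dfr/Main.lean) gives `x ≠ 0`.
For `X ∈ g` the map `X.baseChange` is skew (`skew_base`) and commutes with `comK ρ` (as in `cen_K`), so `Dv n (X.baseChange) x = (∑ s j * tr (p j * X.baseChange)) • x`. By `tate_span` `x` is a combination of the `be` of Tate classes, which `X` kills, so (`Dv_be`) the left side is `0`. -/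
def S_Nwl : Prop := ∀ (V : Type) [AddCommGroup V] [Module ℚ_[l] V] [FiniteDimensional ℚ_[l] V]
  (ρ : H1Rep Γ ℚ_[l] V) (g : Set (Module.End ℚ_[l] V)),
  (∀ X ∈ g, ∀ x y, ρ.form (X x) y + ρ.form x (X y) = 0) →
  (∀ X ∈ g, ∀ c, CommF ρ c → X * c = c * X) → KillsAll ρ g → ¬ WeilFor ρ g

/-- MODULE `Spl` (100 lines; uses `S_Tnl`). The Lie algebra of the image is the sum of its center and of its commutators.
PROOF. `D` = span of the `A * B - B * A`, `A B ∈ Hp`; it is the same for `A B ∈ Hh` (`Zm` commutes with `Hp`: `Hh_comm_C`), `D ≤ Hh` (`Hh_lie`). The trace form is nondegenerate on `Hp` (`Hp_nondeg`). Let `X ∈ Hp` be orthogonal to `D`: for `A B ∈ Hp` `tr ((X A - A X) B) = tr (X (A B - B A)) = 0`, and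
`X A - A X ∈ Hp` (`Hp_lie`), so `X A = A X`; so `X` commutes with `Hh`, it is in the commutant (`comm_open`) and commutes with it (`X ∈ Hp`), so `X ∈ Zm`. So `dim Hp ≤ dim D + dim Zm` (the orthogonal complement in `Hp`, e.g. `LinearMap.BilinForm.finrank_orthogonal`, or: rank of the map `Hp → Dual D`, whose kernel is in `Zm`). `D ∩ Zm = 0`: let
`X` be in it; for `b` in the commutant `tr (b (A B - B A)) = 0` for `A B ∈ Hh` (`b` commutes with them), so `tr (b X) = 0`, in particular `tr (X ^ k) = 0` for all `k > 0`, `X` is nilpotent (`S_Tnl`), `X` commutes with `Hp`, so `tr (X A) = 0` for `A ∈ Hp` (`X A` is nilpotent), `X = 0` (`Hp_nondeg`). So `Hp = D + Zm`.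
For `Y ∈ Hh`: `Y = Y' + z`, `z = Y - Y' ∈ Hh ∩ Zm`. -/
def S_Spl : Prop := ∀ (I : Type) [Fintype I] [DecidableEq I] (ρ : MRep Γ ℚ_[l] I), ρ.Semi →
  ∀ Y ∈ ρ.Hh l, ∃ z ∈ ρ.Hh l, z ∈ Zm ρ ∧
    Y - z ∈ Submodule.span ℚ_[l] {D | ∃ A ∈ ρ.Hh l, ∃ B ∈ ρ.Hh l, D = A * B - B * A}

/-- MODULE `Lgr` (150-200 lines). A relation between traces on the tangent vectors gives a relation between determinants on an open subgroup.
PROOF. `K = AlgebraicClosure ℚ_[l]` has a norm (`PadicAlgCl l` is the same type: instances `PadicAlgCl.normedField`, `nontriviallyNormedField`, `isUltrametricDist`, `norm_extends`), so the lemmas of `Glob` on `Sm` hold over `K` too (`F := K`). Let `q = ‖(l : K)‖ < 1`. Choose `C ≥ 1` with `Sm C (p j)` for all `j`, and `r` with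
`q ^ r * C ≤ q ^ 2`, `r ≥ 2`. `U`: the intersection of the given subgroup with `{γ | Sm (q ^ r) (M γ - 1)}` (`Glob.exists_U0`). Let `γ ∈ U`, `a = M γ`, `A ∈ Zt` its logarithm (`Zt_log`), `A k = l^(-k) (a^(l^k) - 1) → A`, `Sm (q ^ r) (A k)` (`Glob.iter`), `δ j = det (p j * a + (1 - p j))`. Then
`δ j ^ (l^k) = det (p j * a^(l^k) + (1 - p j)) = det (1 + l^k • (p j * A k))` and `Sm (q ^ 2) (p j * A k)`. LEMMA 1: if `Sm 1 B` and `‖t‖ ≤ 1` then `‖det (1 + t • B) - 1 - t * tr B‖ ≤ ‖t‖ ^ 2` (`Matrix.det_one_add_smul` over the subring of the elements of norm at most 1). So with `t = l^k`: `l^(-k) (δ j ^ (l^k) - 1) → tr (p j * A)`, and `‖δ j - 1‖ ≤ q ^ 2`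
(`k = 0`: apply LEMMA 1 to `t = l^2`, `B = l^(-2) • p j * A 0`; choose `r` bigger if necessary). LEMMA 2: if `l^(-k) (u^(l^k) - 1) → α`, `l^(-k) (v^(l^k) - 1) → β`, `‖u - 1‖, ‖v - 1‖ ≤ q ^ 2`, then the same for `u * v`, `α + β` and `u⁻¹`, `-α`. So for `u = ∏ δ j ^ s j`: `‖u - 1‖ ≤ q ^ 2`, `l^(-k) (u^(l^k) - 1) → ∑ s j * tr (p j * A) = 0`. LEMMA 3:
then `u = 1`: `inj_comm` for the matrices `a = diag (u, 1)`, `A = 0`, `b = single 0 1 1` of size 2 over `K`. -/
def S_Lgr : Prop := ∀ (I : Type) [Fintype I] [DecidableEq I] (ρ : MRep Γ ℚ_[l] I) (k : ℕ)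
  (p : Fin k → Matrix I I (AlgebraicClosure ℚ_[l])) (s : Fin k → ℤ), (∀ j, p j * p j = p j) →
  (∃ U : OpenSubgroup Γ, ∀ γ ∈ U, ∀ j, p j * (ρ.M γ).map (algebraMap ℚ_[l] _) =
    (ρ.M γ).map (algebraMap ℚ_[l] _) * p j) →
  (∀ A ∈ ρ.Zt l, ∑ j, (s j : AlgebraicClosure ℚ_[l]) *
    (p j * A.map (algebraMap ℚ_[l] _)).trace = 0) →
  ∃ U : OpenSubgroup Γ, ∀ γ ∈ U,
    ∏ j, (p j * (ρ.M γ).map (algebraMap ℚ_[l] _) + (1 - p j)).det ^ s j = 1

/-- MODULE `Cen` (150 lines; uses `S_Csy`, `S_CnA`, `S_Spl l`, `S_Lgr l`). Without relations which do not hold for `g` the central skew elements of `g` kill all Tate classes.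
PROOF. `Reg (comK ρ)`, `AdjC form_K (comK ρ)`: `reg_comK`, `adj_comK` for the restriction to the subgroup of `exists_U0 ρ` (see `hasSys_of_noIII`). `S_Csy` gives `N st ε`. Coordinates `e`, `R` (`exists_coord`, `coord_semi`). Apply `S_CnA` with `A` the set of the `Y.baseChange`, `toMatrix e e Y ∈ Hh R l`, `CentralSkew ρ Y` (`coord_zm`), and
`z.baseChange` (`base_mem`, `cen_K`, `skew_base`), to `be n x` (`tate_be`, `Dv_be`, `be_inj`; `hh_tate` with `coord_dv` for the elements of `A`). The condition: let `s` be given, `Skew (∑ s j • ε j)`, `∑ s j * tr (ε j * a) = 0` for `a ∈ A`. CLAIM: `∑ s j * tr (ε j * X.baseChange) = 0` for `toMatrix X ∈ Zt`. `X = Y + c`, `Y ∈ Hh` (`Zt_Hh`);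
`∑ s j * tr (ε j) = tr (∑ s j • ε j) = 0` (skew, `Adj.trace`); `Y = z' + Y'` by `S_Spl`, `z' ∈ A`, and for `A B ∈ Hh` `tr (ε j * (A * B - B * A)) = 0` because `ε j` commutes with `A` (`Hh_comm_C` and `cen_K`-argument: `A` commutes with all `CommF`, so `A.baseChange` commutes with `comK ρ`). So `S_Lgr` for the matrices of the `ε j` in the basis
`e.baseChange K` (`LinearMap.toMatrixAlgEquiv`, `LinearMap.det_toMatrix`, `LinearMap.toMatrix_baseChange`) gives an open subgroup with `detProd ε s (T γ) = 1`. `CenRel form_K (comK ρ) ε s` from `CSys`. So `¬ WeilFor ρ g` gives `TrRel g ε s`, and `z ∈ g`. -/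
def S_Cen : Prop := ∀ (V : Type) [AddCommGroup V] [Module ℚ_[l] V] [FiniteDimensional ℚ_[l] V]
  (ρ : H1Rep Γ ℚ_[l] V), Semisimple ρ → ∀ g : Set (Module.End ℚ_[l] V), ¬ WeilFor ρ g →
  ∀ z ∈ g, CentralSkew ρ z → ∀ (n i : ℕ) (x : ExteriorAlgebra ℚ_[l] (Fin n → V)),
    TateClass (fun γ => (ρ.T γ).compLeft (Fin n)) ρ.χ i x → Dv n z x = 0

/-- MODULE `Nr` (60 lines; uses `S_Csy`, `S_Bl`). PROOF. Copy `near_free` (T3/Final.lean); `WeilFor (res ρ U) g ↔ WeilFor ρ g` and `DetFor (res ρ U) g γ ↔ DetFor ρ g γ` as `weilRel_res`, `detFree_res` (Dfr/Main.lean). `CSys` from `S_Csy` with `reg_comK`, `adj_comK`, `alt_baseChange`, `nondeg_baseChange`. -/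
def S_Nr : Prop := ∀ (V : Type) [AddCommGroup V] [Module ℚ_[l] V] [FiniteDimensional ℚ_[l] V]
  [MeasurableSpace Γ] [BorelSpace Γ] (ν : Measure Γ) [ν.IsHaarMeasure] (ρ : H1Rep Γ ℚ_[l] V),
  Semisimple ρ → ∀ g : Set (Module.End ℚ_[l] V), ¬ WeilFor ρ g →
    NearOne ν (fun γ => FrobLike ρ γ → DetFor ρ g γ)

/-- MODULE `Zd` (100 lines; uses `S_Cd1 l`). The Tate classes of codimension one are known; the exotic classes.
PROOF. 1. `Known`: span induction; the Tate classes of codimension `i` are closed under sums (intersect the subgroups), multiples, and `ExteriorAlgebra.map ((ρ.T γ).compLeft (Fin n))` (`Γ` acts through conjugate open subgroups; see `inC_conj`). 2. `X ∈ LieOf ρ (DivZ ρ) ↔ Lefschetz ρ X`: `div_killed` (Gen4/DivK.lean; elements of `divisorAlg`) and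
`S_Cd1 l` in coordinates (`exists_coord`, `coord_dv'` for `n = 2`, `i = 1`, `coord_inC`, `coord_skew`; see `S_Kn`). 3. `→`: `noIII_of_noExotic`; a Tate class is in `divisorAlg` and `div_killed`. `←`: `hasSys_of_noIII`, `noExotic_iff_of`; a central skew element is Lefschetz, and `DivCond ρ 4 2` by `div_of_lef_of`. (`kills_iff`.) -/
def S_Zd : Prop := ∀ (V : Type) [AddCommGroup V] [Module ℚ_[l] V] [FiniteDimensional ℚ_[l] V]
  (ρ : H1Rep Γ ℚ_[l] V), Known ρ (DivZ ρ) ∧ (Semisimple ρ → Dense {γ | FrobLike ρ γ} →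
    (NoExotic ρ ↔ NoIII ρ ∧ KillsAll ρ (LieOf ρ (DivZ ρ))))

end analytic

end Pool.Agent.Lib.MP_640417_ag.Mt
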