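import Pool.Agent.Lib.MP_640417_ag.Mt.SpecC

/-!
# MP_640417_ag, Mt, module `Spl`: the Lie algebra of the image is center + commutators
-/

set_option autoImplicit false

namespace Pool.Agent.Lib.MP_640417_ag.Mt

open Matrix Module Pool.Agent.Lib.MP_640417_ag.Glob Pool.Agent.Lib.MP_640417_ag.Ctl
  Pool.Agent.Lib.MP_640417_ag.Gen4

section

variable {F : Type} [NontriviallyNormedField F] {I : Type} [Fintype I] [DecidableEq I]
  {Γ : Type} [Group Γ] [TopologicalSpace Γ]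

private theorem Spl_trace [CharZero F] (ρ : MRep Γ F I) {X : Matrix I I F} (hX : X ∈ spJ ρ.J) :
    X.trace = 0 := by
  have hJ : IsUnit ρ.J.det := isUnit_iff_ne_zero.2 ρ.det
  have h1 : Xᵀ * ρ.J = -(ρ.J * X) := eq_neg_of_add_eq_zero_left (mem_spJ.1 hX)
  have h2 : Xᵀ = -(ρ.J * X * ρ.J⁻¹) := by
    calc Xᵀ = Xᵀ * (ρ.J * ρ.J⁻¹) := by rw [Matrix.mul_nonsing_inv _ hJ, Matrix.mul_one]
      _ = Xᵀ * ρ.J * ρ.J⁻¹ := by rw [Matrix.mul_assoc]
      _ = _ := by rw [h1, Matrix.neg_mul]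
  have h3 : X.trace = -X.trace := by
    calc X.trace = Xᵀ.trace := (Matrix.trace_transpose X).symm
      _ = -(ρ.J * X * ρ.J⁻¹).trace := by rw [h2, Matrix.trace_neg]
      _ = -X.trace := by
        rw [Matrix.mul_assoc, Matrix.trace_mul_comm, Matrix.mul_assoc,
          Matrix.nonsing_inv_mul _ hJ, Matrix.mul_one]
  have h4 : (2 : F) * X.trace = 0 := by linear_combination h3
  exact (mul_eq_zero.1 h4).resolve_left two_ne_zero

private theorem Spl_sand (ρ : MRep Γ F I) {X Y : Matrix I I F} (hX : X ∈ spJ ρ.J)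
    (hY : Y ∈ spJ ρ.J) : X * Y * X ∈ spJ ρ.J := by
  have h1 : Xᵀ * ρ.J = -(ρ.J * X) := eq_neg_of_add_eq_zero_left (mem_spJ.1 hX)
  have h2 : Yᵀ * ρ.J = -(ρ.J * Y) := eq_neg_of_add_eq_zero_left (mem_spJ.1 hY)
  rw [mem_spJ]
  have h3 : (X * Y * X)ᵀ * ρ.J = -(ρ.J * (X * Y * X)) := by
    calc (X * Y * X)ᵀ * ρ.J = Xᵀ * (Yᵀ * (Xᵀ * ρ.J)) := by
          rw [Matrix.transpose_mul, Matrix.transpose_mul]
          simp only [Matrix.mul_assoc]
      _ = -(Xᵀ * (Yᵀ * ρ.J * X)) := by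
          rw [h1, Matrix.mul_neg, Matrix.mul_neg, Matrix.mul_assoc]
      _ = Xᵀ * ρ.J * Y * X := by
          rw [h2, Matrix.neg_mul, Matrix.mul_neg, neg_neg]
          simp only [Matrix.mul_assoc]
      _ = _ := by
          rw [h1, Matrix.neg_mul, Matrix.neg_mul]
          simp only [Matrix.mul_assoc]
  rw [h3, neg_add_cancel]

private theorem Spl_zm_sand (ρ : MRep Γ F I) {X Y : Matrix I I F} (hX : X ∈ Zm ρ)
    (hY : Y ∈ Zm ρ) : X * Y * X ∈ Zm ρ := by
  obtain ⟨⟨U, hU⟩, hX2, hX3⟩ := hX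
  obtain ⟨⟨U', hU'⟩, hY2, hY3⟩ := hY
  refine ⟨⟨U ⊓ U', fun γ hγ => ?_⟩, fun c hc => ?_, Spl_sand ρ hX3 hY3⟩
  · have e1 := hU γ hγ.1
    have e2 := hU' γ hγ.2
    calc ρ.M γ * (X * Y * X) = (ρ.M γ * X) * Y * X := by simp only [Matrix.mul_assoc]
      _ = X * (ρ.M γ * Y) * X := by rw [e1]; simp only [Matrix.mul_assoc]
      _ = X * Y * (ρ.M γ * X) := by rw [e2]; simp only [Matrix.mul_assoc]
      _ = X * Y * X * ρ.M γ := by rw [e1]; simp only [Matrix.mul_assoc]
  · have e1 := hX2 c hc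
    have e2 := hY2 c hc
    calc X * Y * X * c = X * Y * (X * c) := by simp only [Matrix.mul_assoc]
      _ = X * (Y * c) * X := by rw [e1]; simp only [Matrix.mul_assoc]
      _ = (X * c) * Y * X := by rw [e2]; simp only [Matrix.mul_assoc]
      _ = c * (X * Y * X) := by rw [e1]; simp only [Matrix.mul_assoc]

private theorem Spl_odd (ρ : MRep Γ F I) {X : Matrix I I F} (hX : X ∈ Zm ρ) (k : ℕ) :
    X ^ (2 * k + 1) ∈ Zm ρ := by
  induction k with
  | zero => simpa using hX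
  | succ k ih =>
    have h1 : X ^ (2 * (k + 1) + 1) = X * X ^ (2 * k + 1) * X := by
      rw [← pow_succ', ← pow_succ]
      congr 1
    rw [h1]
    exact Spl_zm_sand ρ hX ih

end

variable (l : ℕ) [Fact l.Prime] {Γ : Type} [Group Γ] [TopologicalSpace Γ] [IsTopologicalGroup Γ]
  [CompactSpace Γ]

theorem tSpl (h1 : S_Tnl) : S_Spl l (Γ := Γ) := by
  intro I _ _ ρ hsemi Y hY
  have hl := norm_l l
  have hl0 := l_ne l
  set Dd := Submodule.span ℚ_[l] {D | ∃ A ∈ ρ.Hh l, ∃ B ∈ ρ.Hh l, D = A * B - B * A} with hDd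
  have hHp : ρ.Hh l ≤ Hp ρ l := le_sup_left
  have hZp : Zm ρ ≤ Hp ρ l := le_sup_right
  have hDH : Dd ≤ ρ.Hh l := by
    rw [hDd, Submodule.span_le]
    rintro _ ⟨A, hA, B, hB, rfl⟩
    exact Hh_lie ρ l hl hl0 hA hB
  -- brackets with `Hp`
  have hbr : ∀ A ∈ ρ.Hh l, ∀ B ∈ Hp ρ l, A * B - B * A ∈ Dd := by
    intro A hA B hB
    obtain ⟨B', hB', w, hw, rfl⟩ := Submodule.mem_sup.1 hB
    have h2 : A * w = w * A := Hh_comm_C ρ l hl hl0 hA hw.1
    have h3 : A * (B' + w) - (B' + w) * A = A * B' - B' * A := by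
      rw [Matrix.mul_add, Matrix.add_mul, h2]
      abel
    rw [h3]
    exact Submodule.subset_span ⟨A, hA, B', hB', rfl⟩
  -- the orthogonal complement
  have hperp : ∀ X ∈ Hp ρ l, (∀ Y ∈ Dd ⊔ Zm ρ, (X * Y).trace = 0) → X = 0 := by
    intro X hX h0
    have hXA : ∀ A ∈ ρ.Hh l, A * X = X * A := by
      intro A hA
      have h2 : A * X - X * A = 0 := by
        refine Hp_nondeg ρ l hl hl0 hsemi _ (Hp_lie ρ l hl hl0 (hHp hA) hX) fun B hB => ?_
        have h3 := h0 _ (Submodule.mem_sup_left (hbr A hA B hB))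
        have h4 : ((A * X - X * A) * B).trace = -(X * (A * B - B * A)).trace := by
          rw [Matrix.sub_mul, Matrix.mul_sub, Matrix.trace_sub, Matrix.trace_sub,
            Matrix.mul_assoc A X B, Matrix.trace_mul_comm A, Matrix.mul_assoc X B A,
            Matrix.mul_assoc X A B]
          ring
        rw [h4, h3, neg_zero]
      exact sub_eq_zero.1 h2
    have hXC : ∀ c, ρ.InC c → X * c = c * X := by
      intro c hc
      obtain ⟨a, ha, z, hz, rfl⟩ := Submodule.mem_sup.1 hX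
      rw [Matrix.add_mul, Matrix.mul_add, Hh_comm_C ρ l hl hl0 ha hc, hz.2.1 c hc]
    have hXJ : X ∈ spJ ρ.J := by
      obtain ⟨a, ha, z, hz, rfl⟩ := Submodule.mem_sup.1 hX
      exact Submodule.add_mem _ ha.1 hz.2.2
    have hXZ : X ∈ Zm ρ := by
      obtain ⟨U, hU⟩ := comm_open ρ l hl hl0
      exact ⟨⟨U, hU X hXA⟩, hXC, hXJ⟩
    have htr : ∀ k : ℕ, (X ^ (k + 1)).trace = 0 := by
      intro k
      rcases Nat.even_or_odd' k with ⟨m, rfl | rfl⟩
      · exact Spl_trace ρ (Spl_odd ρ hXZ m).2.2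
      · rw [pow_succ']
        exact h0 _ (Submodule.mem_sup_right (Spl_odd ρ hXZ m))
    have hchar : CharZero (AlgebraicClosure ℚ_[l]) :=
      charZero_of_injective_algebraMap (algebraMap ℚ_[l] (AlgebraicClosure ℚ_[l])).injective
    have hnil : IsNilpotent X := by
      obtain ⟨n, hn⟩ := (h1 (AlgebraicClosure ℚ_[l]) I).1
        (X.map (algebraMap ℚ_[l] (AlgebraicClosure ℚ_[l]))) (fun k => by
          have h5 : ((X ^ (k + 1)).map (algebraMap ℚ_[l] (AlgebraicClosure ℚ_[l]))).trace =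
              algebraMap ℚ_[l] (AlgebraicClosure ℚ_[l]) (X ^ (k + 1)).trace := by
            rw [Matrix.trace, Matrix.trace, map_sum]
            rfl
          rw [← Matrix.map_pow, h5, htr k, map_zero])
      refine ⟨n, ?_⟩
      rw [← Matrix.map_pow] at hn
      ext i j
      have h5 := congrFun (congrFun hn i) j
      rw [Matrix.map_apply, Matrix.zero_apply] at h5
      rw [Matrix.zero_apply]
      exact (map_eq_zero_iff _ (algebraMap ℚ_[l] (AlgebraicClosure ℚ_[l])).injective).1 h5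
    refine Hp_nondeg ρ l hl hl0 hsemi X hX fun A hA => ?_
    have hc : Commute X A := by
      obtain ⟨a, ha, z, hz, rfl⟩ := Submodule.mem_sup.1 hA
      show X * (a + z) = (a + z) * X
      rw [Matrix.mul_add, Matrix.add_mul, hXA a ha, hXC z hz.1]
    exact (Matrix.isNilpotent_trace_of_isNilpotent (hc.isNilpotent_mul_right hnil)).eq_zero
  -- dimension
  have hle : Dd ⊔ Zm ρ ≤ Hp ρ l := sup_le (hDH.trans hHp) hZp
  have hfin : finrank ℚ_[l] (Hp ρ l) ≤ finrank ℚ_[l] (Dd ⊔ Zm ρ : Submodule ℚ_[l] (Matrix I I ℚ_[l])) := by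
    let f : Hp ρ l →ₗ[ℚ_[l]] Module.Dual ℚ_[l]
        (Dd ⊔ Zm ρ : Submodule ℚ_[l] (Matrix I I ℚ_[l])) :=
      LinearMap.mk₂ ℚ_[l] (fun X Y => ((X : Matrix I I ℚ_[l]) * (Y : Matrix I I ℚ_[l])).trace)
        (fun X X' Y => by
          rw [Submodule.coe_add, Matrix.add_mul, Matrix.trace_add])
        (fun c X Y => by
          rw [Submodule.coe_smul, Matrix.smul_mul, Matrix.trace_smul])
        (fun X Y Y' => by
          rw [Submodule.coe_add, Matrix.mul_add, Matrix.trace_add])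
        (fun c X Y => by
          rw [Submodule.coe_smul, Matrix.mul_smul, Matrix.trace_smul])
    have hf : Function.Injective f := by
      rw [← LinearMap.ker_eq_bot, LinearMap.ker_eq_bot']
      intro X hX
      apply Subtype.ext
      refine hperp X X.2 fun Y hY => ?_
      exact congrArg (fun g => g ⟨Y, hY⟩) hX
    have h2 := LinearMap.finrank_le_finrank_of_injective hf
    rwa [Subspace.dual_finrank_eq] at h2
  have heq : Dd ⊔ Zm ρ = Hp ρ l := Submodule.eq_of_le_of_finrank_le hle hfin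
  have hY' : Y ∈ Dd ⊔ Zm ρ := by
    rw [heq]
    exact hHp hY
  obtain ⟨d, hd, z, hz, rfl⟩ := Submodule.mem_sup.1 hY'
  refine ⟨z, ?_, hz, ?_⟩
  · have h2 := Submodule.sub_mem _ hY (hDH hd)
    rwa [add_sub_cancel_left] at h2
  · rwa [add_sub_cancel_right]

end Pool.Agent.Lib.MP_640417_ag.Mt
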