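import Pool.Agent.Lib.MP_640417_ag.Mt.SpecA
import Pool.Agent.Lib.MP_640417_ag.Four.Trace

/-!
# MP_640417_ag, Mt: a matrix all of whose powers have trace zero is nilpotent
-/

set_option autoImplicit false

namespace Pool.Agent.Lib.MP_640417_ag.Mt

open Matrix Module

private theorem Tnl_nil {K : Type} [Field K] [CharZero K] {I : Type} [Fintype I] [DecidableEq I]
    (T : Matrix I I K) (h : ∀ k : ℕ, (T ^ (k + 1)).trace = 0) : IsNilpotent T := by
  have h1 : IsNilpotent (Matrix.toLin' T) := by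
    refine Pool.Agent.Lib.MP_640417_ag.Four.trace_nil _ fun k hk => ?_
    obtain ⟨m, rfl⟩ : ∃ m, k = m + 1 := ⟨k - 1, by omega⟩
    rw [← Matrix.toLin'_pow, Matrix.trace_toLin'_eq]
    exact h m
  obtain ⟨n, hn⟩ := h1
  refine ⟨n, ?_⟩
  apply (Matrix.toLin' : Matrix I I K ≃ₗ[K] _).injective
  rw [Matrix.toLin'_pow, hn, map_zero]

theorem tTnl : S_Tnl := by
  intro K _ _ _ I _ _
  refine ⟨fun T h => Tnl_nil T h, ?_⟩
  intro X Y T hT hc
  refine Tnl_nil T fun k => ?_
  have h1 : T ^ k * X = X * T ^ k := (Commute.pow_left (show Commute T X from hc) k).eq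
  have h2 : T ^ (k + 1) = X * (T ^ k * Y) - (T ^ k * Y) * X := by
    have h3 : T ^ k * T = T ^ k * (X * Y - Y * X) := by rw [← hT]
    rw [pow_succ, h3, Matrix.mul_sub, ← Matrix.mul_assoc, h1, Matrix.mul_assoc,
      ← Matrix.mul_assoc (T ^ k) Y X]
  rw [h2, Matrix.trace_sub, Matrix.trace_mul_comm, sub_self]

end Pool.Agent.Lib.MP_640417_ag.Mt
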